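import Mathlib
import Pool.Agent.W715.HS.OC

/-!
# Closed points of a set with an injective map: abstract version
-/

set_option autoImplicit false
set_option linter.unusedSectionVars false

namespace Pool.Agent.U273.FS

open Finset Pool.Agent.W528.HS

/-- The points of `U` of degree `d` with invariant `i`. -/
def Pts {α : Type} (f : α → α) (U : Set α) (e : α → ℕ) (d i : ℕ) : Set α :=
  {x | x ∈ U ∧ Function.minimalPeriod f x = d ∧ e x = i}

theorem pts_sub {α : Type} {f : α → α} {U : Set α} {e : α → ℕ} {d i n : ℕ} (hdn : d ∣ n) :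
    Pts f U e d i ⊆ {x | f^[n] x = x} := by
  rintro x ⟨_, hd, _⟩
  obtain ⟨c, rfl⟩ := hdn
  have h : Function.IsPeriodicPt f d x := by
    rw [← hd]
    exact Function.isPeriodicPt_minimalPeriod _ _
  exact h.mul_const c

/-- The numbers of closed points of degree `d` with invariant `i`. -/
noncomputable def cl {α : Type} (f : α → α) (U : Set α) (e : α → ℕ) (d i : ℕ) : ℕ :=
  (Pts f U e d i).ncard / d

/-- Sum over the fixed points of an iterate. -/
theorem orb {α : Type} {f : α → α} (hf : Function.Injective f)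
    (hfin : ∀ n, 0 < n → {x | f^[n] x = x}.Finite) (N : ℕ) {U : Set α} (hU : ∀ x ∈ U, f x ∈ U)
    {e : α → ℕ} (he : ∀ x ∈ U, e (f x) = e x) (heN : ∀ x ∈ U, e x < N) {n : ℕ} (hn : 0 < n)
    (S : Finset α) (hS : ∀ x, x ∈ S ↔ x ∈ U ∧ f^[n] x = x) (R : Type) [CommRing R] (μ : R) :
    ∑ x ∈ S, μ ^ (e x * (n / Function.minimalPeriod f x)) = orbSum N μ (cl f U e) n := by
  classical
  have hdvd : ∀ d i, 0 < d → d ∣ (Pts f U e d i).ncard := by
    intro d i hd
    have hfi : (Pts f U e d i).Finite := (hfin d hd).subset (pts_sub dvd_rfl)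
    rw [Set.ncard_eq_toFinset_card _ hfi]
    refine Pool.Agent.W715.HS.OC.dvd_card_of_minimalPeriod f hf d hd _ _ rfl ?_ ?_
    · intro x hx
      rw [Set.Finite.mem_toFinset] at hx ⊢
      obtain ⟨h1, h2, h3⟩ := hx
      refine ⟨hU x h1, ?_, ?_⟩
      · rw [Function.minimalPeriod_apply, h2]
        rw [← Function.minimalPeriod_pos_iff_mem_periodicPts, h2]
        exact hd
      · rw [he x h1, h3]
    · intro x hx
      rw [Set.Finite.mem_toFinset] at hx
      exact hx.2.1
  have hval : ∀ x ∈ S, μ ^ (e x * (n / Function.minimalPeriod f x)) =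
      ∑ d ∈ n.divisors, ∑ i ∈ range N, if x ∈ Pts f U e d i then μ ^ (i * (n / d)) else 0 := by
    intro x hx
    obtain ⟨hxU, hxn⟩ := (hS x).1 hx
    have hper : Function.IsPeriodicPt f n x := hxn
    have hdn : Function.minimalPeriod f x ∣ n := hper.minimalPeriod_dvd
    rw [Finset.sum_eq_single (Function.minimalPeriod f x), Finset.sum_eq_single (e x),
      if_pos ⟨hxU, rfl, rfl⟩]
    · intro j _ hji
      rw [if_neg]
      rintro ⟨_, _, h3⟩
      exact hji h3.symm
    · intro h
      exact absurd (mem_range.mpr (heN x hxU)) h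
    · intro d' _ hd'
      apply Finset.sum_eq_zero
      intro j _
      rw [if_neg]
      rintro ⟨_, h2, _⟩
      exact hd' h2.symm
    · intro h
      exact absurd (Nat.mem_divisors.mpr ⟨hdn, hn.ne'⟩) h
  rw [Finset.sum_congr rfl hval, Finset.sum_comm]
  unfold orbSum
  apply Finset.sum_congr rfl
  intro d hd
  have hdn : d ∣ n := Nat.dvd_of_mem_divisors hd
  have hd0 : 0 < d := Nat.pos_of_mem_divisors hd
  rw [Finset.sum_comm, Finset.mul_sum]
  apply Finset.sum_congr rfl
  intro i _
  have hcount : (S.filter (fun x => x ∈ Pts f U e d i)).card = (Pts f U e d i).ncard := by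
    have h2 : Pts f U e d i = ((S.filter (fun x => x ∈ Pts f U e d i) : Finset α) : Set α) := by
      ext x
      simp only [coe_filter, Set.mem_ofPred_eq]
      exact ⟨fun h => ⟨(hS x).2 ⟨h.1, pts_sub hdn h⟩, h⟩, fun h => h.2⟩
    conv_rhs => rw [h2]
    rw [Set.ncard_coe_finset]
  rw [← Finset.sum_filter, Finset.sum_const, hcount, nsmul_eq_mul, ← mul_assoc,
    ← Nat.cast_mul, cl, Nat.mul_div_cancel' (hdvd d i hd0)]

end Pool.Agent.U273.FS
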