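import Mathlib
import Pool.Agent.U273.FS.Orb

/-!
# Sums of values of the quadratic character over the points of a variety
-/

set_option autoImplicit false
set_option linter.unusedSectionVars false

namespace Pool.Agent.U273.FS

open Finset Pool.Agent.W528.HS

section

variable {κ : Type} [Field κ] [Fintype κ] {α : Type} {f : α → α}
  {w : α → AlgebraicClosure κ}

theorem minimalPeriod_map (hf : Function.Injective f) (x : α) :
    Function.minimalPeriod f (f x) = Function.minimalPeriod f x := by
  by_cases hx : x ∈ Function.periodicPts f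
  · exact Function.minimalPeriod_apply hx
  · have h1 : f x ∉ Function.periodicPts f := by
      rintro ⟨n, hn, h⟩
      refine hx ⟨n, hn, ?_⟩
      have h2 : f (f^[n] x) = f x := by
        rw [← Function.iterate_succ_apply' f n x, Function.iterate_succ_apply]
        exact h
      exact hf h2
    rw [Function.minimalPeriod_eq_zero_of_notMem_periodicPts hx,
      Function.minimalPeriod_eq_zero_of_notMem_periodicPts h1]

theorem w_iter (hw : ∀ x, w (f x) = w x ^ Fintype.card κ) (n : ℕ) (x : α) :
    w (f^[n] x) = w x ^ (Fintype.card κ ^ n) := by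
  induction n with
  | zero => simp
  | succ n ih => rw [Function.iterate_succ_apply', hw, ih, ← pow_mul, pow_succ]

open Classical in
/-- The invariant: `0` if the value of the function is a square in the residue field. -/
noncomputable def inv (f : α → α) (w : α → AlgebraicClosure κ) (x : α) : ℕ :=
  if w x ^ ((Fintype.card κ ^ Function.minimalPeriod f x - 1) / 2) = 1 then 0 else 1

theorem inv_lt (x : α) : inv f w x < 2 := by
  unfold inv
  split_ifs <;> omega

theorem pow_card_eq_one {y : AlgebraicClosure κ} (h : y ^ Fintype.card κ = 1) : y = 1 := by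
  apply (FiniteField.frobeniusAlgHom κ (AlgebraicClosure κ)).toRingHom.injective
  rw [map_one]
  exact h

theorem inv_map (hf : Function.Injective f) (hw : ∀ x, w (f x) = w x ^ Fintype.card κ) (x : α) :
    inv f w (f x) = inv f w x := by
  unfold inv
  rw [minimalPeriod_map hf, hw, ← pow_mul, mul_comm (Fintype.card κ), pow_mul]
  by_cases h : w x ^ ((Fintype.card κ ^ Function.minimalPeriod f x - 1) / 2) = 1
  · rw [if_pos h, if_pos (by rw [h, one_pow])]
  · rw [if_neg h, if_neg fun h2 => h (pow_card_eq_one h2)]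

/-- The value of the character at a fixed point of an iterate. -/
theorem value (h2 : ringChar κ ≠ 2) (hw : ∀ x, w (f x) = w x ^ Fintype.card κ) {n : ℕ}
    (hn : 0 < n) {x : α} (hx : f^[n] x = x) (hx0 : w x ≠ 0) :
    w x ^ ((Fintype.card κ ^ n - 1) / 2) =
      (-1) ^ (inv f w x * (n / Function.minimalPeriod f x)) := by
  set q := Fintype.card κ with hq
  set d := Function.minimalPeriod f x with hd
  have hq2 : 2 ≤ q := Fintype.one_lt_card
  have hodd : q % 2 = 1 := FiniteField.odd_card_of_char_ne_two h2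
  have hper : Function.IsPeriodicPt f n x := hx
  have hdn : d ∣ n := hper.minimalPeriod_dvd
  have hdpos : 0 < d := Nat.pos_of_dvd_of_pos hdn hn
  have hfix : f^[d] x = x := Function.isPeriodicPt_minimalPeriod _ _
  have hev : ∀ m, 2 * ((q ^ m - 1) / 2) = q ^ m - 1 := by
    intro m
    have h1 : q ^ m % 2 = 1 := by
      simp [Nat.pow_mod, hodd]
    omega
  have hwd : w x ^ (q ^ d - 1) = 1 := by
    have h1 := w_iter hw d x
    rw [hfix] at h1
    have h3 : 1 ≤ q ^ d := Nat.one_le_pow _ _ (by omega)
    have h4 : w x ^ (q ^ d - 1) * w x = 1 * w x := by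
      rw [← pow_succ, Nat.sub_add_cancel h3, one_mul]
      exact h1.symm
    exact mul_right_cancel₀ hx0 h4
  obtain ⟨c, hc⟩ := hdn
  have hnd : n / d = c := by rw [hc, Nat.mul_div_cancel_left _ hdpos]
  have hQ : q ^ d ≡ 1 [MOD 2] := by
    have h1 : q ^ d % 2 = 1 := by simp [Nat.pow_mod, hodd]
    exact h1
  obtain ⟨M, hM, hM2⟩ := Pool.Agent.W715.HS.OC.geo 2 (q ^ d) hQ (Nat.one_le_pow _ _ (by omega)) c
  have h4 : (q ^ n - 1) / 2 = ((q ^ d - 1) / 2) * M := by
    rw [hc, pow_mul, hM2]
    conv_lhs => rw [← hev d]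
    rw [show M * (2 * ((q ^ d - 1) / 2)) = 2 * (((q ^ d - 1) / 2) * M) by ring,
      Nat.mul_div_cancel_left _ (by norm_num)]
  rw [hnd, h4, pow_mul]
  set y := w x ^ ((q ^ d - 1) / 2) with hy
  have hy2 : y ^ 2 = 1 := by
    rw [hy, ← pow_mul, mul_comm, hev, hwd]
  have hinv1 : y = 1 → inv f w x = 0 := fun h => if_pos h
  have hinv2 : y ≠ 1 → inv f w x = 1 := fun h => if_neg h
  by_cases h : y = 1
  · rw [hinv1 h, h, one_pow, zero_mul, pow_zero]
  · have h5 : y = -1 := (sq_eq_one_iff.1 hy2).resolve_left h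
    rw [hinv2 h, h5, one_mul]
    exact pow_eq_pow_of_modEq hM (by norm_num)

end

/-- **Sums of values of the quadratic character and closed points.** -/
theorem quad {κ : Type} [Field κ] [Fintype κ] (h2 : ringChar κ ≠ 2) {α : Type} {f : α → α}
    (hf : Function.Injective f) (hfin : ∀ n, 0 < n → {x | f^[n] x = x}.Finite)
    {w : α → AlgebraicClosure κ} (hw : ∀ x, w (f x) = w x ^ Fintype.card κ)
    (L : Type) [Field L] [Fintype L] [DecidableEq L] [Algebra κ L]
    (ι : L →ₐ[κ] AlgebraicClosure κ) (XL : Type) [Fintype XL] (T : XL → α) (hT : Function.Injective T)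
    (hT1 : ∀ v, f^[Module.finrank κ L] (T v) = T v)
    (hT2 : ∀ x, f^[Module.finrank κ L] x = x → ∃ v, T v = x)
    (wL : XL → L) (hwL : ∀ v, ι (wL v) = w (T v)) :
    (∀ (R : Type) [CommRing R], ((∑ v : XL, quadraticChar L (wL v) : ℤ) : R) =
      orbSum 2 (-1 : R) (cl f {x | w x ≠ 0} (inv f w)) (Module.finrank κ L)) ∧
    (∀ (R : Type) [CommRing R], ((Nat.card {v : XL // wL v ≠ 0} : ℕ) : R) =
      orbSum 2 (1 : R) (cl f {x | w x ≠ 0} (inv f w)) (Module.finrank κ L)) := by
  classical
  set n := Module.finrank κ L with hndef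
  have hn : 0 < n := Module.finrank_pos
  have hcard : Fintype.card L = Fintype.card κ ^ n := Module.card_eq_pow_finrank
  set U : Set α := {x | w x ≠ 0} with hUdef
  have hU : ∀ x ∈ U, f x ∈ U := by
    intro x hx
    change w (f x) ≠ 0
    rw [hw]
    exact pow_ne_zero _ hx
  let S : Finset α := (univ.filter fun v : XL => wL v ≠ 0).image T
  have hne : ∀ v, wL v ≠ 0 ↔ w (T v) ≠ 0 := by
    intro v
    rw [← hwL v]
    exact (map_ne_zero ι.toRingHom).symm
  have hS : ∀ x, x ∈ S ↔ x ∈ U ∧ f^[n] x = x := by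
    intro x
    rw [mem_image]
    constructor
    · rintro ⟨v, hv, rfl⟩
      exact ⟨(hne v).1 (mem_filter.1 hv).2, hT1 v⟩
    · rintro ⟨h1, h3⟩
      obtain ⟨v, rfl⟩ := hT2 x h3
      exact ⟨v, mem_filter.2 ⟨mem_univ _, (hne v).2 h1⟩, rfl⟩
  have key := fun (R : Type) [CommRing R] (μ : R) =>
    orb hf hfin 2 hU (e := inv f w) (fun x _ => inv_map hf hw x) (fun x _ => inv_lt x) hn S hS R μ
  have hsum : ∀ (R : Type) [CommRing R] (μ : R),
      ∑ x ∈ S, μ ^ (inv f w x * (n / Function.minimalPeriod f x)) =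
      ∑ v ∈ univ.filter (fun v : XL => wL v ≠ 0),
        μ ^ (inv f w (T v) * (n / Function.minimalPeriod f (T v))) := by
    intro R _ μ
    exact Finset.sum_image fun v _ v' _ h => hT h
  have hL2 : ringChar L ≠ 2 := by
    have h3 : ringChar L = ringChar κ := (Algebra.ringChar_eq κ L).symm
    rw [h3]
    exact h2
  have hΩ2 : ringChar (AlgebraicClosure κ) ≠ 2 := by
    have h3 : ringChar (AlgebraicClosure κ) = ringChar κ :=
      (Algebra.ringChar_eq κ (AlgebraicClosure κ)).symm
    rw [h3]
    exact h2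
  constructor
  · intro R _
    rw [← key R (-1), hsum R (-1)]
    have h3 : ∑ v : XL, quadraticChar L (wL v) =
        ∑ v ∈ univ.filter (fun v : XL => wL v ≠ 0), quadraticChar L (wL v) := by
      refine (Finset.sum_filter_of_ne ?_).symm
      intro v _ hv h0
      rw [h0] at hv
      exact hv (by simp)
    rw [h3]
    push_cast
    refine Finset.sum_congr rfl fun v hv => ?_
    have hv0 : wL v ≠ 0 := (mem_filter.1 hv).2
    have h4 := value (f := f) (w := w) h2 hw hn (hT1 v) ((hne v).1 hv0)
    have h5 : w (T v) ^ ((Fintype.card κ ^ n - 1) / 2) = ι (wL v ^ (Fintype.card L / 2)) := by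
      rw [← hwL, ← map_pow, ← hcard]
      congr 2
      have h6 : Fintype.card L % 2 = 1 := FiniteField.odd_card_of_char_ne_two hL2
      omega
    rw [h5, ← quadraticChar_eq_pow_of_char_ne_two' hL2] at h4
    rcases quadraticChar_dichotomy hv0 with h7 | h7
    · rw [h7] at h4 ⊢
      rcases Nat.even_or_odd (inv f w (T v) * (n / Function.minimalPeriod f (T v))) with h8 | h8
      · rw [h8.neg_one_pow]
        simp
      · rw [h8.neg_one_pow] at h4
        exfalso
        have h9 : (1 : AlgebraicClosure κ) = -1 := by simpa using h4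
        exact Ring.neg_one_ne_one_of_char_ne_two hΩ2 h9.symm
    · rw [h7] at h4 ⊢
      rcases Nat.even_or_odd (inv f w (T v) * (n / Function.minimalPeriod f (T v))) with h8 | h8
      · rw [h8.neg_one_pow] at h4
        exfalso
        have h9 : (-1 : AlgebraicClosure κ) = 1 := by simpa using h4
        exact Ring.neg_one_ne_one_of_char_ne_two hΩ2 h9
      · rw [h8.neg_one_pow]
        simp
  · intro R _
    rw [← key R 1, hsum R 1]
    simp only [one_pow, Finset.sum_const, nsmul_eq_mul, mul_one]
    rw [Nat.card_eq_fintype_card, Fintype.card_subtype]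

end Pool.Agent.U273.FS
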