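import Mathlib
import Pool.Agent.U273.FS.Quad

/-!
# Fixed points of the compositions of a map and an automorphism of finite order
-/

set_option autoImplicit false
set_option linter.unusedSectionVars false

namespace Pool.Agent.U273.FS

open Finset Pool.Agent.W528.HS

section

variable {α : Type} {f σ : α → α}

theorem comm_iter (hc : ∀ x, f (σ x) = σ (f x)) (j n : ℕ) (x : α) :
    f^[n] (σ^[j] x) = σ^[j] (f^[n] x) := by
  have h : Function.Commute f σ := hc
  exact (h.iterate_iterate n j) x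

theorem sigma_inj {N : ℕ} (hN : 0 < N) (hσ : ∀ x, σ^[N] x = x) : Function.Injective σ := by
  intro x y h
  have h1 : σ^[N - 1] (σ x) = σ^[N - 1] (σ y) := by rw [h]
  rw [← Function.iterate_succ_apply, ← Function.iterate_succ_apply,
    Nat.succ_eq_add_one, Nat.sub_add_cancel hN, hσ, hσ] at h1
  exact h1

theorem sigma_mul {N : ℕ} (hσ : ∀ x, σ^[N] x = x) (k : ℕ) (x : α) : σ^[N * k] x = x := by
  rw [Function.iterate_mul]
  exact Function.iterate_fixed (hσ x) k

theorem sigma_mod {N : ℕ} (hσ : ∀ x, σ^[N] x = x) (j : ℕ) (x : α) : σ^[j % N] x = σ^[j] x := by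
  conv_rhs => rw [← Nat.mod_add_div j N, Function.iterate_add_apply, sigma_mul hσ]

/-- The orbit relation. -/
def orbSetoid {N : ℕ} (hN : 0 < N) (hσ : ∀ x, σ^[N] x = x) : Setoid α where
  r x y := ∃ j : ℕ, σ^[j] x = y
  iseqv := by
    refine ⟨fun x => ⟨0, rfl⟩, ?_, ?_⟩
    · rintro x y ⟨j, rfl⟩
      refine ⟨(N - 1) * j, ?_⟩
      rw [← Function.iterate_add_apply]
      have h : (N - 1) * j + j = N * j := by
        obtain ⟨M, rfl⟩ : ∃ M, N = M + 1 := ⟨N - 1, by omega⟩
        rw [Nat.add_sub_cancel]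
        ring
      rw [h, sigma_mul hσ]
    · rintro x y z ⟨j, rfl⟩ ⟨i, rfl⟩
      exact ⟨i + j, by rw [Function.iterate_add_apply]⟩

/-- **Fixed points of the compositions with a free automorphism of order `N`.** -/
theorem free_orb (hf : Function.Injective f) (hc : ∀ x, f (σ x) = σ (f x)) {N : ℕ} (hN : 0 < N)
    (hσ : ∀ x, σ^[N] x = x) (hfree : ∀ x j, σ^[j] x = x → N ∣ j)
    (hfin : ∀ n, 0 < n → {x | ∃ j, σ^[j] (f^[n] x) = x}.Finite) :
    ∃ a : ℕ → ℕ → ℕ, ∀ n, 0 < n → ∀ (R : Type) [CommRing R] (μ : R), μ ^ N = 1 →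
      ∑ j ∈ range N, μ ^ j * (({x | σ^[j] (f^[n] x) = x}.ncard : ℕ) : R) =
        (N : R) * orbSum N μ a n := by
  classical
  have hσi : Function.Injective σ := sigma_inj hN hσ
  let s : Setoid α := orbSetoid hN hσ
  have hmap : ∀ x y, s x y → s (f x) (f y) := by
    rintro x y ⟨j, rfl⟩
    exact ⟨j, (comm_iter hc j 1 x).symm⟩
  let fb : Quotient s → Quotient s := Quotient.map f hmap
  have hfb : ∀ x, fb ⟦x⟧ = ⟦f x⟧ := fun x => rfl
  have hfbn : ∀ n x, fb^[n] ⟦x⟧ = ⟦f^[n] x⟧ := by
    intro n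
    induction n with
    | zero => intro x; rfl
    | succ n ih => intro x; rw [Function.iterate_succ_apply, hfb, ih, Function.iterate_succ_apply]
  have hfbi : Function.Injective fb := by
    intro z w
    induction z using Quotient.inductionOn with | _ x =>
    induction w using Quotient.inductionOn with | _ y =>
    intro h
    rw [hfb, hfb] at h
    obtain ⟨j, hj⟩ := Quotient.exact h
    have h9 : f (σ^[j] x) = σ^[j] (f x) := comm_iter hc j 1 x
    rw [← h9] at hj
    exact Quotient.sound ⟨j, hf hj⟩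
  have hfix : ∀ n x, fb^[n] ⟦x⟧ = ⟦x⟧ ↔ ∃ j, σ^[j] (f^[n] x) = x := by
    intro n x
    rw [hfbn]
    constructor
    · intro h
      exact Quotient.exact h
    · rintro ⟨j, hj⟩
      exact Quotient.sound ⟨j, hj⟩
  have hfinb : ∀ n, 0 < n → {z | fb^[n] z = z}.Finite := by
    intro n hn
    refine ((hfin n hn).image fun x => (⟦x⟧ : Quotient s)).subset ?_
    intro z hz
    induction z using Quotient.inductionOn with | _ x =>
    exact ⟨x, (hfix n x).1 hz, rfl⟩
  -- the invariant
  let P : Quotient s → Set ℕ := fun z =>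
    {j | σ^[j] (f^[Function.minimalPeriod fb z] z.out) = z.out}
  have hP : ∀ (d : ℕ) (x y : α), s x y → ∀ j, σ^[j] (f^[d] x) = x ↔ σ^[j] (f^[d] y) = y := by
    rintro d x _ ⟨b, rfl⟩ j
    rw [comm_iter hc b d x, ← Function.iterate_add_apply, add_comm, Function.iterate_add_apply]
    exact (hσi.iterate b).eq_iff.symm
  have hPf : ∀ (d : ℕ) (x : α) (j : ℕ), σ^[j] (f^[d] (f x)) = f x ↔ σ^[j] (f^[d] x) = x := by
    intro d x j
    have h1 : σ^[j] (f^[d] (f x)) = f (σ^[j] (f^[d] x)) := by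
      rw [← Function.iterate_succ_apply, Function.iterate_succ_apply']
      exact (comm_iter hc j 1 _).symm
    rw [h1]
    exact hf.eq_iff
  have hPeq : ∀ z, P (fb z) = P z := by
    intro z
    ext j
    change σ^[j] (f^[Function.minimalPeriod fb (fb z)] (fb z).out) = (fb z).out ↔
      σ^[j] (f^[Function.minimalPeriod fb z] z.out) = z.out
    rw [minimalPeriod_map hfbi]
    have h1 : s (fb z).out (f z.out) := by
      apply Quotient.exact
      rw [Quotient.out_eq, ← hfb, Quotient.out_eq]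
    rw [hP _ _ _ h1 j, hPf]
  let e : Quotient s → ℕ := fun z => sInf (P z)
  have he : ∀ z ∈ (Set.univ : Set (Quotient s)), e (fb z) = e z := by
    intro z _
    change sInf (P (fb z)) = sInf (P z)
    rw [hPeq]
  have heN : ∀ z ∈ (Set.univ : Set (Quotient s)), e z < N := by
    intro z _
    rcases (P z).eq_empty_or_nonempty with h | ⟨j, hj⟩
    · change sInf (P z) < N
      rw [h, Nat.sInf_empty]
      exact hN
    · have h1 : j % N ∈ P z := by
        change σ^[j % N] _ = _
        rw [sigma_mod hσ]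
        exact hj
      exact lt_of_le_of_lt (Nat.sInf_le h1) (Nat.mod_lt _ hN)
  refine ⟨cl fb Set.univ e, ?_⟩
  intro n hn R _ μ hμ
  have horb := orb hfbi hfinb N (U := Set.univ) (fun x _ => Set.mem_univ _) he heN hn
    (hfinb n hn).toFinset (fun z => by
      rw [Set.Finite.mem_toFinset]
      exact ⟨fun h => ⟨Set.mem_univ _, h⟩, fun h => h.2⟩) R μ
  rw [← horb]
  -- the value for a point
  have hval : ∀ x, (∃ j, σ^[j] (f^[n] x) = x) → ∀ j,
      (σ^[j] (f^[n] x) = x ↔ j ≡ e ⟦x⟧ * (n / Function.minimalPeriod fb ⟦x⟧) [MOD N]) := by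
    intro x hx j
    set d := Function.minimalPeriod fb ⟦x⟧ with hd
    have hper : Function.IsPeriodicPt fb n ⟦x⟧ := (hfix n x).2 hx
    have hdn : d ∣ n := hper.minimalPeriod_dvd
    have hdpos : 0 < d := Nat.pos_of_dvd_of_pos hdn hn
    obtain ⟨c, hc'⟩ := hdn
    have hnd : n / d = c := by rw [hc', Nat.mul_div_cancel_left _ hdpos]
    have h1 : fb^[d] ⟦x⟧ = ⟦x⟧ := Function.isPeriodicPt_minimalPeriod _ _
    have hout : s (⟦x⟧ : Quotient s).out x := Quotient.exact (Quotient.out_eq _)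
    have h2 : (P ⟦x⟧).Nonempty := by
      obtain ⟨j, hj⟩ := (hfix d x).1 h1
      exact ⟨j, (hP d _ _ hout j).2 hj⟩
    have h3 : σ^[e ⟦x⟧] (f^[d] x) = x := (hP d _ _ hout _).1 (Nat.sInf_mem h2)
    have h4 : ∀ c : ℕ, σ^[e ⟦x⟧ * c] (f^[d * c] x) = x := by
      intro c
      induction c with
      | zero => rfl
      | succ c ih =>
        rw [Nat.mul_succ, Nat.mul_succ, add_comm (e ⟦x⟧ * c), Function.iterate_add_apply,
          add_comm (d * c), Function.iterate_add_apply f, ← comm_iter hc, ih]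
        exact h3
    rw [hnd]
    have h5 : σ^[e ⟦x⟧ * c] (f^[n] x) = x := by
      rw [hc']
      exact h4 c
    have h6 : ∀ i j : ℕ, i ≤ j → σ^[i] (f^[n] x) = σ^[j] (f^[n] x) → N ∣ j - i := by
      intro i j hij h
      apply hfree (σ^[i] (f^[n] x))
      rw [← Function.iterate_add_apply, Nat.sub_add_cancel hij, h]
    constructor
    · intro h
      rcases le_total j (e ⟦x⟧ * c) with h7 | h7
      · exact (Nat.modEq_iff_dvd' h7).2 (h6 _ _ h7 (h.trans h5.symm))
      · exact ((Nat.modEq_iff_dvd' h7).2 (h6 _ _ h7 (h5.trans h.symm))).symm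
    · intro h
      rw [← sigma_mod hσ j, h, sigma_mod hσ]
      exact h5
  let T : Finset α := (hfin n hn).toFinset
  have hT : ∀ x, x ∈ T ↔ ∃ j, σ^[j] (f^[n] x) = x := fun x => by
    rw [Set.Finite.mem_toFinset]
    exact Iff.rfl
  have h1 : ∀ j ∈ range N, μ ^ j * (({x | σ^[j] (f^[n] x) = x}.ncard : ℕ) : R) =
      ∑ x ∈ T, if σ^[j] (f^[n] x) = x then μ ^ j else 0 := by
    intro j _
    have h2 : {x | σ^[j] (f^[n] x) = x} =
        ((T.filter fun x => σ^[j] (f^[n] x) = x : Finset α) : Set α) := by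
      ext x
      simp only [coe_filter, Set.mem_ofPred_eq, hT]
      exact ⟨fun h => ⟨⟨j, h⟩, h⟩, fun h => h.2⟩
    rw [h2, Set.ncard_coe_finset, ← Finset.sum_filter, Finset.sum_const, nsmul_eq_mul, mul_comm]
  rw [Finset.sum_congr rfl h1, Finset.sum_comm]
  have h2 : ∀ x ∈ T, (∑ j ∈ range N, if σ^[j] (f^[n] x) = x then μ ^ j else 0) =
      μ ^ (e ⟦x⟧ * (n / Function.minimalPeriod fb ⟦x⟧)) := by
    intro x hx
    have h3 := hval x ((hT x).1 hx)
    set v := e ⟦x⟧ * (n / Function.minimalPeriod fb ⟦x⟧) with hv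
    rw [Finset.sum_eq_single (v % N)]
    · rw [if_pos ((h3 _).2 (Nat.mod_modEq v N))]
      conv_rhs => rw [← Nat.mod_add_div v N, pow_add, pow_mul, hμ, one_pow, mul_one]
    · intro j hj hjv
      rw [if_neg]
      intro h4
      apply hjv
      have h5 : j % N = v % N := (h3 j).1 h4
      rwa [Nat.mod_eq_of_lt (mem_range.1 hj)] at h5
    · intro h
      exact absurd (mem_range.2 (Nat.mod_lt _ hN)) h
  rw [Finset.sum_congr rfl h2]
  rw [← Finset.sum_fiberwise_of_maps_to (s := T) (t := (hfinb n hn).toFinset)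
    (g := fun x => (⟦x⟧ : Quotient s)) (fun x hx => by
      rw [Set.Finite.mem_toFinset]
      exact (hfix n x).2 ((hT x).1 hx)), Finset.mul_sum]
  refine Finset.sum_congr rfl fun z hz => ?_
  have h3 : ∀ x ∈ T.filter (fun x => (⟦x⟧ : Quotient s) = z),
      μ ^ (e ⟦x⟧ * (n / Function.minimalPeriod fb ⟦x⟧)) =
        μ ^ (e z * (n / Function.minimalPeriod fb z)) := by
    intro x hx
    rw [(mem_filter.1 hx).2]
  rw [Finset.sum_congr rfl h3, Finset.sum_const, nsmul_eq_mul]
  congr 1
  -- the number of points of a class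
  rw [Set.Finite.mem_toFinset] at hz
  have h4 : T.filter (fun x => (⟦x⟧ : Quotient s) = z) = (range N).image fun j => σ^[j] z.out := by
    ext x
    rw [mem_filter, mem_image]
    constructor
    · rintro ⟨_, rfl⟩
      obtain ⟨j, hj⟩ : s (⟦x⟧ : Quotient s).out x := Quotient.exact (Quotient.out_eq _)
      exact ⟨j % N, mem_range.2 (Nat.mod_lt _ hN), by rw [sigma_mod hσ]; exact hj⟩
    · rintro ⟨j, _, rfl⟩
      have h5 : (⟦σ^[j] z.out⟧ : Quotient s) = z := by
        conv_rhs => rw [← Quotient.out_eq z]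
        exact (Quotient.sound (show s z.out (σ^[j] z.out) from ⟨j, rfl⟩)).symm
      refine ⟨?_, h5⟩
      rw [hT, ← hfix, h5]
      exact hz
  rw [h4, Finset.card_image_of_injOn, card_range]
  intro i hi j hj hij
  rw [Finset.mem_coe, mem_range] at hi hj
  have key : ∀ i j : ℕ, i ≤ j → j < N → σ^[i] z.out = σ^[j] z.out → i = j := by
    intro i j hij hjN h
    have h5 : N ∣ j - i := by
      apply hfree (σ^[i] z.out)
      rw [← Function.iterate_add_apply, Nat.sub_add_cancel hij, h]
    have h6 : j - i = 0 := Nat.eq_zero_of_dvd_of_lt h5 (by omega)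
    omega
  rcases le_total i j with h | h
  · exact key i j h hj hij
  · exact (key j i h hi hij.symm).symm

end

end Pool.Agent.U273.FS
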