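import Mathlib

/-!
# Elliptic surfaces over the projective line: definitions
-/

set_option autoImplicit false

namespace Pool.Agent.U273.FS

open Polynomial

/-- A Weierstrass equation `y ^ 2 = x ^ 3 + a₂(t) x ^ 2 + a₄(t) x + a₆(t)` over the projective line over
`κ`: the `a_i` are forms of degree `i d` on the projective line, given by polynomials of degree at
most `i d` in the affine coordinate `t`. -/
structure Weierstrass (κ : Type) [Field κ] where
  d : ℕ
  a₂ : κ[X]
  a₄ : κ[X]
  a₆ : κ[X]
  degree₂ : a₂.natDegree ≤ 2 * d
  degree₄ : a₄.natDegree ≤ 4 * d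
  degree₆ : a₆.natDegree ≤ 6 * d

/-- The value of a form of degree `m` on the projective line, given by the polynomial `a` of degree
at most `m`, at the point `t` over `L`; here `none` is the point at infinity. -/
noncomputable def formValue {κ : Type} [Field κ] (L : Type) [Field L] [Algebra κ L] (m : ℕ)
    (a : κ[X]) : Option L → L
  | some t => aeval t a
  | none => algebraMap κ L (a.coeff m)

/-- The value of the cubic polynomial of the fibre over the point `t` at `x`. -/
noncomputable def Weierstrass.cubic {κ : Type} [Field κ] (S : Weierstrass κ) (L : Type) [Field L]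
    [Algebra κ L] (t : Option L) (x : L) : L :=
  x ^ 3 + formValue L (2 * S.d) S.a₂ t * x ^ 2 + formValue L (4 * S.d) S.a₄ t * x +
    formValue L (6 * S.d) S.a₆ t

open Classical in
/-- The sum `∑_t ∑_x χ(x ^ 3 + a₂(t) x ^ 2 + a₄(t) x + a₆(t))` over the points `t` of the projective line
over `L` and all `x` in `L`, with the quadratic character `χ` of `L`. This is `-∑_t a_t`, where
`|L| + 1 - a_t` is the number of points of the fibre over `t`. -/
noncomputable def Weierstrass.charSum {κ : Type} [Field κ] (S : Weierstrass κ) (L : Type)
    [Field L] [Fintype L] [Algebra κ L] : ℤ :=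
  ∑ t : Option L, ∑ x : L, quadraticChar L (S.cubic L t x)

/-- The number of points over `L` of the curve `C'` of `2`-torsion points: the curve
`x ^ 3 + a₂(t) x ^ 2 + a₄(t) x + a₆(t) = 0` on the ruled surface over the projective line. -/
noncomputable def Weierstrass.torsionPoints {κ : Type} [Field κ] (S : Weierstrass κ) (L : Type)
    [Field L] [Fintype L] [Algebra κ L] : ℕ :=
  Nat.card {v : Option L × L // S.cubic L v.1 v.2 = 0}

/-- The value of a bilinear form. -/
def pair {E W : Type} [Field E] [AddCommGroup W] [Module E W] (B : W →ₗ[E] W →ₗ[E] E)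
    (x y : W) : E :=
  B x y

/-- The form is symmetric. -/
def IsSymmetric {E W : Type} [Field E] [AddCommGroup W] [Module E W] (B : W →ₗ[E] W →ₗ[E] E) :
    Prop :=
  ∀ x y, pair B x y = pair B y x

/-- The form is not degenerate. -/
def IsNondegenerate {E W : Type} [Field E] [AddCommGroup W] [Module E W]
    (B : W →ₗ[E] W →ₗ[E] E) : Prop :=
  ∀ x, (∀ y, pair B x y = 0) → x = 0

/-- The linear map `Φ` multiplies the form with `c`. -/
def IsSimilitude {E W : Type} [Field E] [AddCommGroup W] [Module E W] (B : W →ₗ[E] W →ₗ[E] E)
    (Φ : W →ₗ[E] W) (c : E) : Prop :=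
  ∀ x y, pair B (Φ x) (Φ y) = c * pair B x y

/-- A power `Φ ^ j`, `j > 0`, is multiplication by `q ^ j`. -/
def IsAlgebraic {E N : Type} [Field E] [AddCommGroup N] [Module E N] (Φ : Module.End E N)
    (q : E) : Prop :=
  ∃ j : ℕ, 0 < j ∧ ∀ x, (Φ ^ j) x = q ^ j • x

/-- The trace of `Φ ^ n` is `a`. -/
def HasTrace {E W : Type} [Field E] [AddCommGroup W] [Module E W] (Φ : Module.End E W) (n : ℕ)
    (a : E) : Prop :=
  LinearMap.trace E W (Φ ^ n) = a

/-- The second cohomology group `H^2(S, E) = N ⊕ W` of the minimal elliptic surface over the projective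
line over `κ` with the minimal Weierstrass equation `S`: the space `N` spanned by the classes of the
zero section and of the components of the fibres, its orthogonal complement `W`, the Frobenius
endomorphisms of `N` and `W`, and the intersection form on `W`. Only known properties are listed: a
power `Φ ^ j` of the Frobenius is multiplication by `q ^ j` on `N` (because the curves are defined over a
finite extension); the form is symmetric and not degenerate, and the Frobenius multiplies it with
`q ^ 2`; and the trace formula for `W`, which is the first cohomology of the projective line with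
coefficients in the middle extension of the local system of the Tate modules of the fibres
(Grothendieck, Lefschetz, Ogg, Shafarevich). -/
structure SecondCohomology {κ : Type} [Field κ] [Fintype κ] (S : Weierstrass κ) (E : Type)
    [Field E] where
  N : Type
  W : Type
  [groupN : AddCommGroup N]
  [groupW : AddCommGroup W]
  [moduleN : Module E N]
  [moduleW : Module E W]
  [finiteN : FiniteDimensional E N]
  [finiteW : FiniteDimensional E W]
  frobN : Module.End E N
  frobW : Module.End E W
  form : W →ₗ[E] W →ₗ[E] E
  algebraic : IsAlgebraic frobN (Fintype.card κ : E)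
  symm : IsSymmetric form
  nondegenerate : IsNondegenerate form
  similitude : IsSimilitude form frobW ((Fintype.card κ : E) ^ 2)
  trace_eq : ∀ (L : Type) [Field L] [Fintype L] [Algebra κ L],
    HasTrace frobW (Module.finrank κ L) (S.charSum L : E)

attribute [instance] SecondCohomology.groupN SecondCohomology.groupW SecondCohomology.moduleN
  SecondCohomology.moduleW SecondCohomology.finiteN SecondCohomology.finiteW

/-- The Frobenius is semisimple on `H^2(S, E) = N ⊕ W`. -/
def SecondCohomology.FrobeniusIsSemisimple {κ : Type} [Field κ] [Fintype κ] {S : Weierstrass κ}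
    {E : Type} [Field E] (D : SecondCohomology S E) : Prop :=
  Module.End.IsSemisimple (LinearMap.prodMap D.frobN D.frobW)

/-- `P = ∏_{x ∈ B} (1 - x T)`, with integral coefficients and constant term one. -/
def IsCharPoly {E : Type} [Field E] (P : ℤ[X]) (B : Multiset E) : Prop :=
  P.coeff 0 = 1 ∧ P.map (Int.castRingHom E) = (B.map fun x => 1 - C x * X).prod

/-- The sum of the `n`-th powers. -/
def powerSum {E : Type} [Field E] (B : Multiset E) (n : ℕ) : E := (B.map fun x => x ^ n).sum

/-- The zeta function of the curve `C'` is `P₁ / P₂`. -/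
def Weierstrass.HasTorsionZeta {κ : Type} [Field κ] (S : Weierstrass κ) (E : Type) [Field E]
    (P₁ P₂ : ℤ[X]) : Prop :=
  ∃ B₁ B₂ : Multiset E, IsCharPoly P₁ B₁ ∧ IsCharPoly P₂ B₂ ∧
    ∀ (L : Type) [Field L] [Fintype L] [Algebra κ L],
      (S.torsionPoints L : E) =
        powerSum B₂ (Module.finrank κ L) - powerSum B₁ (Module.finrank κ L)

/-- The polynomial over the field with two elements is squarefree up to a factor `(1 + T) ^ m`,
`m ≤ 2`. -/
def IsAlmostSquarefree (H : (ZMod 2)[X]) : Prop :=
  ∃ m ≤ 2, ∃ Q : (ZMod 2)[X], Squarefree Q ∧ Q.eval 1 ≠ 0 ∧ H = (1 - X) ^ m * Q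

end Pool.Agent.U273.FS
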