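import Mathlib
import Pool.Agent.U273.FS.EllDefs
import Pool.Agent.U273.FS.Quad

/-!
# The geometric points of the projective line and of its product with the affine line
-/

set_option autoImplicit false
set_option linter.unusedSectionVars false

namespace Pool.Agent.U273.FS

open Finset Polynomial Pool.Agent.W528.HS

section

variable {κ : Type} [Field κ]

theorem formValue_map {L L' : Type} [Field L] [Field L'] [Algebra κ L] [Algebra κ L']
    (φ : L →ₐ[κ] L') (m : ℕ) (a : κ[X]) (t : Option L) :
    formValue L' m a (t.map φ) = φ (formValue L m a t) := by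
  cases t with
  | none => exact (φ.commutes _).symm
  | some t => exact Polynomial.aeval_algHom_apply φ t a

theorem cubic_map (S : Weierstrass κ) {L L' : Type} [Field L] [Field L'] [Algebra κ L]
    [Algebra κ L'] (φ : L →ₐ[κ] L') (t : Option L) (x : L) :
    S.cubic L' (t.map φ) (φ x) = φ (S.cubic L t x) := by
  unfold Weierstrass.cubic
  rw [formValue_map, formValue_map, formValue_map]
  simp only [map_add, map_mul, map_pow]

end

variable {κ : Type} [Field κ] [Fintype κ]

/-- The Frobenius. -/
noncomputable abbrev fr (κ : Type) [Field κ] [Fintype κ] :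
    AlgebraicClosure κ →ₐ[κ] AlgebraicClosure κ :=
  FiniteField.frobeniusAlgHom κ (AlgebraicClosure κ)

theorem fr_inj : Function.Injective (fr κ) := (fr κ).toRingHom.injective

theorem fr_iter (n : ℕ) (x : AlgebraicClosure κ) : (fr κ)^[n] x = x ^ (Fintype.card κ ^ n) := by
  induction n with
  | zero => simp
  | succ n ih =>
    rw [Function.iterate_succ_apply', ih]
    change (x ^ Fintype.card κ ^ n) ^ Fintype.card κ = _
    rw [← pow_mul, pow_succ]

theorem fix_finite {n : ℕ} (hn : 0 < n) : {x | (fr κ)^[n] x = x}.Finite := by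
  have h2 : 2 ≤ Fintype.card κ ^ n :=
    le_trans Fintype.one_lt_card (Nat.le_self_pow hn.ne' _)
  refine (Pool.Agent.W715.HS.OC.pow_eq_self_finite (κ := κ) _ h2).1.subset ?_
  intro x hx
  have h3 : (fr κ)^[n] x = x := hx
  rw [fr_iter] at h3
  exact h3

/-- The Frobenius on the points of the projective line. -/
noncomputable def frL (κ : Type) [Field κ] [Fintype κ] :
    Option (AlgebraicClosure κ) → Option (AlgebraicClosure κ) :=
  Option.map (fr κ)

theorem frL_inj : Function.Injective (frL κ) := Option.map_injective fr_inj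

theorem frL_iter (n : ℕ) (t : Option (AlgebraicClosure κ)) :
    (frL κ)^[n] t = t.map ((fr κ)^[n]) := by
  induction n with
  | zero => simp
  | succ n ih =>
    rw [Function.iterate_succ_apply', ih, frL, Option.map_map, ← Function.iterate_succ']

theorem frL_finite {n : ℕ} (hn : 0 < n) : {x | (frL κ)^[n] x = x}.Finite := by
  refine (((fix_finite (κ := κ) hn).image some).union (Set.finite_singleton none)).subset ?_
  intro t ht
  have h1 : (frL κ)^[n] t = t := ht
  rw [frL_iter] at h1
  cases t with
  | none => exact Or.inr rfl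
  | some t =>
    left
    refine ⟨t, ?_, rfl⟩
    rw [Option.map_some, Option.some.injEq] at h1
    exact h1

/-- The Frobenius on the points of the product of the projective and the affine line. -/
noncomputable def frS (κ : Type) [Field κ] [Fintype κ] :
    Option (AlgebraicClosure κ) × AlgebraicClosure κ →
      Option (AlgebraicClosure κ) × AlgebraicClosure κ :=
  Prod.map (frL κ) (fr κ)

theorem frS_inj : Function.Injective (frS κ) := Function.Injective.prodMap frL_inj fr_inj

theorem frS_iter (n : ℕ) (t : Option (AlgebraicClosure κ) × AlgebraicClosure κ) :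
    (frS κ)^[n] t = ((frL κ)^[n] t.1, (fr κ)^[n] t.2) := by
  rw [frS, Prod.map_iterate]
  rfl

theorem frS_finite {n : ℕ} (hn : 0 < n) : {x | (frS κ)^[n] x = x}.Finite := by
  refine ((frL_finite (κ := κ) hn).prod (fix_finite (κ := κ) hn)).subset ?_
  intro t ht
  have h1 : (frS κ)^[n] t = t := ht
  rw [frS_iter] at h1
  exact ⟨congrArg Prod.fst h1, congrArg Prod.snd h1⟩

section

variable (L : Type) [Field L] [Fintype L] [Algebra κ L] (ι : L →ₐ[κ] AlgebraicClosure κ)

theorem fix_emb (x : L) : (fr κ)^[Module.finrank κ L] (ι x) = ι x := by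
  rw [fr_iter, ← Module.card_eq_pow_finrank (K := κ) (V := L), ← map_pow, FiniteField.pow_card]

theorem fix_surj (x : AlgebraicClosure κ) (hx : (fr κ)^[Module.finrank κ L] x = x) :
    ∃ y : L, ι y = x := by
  have h1 : x ∈ {x : AlgebraicClosure κ | x ^ Fintype.card L = x} := by
    rw [fr_iter, ← Module.card_eq_pow_finrank (K := κ) (V := L)] at hx
    exact hx
  rw [← Pool.Agent.W715.HS.OC.range_eq L ι] at h1
  exact h1

theorem fixL_emb (t : Option L) : (frL κ)^[Module.finrank κ L] (t.map ι) = t.map ι := by
  rw [frL_iter, Option.map_map]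
  congr 1
  funext x
  exact fix_emb L ι x

theorem fixL_surj (t : Option (AlgebraicClosure κ)) (ht : (frL κ)^[Module.finrank κ L] t = t) :
    ∃ y : Option L, y.map ι = t := by
  rw [frL_iter] at ht
  cases t with
  | none => exact ⟨none, rfl⟩
  | some t =>
    rw [Option.map_some, Option.some.injEq] at ht
    obtain ⟨y, hy⟩ := fix_surj L ι t ht
    exact ⟨some y, by rw [Option.map_some, hy]⟩

end

/-- Closed points and quadratic characters on the elliptic surface. -/
theorem surface (h2 : ringChar κ ≠ 2) (S : Weierstrass κ) : ∃ a : ℕ → ℕ → ℕ,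
    ∀ (L : Type) [Field L] [Fintype L] [Algebra κ L],
      (∀ (R : Type) [CommRing R], (S.charSum L : R) = orbSum 2 (-1 : R) a (Module.finrank κ L)) ∧
      (∀ (R : Type) [CommRing R],
        ((Nat.card {v : Option L × L // S.cubic L v.1 v.2 ≠ 0} : ℕ) : R) =
          orbSum 2 (1 : R) a (Module.finrank κ L)) := by
  classical
  let w : Option (AlgebraicClosure κ) × AlgebraicClosure κ → AlgebraicClosure κ :=
    fun v => S.cubic (AlgebraicClosure κ) v.1 v.2
  have hw : ∀ x, w (frS κ x) = w x ^ Fintype.card κ := fun x => cubic_map S (fr κ) x.1 x.2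
  refine ⟨cl (frS κ) {x | w x ≠ 0} (inv (frS κ) w), ?_⟩
  intro L _ _ _
  let ι : L →ₐ[κ] AlgebraicClosure κ := IsAlgClosed.lift
  have hinj : Function.Injective ι := ι.toRingHom.injective
  have h := quad h2 frS_inj (fun n hn => frS_finite hn) hw L ι (Option L × L)
    (Prod.map (Option.map ι) ι) (Function.Injective.prodMap (Option.map_injective hinj) hinj)
    (fun v => by
      rw [frS_iter]
      exact Prod.ext (fixL_emb L ι v.1) (fix_emb L ι v.2))
    (fun x hx => by
      rw [frS_iter] at hx
      obtain ⟨t, ht⟩ := fixL_surj L ι x.1 (congrArg Prod.fst hx)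
      obtain ⟨y, hy⟩ := fix_surj L ι x.2 (congrArg Prod.snd hx)
      exact ⟨(t, y), Prod.ext ht hy⟩)
    (fun v => S.cubic L v.1 v.2) (fun v => (cubic_map S ι v.1 v.2).symm)
  refine ⟨fun R _ => ?_, h.2⟩
  rw [← h.1 R]
  unfold Weierstrass.charSum
  rw [Fintype.sum_prod_type]

open Classical in
/-- Closed points and quadratic characters on the projective line. -/
theorem line (h2 : ringChar κ ≠ 2) (m : ℕ) (D : κ[X]) : ∃ a : ℕ → ℕ → ℕ,
    ∀ (L : Type) [Field L] [Fintype L] [Algebra κ L],
      (∀ (R : Type) [CommRing R],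
        ((∑ t : Option L, quadraticChar L (formValue L m D t) : ℤ) : R) =
          orbSum 2 (-1 : R) a (Module.finrank κ L)) ∧
      (∀ (R : Type) [CommRing R],
        ((Nat.card {t : Option L // formValue L m D t ≠ 0} : ℕ) : R) =
          orbSum 2 (1 : R) a (Module.finrank κ L)) := by
  classical
  let w : Option (AlgebraicClosure κ) → AlgebraicClosure κ :=
    fun v => formValue (AlgebraicClosure κ) m D v
  have hw : ∀ x, w (frL κ x) = w x ^ Fintype.card κ := fun x => formValue_map (fr κ) m D x
  refine ⟨cl (frL κ) {x | w x ≠ 0} (inv (frL κ) w), ?_⟩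
  intro L _ _ _
  let ι : L →ₐ[κ] AlgebraicClosure κ := IsAlgClosed.lift
  have hinj : Function.Injective ι := ι.toRingHom.injective
  exact quad h2 frL_inj (fun n hn => frL_finite hn) hw L ι (Option L)
    (Option.map ι) (Option.map_injective hinj) (fixL_emb L ι) (fixL_surj L ι)
    (fun v => formValue L m D v) (fun v => (formValue_map ι m D v).symm)

end Pool.Agent.U273.FS
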