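import Mathlib
import Pool.Agent.U273.FS.Pts

/-!
# Geometric points of schemes over finite fields
-/

set_option autoImplicit false
set_option linter.unusedSectionVars false

open CategoryTheory AlgebraicGeometry

namespace Pool.Agent.U273.FS

variable {κ : Type} [Field κ] [Fintype κ]

/-- The set `X(Ω)` of geometric points of the scheme `X` over `κ`, `Ω` the algebraic closure of `κ`. -/
def GeometricPoint {X : Scheme.{0}} (π : X ⟶ Spec (CommRingCat.of κ)) : Type :=
  {x : Spec (CommRingCat.of (AlgebraicClosure κ)) ⟶ X //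
    x ≫ π = Spec.map (CommRingCat.ofHom (algebraMap κ (AlgebraicClosure κ)))}

/-- The Frobenius of `Ω` as a morphism. -/
noncomputable def frSpec (κ : Type) [Field κ] [Fintype κ] :
    Spec (CommRingCat.of (AlgebraicClosure κ)) ⟶ Spec (CommRingCat.of (AlgebraicClosure κ)) :=
  Spec.map (CommRingCat.ofHom (fr κ).toRingHom)

/-- The Frobenius acts on the geometric points: it raises the coordinates to the power `q`. -/
noncomputable def frobenius {X : Scheme.{0}} (π : X ⟶ Spec (CommRingCat.of κ))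
    (x : GeometricPoint π) : GeometricPoint π :=
  ⟨frSpec κ ≫ x.1, by
    rw [Category.assoc, x.2, frSpec, ← Spec.map_comp, ← CommRingCat.ofHom_comp]
    congr 2
    ext a
    exact (fr κ).commutes a⟩

/-- An endomorphism of `X` over `κ` acts on the geometric points. -/
noncomputable def act {X : Scheme.{0}} (π : X ⟶ Spec (CommRingCat.of κ)) (σ : X ⟶ X) (hσ : σ ≫ π = π)
    (x : GeometricPoint π) : GeometricPoint π :=
  ⟨x.1 ≫ σ, by rw [Category.assoc, hσ, x.2]⟩

theorem frobenius_act {X : Scheme.{0}} (π : X ⟶ Spec (CommRingCat.of κ)) (σ : X ⟶ X)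
    (hσ : σ ≫ π = π) (x : GeometricPoint π) :
    frobenius π (act π σ hσ x) = act π σ hσ (frobenius π x) :=
  Subtype.ext (Category.assoc _ _ _).symm

theorem fr_bij : Function.Bijective (fr κ) :=
  Algebra.IsAlgebraic.algHom_bijective (fr κ)

theorem frSpec_isIso : IsIso (frSpec κ) := by
  have : IsIso (CommRingCat.ofHom (fr κ).toRingHom) := by
    rw [ConcreteCategory.isIso_iff_bijective]
    exact fr_bij
  unfold frSpec
  infer_instance

theorem frobenius_inj {X : Scheme.{0}} (π : X ⟶ Spec (CommRingCat.of κ)) :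
    Function.Injective (frobenius π) := by
  intro x y h
  have := frSpec_isIso (κ := κ)
  apply Subtype.ext
  have h1 : frSpec κ ≫ x.1 = frSpec κ ≫ y.1 := congrArg Subtype.val h
  exact (cancel_epi _).1 h1

theorem frobenius_iter {X : Scheme.{0}} (π : X ⟶ Spec (CommRingCat.of κ)) (n : ℕ)
    (x : GeometricPoint π) :
    ((frobenius π)^[n] x).1 = Spec.map (CommRingCat.ofHom ((fr κ) ^ n).toRingHom) ≫ x.1 := by
  induction n with
  | zero =>
    have h1 : CommRingCat.ofHom ((fr κ) ^ 0).toRingHom =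
        𝟙 (CommRingCat.of (AlgebraicClosure κ)) := rfl
    rw [h1, Spec.map_id, Category.id_comp]
    rfl
  | succ n ih =>
    rw [Function.iterate_succ_apply']
    change frSpec κ ≫ ((frobenius π)^[n] x).1 = _
    rw [ih, frSpec, ← Category.assoc, ← Spec.map_comp, ← CommRingCat.ofHom_comp]
    congr 3
    rw [pow_succ']
    rfl

/-- Finitely many homomorphisms with fixed values. -/
theorem finite_homs {A : Type} [CommRing A] (φ : κ →+* A) (h : φ.FiniteType) {n : ℕ} (hn : 0 < n) :
    Finite {ψ : A →+* AlgebraicClosure κ // ∀ a, (fr κ)^[n] (ψ a) = ψ a} := by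
  classical
  algebraize [φ]
  obtain ⟨s, hs⟩ := (inferInstance : Algebra.FiniteType κ A).out
  have hfin : Finite {x : AlgebraicClosure κ // (fr κ)^[n] x = x} := (fix_finite (κ := κ) hn).to_subtype
  let T : {ψ : A →+* AlgebraicClosure κ // ∀ a, (fr κ)^[n] (ψ a) = ψ a} →
      (κ ⊕ s → {x : AlgebraicClosure κ // (fr κ)^[n] x = x}) :=
    fun ψ v => Sum.elim (fun a => ⟨ψ.1 (φ a), ψ.2 _⟩) (fun a => ⟨ψ.1 a.1, ψ.2 _⟩) v
  refine Finite.of_injective T ?_
  intro ψ ψ' hT
  apply Subtype.ext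
  have h1 : ∀ a : κ, ψ.1 (φ a) = ψ'.1 (φ a) := fun a =>
    congrArg Subtype.val (congrFun hT (Sum.inl a))
  have h2 : ∀ a ∈ s, ψ.1 a = ψ'.1 a := fun a ha =>
    congrArg Subtype.val (congrFun hT (Sum.inr ⟨a, ha⟩))
  ext a
  have ha : a ∈ Algebra.adjoin κ (s : Set A) := by
    rw [hs]
    exact Algebra.mem_top
  induction ha using Algebra.adjoin_induction with
  | mem x hx => exact h2 x hx
  | algebraMap r => exact h1 r
  | add x y _ _ hx hy => rw [map_add, map_add, hx, hy]
  | mul x y _ _ hx hy => rw [map_mul, map_mul, hx, hy]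

theorem frPow_apply (n : ℕ) (x : AlgebraicClosure κ) : ((fr κ) ^ n) x = (fr κ)^[n] x := by
  induction n with
  | zero => rfl
  | succ n ih =>
    rw [pow_succ', Function.iterate_succ_apply', ← ih]
    rfl

theorem finite_affine (U : Scheme.{0}) [IsAffine U] (ρ : U ⟶ Spec (CommRingCat.of κ))
    [LocallyOfFiniteType ρ] {n : ℕ} (hn : 0 < n) :
    Finite {y : Spec (CommRingCat.of (AlgebraicClosure κ)) ⟶ U //
      Spec.map (CommRingCat.ofHom ((fr κ) ^ n).toRingHom) ≫ y = y} := by
  have h1 : LocallyOfFiniteType (U.isoSpec.inv ≫ ρ) := inferInstance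
  obtain ⟨φ, hφ⟩ := Spec.map_surjective (U.isoSpec.inv ≫ ρ)
  rw [← hφ] at h1
  have h2 : φ.hom.FiniteType := (HasRingHomProperty.Spec_iff (P := @LocallyOfFiniteType)).1 h1
  have h3 := finite_homs (A := Γ(U, ⊤)) φ.hom h2 hn
  let T : {y : Spec (CommRingCat.of (AlgebraicClosure κ)) ⟶ U //
      Spec.map (CommRingCat.ofHom ((fr κ) ^ n).toRingHom) ≫ y = y} →
      {ψ : Γ(U, ⊤) →+* AlgebraicClosure κ // ∀ a, (fr κ)^[n] (ψ a) = ψ a} := fun y =>
    ⟨(Spec.preimage (y.1 ≫ U.isoSpec.hom)).hom, by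
      intro a
      have h4 : Spec.map (Spec.preimage (y.1 ≫ U.isoSpec.hom) ≫
          CommRingCat.ofHom ((fr κ) ^ n).toRingHom) =
          Spec.map (Spec.preimage (y.1 ≫ U.isoSpec.hom)) := by
        rw [Spec.map_comp, Spec.map_preimage, ← Category.assoc, y.2]
      have h5 := Spec.map_injective h4
      have h6 := congrArg (fun F => F.hom a) h5
      have h7 : ((fr κ) ^ n) ((Spec.preimage (y.1 ≫ U.isoSpec.hom)).hom a) =
          (Spec.preimage (y.1 ≫ U.isoSpec.hom)).hom a := h6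
      rw [frPow_apply] at h7
      exact h7⟩
  refine Finite.of_injective T ?_
  intro y y' h
  apply Subtype.ext
  have h4 : (Spec.preimage (y.1 ≫ U.isoSpec.hom)).hom =
      (Spec.preimage (y'.1 ≫ U.isoSpec.hom)).hom := congrArg Subtype.val h
  have h5 : Spec.preimage (y.1 ≫ U.isoSpec.hom) = Spec.preimage (y'.1 ≫ U.isoSpec.hom) :=
    CommRingCat.hom_ext h4
  have h6 := congrArg Spec.map h5
  rw [Spec.map_preimage, Spec.map_preimage] at h6
  exact (cancel_mono _).1 h6

/-- **The fixed points of an iterate of the Frobenius are finite in number.** -/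
theorem frobenius_finite {X : Scheme.{0}} (π : X ⟶ Spec (CommRingCat.of κ))
    [LocallyOfFiniteType π] [QuasiCompact π] {n : ℕ} (hn : 0 < n) :
    {x | (frobenius π)^[n] x = x}.Finite := by
  have hX : CompactSpace X := QuasiCompact.compactSpace_of_compactSpace π
  let 𝒰 := X.affineCover.finiteSubcover
  have hfinU : ∀ i : 𝒰.I₀, Finite {y : Spec (CommRingCat.of (AlgebraicClosure κ)) ⟶ 𝒰.X i //
      Spec.map (CommRingCat.ofHom ((fr κ) ^ n).toRingHom) ≫ y = y} := fun i =>
    finite_affine (𝒰.X i) (𝒰.f i ≫ π) hn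
  have hI : Finite 𝒰.I₀ := inferInstance
  have hfin : (⋃ i : 𝒰.I₀, Set.range fun y : {y : Spec (CommRingCat.of (AlgebraicClosure κ)) ⟶ 𝒰.X i //
      Spec.map (CommRingCat.ofHom ((fr κ) ^ n).toRingHom) ≫ y = y} => y.1 ≫ 𝒰.f i).Finite :=
    Set.finite_iUnion fun i => Set.finite_range _
  refine Set.Finite.of_finite_image (f := Subtype.val) (hfin.subset ?_)
    (Subtype.val_injective.injOn)
  rintro _ ⟨x, hx, rfl⟩
  have hx1 : Spec.map (CommRingCat.ofHom ((fr κ) ^ n).toRingHom) ≫ x.1 = x.1 := by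
    rw [← frobenius_iter]
    exact congrArg Subtype.val hx
  let pt : Spec (CommRingCat.of (AlgebraicClosure κ)) := default
  obtain ⟨i, u, hu⟩ := 𝒰.exists_eq (x.1 pt)
  have hrange : Set.range x.1 ⊆ Set.range (𝒰.f i) := by
    rintro _ ⟨v, rfl⟩
    rw [Subsingleton.elim v pt]
    exact ⟨u, hu⟩
  refine Set.mem_iUnion.2 ⟨i, ⟨IsOpenImmersion.lift (𝒰.f i) x.1 hrange, ?_⟩, ?_⟩
  · rw [← cancel_mono (𝒰.f i), Category.assoc, IsOpenImmersion.lift_fac, hx1]
  · exact IsOpenImmersion.lift_fac _ _ _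

end Pool.Agent.U273.FS
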