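import Mathlib
import Pool.Agent.U273.FS.Sch

/-!
# Complete varieties with an automorphism of prime power order: definitions
-/

set_option autoImplicit false

open CategoryTheory AlgebraicGeometry Polynomial

namespace Pool.Agent.U273.FS

/-- The powers of an endomorphism. -/
noncomputable def power {X : Scheme.{0}} (σ : X ⟶ X) : ℕ → (X ⟶ X)
  | 0 => 𝟙 X
  | j + 1 => power σ j ≫ σ

variable {κ : Type} [Field κ] [Fintype κ]

/-- The geometric points of `X` fixed by the composition of the `n`-th power of the Frobenius and the
`j`-th power of the automorphism. -/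
noncomputable def fixedPoints {X : Scheme.{0}} (π : X ⟶ Spec (CommRingCat.of κ)) (σ : X ⟶ X)
    (hσ : σ ≫ π = π) (n j : ℕ) : Set (GeometricPoint π) :=
  {x | (act π σ hσ)^[j] ((frobenius π)^[n] x) = x}

/-- The points of `fixedPoints` that are not fixed by the `M`-th power of the automorphism. -/
noncomputable def movedPoints {X : Scheme.{0}} (π : X ⟶ Spec (CommRingCat.of κ)) (σ : X ⟶ X)
    (hσ : σ ≫ π = π) (M n j : ℕ) : Set (GeometricPoint π) :=
  {x | (act π σ hσ)^[M] x ≠ x ∧ (act π σ hσ)^[j] ((frobenius π)^[n] x) = x}

/-- The cohomology groups `H^i(X, E)`, `i ≤ top`, of a complete variety `X` with the Frobenius and the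
automorphism `σ`. -/
structure CohomologyGroups (E : Type) [Field E] where
  top : ℕ
  H : ℕ → Type
  [group : ∀ i, AddCommGroup (H i)]
  [module : ∀ i, Module E (H i)]
  [finite : ∀ i, FiniteDimensional E (H i)]
  frob : ∀ i, Module.End E (H i)
  aut : ∀ i, Module.End E (H i)

attribute [instance] CohomologyGroups.group CohomologyGroups.module CohomologyGroups.finite

/-- The trace of `Φ ^ n g ^ j`. -/
noncomputable def traceOf {E V : Type} [Field E] [AddCommGroup V] [Module E V]
    (Φ g : Module.End E V) (n j : ℕ) : E :=
  LinearMap.trace E V (Φ ^ n * g ^ j)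

/-- The known properties of the cohomology groups of the complete variety `X` with an automorphism
`σ` of order dividing `N`: the automorphism commutes with Frobenius, and the trace formula of
Lefschetz and Grothendieck for the compositions of powers. -/
structure CohomologyGroups.IsCohomology {E : Type} [Field E] (D : CohomologyGroups E)
    {X : Scheme.{0}} (π : X ⟶ Spec (CommRingCat.of κ)) (σ : X ⟶ X) (hσ : σ ≫ π = π) (N : ℕ) :
    Prop where
  commute : ∀ i, Commute (D.frob i) (D.aut i)
  order : ∀ i, D.aut i ^ N = 1
  lefschetz : ∀ n j : ℕ, 0 < n → ((fixedPoints π σ hσ n j).ncard : E) =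
    ∑ i ∈ Finset.range (D.top + 1), (-1) ^ i * traceOf (D.frob i) (D.aut i) n j

/-- The zeta function of the quotient by `σ` of the open set where `σ ^ M` has no fixed points is
`P₁ / P₂`, where `σ` has order dividing `N`: the number of its points over the extension of degree
`n` is the `N`-th part of the number of pairs `(x, j)`, `j < N`, of a point `x` moved by `σ ^ M` and
fixed by the composition of the `n`-th power of Frobenius and `σ ^ j`. -/
def HasQuotientZeta (E : Type) [Field E] {X : Scheme.{0}} (π : X ⟶ Spec (CommRingCat.of κ))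
    (σ : X ⟶ X) (hσ : σ ≫ π = π) (M N : ℕ) (P₁ P₂ : ℤ[X]) : Prop :=
  ∃ B₁ B₂ : Multiset E, IsCharPoly P₁ B₁ ∧ IsCharPoly P₂ B₂ ∧
    ∀ n : ℕ, 0 < n → ((∑ j ∈ Finset.range N, (movedPoints π σ hσ M n j).ncard : ℕ) : E) =
      (N : E) * (powerSum B₂ n - powerSum B₁ n)

/-- The subspace `K` is spanned by eigenvectors of `Φ` (or contained in such a space). -/
def SemisimpleOn {E V : Type} [Field E] [AddCommGroup V] [Module E V] (Φ : Module.End E V)
    (K : Submodule E V) : Prop :=
  K ≤ ⨆ α : E, Φ.eigenspace α

end Pool.Agent.U273.FS
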