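import Mathlib
import Pool.Agent.U273.FS.Aut

/-!
# Automorphisms of prime power order, with fixed points
-/

set_option autoImplicit false
set_option linter.unusedSectionVars false

namespace Pool.Agent.U273.FS

open Finset Pool.Agent.W528.HS

theorem sum_blocks {R : Type} [CommRing R] (μ : R) (b : ℕ → R) (M : ℕ)
    (hb : ∀ j, b (j + M) = b j) (c : ℕ) :
    ∑ j ∈ range (M * c), μ ^ j * b j = (∑ i ∈ range c, (μ ^ M) ^ i) * ∑ j ∈ range M, μ ^ j * b j := by
  have hb' : ∀ k j, b (M * k + j) = b j := by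
    intro k
    induction k with
    | zero => intro j; rw [mul_zero, zero_add]
    | succ k ih =>
      intro j
      rw [Nat.mul_succ, add_assoc, ih, add_comm M j, hb]
  induction c with
  | zero => simp
  | succ c ih =>
    rw [Nat.mul_succ, Finset.sum_range_add, ih, Finset.sum_range_succ _ c, add_mul]
    congr 1
    rw [Finset.mul_sum]
    refine Finset.sum_congr rfl fun j _ => ?_
    rw [hb' c j, pow_add, pow_mul]
    ring

section

variable {α : Type} {f σ : α → α}

/-- **Fixed points of the compositions with an automorphism of prime power order.** -/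
theorem aut_orb (hf : Function.Injective f) (hc : ∀ x, f (σ x) = σ (f x)) {p s : ℕ}
    (hp : p.Prime) (hσ : ∀ x, σ^[p ^ (s + 1)] x = x)
    (hfin : ∀ n, 0 < n → {x | ∃ j, σ^[j] (f^[n] x) = x}.Finite) :
    ∃ a : ℕ → ℕ → ℕ,
      (∀ n, 0 < n → ∀ (R : Type) [CommRing R] (μ : R), μ ^ p ^ (s + 1) = 1 →
        ∑ i ∈ range p, (μ ^ p ^ s) ^ i = 0 →
        ∑ j ∈ range (p ^ (s + 1)), μ ^ j * (({x | σ^[j] (f^[n] x) = x}.ncard : ℕ) : R) =
          ((p ^ (s + 1) : ℕ) : R) * orbSum (p ^ (s + 1)) μ a n) ∧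
      (∀ n, 0 < n → ∀ (R : Type) [CommRing R],
        ((∑ j ∈ range (p ^ (s + 1)),
          {x | σ^[p ^ s] x ≠ x ∧ σ^[j] (f^[n] x) = x}.ncard : ℕ) : R) =
          ((p ^ (s + 1) : ℕ) : R) * orbSum (p ^ (s + 1)) (1 : R) a n) := by
  classical
  have hN : 0 < p ^ (s + 1) := pow_pos hp.pos _
  have hσi : Function.Injective σ := sigma_inj hN hσ
  let α' : Type := {x : α // σ^[p ^ s] x ≠ x}
  let f' : α' → α' := fun x => ⟨f x.1, by
    intro h
    apply x.2
    apply hf
    rw [← h]
    exact comm_iter hc (p ^ s) 1 x.1⟩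
  let σ' : α' → α' := fun x => ⟨σ x.1, by
    intro h
    apply x.2
    apply hσi
    rw [← Function.iterate_succ_apply' σ, Function.iterate_succ_apply]
    exact h⟩
  have hf'n : ∀ n (x : α'), (f'^[n] x).1 = f^[n] x.1 := by
    intro n
    induction n with
    | zero => intro x; rfl
    | succ n ih => intro x; rw [Function.iterate_succ_apply, ih, Function.iterate_succ_apply]
  have hσ'n : ∀ n (x : α'), (σ'^[n] x).1 = σ^[n] x.1 := by
    intro n
    induction n with
    | zero => intro x; rfl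
    | succ n ih => intro x; rw [Function.iterate_succ_apply, ih, Function.iterate_succ_apply]
  have hf'i : Function.Injective f' := by
    intro x y h
    exact Subtype.ext (hf (congrArg Subtype.val h))
  have hc' : ∀ x, f' (σ' x) = σ' (f' x) := fun x => Subtype.ext (hc x.1)
  have hσ' : ∀ x, σ'^[p ^ (s + 1)] x = x := fun x => Subtype.ext (by rw [hσ'n]; exact hσ x.1)
  have hfree : ∀ x j, σ'^[j] x = x → p ^ (s + 1) ∣ j := by
    intro x j hj
    have h1 : Function.IsPeriodicPt σ (p ^ (s + 1)) x.1 := hσ x.1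
    obtain ⟨t, ht, ht2⟩ := (Nat.dvd_prime_pow hp).1 h1.minimalPeriod_dvd
    have h2 : t = s + 1 := by
      by_contra hne
      have h3 : t ≤ s := by omega
      apply x.2
      have h4 : Function.minimalPeriod σ x.1 ∣ p ^ s := by
        rw [ht2]
        exact pow_dvd_pow p h3
      exact Function.isPeriodicPt_iff_minimalPeriod_dvd.2 h4
    have h3 : Function.IsPeriodicPt σ j x.1 := by
      have h4 := congrArg Subtype.val hj
      rw [hσ'n] at h4
      exact h4
    have h4 := h3.minimalPeriod_dvd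
    rwa [ht2, h2] at h4
  have hfin' : ∀ n, 0 < n → {x | ∃ j, σ'^[j] (f'^[n] x) = x}.Finite := by
    intro n hn
    refine ((hfin n hn).preimage (f := (Subtype.val : α' → α)) Subtype.val_injective.injOn).subset ?_
    rintro x ⟨j, hj⟩
    refine ⟨j, ?_⟩
    have h4 := congrArg Subtype.val hj
    rw [hσ'n, hf'n] at h4
    exact h4
  have hncard : ∀ n j, {x : α' | σ'^[j] (f'^[n] x) = x}.ncard =
      {x | σ^[p ^ s] x ≠ x ∧ σ^[j] (f^[n] x) = x}.ncard := by
    intro n j
    rw [← Set.ncard_image_of_injective _ (Subtype.val_injective : Function.Injective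
      (Subtype.val : α' → α))]
    congr 1
    ext x
    constructor
    · rintro ⟨y, hy, rfl⟩
      refine ⟨y.2, ?_⟩
      have h4 := congrArg Subtype.val hy
      rw [hσ'n, hf'n] at h4
      exact h4
    · rintro ⟨h1, h2⟩
      refine ⟨⟨x, h1⟩, ?_, rfl⟩
      apply Subtype.ext
      rw [hσ'n, hf'n]
      exact h2
  obtain ⟨a, ha⟩ := free_orb hf'i hc' hN hσ' hfree hfin'
  refine ⟨a, ?_, ?_⟩
  · intro n hn R _ μ hμ hμ0
    have h1 := ha n hn R μ hμ
    rw [← h1]
    have hsplit : ∀ j, ({x | σ^[j] (f^[n] x) = x}.ncard : ℕ) =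
        {x : α' | σ'^[j] (f'^[n] x) = x}.ncard +
          {x | σ^[p ^ s] x = x ∧ σ^[j] (f^[n] x) = x}.ncard := by
      intro j
      rw [hncard n j]
      have hfinj : {x | σ^[j] (f^[n] x) = x}.Finite := (hfin n hn).subset fun x hx => ⟨j, hx⟩
      rw [← Set.ncard_union_eq (s := {x | σ^[p ^ s] x ≠ x ∧ σ^[j] (f^[n] x) = x})
        (t := {x | σ^[p ^ s] x = x ∧ σ^[j] (f^[n] x) = x}) ?_
        (hfinj.subset fun x hx => hx.2) (hfinj.subset fun x hx => hx.2)]
      · congr 1
        ext x
        simp only [Set.mem_union, Set.mem_ofPred_eq]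
        tauto
      · rw [Set.disjoint_left]
        rintro x ⟨h2, _⟩ ⟨h3, _⟩
        exact h2 h3
    have h2 : ∀ j ∈ range (p ^ (s + 1)), μ ^ j * (({x | σ^[j] (f^[n] x) = x}.ncard : ℕ) : R) =
        μ ^ j * (({x : α' | σ'^[j] (f'^[n] x) = x}.ncard : ℕ) : R) +
          μ ^ j * (({x | σ^[p ^ s] x = x ∧ σ^[j] (f^[n] x) = x}.ncard : ℕ) : R) := by
      intro j _
      rw [hsplit j]
      push_cast
      ring
    rw [Finset.sum_congr rfl h2, Finset.sum_add_distrib]
    have h3 : ∑ j ∈ range (p ^ (s + 1)),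
        μ ^ j * (({x | σ^[p ^ s] x = x ∧ σ^[j] (f^[n] x) = x}.ncard : ℕ) : R) = 0 := by
      rw [pow_succ, sum_blocks μ (fun j =>
        (({x | σ^[p ^ s] x = x ∧ σ^[j] (f^[n] x) = x}.ncard : ℕ) : R)) (p ^ s) ?_ p, hμ0, zero_mul]
      intro j
      congr 2
      ext x
      simp only [Set.mem_ofPred_eq]
      refine and_congr_right fun hx => ?_
      rw [Function.iterate_add_apply, ← comm_iter hc (p ^ s) n x, hx]
    rw [h3, add_zero]
  · intro n hn R _
    have h1 := ha n hn R 1 (one_pow _)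
    rw [← h1]
    push_cast
    refine Finset.sum_congr rfl fun j _ => ?_
    rw [one_pow, one_mul, hncard n j]

end

end Pool.Agent.U273.FS
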