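import Mathlib
import Pool.Agent.U273.FS.Orb
import Pool.Agent.W528.HS.Main
import Pool.Agent.W326.HS.EI
import Pool.Agent.W111.HS.EC
import Pool.Agent.W63.HS.TR
import Pool.Agent.W804.HS.RD

/-!
# Reduction of `∏ (1 - x T)` modulo a place above `p`
-/

set_option autoImplicit false
set_option linter.unusedSectionVars false

namespace Pool.Agent.U273.FS

open Finset Polynomial Pool.Agent.W528.HS

variable {E : Type} [Field E] [CharZero E] {k : Type} [Field k]
  (θ : (integralClosure ℤ E).toSubring →+* k)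

open Classical in
/-- The reduction of an integral element (and `0` for the others). -/
noncomputable def th (x : E) : k := if h : x ∈ (integralClosure ℤ E).toSubring then θ ⟨x, h⟩ else 0

theorem th_of {x : E} (h : IsIntegral ℤ x) : th θ x = θ ⟨x, h⟩ := dif_pos h

theorem th_mul {x y : E} (hx : IsIntegral ℤ x) (hy : IsIntegral ℤ y) :
    th θ (x * y) = th θ x * th θ y := by
  rw [th_of θ hx, th_of θ hy, th_of θ (hx.mul hy), ← map_mul]
  rfl

theorem th_pow {x : E} (hx : IsIntegral ℤ x) (n : ℕ) : th θ (x ^ n) = th θ x ^ n := by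
  rw [th_of θ hx, th_of θ (hx.pow n), ← map_pow]
  rfl

theorem th_int (n : ℤ) : th θ (n : E) = (n : k) := by
  have h : IsIntegral ℤ (n : E) := by
    have := isIntegral_algebraMap (R := ℤ) (A := E) (x := n)
    simpa using this
  rw [th_of θ h]
  have h1 : (⟨(n : E), h⟩ : (integralClosure ℤ E).toSubring) = ((n : ℤ) : _) := Subtype.ext (by simp)
  rw [h1, map_intCast]

theorem isIntegral_int (n : ℤ) : IsIntegral ℤ (n : E) := by
  have := isIntegral_algebraMap (R := ℤ) (A := E) (x := n)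
  simpa using this

theorem th_one : th θ (1 : E) = 1 := by
  have := th_int θ (1 : ℤ)
  simpa using this

/-- The reduction of `∏ (1 - x T)`. -/
noncomputable def red (A : Multiset E) : k[X] := (A.map fun x => 1 - C (th θ x) * X).prod

@[simp] theorem red_zero : red θ (0 : Multiset E) = 1 := by simp [red]

theorem red_add (A B : Multiset E) : red θ (A + B) = red θ A * red θ B := by simp [red]

theorem red_cons (x : E) (B : Multiset E) : red θ (x ::ₘ B) = (1 - C (th θ x) * X) * red θ B := by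
  simp [red]

theorem red_singleton (x : E) : red θ {x} = 1 - C (th θ x) * X := by simp [red]

theorem red_ne_zero (A : Multiset E) : red θ A ≠ 0 := by
  intro h
  have h1 : (red θ A).eval 0 = 1 := by
    unfold red
    rw [eval_multiset_prod, Multiset.map_map]
    have h2 : A.map (eval 0 ∘ fun x => 1 - C (th θ x) * X) = A.map fun _ => 1 :=
      Multiset.map_congr rfl fun x _ => by simp
    rw [h2]
    simp
  rw [h, eval_zero] at h1
  exact zero_ne_one h1

/-- Lifting of a multiset of integral elements. -/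
theorem exists_lift (M : Multiset E) (hM : ∀ x ∈ M, IsIntegral ℤ x) :
    ∃ M' : Multiset (integralClosure ℤ E).toSubring, M'.map Subtype.val = M ∧
      red θ M = (M'.map fun x => 1 - C (θ x) * X).prod ∧
      ∀ m : ℕ, ((do let a ← M'; pure (a : E) : Multiset E).map fun x => x ^ m).sum =
        (M.map fun x => x ^ m).sum := by
  have hM' : ∀ x ∈ M, x ∈ (integralClosure ℤ E).toSubring := hM
  have hmap : (M.pmap (fun x hx => (⟨x, hx⟩ : (integralClosure ℤ E).toSubring)) hM').map
      Subtype.val = M := by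
    rw [Multiset.map_pmap, Multiset.pmap_eq_map, Multiset.map_id']
  refine ⟨M.pmap (fun x hx => (⟨x, hx⟩ : (integralClosure ℤ E).toSubring)) hM', hmap, ?_, ?_⟩
  · unfold red
    rw [Multiset.map_pmap]
    congr 1
    rw [← Multiset.pmap_eq_map (p := fun x => x ∈ (integralClosure ℤ E).toSubring)
      (f := fun x => 1 - C (th θ x) * X) (s := M) hM']
    refine Multiset.pmap_congr M fun x _ h1 h2 => ?_
    rw [th_of θ h1]
  · intro m
    rw [lift_eq, hmap]

/-- **The congruence between the two zeta functions of a set of closed points.** -/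
theorem congruence {N : ℕ} {μ : E} (hN : 0 < N) (hμ : μ ^ N = 1) (hμθ : th θ μ = 1)
    (a : ℕ → ℕ → ℕ) (A₁ A₂ B₁ B₂ : Multiset E) (hA₁ : ∀ x ∈ A₁, IsIntegral ℤ x)
    (hA₂ : ∀ x ∈ A₂, IsIntegral ℤ x) (hB₁ : ∀ x ∈ B₁, IsIntegral ℤ x)
    (hB₂ : ∀ x ∈ B₂, IsIntegral ℤ x)
    (hA : ∀ n, 1 ≤ n → orbSum N μ a n = (A₁.map fun x => x ^ n).sum - (A₂.map fun x => x ^ n).sum)
    (hB : ∀ n, 1 ≤ n → orbSum N (1 : E) a n =
      (B₁.map fun x => x ^ n).sum - (B₂.map fun x => x ^ n).sum) :
    red θ A₁ * red θ B₂ = red θ B₁ * red θ A₂ := by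
  obtain ⟨A₁', -, h1, h1'⟩ := exists_lift θ A₁ hA₁
  obtain ⟨A₂', -, h2, h2'⟩ := exists_lift θ A₂ hA₂
  obtain ⟨B₁', -, h3, h3'⟩ := exists_lift θ B₁ hB₁
  obtain ⟨B₂', -, h4, h4'⟩ := exists_lift θ B₂ hB₂
  rw [h1, h2, h3, h4]
  have hμI : IsIntegral ℤ μ := by
    refine ⟨X ^ N - 1, monic_X_pow_sub_C 1 hN.ne', ?_⟩
    simp [hμ]
  refine Pool.Agent.W111.HS.EC.main E N μ hN hμ a (integralClosure ℤ E).toSubring A₁' A₂' B₁' B₂'
    ?_ ?_ k θ ⟨hμI, ?_⟩
  · intro n hn
    rw [hA n hn, ← h1' n, ← h2' n]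
  · intro n hn
    rw [hB n hn, ← h3' n, ← h4' n]
  · rw [← th_of θ hμI]
    exact hμθ

/-- A root of unity of `p`-power order reduces to `1`. -/
theorem th_root {p s : ℕ} (hp : p.Prime) [CharP k p] {μ : E} (hμ : μ ^ p ^ s = 1) :
    th θ μ = 1 := by
  have hN : 0 < p ^ s := pow_pos hp.pos s
  have hμI : IsIntegral ℤ μ := by
    refine ⟨X ^ p ^ s - 1, monic_X_pow_sub_C 1 hN.ne', ?_⟩
    simp [hμ]
  have h2 : th θ μ ^ (p ^ s) = 1 := by
    rw [← th_pow θ hμI, hμ, th_one]
  have : Fact p.Prime := ⟨hp⟩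
  have h3 : (th θ μ - 1) ^ (p ^ s) = 0 := by
    rw [sub_pow_char_pow, h2, one_pow, sub_self]
  exact sub_eq_zero.mp (pow_eq_zero_iff (hN.ne') |>.mp h3)

/-- The reduction of the eigenvalues of an integral polynomial. -/
theorem red_poly {P : ℤ[X]} (hP : P.coeff 0 = 1) {B : Multiset E}
    (hB : P.map (Int.castRingHom E) = (B.map fun x => 1 - C x * X).prod) :
    red θ B = P.map (Int.castRingHom k) := by
  obtain ⟨B', hB', h1, -⟩ := exists_lift θ B (integral_of_poly hP hB)
  rw [h1]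
  exact red_prod hB hB' θ

/-- The eigenvalues of a linear map whose traces are sums over closed points are integral. -/
theorem integral_roots [IsAlgClosed E] {N : ℕ} {μ : E} (hN : 0 < N) (hμ : μ ^ N = 1)
    (a : ℕ → ℕ → ℕ) (A : Multiset E) (σ : ℤ) (hσ : σ = 1 ∨ σ = -1)
    (h : ∀ n, 1 ≤ n → orbSum N μ a n = (σ : E) * (A.map fun x => x ^ n).sum) :
    ∀ x ∈ A, IsIntegral ℤ x :=
  Pool.Agent.W326.HS.EI.main E N μ hN hμ a A σ hσ h

end Pool.Agent.U273.FS
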