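import Mathlib
import Pool.Agent.TH117.HS.Glue

/-!
# Similitudes of symmetric bilinear forms that are not semisimple
-/

set_option autoImplicit false
set_option linter.unusedSectionVars false

namespace Pool.Agent.U273.FS

open Module Module.End

variable {E : Type} [Field E] {W : Type} [AddCommGroup W] [Module E W]
  {Φ : Module.End E W} {B : W →ₗ[E] W →ₗ[E] E} {c : E}

/-- Generalized eigenspaces are orthogonal if the product of the eigenvalues is not the
multiplier. -/
theorem orth (hB : ∀ x y, B (Φ x) (Φ y) = c * B x y) {α β : E} (hαβ : α * β ≠ c) :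
    ∀ (i j : ℕ) (x y : W), ((Φ - algebraMap E _ α) ^ i) x = 0 → ((Φ - algebraMap E _ β) ^ j) y = 0 →
      B x y = 0 := by
  have key : ∀ (m i j : ℕ), i + j ≤ m → ∀ x y : W, ((Φ - algebraMap E _ α) ^ i) x = 0 →
      ((Φ - algebraMap E _ β) ^ j) y = 0 → B x y = 0 := by
    intro m
    induction m with
    | zero =>
      intro i j hij x y hx _
      have hi : i = 0 := by omega
      subst hi
      have h1 : x = 0 := by simpa using hx
      rw [h1]
      simp
    | succ m ih =>
      intro i j hij x y hx hy
      rcases Nat.eq_zero_or_pos i with rfl | hi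
      · have h1 : x = 0 := by simpa using hx
        rw [h1]
        simp
      rcases Nat.eq_zero_or_pos j with rfl | hj
      · have h1 : y = 0 := by simpa using hy
        rw [h1]
        simp
      obtain ⟨i, rfl⟩ : ∃ i', i = i' + 1 := ⟨i - 1, by omega⟩
      obtain ⟨j, rfl⟩ : ∃ j', j = j' + 1 := ⟨j - 1, by omega⟩
      set x' := (Φ - algebraMap E _ α) x with hx'
      set y' := (Φ - algebraMap E _ β) y with hy'
      have hx1 : ((Φ - algebraMap E _ α) ^ i) x' = 0 := by
        rw [hx', ← Module.End.mul_apply, ← pow_succ]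
        exact hx
      have hy1 : ((Φ - algebraMap E _ β) ^ j) y' = 0 := by
        rw [hy', ← Module.End.mul_apply, ← pow_succ]
        exact hy
      have e1 : Φ x = α • x + x' := by
        rw [hx', LinearMap.sub_apply, Module.algebraMap_end_apply]
        abel
      have e2 : Φ y = β • y + y' := by
        rw [hy', LinearMap.sub_apply, Module.algebraMap_end_apply]
        abel
      have h1 : B x' y = 0 := ih i (j + 1) (by omega) x' y hx1 hy
      have h2 : B x y' = 0 := ih (i + 1) j (by omega) x y' hx hy1
      have h3 : B x' y' = 0 := ih i j (by omega) x' y' hx1 hy1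
      have h4 := hB x y
      rw [e1, e2] at h4
      simp only [map_add, map_smul, LinearMap.add_apply, LinearMap.smul_apply, smul_eq_mul, h1, h2,
        h3] at h4
      have h5 : (c - α * β) * B x y = 0 := by linear_combination -h4
      exact (mul_eq_zero.1 h5).resolve_left (sub_ne_zero.2 hαβ.symm)
  exact fun i j x y => key (i + j) i j le_rfl x y

variable [FiniteDimensional E W]

theorem mem_max (α : E) (x : W) : x ∈ Φ.maxGenEigenspace α ↔
    ∃ i : ℕ, ((Φ - algebraMap E _ α) ^ i) x = 0 := by
  rw [Module.End.mem_maxGenEigenspace]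
  have h : (α • (1 : Module.End E W)) = algebraMap E _ α := by
    rw [Algebra.algebraMap_eq_smul_one]
  rw [h]

theorem orth_max (hB : ∀ x y, B (Φ x) (Φ y) = c * B x y) {α β : E} (hαβ : α * β ≠ c) {x y : W}
    (hx : x ∈ Φ.maxGenEigenspace α) (hy : y ∈ Φ.maxGenEigenspace β) : B x y = 0 := by
  obtain ⟨i, hi⟩ := (mem_max α x).1 hx
  obtain ⟨j, hj⟩ := (mem_max β y).1 hy
  exact orth hB hαβ i j x y hi hj

/-- An element orthogonal to the generalized eigenspace of `c / α` and in that of `α` is zero. -/
theorem eq_zero_of_orth [IsAlgClosed E] (hB : ∀ x y, B (Φ x) (Φ y) = c * B x y)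
    (hnd : ∀ x, (∀ y, B x y = 0) → x = 0) {α γ : E} (hαγ : α * γ = c) (hα : α ≠ 0) {x : W}
    (hx : x ∈ Φ.maxGenEigenspace α) (h : ∀ y ∈ Φ.maxGenEigenspace γ, B x y = 0) : x = 0 := by
  apply hnd
  intro y
  have hy : y ∈ ⨆ β, Φ.maxGenEigenspace β := by
    rw [iSup_maxGenEigenspace_eq_top]
    exact Submodule.mem_top
  induction hy using Submodule.iSup_induction' with
  | mem β y hy =>
    by_cases hβ : α * β = c
    · have h1 : β = γ := mul_left_cancel₀ hα (hβ.trans hαγ.symm)
      exact h y (h1 ▸ hy)
    · exact orth_max hB hβ hx hy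
  | zero => simp
  | add y z _ _ h1 h2 => rw [map_add, h1, h2, add_zero]

theorem finrank_le [IsAlgClosed E] (hB : ∀ x y, B (Φ x) (Φ y) = c * B x y)
    (hnd : ∀ x, (∀ y, B x y = 0) → x = 0) {α γ : E} (hαγ : α * γ = c) (hα : α ≠ 0) :
    finrank E (Φ.maxGenEigenspace α) ≤ finrank E (Φ.maxGenEigenspace γ) := by
  let T : Φ.maxGenEigenspace α →ₗ[E] Module.Dual E (Φ.maxGenEigenspace γ) :=
    { toFun := fun x => (B x.1).comp (Φ.maxGenEigenspace γ).subtype
      map_add' := fun x y => by
        ext z
        simp
      map_smul' := fun r x => by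
        ext z
        simp }
  have hT : Function.Injective T := by
    rw [injective_iff_map_eq_zero]
    intro x hx
    apply Subtype.ext
    refine eq_zero_of_orth hB hnd hαγ hα x.2 fun y hy => ?_
    exact LinearMap.congr_fun hx ⟨y, hy⟩
  have h := LinearMap.finrank_le_finrank_of_injective hT
  rwa [Subspace.dual_finrank_eq] at h

/-- **A similitude of a nondegenerate symmetric form that is not semisimple has an eigenvalue `α` with
`α ^ 2 = c` and multiplicity at least three, or two different eigenvalues `α`, `c / α` with multiplicity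
at least two.** -/
theorem ortho [IsAlgClosed E] (h2 : (2 : E) ≠ 0) (hc : c ≠ 0)
    (hB : ∀ x y, B (Φ x) (Φ y) = c * B x y) (hsymm : ∀ x y, B x y = B y x)
    (hnd : ∀ x, (∀ y, B x y = 0) → x = 0) (hΦ : ¬ Φ.IsSemisimple) :
    ∃ α : E, α ≠ 0 ∧ ((α * α = c ∧ 3 ≤ Φ.charpoly.rootMultiplicity α) ∨
      (α * α ≠ c ∧ 2 ≤ Φ.charpoly.rootMultiplicity α ∧
        2 ≤ Φ.charpoly.rootMultiplicity (c / α))) := by
  classical
  -- an eigenvalue with a Jordan block
  obtain ⟨α, v, hv, hv2⟩ : ∃ α : E, ∃ v : W, (Φ - algebraMap E _ α) ((Φ - algebraMap E _ α) v) = 0 ∧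
      (Φ - algebraMap E _ α) v ≠ 0 := by
    by_contra hcon
    push Not at hcon
    apply hΦ
    refine Pool.Agent.TH117.HS.semisimple_of_iSup Φ ?_
    rw [eq_top_iff, ← iSup_maxGenEigenspace_eq_top Φ]
    refine iSup_mono fun α => ?_
    intro x hx
    obtain ⟨i, hi⟩ := (mem_max α x).1 hx
    have key : ∀ (i : ℕ) (x : W), ((Φ - algebraMap E _ α) ^ i) x = 0 →
        (Φ - algebraMap E _ α) x = 0 := by
      intro i
      induction i with
      | zero =>
        intro x hx
        have h1 : x = 0 := by simpa using hx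
        rw [h1, map_zero]
      | succ i ih =>
        intro x hx
        rw [pow_succ, Module.End.mul_apply] at hx
        exact hcon α x (ih _ hx)
    have h1 := key i x hi
    rw [mem_eigenspace_iff]
    rw [LinearMap.sub_apply, Module.algebraMap_end_apply, sub_eq_zero] at h1
    exact h1
  set u := (Φ - algebraMap E _ α) v with hu
  have hΦv : Φ v = α • v + u := by
    rw [hu, LinearMap.sub_apply, Module.algebraMap_end_apply]
    abel
  have hΦu : Φ u = α • u := by
    rw [LinearMap.sub_apply, Module.algebraMap_end_apply, sub_eq_zero] at hv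
    exact hv
  have hα : α ≠ 0 := by
    rintro rfl
    apply hv2
    apply hnd
    intro y
    have h1 := hB u y
    rw [hΦu, zero_smul, map_zero, LinearMap.zero_apply] at h1
    exact (mul_eq_zero.1 h1.symm).resolve_left hc
  have hum : u ∈ Φ.maxGenEigenspace α := (mem_max α u).2 ⟨1, by simpa using hv⟩
  have hvm : v ∈ Φ.maxGenEigenspace α := (mem_max α v).2 ⟨2, by
    rw [pow_two, Module.End.mul_apply]
    exact hv⟩
  -- linear independence of `u`, `v`
  have hli : ∀ a b : E, a • u + b • v = 0 → a = 0 ∧ b = 0 := by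
    intro a b hab
    have h1 : (Φ - algebraMap E _ α) (a • u + b • v) = 0 := by rw [hab, map_zero]
    rw [map_add, map_smul, map_smul, hv, smul_zero, zero_add, ← hu] at h1
    have hb : b = 0 := (smul_eq_zero.1 h1).resolve_right hv2
    rw [hb, zero_smul, add_zero] at hab
    exact ⟨(smul_eq_zero.1 hab).resolve_right hv2, hb⟩
  have hli2 : LinearIndependent E (fun i : Fin 2 => if i = 0 then (⟨u, hum⟩ : Φ.maxGenEigenspace α)
      else ⟨v, hvm⟩) := by
    rw [Fintype.linearIndependent_iff]
    intro g hg
    have h1 := congrArg Subtype.val hg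
    simp only [Fin.sum_univ_two, if_true] at h1
    have h3 : g 0 • u + g 1 • v = 0 := by
      simpa using h1
    have h4 := hli _ _ h3
    intro i
    fin_cases i
    · exact h4.1
    · exact h4.2
  have hdim2 : 2 ≤ finrank E (Φ.maxGenEigenspace α) := by
    have := hli2.fintype_card_le_finrank
    simpa using this
  refine ⟨α, hα, ?_⟩
  by_cases hαc : α * α = c
  · left
    refine ⟨hαc, ?_⟩
    rw [← LinearMap.finrank_maxGenEigenspace_eq]
    by_contra hlt
    have hdim : finrank E (Φ.maxGenEigenspace α) = 2 := by omega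
    -- the form
    have e1 := hB v u
    rw [hΦv, hΦu] at e1
    simp only [map_add, map_smul, LinearMap.add_apply, LinearMap.smul_apply, smul_eq_mul] at e1
    have huu : B u u = 0 := by
      have : α * B u u = 0 := by linear_combination e1 - (B v u) * hαc
      exact (mul_eq_zero.1 this).resolve_left hα
    have e2 := hB v v
    rw [hΦv] at e2
    simp only [map_add, map_smul, LinearMap.add_apply, LinearMap.smul_apply, smul_eq_mul] at e2
    have huv : B u v = 0 := by
      have h3 : (2 * α) * B u v = 0 := by
        rw [hsymm v u, huu, ← hαc] at e2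
        linear_combination e2
      exact (mul_eq_zero.1 h3).resolve_left (mul_ne_zero h2 hα)
    apply hv2
    refine eq_zero_of_orth hB hnd hαc hα hum fun y hy => ?_
    have hspan := hli2.span_eq_top_of_card_eq_finrank (by rw [hdim]; rfl)
    have hy2 : (⟨y, hy⟩ : Φ.maxGenEigenspace α) ∈ Submodule.span E (Set.range
        (fun i : Fin 2 => if i = 0 then (⟨u, hum⟩ : Φ.maxGenEigenspace α) else ⟨v, hvm⟩)) := by
      rw [hspan]
      exact Submodule.mem_top
    rw [Submodule.mem_span_range_iff_exists_fun] at hy2
    obtain ⟨g, hg⟩ := hy2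
    have h1 := congrArg Subtype.val hg
    have h3 : g 0 • u + g 1 • v = y := by
      simpa [Fin.sum_univ_two] using h1
    rw [← h3, map_add, map_smul, map_smul, huu, huv, smul_zero, smul_zero, add_zero]
  · right
    refine ⟨hαc, ?_, ?_⟩
    · rw [← LinearMap.finrank_maxGenEigenspace_eq]
      exact hdim2
    · rw [← LinearMap.finrank_maxGenEigenspace_eq]
      exact hdim2.trans (finrank_le hB hnd (by field_simp) hα)

end Pool.Agent.U273.FS
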