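import Mathlib
import Pool.Agent.U273.FS.Core
import Pool.Agent.U273.FS.Ortho

/-!
# Semisimplicity from the reduction of the characteristic polynomial
-/

set_option autoImplicit false
set_option linter.unusedSectionVars false

namespace Pool.Agent.U273.FS

open Finset Polynomial Module Pool.Agent.W528.HS

variable {E : Type} [Field E] [CharZero E] {k : Type} [Field k]
  (θ : (integralClosure ℤ E).toSubring →+* k)

theorem red_replicate (j : ℕ) (x : E) :
    red θ (Multiset.replicate j x) = (1 - C (th θ x) * X) ^ j := by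
  simp [red]

theorem dvd_red {x : E} {A : Multiset E} {j : ℕ} (h : Multiset.replicate j x ≤ A) :
    (1 - C (th θ x) * X) ^ j ∣ red θ A := by
  obtain ⟨A', hA'⟩ := Multiset.le_iff_exists_add.1 h
  rw [hA', red_add, red_replicate]
  exact dvd_mul_right _ _

theorem dvd_red₂ {x y : E} {A : Multiset E} {i j : ℕ}
    (h : Multiset.replicate i x + Multiset.replicate j y ≤ A) :
    (1 - C (th θ x) * X) ^ i * (1 - C (th θ y) * X) ^ j ∣ red θ A := by
  obtain ⟨A', hA'⟩ := Multiset.le_iff_exists_add.1 h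
  rw [hA', red_add, red_add, red_replicate, red_replicate]
  exact dvd_mul_right _ _

theorem eval_of_dvd {Q : k[X]} {m j : ℕ} (hmj : m < j)
    (h : (1 - X : k[X]) ^ j ∣ (1 - X) ^ m * Q) : Q.eval 1 = 0 := by
  have h0 : (1 - X : k[X]) ^ m ≠ 0 := by
    refine pow_ne_zero m fun h1 => ?_
    have h2 := congrArg (fun P => P.eval 0) h1
    simp at h2
  obtain ⟨i, rfl⟩ : ∃ i, j = m + (i + 1) := ⟨j - m - 1, by omega⟩
  rw [pow_add, mul_dvd_mul_iff_left h0] at h
  obtain ⟨R, hR⟩ := (dvd_pow_self (1 - X : k[X]) (Nat.succ_ne_zero i)).trans h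
  rw [hR]
  simp

theorem sq_dvd_of_dvd {Q : k[X]} {m : ℕ} {t : k} (ht : t ≠ 1)
    (h : (1 - C t * X : k[X]) ^ 2 ∣ (1 - X) ^ m * Q) : (1 - C t * X : k[X]) ^ 2 ∣ Q := by
  have hcop : IsCoprime (1 - C t * X : k[X]) (1 - X) := by
    have h1 : (1 - t) ≠ 0 := sub_ne_zero.2 ht.symm
    refine ⟨C (1 - t)⁻¹, - C ((1 - t)⁻¹ * t), ?_⟩
    have h2 : C (1 - t)⁻¹ * (1 - C t * X) + -C ((1 - t)⁻¹ * t) * (1 - X) =
        C ((1 - t)⁻¹ * (1 - t)) := by
      simp only [C_mul, C_sub, C_1]
      ring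
    rw [h2, inv_mul_cancel₀ h1, C_1]
  exact (hcop.pow).dvd_of_dvd_mul_left h

theorem not_unit {t : k} (ht : t ≠ 0) : ¬ IsUnit (1 - C t * X : k[X]) := by
  intro h
  have h2 : (1 - C t * X : k[X]).natDegree = 1 := by
    rw [sub_eq_add_neg, ← neg_mul, ← C_neg, ← C_1, add_comm]
    exact natDegree_linear (neg_ne_zero.mpr ht)
  rw [Polynomial.isUnit_iff] at h
  obtain ⟨r, _, hr⟩ := h
  rw [← hr, natDegree_C] at h2
  exact zero_ne_one h2

variable [IsAlgClosed E] {W : Type} [AddCommGroup W] [Module E W] [FiniteDimensional E W]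
  {Φ : Module.End E W}

/-- **Semisimplicity modulo `2` for a similitude of a symmetric form.** -/
theorem semisimple_ortho [CharP k 2] (hint : ∀ x ∈ Φ.charpoly.roots, IsIntegral ℤ x)
    (H : (ZMod 2)[X]) (hred : red θ Φ.charpoly.roots = H.map (ZMod.castHom (dvd_refl 2) k))
    (m : ℕ) (hm : m ≤ 2) (Q : (ZMod 2)[X]) (hQ : Squarefree Q) (hQ1 : Q.eval 1 ≠ 0)
    (hH : H = (1 - X) ^ m * Q) (B : W →ₗ[E] W →ₗ[E] E) (c : ℤ) (hc : Odd c)
    (hB : ∀ x y, B (Φ x) (Φ y) = (c : E) * B x y) (hsymm : ∀ x y, B x y = B y x)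
    (hnd : ∀ x, (∀ y, B x y = 0) → x = 0) : Φ.IsSemisimple := by
  classical
  by_contra hΦ
  have hc0 : (c : E) ≠ 0 := by
    have : c ≠ 0 := by
      rintro rfl
      exact absurd hc (by decide)
    exact_mod_cast this
  obtain ⟨α, hα, h⟩ := ortho (by norm_num) hc0 hB hsymm hnd hΦ
  have hcp : Φ.charpoly ≠ 0 := (LinearMap.charpoly_monic Φ).ne_zero
  let ι : ZMod 2 →+* k := ZMod.castHom (dvd_refl 2) k
  have hredH : red θ Φ.charpoly.roots = (1 - X) ^ m * Q.map ι := by
    rw [hred, hH, Polynomial.map_mul, Polynomial.map_pow, Polynomial.map_sub, Polynomial.map_one,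
      Polynomial.map_X]
  have hQ1' : (Q.map ι).eval 1 ≠ 0 := by
    have h1 : (Q.map ι).eval 1 = ι (Q.eval 1) := by
      rw [← map_one ι, eval_map, eval₂_at_apply]
    rw [h1]
    exact (map_ne_zero ι).2 hQ1
  have hsep : Q.Separable := PerfectField.separable_iff_squarefree.mpr hQ
  have hsq : Squarefree (Q.map ι) := (hsep.map).squarefree
  have hthc : th θ ((c : ℤ) : E) = 1 := by
    rw [th_int]
    obtain ⟨d, hd⟩ := hc
    rw [hd]
    push_cast
    have h2 : (2 : k) = 0 := by exact_mod_cast CharP.cast_eq_zero k 2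
    rw [h2]
    ring
  have hmem : ∀ {β : E} {j : ℕ}, 0 < j → j ≤ Φ.charpoly.rootMultiplicity β →
      IsIntegral ℤ β ∧ Multiset.replicate j β ≤ Φ.charpoly.roots := by
    intro β j hj hβ
    have h1 : j ≤ Φ.charpoly.roots.count β := by rwa [count_roots]
    exact ⟨hint β (Multiset.count_pos.1 (by omega)), Multiset.le_count_iff_replicate_le.1 h1⟩
  rcases h with ⟨hαc, h3⟩ | ⟨hαc, h4, h5⟩
  · obtain ⟨hαI, hrep⟩ := hmem (by norm_num) h3
    have h1 : th θ α * th θ α = 1 := by rw [← th_mul θ hαI hαI, hαc, hthc]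
    have h2 : th θ α = 1 := by
      have h6 : (th θ α - 1) ^ 2 = 0 := by
        have h7 : (2 : k) = 0 := by exact_mod_cast CharP.cast_eq_zero k 2
        linear_combination h1 + (1 - th θ α) * h7
      exact sub_eq_zero.1 (pow_eq_zero_iff (two_ne_zero) |>.1 h6)
    have h6 := dvd_red θ hrep
    rw [h2, C_1, one_mul, hredH] at h6
    exact hQ1' (eval_of_dvd (by omega) h6)
  · obtain ⟨hαI, -⟩ := hmem (by norm_num) h4
    obtain ⟨hβI, -⟩ := hmem (by norm_num) h5
    have hne : α ≠ c / α := by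
      intro h
      apply hαc
      nth_rewrite 2 [h]
      field_simp
    have h1 : th θ α * th θ (c / α) = 1 := by
      rw [← th_mul θ hαI hβI, mul_div_cancel₀ _ hα, hthc]
    have hle : Multiset.replicate 2 α + Multiset.replicate 2 ((c : E) / α) ≤ Φ.charpoly.roots := by
      rw [Multiset.le_iff_count]
      intro x
      rw [Multiset.count_add, Multiset.count_replicate, Multiset.count_replicate, count_roots]
      by_cases hx : α = x
      · subst hx
        rw [if_pos rfl, if_neg hne.symm]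
        omega
      · rw [if_neg hx]
        by_cases hx2 : (c : E) / α = x
        · rw [← hx2, if_pos rfl]
          omega
        · rw [if_neg hx2]
          omega
    have h6 := dvd_red₂ θ hle
    rw [hredH] at h6
    by_cases ht : th θ α = 1
    · have ht' : th θ (c / α) = 1 := by rwa [ht, one_mul] at h1
      rw [ht, ht', C_1, one_mul, ← pow_add] at h6
      exact hQ1' (eval_of_dvd (by omega) h6)
    · have h7 := sq_dvd_of_dvd ht ((dvd_mul_right _ _).trans h6)
      have h8 := hsq _ (by rwa [pow_two] at h7)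
      exact not_unit (left_ne_zero_of_mul_eq_one h1) h8

end Pool.Agent.U273.FS
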