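import Mathlib
import Pool.Agent.U273.FS.AutP
import Pool.Agent.U273.FS.AutDefs
import Pool.Agent.U273.FS.Semi
import Pool.Agent.TH117.HS.Glue

/-!
# Complete varieties with an automorphism of prime power order: the theorem
-/

set_option autoImplicit false
set_option linter.unusedSectionVars false

open CategoryTheory AlgebraicGeometry Polynomial

namespace Pool.Agent.U273.FS

open Finset Module Pool.Agent.W528.HS

variable {κ : Type} [Field κ] [Fintype κ]

section

variable {X : Scheme.{0}} (π : X ⟶ Spec (CommRingCat.of κ)) (σ : X ⟶ X) (hσ : σ ≫ π = π)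

theorem act_iter (j : ℕ) (x : GeometricPoint π) :
    ((act π σ hσ)^[j] x).1 = x.1 ≫ power σ j := by
  induction j with
  | zero => exact (Category.comp_id _).symm
  | succ j ih =>
    rw [Function.iterate_succ_apply']
    change ((act π σ hσ)^[j] x).1 ≫ σ = x.1 ≫ power σ j ≫ σ
    rw [ih, Category.assoc]

theorem act_order {N : ℕ} (hord : power σ N = 𝟙 X) (x : GeometricPoint π) :
    (act π σ hσ)^[N] x = x := by
  apply Subtype.ext
  rw [act_iter, hord]
  exact Category.comp_id _

theorem fixed_finite [LocallyOfFiniteType π] [QuasiCompact π] {N : ℕ} (hN : 0 < N)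
    (hord : power σ N = 𝟙 X) (n : ℕ) (hn : 0 < n) :
    {x | ∃ j, (act π σ hσ)^[j] ((frobenius π)^[n] x) = x}.Finite := by
  refine (frobenius_finite π (Nat.mul_pos hn hN)).subset ?_
  rintro x ⟨j, hj⟩
  have hc : ∀ x, frobenius π (act π σ hσ x) = act π σ hσ (frobenius π x) :=
    frobenius_act π σ hσ
  have key : ∀ k : ℕ, (act π σ hσ)^[j * k] ((frobenius π)^[n * k] x) = x := by
    intro k
    induction k with
    | zero => rfl
    | succ k ih =>
      rw [Nat.mul_succ, Nat.mul_succ, add_comm (j * k), Function.iterate_add_apply,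
        add_comm (n * k), Function.iterate_add_apply (frobenius π), ← comm_iter hc, ih]
      exact hj
  have h1 := key N
  have h2 : (act π σ hσ)^[j * N] ((frobenius π)^[n * N] x) = (frobenius π)^[n * N] x := by
    rw [mul_comm j N]
    exact sigma_mul (act_order π σ hσ hord) j _
  rw [h2] at h1
  exact h1

end

variable {E : Type} [Field E] [CharZero E] [IsAlgClosed E]

/-- Reduction: the roots are different. -/
theorem roots_nodup {p : ℕ} (hp : p.Prime) {k : Type} [Field k] [CharP k p]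
    (θ : (integralClosure ℤ E).toSubring →+* k) {A : Multiset E}
    (hint : ∀ x ∈ A, IsIntegral ℤ x) (H : (ZMod p)[X]) (hH : Squarefree H)
    (hdeg : H.natDegree = A.card) (hred : red θ A = H.map (ZMod.castHom (dvd_refl p) k)) :
    A.Nodup := by
  have : Fact p.Prime := ⟨hp⟩
  obtain ⟨A', hA', h1, -⟩ := exists_lift θ A hint
  have hsep : H.Separable := PerfectField.separable_iff_squarefree.mpr hH
  have hsq : Squarefree (H.map (ZMod.castHom (dvd_refl p) k)) := (hsep.map).squarefree
  refine nodup_of_squarefree θ hA' hsq ?_ (h1.symm.trans hred)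
  rw [natDegree_map, hdeg]

/-- The trace on a trivial eigenspace. -/
theorem trace_trivial {V : Type} [AddCommGroup V] [Module E V] [FiniteDimensional E V]
    {Φ g : Module.End E V} (hc : Commute Φ g) {N : ℕ} (hN : 0 < N) (hg : g ^ N = 1) {ω : E}
    (hω : ω ^ N = 1) (h : g.eigenspace ω = ⊥) (n : ℕ) :
    ∑ j ∈ range N, (ω⁻¹) ^ j * LinearMap.trace E V (Φ ^ n * g ^ j) = 0 := by
  rw [← Pool.Agent.TH117.HS.trace_eig hc hN hg hω n]
  have h1 : Subsingleton (g.eigenspace ω) := by
    rw [h]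
    infer_instance
  have h2 : (Φ.restrict (Pool.Agent.TH117.HS.mapsTo_eig hc ω)) ^ n = 0 := by
    ext x
    exact congrArg Subtype.val (Subsingleton.elim _ (0 : g.eigenspace ω))
  rw [h2, map_zero, mul_zero]

/-- **Semisimplicity on the part of a faithful character.** -/
theorem faithful_part {p s : ℕ} (hp : p.Prime) {X : Scheme.{0}}
    (π : X ⟶ Spec (CommRingCat.of κ)) [LocallyOfFiniteType π] [QuasiCompact π] (σ : X ⟶ X)
    (hσ : σ ≫ π = π) (hord : power σ (p ^ (s + 1)) = 𝟙 X) (D : CohomologyGroups E)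
    (hD : D.IsCohomology π σ hσ (p ^ (s + 1))) (m : ℕ) (hm : m ≤ D.top)
    (htriv : ∀ i, i ≠ m → ∀ v, (D.aut i ^ p ^ s) v = v) (P₁ P₂ : ℤ[X])
    (hP : HasQuotientZeta E π σ hσ (p ^ s) (p ^ (s + 1)) P₁ P₂)
    {k : Type} [Field k] [CharP k p] (θ : (integralClosure ℤ E).toSubring →+* k)
    {ω : E} (hω : IsPrimitiveRoot ω (p ^ (s + 1))) :
    (∀ x ∈ ((D.frob m).restrict
      (Pool.Agent.TH117.HS.mapsTo_eig (hD.commute m) ω)).charpoly.roots, IsIntegral ℤ x) ∧
    (Even m → red θ ((D.frob m).restrict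
      (Pool.Agent.TH117.HS.mapsTo_eig (hD.commute m) ω)).charpoly.roots *
        P₁.map (Int.castRingHom k) = P₂.map (Int.castRingHom k)) ∧
    (Odd m → red θ ((D.frob m).restrict
      (Pool.Agent.TH117.HS.mapsTo_eig (hD.commute m) ω)).charpoly.roots *
        P₂.map (Int.castRingHom k) = P₁.map (Int.castRingHom k)) := by
  classical
  have hN : 0 < p ^ (s + 1) := pow_pos hp.pos _
  have hNE : ((p ^ (s + 1) : ℕ) : E) ≠ 0 := by exact_mod_cast hN.ne'
  set Φ := (D.frob m).restrict (Pool.Agent.TH117.HS.mapsTo_eig (hD.commute m) ω) with hΦ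
  obtain ⟨a, ha1, ha2⟩ := aut_orb (frobenius_inj π) (frobenius_act π σ hσ) hp
    (act_order π σ hσ hord) (fixed_finite π σ hσ hN hord)
  have hω0 : ω ≠ 0 := hω.ne_zero hN.ne'
  have hμ : IsPrimitiveRoot ω⁻¹ (p ^ (s + 1)) := hω.inv
  have hωps : ω ^ p ^ s ≠ 1 := by
    intro h
    have h1 := hω.dvd_of_pow_eq_one _ h
    have h2 := Nat.le_of_dvd (pow_pos hp.pos s) h1
    have h3 : p ^ s < p ^ (s + 1) := Nat.pow_lt_pow_right hp.one_lt (Nat.lt_succ_self s)
    omega
  have hμps : (ω⁻¹) ^ p ^ s ≠ 1 := by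
    rw [inv_pow]
    exact fun h => hωps (inv_eq_one.1 h)
  have hμ0 : ∑ i ∈ range p, ((ω⁻¹) ^ p ^ s) ^ i = 0 := by
    have h2 := mul_geom_sum ((ω⁻¹) ^ p ^ s) p
    rw [← pow_mul, ← pow_succ, hμ.pow_eq_one, sub_self] at h2
    exact (mul_eq_zero.1 h2).resolve_left (sub_ne_zero.2 hμps)
  -- the trivial eigenspaces
  have hbot : ∀ i, i ≠ m → (D.aut i).eigenspace ω = ⊥ := by
    intro i hi
    rw [eq_bot_iff]
    intro v hv
    rw [Module.End.mem_eigenspace_iff] at hv
    have h1 : ∀ j : ℕ, (D.aut i ^ j) v = ω ^ j • v := by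
      intro j
      induction j with
      | zero => rw [pow_zero, pow_zero, one_smul]; rfl
      | succ j ih =>
        rw [pow_succ]
        change (D.aut i ^ j) (D.aut i v) = _
        rw [hv, map_smul, ih, smul_smul, pow_succ, mul_comm]
    have h2 := h1 (p ^ s)
    rw [htriv i hi v] at h2
    have h3 : (1 - ω ^ p ^ s) • v = 0 := by
      rw [sub_smul, one_smul, ← h2]
      exact sub_self v
    exact (smul_eq_zero.1 h3).resolve_left (sub_ne_zero.2 hωps.symm)
  -- the sums over closed points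
  have hsum : ∀ n, 1 ≤ n → orbSum (p ^ (s + 1)) (ω⁻¹) a n =
      (((-1) ^ m : ℤ) : E) * (Φ.charpoly.roots.map fun x => x ^ n).sum := by
    intro n hn
    have h1 := ha1 n hn E (ω⁻¹) hμ.pow_eq_one hμ0
    apply mul_left_cancel₀ hNE
    rw [← h1, ← Pool.Agent.W63.HS.TR.main E _ Φ n]
    have h2 : ∀ j ∈ range (p ^ (s + 1)), (ω⁻¹) ^ j *
        (({x | (act π σ hσ)^[j] ((frobenius π)^[n] x) = x}.ncard : ℕ) : E) =
        ∑ i ∈ range (D.top + 1), (-1) ^ i *
          ((ω⁻¹) ^ j * LinearMap.trace E (D.H i) (D.frob i ^ n * D.aut i ^ j)) := by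
      intro j _
      have h3 := hD.lefschetz n j hn
      change (({x | (act π σ hσ)^[j] ((frobenius π)^[n] x) = x}.ncard : ℕ) : E) = _ at h3
      rw [h3, Finset.mul_sum]
      refine Finset.sum_congr rfl fun i _ => ?_
      unfold traceOf
      ring
    rw [Finset.sum_congr rfl h2, Finset.sum_comm,
      Finset.sum_eq_single m (fun i _ hi => ?_) (fun h => ?_)]
    · rw [← Finset.mul_sum, ← Pool.Agent.TH117.HS.trace_eig (hD.commute m) hN (hD.order m)
        hω.pow_eq_one n]
      push_cast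
      ring
    · rw [← Finset.mul_sum, trace_trivial (hD.commute i) hN (hD.order i) hω.pow_eq_one (hbot i hi) n,
        mul_zero]
    · exact absurd (mem_range.2 (by omega)) h
  have hint : ∀ x ∈ Φ.charpoly.roots, IsIntegral ℤ x := by
    refine integral_roots hN hμ.pow_eq_one a _ ((-1) ^ m) ?_ hsum
    rcases Nat.even_or_odd m with h | h
    · left; exact h.neg_one_pow
    · right; exact h.neg_one_pow
  obtain ⟨B₁, B₂, ⟨hP₁, hB₁⟩, ⟨hP₂, hB₂⟩, hZ⟩ := hP
  have hBsum : ∀ n, 1 ≤ n → orbSum (p ^ (s + 1)) (1 : E) a n =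
      (B₂.map fun x => x ^ n).sum - (B₁.map fun x => x ^ n).sum := by
    intro n hn
    have h1 := ha2 n hn E
    apply mul_left_cancel₀ hNE
    rw [← h1]
    exact hZ n hn
  have hth := th_root θ (s := s + 1) hp hμ.pow_eq_one
  refine ⟨hint, ?_, ?_⟩
  · intro hev
    have h := congruence θ hN hμ.pow_eq_one hth a Φ.charpoly.roots 0 B₂ B₁ hint (by simp)
      (integral_of_poly hP₂ hB₂) (integral_of_poly hP₁ hB₁)
      (by
        intro n hn
        rw [hsum n hn, hev.neg_one_pow]
        simp) hBsum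
    rw [red_zero, mul_one, red_poly θ hP₁ hB₁, red_poly θ hP₂ hB₂] at h
    exact h
  · intro hodd
    have h := congruence θ hN hμ.pow_eq_one hth a 0 Φ.charpoly.roots B₂ B₁ (by simp) hint
      (integral_of_poly hP₂ hB₂) (integral_of_poly hP₁ hB₁)
      (by
        intro n hn
        rw [hsum n hn, hodd.neg_one_pow]
        simp) hBsum
    rw [red_zero, one_mul, red_poly θ hP₁ hB₁, red_poly θ hP₂ hB₂, mul_comm] at h
    exact h.symm

theorem le_iSup_of_semisimple {V : Type} [AddCommGroup V] [Module E V] [FiniteDimensional E V]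
    {Φ : Module.End E V} (M : Submodule E V) (hM : ∀ x ∈ M, Φ x ∈ M)
    (hs : Module.End.IsSemisimple (Φ.restrict hM)) : M ≤ ⨆ α, Φ.eigenspace α := by
  intro x hx
  have h2 : (⟨x, hx⟩ : M) ∈ ⨆ α, Module.End.eigenspace (Φ.restrict hM) α := by
    rw [hs.iSup_eigenspace_eq_top]
    exact Submodule.mem_top
  have h3 : (⨆ α, Module.End.eigenspace (Φ.restrict hM) α) ≤
      (⨆ α, Φ.eigenspace α).comap M.subtype := by
    refine iSup_le fun α w hw => ?_
    rw [Submodule.mem_comap]
    refine Submodule.mem_iSup_of_mem α ?_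
    rw [Module.End.mem_eigenspace_iff] at hw ⊢
    exact congrArg Subtype.val hw
  exact h3 h2

/-- Gluing along the eigenspaces of the automorphism. -/
theorem glue_parts {V : Type} [AddCommGroup V] [Module E V] [FiniteDimensional E V]
    {Φ g : Module.End E V} (hc : Commute Φ g) {p s : ℕ} (hp : p.Prime)
    (hg : g ^ p ^ (s + 1) = 1)
    (h : ∀ ω : E, IsPrimitiveRoot ω (p ^ (s + 1)) →
      Module.End.IsSemisimple (Φ.restrict (Pool.Agent.TH117.HS.mapsTo_eig hc ω))) :
    Φ.IsSemisimple ↔ SemisimpleOn Φ ((g ^ p ^ s).eigenspace 1) := by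
  classical
  have hN : 0 < p ^ (s + 1) := pow_pos hp.pos _
  have hpow : ∀ (ω : E) (v : V), g v = ω • v → ∀ m : ℕ, (g ^ m) v = ω ^ m • v := by
    intro ω v hv m
    induction m with
    | zero => rw [pow_zero, pow_zero, one_smul]; rfl
    | succ m ih =>
      rw [pow_succ]
      change (g ^ m) (g v) = _
      rw [hv, map_smul, ih, smul_smul, pow_succ, mul_comm]
  constructor
  · intro hs
    unfold SemisimpleOn
    rw [hs.iSup_eigenspace_eq_top]
    exact le_top
  · intro hK
    have hgs : g.IsSemisimple := by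
      have hsep : (X ^ p ^ (s + 1) - C 1 : E[X]).Separable :=
        separable_X_pow_sub_C (1 : E) (by exact_mod_cast hN.ne') one_ne_zero
      refine Module.End.isSemisimple_of_squarefree_aeval_eq_zero hsep.squarefree ?_
      simp [hg]
    refine Pool.Agent.TH117.HS.semisimple_of_iSup Φ ?_
    rw [eq_top_iff, ← hgs.iSup_eigenspace_eq_top]
    refine iSup_le fun ω => ?_
    by_cases hω : ω ^ p ^ (s + 1) = 1
    · obtain ⟨t, ht, hord⟩ := (Nat.dvd_prime_pow hp).1 (orderOf_dvd_of_pow_eq_one hω)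
      by_cases hts : t = s + 1
      · have hprim : IsPrimitiveRoot ω (p ^ (s + 1)) := by
          rw [← hts, ← hord]
          exact IsPrimitiveRoot.orderOf ω
        exact le_iSup_of_semisimple _ _ (h ω hprim)
      · refine le_trans ?_ hK
        intro v hv
        rw [Module.End.mem_eigenspace_iff] at hv ⊢
        rw [hpow ω v hv]
        congr 1
        have h1 : orderOf ω ∣ p ^ s := by
          rw [hord]
          exact pow_dvd_pow p (by omega)
        exact orderOf_dvd_iff_pow_eq_one.1 h1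
    · intro v hv
      rw [Module.End.mem_eigenspace_iff] at hv
      have h2 := hpow ω v hv (p ^ (s + 1))
      rw [hg] at h2
      have h3 : (1 - ω ^ p ^ (s + 1)) • v = 0 := by
        rw [sub_smul, one_smul, ← h2]
        exact sub_self v
      have h4 : v = 0 := (smul_eq_zero.1 h3).resolve_left (sub_ne_zero.2 (Ne.symm hω))
      rw [h4]
      exact Submodule.zero_mem _

/-- **Complete varieties with an automorphism of prime power order.** -/
theorem automorphism {p s : ℕ} (hp : p.Prime) {X : Scheme.{0}}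
    (π : X ⟶ Spec (CommRingCat.of κ)) [LocallyOfFiniteType π] [QuasiCompact π] (σ : X ⟶ X)
    (hσ : σ ≫ π = π) (hord : power σ (p ^ (s + 1)) = 𝟙 X) (D : CohomologyGroups E)
    (hD : D.IsCohomology π σ hσ (p ^ (s + 1))) (m : ℕ) (hm : m ≤ D.top)
    (htriv : ∀ i, i ≠ m → ∀ v, (D.aut i ^ p ^ s) v = v) (P₁ P₂ : ℤ[X])
    (hP : HasQuotientZeta E π σ hσ (p ^ s) (p ^ (s + 1)) P₁ P₂)
    (H : (ZMod p)[X]) (hH : Squarefree H)
    (hdim : ∀ ω : E, IsPrimitiveRoot ω (p ^ (s + 1)) →
      H.natDegree = Module.finrank E ((D.aut m).eigenspace ω))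
    (hev : Even m → H * P₁.map (Int.castRingHom (ZMod p)) = P₂.map (Int.castRingHom (ZMod p)))
    (hodd : Odd m → H * P₂.map (Int.castRingHom (ZMod p)) = P₁.map (Int.castRingHom (ZMod p))) :
    (D.frob m).IsSemisimple ↔ SemisimpleOn (D.frob m) ((D.aut m ^ p ^ s).eigenspace 1) := by
  classical
  have hfact : Fact p.Prime := ⟨hp⟩
  refine glue_parts (hD.commute m) hp (hD.order m) fun ω hω => ?_
  obtain ⟨k, _, _, ⟨θ⟩⟩ := Pool.Agent.W804.HS.RD.main E p hp
  obtain ⟨hint, h1, h2⟩ := faithful_part hp π σ hσ hord D hD m hm htriv P₁ P₂ hP θ hω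
  set Φ := (D.frob m).restrict (Pool.Agent.TH117.HS.mapsTo_eig (hD.commute m) ω) with hΦ
  have hne : ∀ P : ℤ[X], (∃ B : Multiset E, IsCharPoly P B) → P.map (Int.castRingHom k) ≠ 0 := by
    rintro P ⟨B, hP, -⟩ h
    have h3 := congrArg (fun Q => Polynomial.coeff Q 0) h
    simp only [coeff_map, hP, coeff_zero, map_one] at h3
    exact one_ne_zero h3
  obtain ⟨B₁, B₂, hB₁, hB₂, -⟩ := hP
  let ι : ZMod p →+* k := ZMod.castHom (dvd_refl p) k
  have hι : ∀ P : ℤ[X], (P.map (Int.castRingHom (ZMod p))).map ι = P.map (Int.castRingHom k) := by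
    intro P
    rw [Polynomial.map_map]
    congr 1
    exact RingHom.ext_int _ _
  have hred : red θ Φ.charpoly.roots = H.map ι := by
    rcases Nat.even_or_odd m with hm | hm
    · have h3 := congrArg (Polynomial.map ι) (hev hm)
      rw [Polynomial.map_mul, hι, hι] at h3
      exact mul_right_cancel₀ (hne P₁ ⟨B₁, hB₁⟩) ((h1 hm).trans h3.symm)
    · have h3 := congrArg (Polynomial.map ι) (hodd hm)
      rw [Polynomial.map_mul, hι, hι] at h3
      exact mul_right_cancel₀ (hne P₂ ⟨B₂, hB₂⟩) ((h2 hm).trans h3.symm)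
  have hcard : Φ.charpoly.roots.card = Module.finrank E ((D.aut m).eigenspace ω) := by
    rw [← (IsAlgClosed.splits Φ.charpoly).natDegree_eq_card_roots, LinearMap.charpoly_natDegree]
  have hnodup : Φ.charpoly.roots.Nodup :=
    roots_nodup hp θ hint H hH (by rw [hcard, hdim ω hω]) hred
  have hchar : Φ.charpoly.Separable := by
    rw [← nodup_roots_iff_of_splits (LinearMap.charpoly_monic Φ).ne_zero
      (IsAlgClosed.splits Φ.charpoly)]
    exact hnodup
  exact Module.End.isSemisimple_of_squarefree_aeval_eq_zero hchar.squarefree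
    (LinearMap.aeval_self_charpoly Φ)

end Pool.Agent.U273.FS
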