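import Mathlib
import Pool.Agent.U273.FS.Pts
import Pool.Agent.U273.FS.Semi

/-!
# Elliptic surfaces over the projective line: main theorem
-/

set_option autoImplicit false
set_option linter.unusedSectionVars false

namespace Pool.Agent.U273.FS

open Finset Polynomial Module Pool.Agent.W528.HS

variable {κ : Type} [Field κ] [Fintype κ]

/-- Extensions of every degree. -/
theorem exists_ext (κ : Type) [Field κ] [Fintype κ] (m : ℕ) (hm : 1 ≤ m) :
    ∃ (L : Type) (_ : Field L) (_ : Fintype L) (_ : Algebra κ L), Module.finrank κ L = m := by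
  obtain ⟨c, hc⟩ := CharP.exists κ
  have hcp : Fact c.Prime := ⟨CharP.char_is_prime κ c⟩
  have : NeZero m := ⟨by omega⟩
  let _ : Fintype (FiniteField.Extension κ c m) := Fintype.ofFinite _
  exact ⟨FiniteField.Extension κ c m, inferInstance, inferInstance, inferInstance,
    FiniteField.finrank_extension κ c m⟩

theorem odd_card (h2 : ringChar κ ≠ 2) : Odd (Fintype.card κ) := by
  rw [Nat.odd_iff]
  exact FiniteField.odd_card_of_char_ne_two h2

theorem card_eq {E : Type} [Field E] (L : Type) [Field L] [Fintype L] [Algebra κ L] :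
    (Fintype.card L : E) = (Fintype.card κ : E) ^ Module.finrank κ L := by
  rw [Module.card_eq_pow_finrank (K := κ) (V := L)]
  push_cast
  rfl

/-- The number of points outside of a subset. -/
theorem card_compl {X : Type} [Fintype X] (P : X → Prop) :
    Nat.card {v : X // P v} + Nat.card {v : X // ¬ P v} = Fintype.card X := by
  classical
  rw [Nat.card_eq_fintype_card, Nat.card_eq_fintype_card, Fintype.card_subtype_compl]
  have := Fintype.card_subtype_le P
  omega

/-- `2` is invertible in the coefficients, etc.: the reduction of an odd integer. -/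
theorem th_odd {E : Type} [Field E] [CharZero E] {k : Type} [Field k] [CharP k 2]
    (θ : (integralClosure ℤ E).toSubring →+* k) {c : ℤ} (hc : Odd c) : th θ (c : E) = 1 := by
  rw [th_int]
  obtain ⟨d, hd⟩ := hc
  rw [hd]
  push_cast
  have h2 : (2 : k) = 0 := by exact_mod_cast CharP.cast_eq_zero k 2
  rw [h2]
  ring

variable {E : Type} [Field E] [CharZero E] [IsAlgClosed E]

/-- Semisimplicity on the whole cohomology group. -/
theorem semisimple_all {S : Weierstrass κ} (D : SecondCohomology S E)
    (h : D.frobW.IsSemisimple) : D.FrobeniusIsSemisimple := by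
  classical
  unfold SecondCohomology.FrobeniusIsSemisimple
  have hN : D.frobN.IsSemisimple := by
    obtain ⟨j, hj, hj2⟩ := D.algebraic
    have hq : (Fintype.card κ : E) ^ j ≠ 0 := by
      refine pow_ne_zero _ ?_
      exact_mod_cast Fintype.card_ne_zero
    have hsep : (X ^ j - C ((Fintype.card κ : E) ^ j) : E[X]).Separable :=
      separable_X_pow_sub_C _ (by exact_mod_cast hj.ne') hq
    refine Module.End.isSemisimple_of_squarefree_aeval_eq_zero hsep.squarefree ?_
    ext x
    simp only [map_sub, map_pow, aeval_X, aeval_C, LinearMap.sub_apply, hj2 x,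
      LinearMap.zero_apply]
    rw [← map_pow, Module.algebraMap_end_apply, sub_self]
  refine Pool.Agent.TH117.HS.semisimple_of_iSup _ ?_
  rw [eq_top_iff]
  rintro ⟨x, y⟩ _
  have h1 : x ∈ ⨆ α, D.frobN.eigenspace α := by
    rw [hN.iSup_eigenspace_eq_top]
    exact Submodule.mem_top
  have h2 : y ∈ ⨆ α, D.frobW.eigenspace α := by
    rw [h.iSup_eigenspace_eq_top]
    exact Submodule.mem_top
  have h3 : (⨆ α, D.frobN.eigenspace α) ≤
      (⨆ α, Module.End.eigenspace (LinearMap.prodMap D.frobN D.frobW) α).comap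
        (LinearMap.inl E D.N D.W) := by
    refine iSup_le fun α w hw => ?_
    rw [Submodule.mem_comap]
    refine Submodule.mem_iSup_of_mem α ?_
    rw [Module.End.mem_eigenspace_iff] at hw ⊢
    rw [LinearMap.inl_apply, LinearMap.prodMap_apply, hw, map_zero]
    exact Prod.ext rfl (smul_zero α).symm
  have h4 : (⨆ α, D.frobW.eigenspace α) ≤
      (⨆ α, Module.End.eigenspace (LinearMap.prodMap D.frobN D.frobW) α).comap
        (LinearMap.inr E D.N D.W) := by
    refine iSup_le fun α w hw => ?_
    rw [Submodule.mem_comap]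
    refine Submodule.mem_iSup_of_mem α ?_
    rw [Module.End.mem_eigenspace_iff] at hw ⊢
    rw [LinearMap.inr_apply, LinearMap.prodMap_apply, hw, map_zero]
    exact Prod.ext (smul_zero α).symm rfl
  have h5 : ((x, y) : D.N × D.W) = LinearMap.inl E D.N D.W x + LinearMap.inr E D.N D.W y := by
    simp
  rw [h5]
  exact Submodule.add_mem _ (h3 h1) (h4 h2)

/-- **Semisimplicity from the reduction modulo `2` of the characteristic polynomial on `W`.** -/
theorem semisimple_of_red (h2 : ringChar κ ≠ 2) {S : Weierstrass κ} (D : SecondCohomology S E)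
    {k : Type} [Field k] [CharP k 2] (θ : (integralClosure ℤ E).toSubring →+* k)
    (hint : ∀ x ∈ D.frobW.charpoly.roots, IsIntegral ℤ x)
    (H : (ZMod 2)[X])
    (hred : red θ D.frobW.charpoly.roots = H.map (ZMod.castHom (dvd_refl 2) k))
    (m : ℕ) (hm : m ≤ 2) (Q : (ZMod 2)[X]) (hQ : Squarefree Q) (hQ1 : Q.eval 1 ≠ 0)
    (hH : H = (1 - X) ^ m * Q) : D.FrobeniusIsSemisimple := by
  refine semisimple_all D ?_
  refine semisimple_ortho θ hint H hred m hm Q hQ hQ1 hH D.form ((Fintype.card κ : ℤ) ^ 2) ?_ ?_
    D.symm D.nondegenerate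
  · have := odd_card h2
    exact (by exact_mod_cast this : Odd ((Fintype.card κ : ℕ) : ℤ)).pow
  · intro x y
    have := D.similitude x y
    push_cast
    exact this

/-- The eigenvalues of Frobenius on `W` and closed points. -/
theorem roots_sum {S : Weierstrass κ} (D : SecondCohomology S E) {a : ℕ → ℕ → ℕ}
    (ha : ∀ (L : Type) [Field L] [Fintype L] [Algebra κ L],
      (S.charSum L : E) = orbSum 2 (-1 : E) a (Module.finrank κ L)) (n : ℕ) (hn : 1 ≤ n) :
    orbSum 2 (-1 : E) a n = (D.frobW.charpoly.roots.map fun x => x ^ n).sum := by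
  obtain ⟨L, _, _, _, hL⟩ := exists_ext κ n hn
  have h1 := ha L
  have h3 : LinearMap.trace E D.W (D.frobW ^ Module.finrank κ L) = (S.charSum L : E) :=
    D.trace_eq L
  rw [← h3, hL, Pool.Agent.W63.HS.TR.main] at h1
  exact h1.symm

/-- **Elliptic surfaces and the curve of `2`-torsion points.** -/
theorem elliptic (h2 : ringChar κ ≠ 2) (S : Weierstrass κ)
    (P₁ P₂ : ℤ[X]) (hPZ : S.HasTorsionZeta E P₁ P₂) (H : (ZMod 2)[X]) (hH : IsAlmostSquarefree H)
    (hmodH : H * P₂.map (Int.castRingHom (ZMod 2)) =
      (1 - X) ^ 2 * P₁.map (Int.castRingHom (ZMod 2)))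
    (D : SecondCohomology S E) : D.FrobeniusIsSemisimple := by
  classical
  obtain ⟨B₁, B₂, ⟨hP₁, hB₁⟩, ⟨hP₂, hB₂⟩, hZ'⟩ := hPZ
  have hZ : ∀ (L : Type) [Field L] [Fintype L] [Algebra κ L],
      (S.torsionPoints L : E) = (B₂.map fun x => x ^ Module.finrank κ L).sum -
        (B₁.map fun x => x ^ Module.finrank κ L).sum := fun L _ _ _ => hZ' L
  obtain ⟨m, hm, Q, hQ, hQ1, hHQ⟩ := hH
  have hmod : (1 - X) ^ m * Q * P₂.map (Int.castRingHom (ZMod 2)) =
      (1 - X) ^ 2 * P₁.map (Int.castRingHom (ZMod 2)) := by rw [← hHQ, hmodH]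
  obtain ⟨k, _, _, ⟨θ⟩⟩ := Pool.Agent.W804.HS.RD.main E 2 Nat.prime_two
  obtain ⟨a, ha⟩ := surface h2 S
  have hsum := roots_sum D (fun L _ _ _ => (ha L).1 E)
  have hint : ∀ x ∈ D.frobW.charpoly.roots, IsIntegral ℤ x := by
    refine integral_roots (N := 2) (μ := (-1 : E)) (by norm_num) (by norm_num) a _ 1 (Or.inl rfl) ?_
    intro n hn
    rw [hsum n hn]
    simp
  have hqn : ∀ j : ℕ, IsIntegral ℤ ((Fintype.card κ : E) ^ j) := by
    intro j
    have := isIntegral_int (E := E) ((Fintype.card κ : ℤ) ^ j)
    push_cast at this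
    exact this
  have hthq : ∀ j : ℕ, th θ ((Fintype.card κ : E) ^ j) = 1 := by
    intro j
    have h5 : Odd ((Fintype.card κ : ℤ) ^ j) := by
      have := odd_card h2
      exact (by exact_mod_cast this : Odd ((Fintype.card κ : ℕ) : ℤ)).pow
    have h6 := th_odd θ (E := E) h5
    push_cast at h6
    exact h6
  have hred := congruence θ (N := 2) (μ := (-1 : E)) (by norm_num) (by norm_num)
    (th_root θ (s := 1) Nat.prime_two (by norm_num)) a
    D.frobW.charpoly.roots 0
    ({(Fintype.card κ : E) ^ 2} + ({(Fintype.card κ : E) ^ 1} + B₁)) B₂ hint (by simp)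
    (by
      intro x hx
      rw [Multiset.mem_add, Multiset.mem_add, Multiset.mem_singleton, Multiset.mem_singleton] at hx
      rcases hx with rfl | rfl | hx
      · exact hqn _
      · exact hqn _
      · exact integral_of_poly hP₁ hB₁ x hx)
    (fun x hx => integral_of_poly hP₂ hB₂ x hx)
    (by
      intro n hn
      rw [hsum n hn]
      simp)
    (by
      intro n hn
      obtain ⟨L, _, _, _, hL⟩ := exists_ext κ n hn
      have h1 := (ha L).2 E
      have h3 := card_compl (fun v : Option L × L => S.cubic L v.1 v.2 = 0)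
      have h4 : ((S.torsionPoints L : ℕ) : E) +
          ((Nat.card {v : Option L × L // S.cubic L v.1 v.2 ≠ 0} : ℕ) : E) =
          ((Fintype.card L : E) + 1) * Fintype.card L := by
        have h5 : Fintype.card (Option L × L) = (Fintype.card L + 1) * Fintype.card L := by
          rw [Fintype.card_prod, Fintype.card_option]
        rw [h5] at h3
        exact_mod_cast h3
      rw [hZ L, card_eq (κ := κ) (E := E) L, hL] at h4
      rw [hL] at h1
      rw [← h1]
      simp only [Multiset.map_add, Multiset.sum_add, Multiset.map_singleton,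
        Multiset.sum_singleton, pow_one]
      linear_combination h4)
  rw [red_zero, mul_one, red_add, red_add, red_singleton, red_singleton, hthq, hthq, C_1, one_mul,
    red_poly θ hP₁ hB₁, red_poly θ hP₂ hB₂] at hred
  let ι : ZMod 2 →+* k := ZMod.castHom (dvd_refl 2) k
  have hι : ∀ P : ℤ[X], (P.map (Int.castRingHom (ZMod 2))).map ι = P.map (Int.castRingHom k) := by
    intro P
    rw [Polynomial.map_map]
    congr 1
    exact RingHom.ext_int _ _
  have hne : P₂.map (Int.castRingHom k) ≠ 0 := by
    intro h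
    have h3 := congrArg (fun Q => Polynomial.coeff Q 0) h
    simp only [coeff_map, hP₂, coeff_zero, map_one] at h3
    exact one_ne_zero h3
  refine semisimple_of_red h2 D θ hint ((1 - X) ^ m * Q) ?_ m hm Q hQ hQ1 rfl
  have h5 := congrArg (Polynomial.map ι) hmod
  rw [Polynomial.map_mul, Polynomial.map_mul (p := (1 - X) ^ 2), hι, hι] at h5
  apply mul_right_cancel₀ hne
  rw [hred]
  refine Eq.trans ?_ h5.symm
  simp only [Polynomial.map_pow, Polynomial.map_sub, Polynomial.map_one, Polynomial.map_X]
  ring

end Pool.Agent.U273.FS
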