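import Mathlib
import Pool.Agent.U273.FS.EllMain

/-!
# Points of small varieties and roots of unity
-/

set_option autoImplicit false
set_option linter.unusedSectionVars false

namespace Pool.Agent.U273.FS

open Finset Polynomial Module Pool.Agent.W528.HS

/-- The number of roots of an irreducible polynomial in an extension. -/
theorem card_roots_irreducible {κ : Type} [Field κ] [Fintype κ] {g : κ[X]} (hg : Irreducible g)
    (L : Type) [Field L] [Fintype L] [Algebra κ L] :
    Nat.card {t : L // aeval t g = 0} =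
      if g.natDegree ∣ Module.finrank κ L then g.natDegree else 0 := by
  classical
  have hcard : Nat.card κ ^ Module.finrank κ L = Fintype.card L := by
    rw [Nat.card_eq_fintype_card, ← Module.card_eq_pow_finrank]
  split_ifs with h
  · have h1 := (hg.natDegree_dvd_iff_dvd_X_pow_card_pow_sub_X).1 h
    rw [hcard] at h1
    have hne : (X ^ Fintype.card L - X : L[X]) ≠ 0 :=
      FiniteField.X_pow_card_sub_X_ne_zero L Fintype.one_lt_card
    have hspl : (X ^ Fintype.card L - X : L[X]).Splits := by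
      rw [splits_iff_card_roots, FiniteField.roots_X_pow_card_sub_X,
        FiniteField.X_pow_card_sub_X_natDegree_eq L Fintype.one_lt_card]
      rfl
    have h2 : g.map (algebraMap κ L) ∣ (X ^ Fintype.card L - X : L[X]) := by
      have := Polynomial.map_dvd (algebraMap κ L) h1
      simpa using this
    have h3 : (g.map (algebraMap κ L)).Splits := hspl.of_dvd hne h2
    have hg0 : g.map (algebraMap κ L) ≠ 0 := fun h0 => by
      rw [h0, zero_dvd_iff] at h2
      exact hne h2
    have hnodup : (g.map (algebraMap κ L)).roots.Nodup :=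
      nodup_roots ((PerfectField.separable_of_irreducible hg).map)
    have h4 : (g.map (algebraMap κ L)).roots.toFinset.card = g.natDegree := by
      rw [Multiset.toFinset_card_of_nodup hnodup, ← h3.natDegree_eq_card_roots, natDegree_map]
    rw [Nat.card_eq_fintype_card, Fintype.card_subtype, ← h4]
    congr 1
    ext t
    rw [mem_filter, Multiset.mem_toFinset, mem_roots hg0, IsRoot.def, eval_map, aeval_def]
    simp
  · rw [Nat.card_eq_zero]
    left
    refine ⟨fun ⟨t, ht⟩ => h ?_⟩
    refine hg.natDegree_dvd_of_dvd_X_pow_card_pow_sub_X ?_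
    rw [hcard]
    exact (hg.dvd_iff_aeval_eq_zero (b := t) ht).1 (by simp [FiniteField.pow_card])

/-- The zeros of a product of powers of different monic irreducible polynomials. -/
theorem card_zeros {κ : Type} [Field κ] [Fintype κ] {b : κ[X]} {u : κ} (hu : u ≠ 0)
    (G : Finset κ[X]) (hG : ∀ g ∈ G, g.Monic ∧ Irreducible g) (e : κ[X] → ℕ)
    (he : ∀ g ∈ G, 0 < e g) (hb : b = C u * ∏ g ∈ G, g ^ e g)
    (L : Type) [Field L] [Fintype L] [Algebra κ L] :
    Nat.card {t : L // aeval t b = 0} =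
      ∑ g ∈ G, if g.natDegree ∣ Module.finrank κ L then g.natDegree else 0 := by
  classical
  rw [Nat.card_eq_fintype_card, Fintype.card_subtype]
  have hb0 : ∀ t : L, aeval t b = 0 ↔ ∃ g ∈ G, aeval t g = 0 := by
    intro t
    rw [hb, map_mul, aeval_C, map_prod, mul_eq_zero, prod_eq_zero_iff]
    constructor
    · rintro (h | ⟨g, hg, h⟩)
      · exact absurd ((map_eq_zero _).1 h) hu
      · rw [map_pow] at h
        exact ⟨g, hg, (pow_eq_zero_iff (he g hg).ne').1 h⟩
    · rintro ⟨g, hg, h⟩
      right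
      exact ⟨g, hg, by rw [map_pow, h, zero_pow (he g hg).ne']⟩
  have hmin : ∀ t : L, ∀ g ∈ G, (aeval t g = 0 ↔ minpoly κ t = g) := by
    intro t g hg
    constructor
    · intro h
      exact (minpoly.eq_of_irreducible_of_monic (hG g hg).2 h (hG g hg).1).symm
    · intro h
      rw [← h]
      exact minpoly.aeval κ t
  rw [Finset.card_eq_sum_card_fiberwise (f := fun t : L => minpoly κ t) (t := G)]
  · refine Finset.sum_congr rfl fun g hg => ?_
    rw [← card_roots_irreducible (hG g hg).2 L, Nat.card_eq_fintype_card, Fintype.card_subtype]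
    congr 1
    ext t
    rw [mem_filter, mem_filter, mem_filter, hb0 t]
    constructor
    · rintro ⟨_, h⟩
      exact ⟨mem_univ _, (hmin t g hg).2 h⟩
    · rintro ⟨_, h⟩
      exact ⟨⟨mem_univ _, g, hg, h⟩, (hmin t g hg).1 h⟩
  · intro t ht
    rw [Finset.mem_coe, mem_filter, hb0 t] at ht
    obtain ⟨_, g, hg, h⟩ := ht
    rw [Finset.mem_coe]
    change minpoly κ t ∈ G
    rw [(hmin t g hg).1 h]
    exact hg

section

variable {E : Type} [Field E] [CharZero E] [IsAlgClosed E]

theorem exists_prim (m : ℕ) (hm : 0 < m) : ∃ ζ : E, IsPrimitiveRoot ζ m := by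
  have : NeZero m := ⟨hm.ne'⟩
  have : NeZero (m : E) := ⟨by exact_mod_cast hm.ne'⟩
  obtain ⟨ζ, hζ⟩ := IsAlgClosed.exists_root (cyclotomic m E) (degree_cyclotomic_pos m E hm).ne'
  exact ⟨ζ, (isRoot_cyclotomic_iff).1 hζ⟩

/-- Power sums of the roots of unity. -/
theorem sum_nthRoots (m n : ℕ) (hm : 0 < m) :
    ((nthRoots m (1 : E)).map fun x => x ^ n).sum = ((if m ∣ n then m else 0 : ℕ) : E) := by
  obtain ⟨ζ, hζ⟩ := exists_prim (E := E) m hm
  rw [hζ.nthRoots_eq (one_pow m), Multiset.map_map]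
  have h1 : (Multiset.range m).map ((fun x : E => x ^ n) ∘ fun x => ζ ^ x * 1) =
      (Multiset.range m).map fun i => (ζ ^ n) ^ i := by
    refine Multiset.map_congr rfl fun i _ => ?_
    simp only [Function.comp, mul_one]
    rw [← pow_mul, ← pow_mul, mul_comm]
  rw [h1]
  have h2 : ((Multiset.range m).map fun i => (ζ ^ n) ^ i).sum = ∑ i ∈ range m, (ζ ^ n) ^ i := rfl
  rw [h2]
  split_ifs with h
  · rw [(hζ.pow_eq_one_iff_dvd n).2 h]
    simp
  · have h3 : ζ ^ n ≠ 1 := fun h4 => h ((hζ.pow_eq_one_iff_dvd n).1 h4)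
    have h4 := mul_geom_sum (ζ ^ n) m
    rw [← pow_mul, mul_comm n m, pow_mul, hζ.pow_eq_one, one_pow, sub_self] at h4
    rw [(mul_eq_zero.1 h4).resolve_left (sub_ne_zero.2 h3)]
    simp

theorem prod_nthRoots (m : ℕ) (hm : 0 < m) :
    (1 - X ^ m : ℤ[X]).map (Int.castRingHom E) =
      ((nthRoots m (1 : E)).map fun x => 1 - C x * X).prod := by
  classical
  obtain ⟨ζ, hζ⟩ := exists_prim (E := E) m hm
  have hnodup : (nthRoots m (1 : E)).Nodup := hζ.nthRoots_one_nodup
  have h1 : ((nthRoots m (1 : E)).map fun x => 1 - C x * X).prod =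
      ∏ x ∈ nthRootsFinset m (1 : E), (1 - C x * X) := by
    rw [Finset.prod, nthRootsFinset_def, Multiset.toFinset_val, hnodup.dedup]
  rw [h1]
  apply Polynomial.funext
  intro y
  rw [eval_prod]
  have h2 := IsPrimitiveRoot.pow_sub_pow_eq_prod_sub_mul (1 : E) y hm hζ
  rw [one_pow] at h2
  simp only [Polynomial.map_sub, Polynomial.map_one, Polynomial.map_pow, map_X, eval_sub, eval_one,
    eval_pow, eval_X, eval_mul, eval_C]
  exact h2

theorem red_nthRoots {k : Type} [Field k] (θ : (integralClosure ℤ E).toSubring →+* k) (m : ℕ)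
    (hm : 0 < m) : red θ (nthRoots m (1 : E)) = 1 - X ^ m := by
  rw [red_poly θ (P := 1 - X ^ m) (by simp [hm.ne]) (prod_nthRoots m hm)]
  simp

theorem integral_nthRoots (m : ℕ) (hm : 0 < m) : ∀ x ∈ nthRoots m (1 : E), IsIntegral ℤ x := by
  intro x hx
  rw [mem_nthRoots hm] at hx
  refine ⟨X ^ m - 1, monic_X_pow_sub_C 1 hm.ne', ?_⟩
  simp [hx]

end

/-- The geometric sum. -/
noncomputable def geo (m : ℕ) : (ZMod 2)[X] := ∑ i ∈ range m, X ^ i

theorem geo_mul (m : ℕ) : (1 - X) * geo m = 1 - X ^ m := mul_neg_geom_sum X m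

theorem geo_eval (m : ℕ) (hm : Odd m) : (geo m).eval 1 = 1 := by
  unfold geo
  rw [eval_finsetSum]
  simp only [eval_pow, eval_X, one_pow, sum_const, card_range, nsmul_eq_mul, mul_one]
  obtain ⟨d, rfl⟩ := hm
  push_cast
  have h2 : (2 : ZMod 2) = 0 := by decide
  rw [h2]
  ring

theorem geo_squarefree (m : ℕ) (hm : Odd m) : Squarefree (geo m) := by
  have h1 : (X ^ m - C 1 : (ZMod 2)[X]).Separable := by
    refine separable_X_pow_sub_C 1 ?_ one_ne_zero
    obtain ⟨d, rfl⟩ := hm
    push_cast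
    have h2 : (2 : ZMod 2) = 0 := by decide
    rw [h2]
    simp
  refine h1.squarefree.squarefree_of_dvd ⟨-(1 - X), ?_⟩
  have := geo_mul m
  rw [C_1]
  linear_combination this

theorem geo_coprime {m n : ℕ} (hm : Odd m) (h : Nat.Coprime m n) : IsCoprime (geo m) (geo n) := by
  rw [Polynomial.isCoprime_iff_aeval_ne_zero_of_isAlgClosed _ (AlgebraicClosure (ZMod 2))]
  intro a
  by_contra hcon
  push Not at hcon
  obtain ⟨h1, h2⟩ := hcon
  have key : ∀ j : ℕ, aeval a (geo j) = 0 → a ^ j = 1 := by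
    intro j hj
    have h3 := congrArg (aeval a) (geo_mul j)
    rw [map_mul, hj, mul_zero, map_sub, map_one, map_pow, aeval_X] at h3
    exact (sub_eq_zero.1 h3.symm).symm
  have ha : a = 1 := by
    have h3 := orderOf_dvd_of_pow_eq_one (key m h1)
    have h4 := orderOf_dvd_of_pow_eq_one (key n h2)
    have h5 := Nat.dvd_gcd h3 h4
    rw [h, Nat.dvd_one] at h5
    exact orderOf_eq_one_iff.1 h5
  rw [ha] at h1
  have h3 : aeval (1 : AlgebraicClosure (ZMod 2)) (geo m) =
      algebraMap (ZMod 2) (AlgebraicClosure (ZMod 2)) ((geo m).eval 1) := by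
    rw [← map_one (algebraMap (ZMod 2) (AlgebraicClosure (ZMod 2))), aeval_algebraMap_apply]
    simp [coe_aeval_eq_eval]
  rw [h3, geo_eval m hm, map_one] at h1
  exact one_ne_zero h1

end Pool.Agent.U273.FS
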