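import Mathlib

/-!
# Multisets of roots of unity which are unions of complete sets of primitive roots
-/

set_option autoImplicit false
set_option linter.unusedSectionVars false

namespace Pool.Agent.U273.FS

open Polynomial

section

variable {k : Type} [Field k]

/-- The product over the primitive roots. -/
theorem prod_primitive {r : ℕ} (hr : 0 < r) {y : k} (hy : IsPrimitiveRoot y r) {t : k}
    (_ht : t ≠ 0) : Associated (∏ z ∈ primitiveRoots r k, (1 - C (t * z) * X))
      ((cyclotomic r k).comp (C t * X)) := by
  have h0 : ∀ z ∈ primitiveRoots r k, z ≠ 0 := by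
    intro z hz
    exact ((mem_primitiveRoots hr).1 hz).ne_zero hr.ne'
  have h1 : ∏ z ∈ primitiveRoots r k, (1 - C (t * z) * X) =
      (∏ z ∈ primitiveRoots r k, (-C z)) * ∏ z ∈ primitiveRoots r k, (C t * X - C z⁻¹) := by
    rw [← Finset.prod_mul_distrib]
    refine Finset.prod_congr rfl fun z hz => ?_
    have h2 : C z * C z⁻¹ = (1 : k[X]) := by rw [← C_mul, mul_inv_cancel₀ (h0 z hz), C_1]
    rw [C_mul]
    linear_combination -h2
  have h2 : ∏ z ∈ primitiveRoots r k, (C t * X - C z⁻¹) =
      ∏ z ∈ primitiveRoots r k, (C t * X - C z) := by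
    refine Finset.prod_bij' (fun z _ => z⁻¹) (fun z _ => z⁻¹) ?_ ?_ ?_ ?_ ?_
    · intro z hz
      rw [mem_primitiveRoots hr] at hz ⊢
      exact hz.inv
    · intro z hz
      rw [mem_primitiveRoots hr] at hz ⊢
      exact hz.inv
    · intro z _
      exact inv_inv z
    · intro z _
      exact inv_inv z
    · intro z _
      rfl
  have h3 : (cyclotomic r k).comp (C t * X) = ∏ z ∈ primitiveRoots r k, (C t * X - C z) := by
    rw [cyclotomic_eq_prod_X_sub_primitiveRoots hy, Polynomial.prod_comp]
    refine Finset.prod_congr rfl fun z _ => ?_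
    simp
  have h4 : IsUnit (∏ z ∈ primitiveRoots r k, (-C z : k[X])) := by
    rw [IsUnit.prod_iff]
    intro z hz
    rw [← C_neg]
    exact isUnit_C.2 (neg_ne_zero.2 (h0 z hz)).isUnit
  rw [h1, h2, ← h3]
  exact associated_unit_mul_left _ _ h4

open Classical in
/-- A multiset of `M`-th roots of unity with constant multiplicities on the elements of the same
order is a union of complete sets of primitive roots of unity. -/
theorem exists_cyc {M : ℕ} (hM : 0 < M) {t : k} (ht : t ≠ 0) : ∀ (n : ℕ) (Y : Multiset k),
    Y.card = n → (∀ y ∈ Y, y ^ M = 1) →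
    (∀ y z : k, orderOf y = orderOf z → y ^ M = 1 → Y.count y = Y.count z) →
    ∃ r : Multiset ℕ, (∀ m ∈ r, 0 < m ∧ m ∣ M) ∧ (r.map Nat.totient).sum = Y.card ∧
      Associated ((Y.map fun y => 1 - C (t * y) * X).prod)
        (r.map fun m => (cyclotomic m k).comp (C t * X)).prod := by
  intro n
  induction n using Nat.strong_induction_on with
  | _ n ih =>
    intro Y hn hY hc
    rcases Y.empty_or_exists_mem with rfl | ⟨y, hy⟩
    · exact ⟨0, by simp, by simp, by simp⟩
    · have hyM := hY y hy
      have hd : 0 < orderOf y := orderOf_pos_iff.2 (isOfFinOrder_iff_pow_eq_one.2 ⟨M, hM, hyM⟩)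
      have hprim : IsPrimitiveRoot y (orderOf y) := IsPrimitiveRoot.orderOf y
      have hle : (primitiveRoots (orderOf y) k).val ≤ Y := by
        rw [Multiset.le_iff_count]
        intro z
        by_cases hz : z ∈ primitiveRoots (orderOf y) k
        · have h1 : orderOf y = orderOf z := ((mem_primitiveRoots hd).1 hz).eq_orderOf
          rw [← hc y z h1 hyM]
          refine le_trans (Multiset.nodup_iff_count_le_one.1 (Finset.nodup _) z) ?_
          exact Multiset.count_pos.2 hy
        · rw [Multiset.count_eq_zero_of_notMem hz]
          exact Nat.zero_le _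
      obtain ⟨Y', hY'⟩ := Multiset.le_iff_exists_add.1 hle
      have hcardP : (primitiveRoots (orderOf y) k).val.card = (orderOf y).totient :=
        hprim.card_primitiveRoots
      have hcard : Y'.card < n := by
        rw [← hn, hY', Multiset.card_add, hcardP]
        have := Nat.totient_pos.2 hd
        omega
      obtain ⟨r, h1, h2, h3⟩ := ih _ hcard Y' rfl
        (fun z hz => hY z (by rw [hY']; exact Multiset.mem_add.2 (Or.inr hz)))
        (by
          intro z w hzw hz
          have h5 := hc z w hzw hz
          rw [hY', Multiset.count_add, Multiset.count_add] at h5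
          have h6 : (primitiveRoots (orderOf y) k).val.count z =
              (primitiveRoots (orderOf y) k).val.count w := by
            have h7 : z ∈ (primitiveRoots (orderOf y) k).val ↔
                w ∈ (primitiveRoots (orderOf y) k).val := by
              rw [Finset.mem_val, Finset.mem_val, mem_primitiveRoots hd, mem_primitiveRoots hd,
                IsPrimitiveRoot.iff_orderOf, IsPrimitiveRoot.iff_orderOf, hzw]
            by_cases h8 : z ∈ (primitiveRoots (orderOf y) k).val
            · rw [Multiset.count_eq_one_of_mem (Finset.nodup _) h8,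
                Multiset.count_eq_one_of_mem (Finset.nodup _) (h7.1 h8)]
            · rw [Multiset.count_eq_zero_of_notMem h8,
                Multiset.count_eq_zero_of_notMem (fun h => h8 (h7.2 h))]
          omega)
      refine ⟨orderOf y ::ₘ r, ?_, ?_, ?_⟩
      · intro m hm
        rcases Multiset.mem_cons.1 hm with rfl | hm
        · exact ⟨hd, orderOf_dvd_of_pow_eq_one hyM⟩
        · exact h1 m hm
      · rw [Multiset.map_cons, Multiset.sum_cons, h2, hY', Multiset.card_add, hcardP]
      · rw [Multiset.map_cons, Multiset.prod_cons, hY', Multiset.map_add, Multiset.prod_add]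
        exact (prod_primitive hd hprim ht).mul_mul h3

end

open Classical in
/-- The power sums determine a multiset up to the multiplicity of zero. -/
theorem powerSum_inj {E : Type} [Field E] [CharZero E] {A B : Multiset E}
    (h : ∀ n : ℕ, 1 ≤ n → (A.map fun x => x ^ n).sum = (B.map fun x => x ^ n).sum)
    (h0 : A.count 0 = B.count 0) : A = B := by
  ext x
  by_cases hx : x = 0
  · rw [hx, h0]
  let S : Finset E := A.toFinset ∪ B.toFinset
  by_cases hxS : x ∈ S
  · have hsum : ∀ (D : Multiset E), D.toFinset ⊆ S → ∀ n : ℕ,
        (D.map fun x => x ^ n).sum = ∑ z ∈ S, (D.count z : E) * z ^ n := by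
      intro D hD n
      rw [Finset.sum_multiset_map_count]
      rw [Finset.sum_subset hD]
      · refine Finset.sum_congr rfl fun z _ => ?_
        rw [nsmul_eq_mul]
      · intro z _ hz
        rw [Multiset.mem_toFinset] at hz
        rw [Multiset.count_eq_zero_of_notMem hz, zero_smul]
    have hlin := (linearIndependent_iff'.1 (linearIndependent_monoidHom (Multiplicative ℕ) E))
      (S.image fun z => powersHom E z)
      (fun χ => ((A.count (χ (Multiplicative.ofAdd 1)) : E) -
        B.count (χ (Multiplicative.ofAdd 1))) * χ (Multiplicative.ofAdd 1)) ?_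
      (powersHom E x) (Finset.mem_image_of_mem _ hxS)
    · simp only [powersHom_apply, toAdd_ofAdd, pow_one] at hlin
      have h1 := (mul_eq_zero.1 hlin).resolve_right hx
      exact_mod_cast sub_eq_zero.1 h1
    · funext n
      rw [Finset.sum_apply, Finset.sum_image]
      · have h1 := h (n.toAdd + 1) (by omega)
        rw [hsum A Finset.subset_union_left, hsum B Finset.subset_union_right] at h1
        simp only [Pi.smul_apply, powersHom_apply, toAdd_ofAdd, pow_one, smul_eq_mul,
          Pi.zero_apply]
        rw [← sub_eq_zero, ← Finset.sum_sub_distrib] at h1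
        rw [← h1]
        refine Finset.sum_congr rfl fun z _ => ?_
        rw [pow_succ]
        ring
      · intro z _ w _ hzw
        have := congrArg (fun χ : Multiplicative ℕ →* E => χ (Multiplicative.ofAdd 1)) hzw
        simpa using this
  · have h1 : x ∉ A := fun h => hxS (Finset.mem_union_left _ (Multiset.mem_toFinset.2 h))
    have h2 : x ∉ B := fun h => hxS (Finset.mem_union_right _ (Multiset.mem_toFinset.2 h))
    rw [Multiset.count_eq_zero_of_notMem h1, Multiset.count_eq_zero_of_notMem h2]

end Pool.Agent.U273.FS
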