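import Mathlib
import Pool.Agent.U273.FS.Core
import Pool.Agent.U273.FS.CycA
import Pool.Agent.U273.FS.Cyc

/-!
# Eigenvalues which are `Q` times a root of unity, and cyclotomic polynomials modulo `p`
-/

set_option autoImplicit false
set_option linter.unusedSectionVars false

namespace Pool.Agent.U273.FS

open Finset Polynomial Pool.Agent.W528.HS

variable {E : Type} [Field E] [CharZero E] [IsAlgClosed E]

theorem map_orbSum {R S : Type} [CommRing R] [CommRing S] (f : R →+* S) (N : ℕ) (μ : R)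
    (a : ℕ → ℕ → ℕ) (n : ℕ) : f (orbSum N μ a n) = orbSum N (f μ) a n := by
  simp [orbSum, map_sum]

/-- Homomorphisms with prescribed action on the roots of unity. -/
theorem exists_hom {M : ℕ} (hM : 0 < M) {ζ : algebraicClosure ℚ E} (hζ : IsPrimitiveRoot ζ M)
    {U : ℕ} (hU : U.Coprime M) :
    ∃ g : (algebraicClosure ℚ E) →ₐ[ℚ] E, g ζ = (ζ : E) ^ U := by
  have hint : ∀ s : algebraicClosure ℚ E, IsIntegral ℚ s := by
    intro s
    have h1 : IsIntegral ℚ (s : E) := (mem_algebraicClosure_iff.1 s.2).isIntegral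
    exact (isIntegral_algHom_iff (algebraicClosure ℚ E).val Subtype.val_injective).1 h1
  refine IntermediateField.exists_algHom_of_splits_of_aeval
    (fun s => ⟨hint s, IsAlgClosed.splits _⟩) ?_
  rw [← cyclotomic_eq_minpoly_rat hζ hM]
  have h1 : IsPrimitiveRoot (ζ : E) M :=
    hζ.map_of_injective (f := (algebraicClosure ℚ E).val) Subtype.val_injective
  have h2 : IsPrimitiveRoot ((ζ : E) ^ U) M := h1.pow_of_coprime U hU
  have h3 := h2.isRoot_cyclotomic hM
  rw [IsRoot.def] at h3
  rw [aeval_def, eval₂_eq_eval_map, map_cyclotomic]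
  exact h3

theorem pow_modEq {R : Type} [Monoid R] {x : R} {N m n : ℕ} (hx : x ^ N = 1) (h : m ≡ n [MOD N]) :
    x ^ m = x ^ n := by
  rw [pow_eq_pow_mod m hx, pow_eq_pow_mod n hx]
  exact congrArg (fun i => x ^ i) h

theorem mem_algClosure {x : E} (hx : IsIntegral ℤ x) : x ∈ algebraicClosure ℚ E := by
  rw [mem_algebraicClosure_iff]
  exact (hx.tower_top (A := ℚ)).isAlgebraic

theorem root_integral {x : E} {M : ℕ} (hM : 0 < M) (hx : x ^ M = 1) : IsIntegral ℤ x := by
  refine ⟨X ^ M - 1, monic_X_pow_sub_C 1 hM.ne', ?_⟩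
  simp [hx]

/-- Lifting of residues prime to the order. -/
theorem exists_lift_unit {p : ℕ} (hp : p.Prime) {M' d u : ℕ} (hM' : 0 < M') (hpM : ¬ p ∣ M')
    (hd : d ∣ M') (hu : u.Coprime d) (s b : ℕ) :
    ∃ U : ℕ, U ≡ u [MOD d] ∧ U ≡ 1 [MOD p ^ s] ∧ U.Coprime (p ^ b * M') := by
  have hdp : Nat.Coprime d (p ^ (s + 1)) := by
    refine Nat.Coprime.pow_right _ ?_
    rw [Nat.coprime_comm, Nat.Prime.coprime_iff_not_dvd hp]
    exact fun h => hpM (h.trans hd)
  obtain ⟨W, hW1, hW2⟩ := Nat.chineseRemainder hdp u 1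
  have hWd : W.Coprime d := by
    have := hW1.gcd_eq
    rw [Nat.Coprime, this]
    exact hu
  have hWp : W.Coprime (p ^ (s + 1)) := by
    have := hW2.gcd_eq
    rw [Nat.Coprime, this]
    exact Nat.coprime_one_left _
  have hWn : W.Coprime (d * p ^ (s + 1)) := Nat.Coprime.mul_right hWd hWp
  have hdvd : d * p ^ (s + 1) ∣ M' * p ^ (b + (s + 1)) :=
    Nat.mul_dvd_mul hd (pow_dvd_pow p (by omega))
  have hpos : 0 < M' * p ^ (b + (s + 1)) := Nat.mul_pos hM' (pow_pos hp.pos _)
  have : NeZero (M' * p ^ (b + (s + 1))) := ⟨hpos.ne'⟩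
  obtain ⟨v, hv⟩ := ZMod.unitsMap_surjective hdvd (ZMod.unitOfCoprime W hWn)
  refine ⟨v.val.val, ?_⟩
  have hUW : (v.val.val : ZMod (d * p ^ (s + 1))) = (W : ZMod (d * p ^ (s + 1))) := by
    have h1 := congrArg Units.val hv
    rw [ZMod.unitsMap_def, Units.coe_map, ZMod.coe_unitOfCoprime] at h1
    rw [← h1]
    change _ = ZMod.castHom hdvd _ v.val
    rw [ZMod.castHom_apply, ZMod.cast_eq_val]
  rw [ZMod.natCast_eq_natCast_iff] at hUW
  refine ⟨?_, ?_, ?_⟩
  · exact (hUW.of_mul_right _).trans hW1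
  · exact ((hUW.of_mul_left _).trans hW2).of_dvd (pow_dvd_pow p (Nat.le_succ s))
  · have h1 := ZMod.val_coe_unit_coprime v
    have h2 : p ^ b * M' ∣ M' * p ^ (b + (s + 1)) := by
      rw [mul_comm (p ^ b)]
      exact Nat.mul_dvd_mul_left _ (pow_dvd_pow p (by omega))
    exact Nat.Coprime.coprime_dvd_right h2 h1

open Classical in
/-- **The eigenvalues which are `Q` times a root of unity form a union of complete sets of
primitive roots of unity modulo `p`.** -/
theorem cyc_part {p : ℕ} (hp : p.Prime) {k : Type} [Field k] [CharP k p]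
    (θ : (integralClosure ℤ E).toSubring →+* k) {s : ℕ} {μ : E} (hμ : μ ^ p ^ s = 1)
    (a : ℕ → ℕ → ℕ) (A : Multiset E) (hint : ∀ x ∈ A, IsIntegral ℤ x) {ε : ℤ} (hε : ε ≠ 0)
    (hsum : ∀ n, 1 ≤ n → orbSum (p ^ s) μ a n = (ε : E) * (A.map fun x => x ^ n).sum)
    {Q : ℕ} (hQ : (Q : k) ≠ 0) :
    ∃ r : Multiset ℕ, (∀ m ∈ r, 0 < m ∧ ¬ p ∣ m) ∧ (r.map Nat.totient).sum =
      (A.filter fun x => ∃ n : ℕ, 0 < n ∧ x ^ n = (Q : E) ^ n).card ∧
      (r.map fun m => (cyclotomic m k).comp (C (Q : k) * X)).prod ∣ red θ A := by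
  have hfact : Fact p.Prime := ⟨hp⟩
  have hQ0 : Q ≠ 0 := by
    rintro rfl
    exact hQ (by simp)
  have hQE : (Q : E) ≠ 0 := by exact_mod_cast hQ0
  set P : E → Prop := fun x => ∃ n : ℕ, 0 < n ∧ x ^ n = (Q : E) ^ n with hP
  set R := A.filter P with hR
  -- a common exponent
  obtain ⟨M₀, hM₀, hM₀R⟩ : ∃ M₀ : ℕ, 0 < M₀ ∧ ∀ x ∈ R, x ^ M₀ = (Q : E) ^ M₀ := by
    have : ∀ S : Multiset E, (∀ x ∈ S, P x) → ∃ M₀ : ℕ, 0 < M₀ ∧ ∀ x ∈ S, x ^ M₀ = (Q : E) ^ M₀ := by
      intro S
      induction S using Multiset.induction_on with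
      | empty => exact fun _ => ⟨1, one_pos, fun x hx => absurd hx (Multiset.notMem_zero x)⟩
      | cons y S ih =>
        intro h
        obtain ⟨m, hm, hm'⟩ := ih fun x hx => h x (Multiset.mem_cons_of_mem hx)
        obtain ⟨n, hn, hn'⟩ := h y (Multiset.mem_cons_self y S)
        refine ⟨m * n, Nat.mul_pos hm hn, fun x hx => ?_⟩
        rcases Multiset.mem_cons.1 hx with rfl | hx
        · rw [mul_comm, pow_mul, hn', ← pow_mul]
        · rw [pow_mul, hm' x hx, ← pow_mul]
    exact this R fun x hx => (Multiset.mem_filter.1 hx).2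
  set M := M₀ * p ^ s with hMdef
  have hM : 0 < M := Nat.mul_pos hM₀ (pow_pos hp.pos _)
  have hMR : ∀ x ∈ R, (x / Q) ^ M = 1 := by
    intro x hx
    rw [div_pow, hMdef, pow_mul x, hM₀R x hx, ← pow_mul]
    exact div_self (pow_ne_zero _ hQE)
  have hμM : μ ^ M = 1 := by rw [hMdef, mul_comm, pow_mul, hμ, one_pow]
  obtain ⟨b, M', hpM', hMM⟩ := Nat.exists_eq_pow_mul_and_not_dvd hM.ne' p hp.ne_one
  have hM' : 0 < M' := Nat.pos_of_ne_zero fun h => hpM' (h ▸ dvd_zero p)
  -- a primitive root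
  obtain ⟨ζ₀, hζ₀⟩ := exists_prim (E := E) M hM
  let ζ : algebraicClosure ℚ E := ⟨ζ₀, mem_algClosure (root_integral hM hζ₀.pow_eq_one)⟩
  have hζ : IsPrimitiveRoot ζ M :=
    IsPrimitiveRoot.of_map_of_injective (f := (algebraicClosure ℚ E).val) hζ₀ Subtype.val_injective
  -- the multiset of elements of the algebraic closure
  have hAK : ∀ x ∈ A, x ∈ algebraicClosure ℚ E := fun x hx => mem_algClosure (hint x hx)
  let v : algebraicClosure ℚ E → E := Subtype.val
  have hv : Function.Injective v := Subtype.val_injective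
  obtain ⟨A', hA'⟩ : ∃ A' : Multiset (algebraicClosure ℚ E), A'.map v = A := by
    refine ⟨A.pmap (fun x hx => (⟨x, hx⟩ : algebraicClosure ℚ E)) hAK, ?_⟩
    rw [Multiset.map_pmap, Multiset.pmap_eq_map, Multiset.map_id']
  let μ' : algebraicClosure ℚ E := ⟨μ, mem_algClosure (root_integral hM hμM)⟩
  have hv' : ∀ x : algebraicClosure ℚ E, (algebraicClosure ℚ E).val x = v x := fun _ => rfl
  have hsum' : ∀ n, 1 ≤ n → orbSum (p ^ s) μ' a n =
      (ε : algebraicClosure ℚ E) * (A'.map fun x => x ^ n).sum := by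
    intro n hn
    apply hv
    have h1 : v (orbSum (p ^ s) μ' a n) = orbSum (p ^ s) μ a n :=
      map_orbSum (algebraicClosure ℚ E).val.toRingHom (p ^ s) μ' a n
    have h2 : v ((ε : algebraicClosure ℚ E) * (A'.map fun x => x ^ n).sum) =
        (ε : E) * (A.map fun x => x ^ n).sum := by
      rw [← hv', map_mul, map_intCast, map_multiset_sum, Multiset.map_map, ← hA', Multiset.map_map]
      rfl
    rw [h1, h2, hsum n hn]
  -- reduction
  have hred : ∀ x ∈ R, th θ x = (Q : k) * th θ (x / Q) := by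
    intro x hx
    have h1 : IsIntegral ℤ (Q : E) := by
      have := isIntegral_int (E := E) (Q : ℤ)
      simpa using this
    have h2 : x = (Q : E) * (x / Q) := by field_simp
    conv_lhs => rw [h2]
    rw [th_mul θ h1 (root_integral hM (hMR x hx))]
    congr 1
    have := th_int θ (Q : ℤ)
    simpa using this
  have hthM : ∀ x ∈ R, th θ (x / Q) ^ M' = 1 := by
    intro x hx
    have h2 : th θ (x / Q) ^ M = 1 := by
      rw [← th_pow θ (root_integral hM (hMR x hx)), hMR x hx, th_one]
    rw [hMM, mul_comm, pow_mul] at h2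
    have h3 : (th θ (x / Q) ^ M' - 1) ^ (p ^ b) = 0 := by
      rw [sub_pow_char_pow, h2, one_pow, sub_self]
    exact sub_eq_zero.mp (pow_eq_zero_iff ((pow_pos hp.pos b).ne') |>.mp h3)
  set Y : Multiset k := R.map fun x => th θ (x / Q) with hY
  have hYM : ∀ y ∈ Y, y ^ M' = 1 := by
    intro y hy
    obtain ⟨x, hx, rfl⟩ := Multiset.mem_map.1 hy
    exact hthM x hx
  -- the Galois action
  have hgal : ∀ U : ℕ, U ≡ 1 [MOD p ^ s] → U.Coprime M → Y = Y.map fun y => y ^ U := by
    intro U hU1 hUM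
    obtain ⟨g, hg⟩ := exists_hom hM hζ hUM
    have hroot : ∀ x : algebraicClosure ℚ E, v x ^ M = 1 → g x = v x ^ U := by
      intro x hx
      have h1 : x ^ M = 1 := by
        apply hv
        rw [← hv', map_pow, hv', hx]
        rfl
      have : NeZero M := ⟨hM.ne'⟩
      obtain ⟨i, -, hi⟩ := hζ.eq_pow_of_pow_eq_one h1
      rw [← hi, map_pow, hg, ← hv' (ζ ^ i), map_pow, ← pow_mul, ← pow_mul, mul_comm]
      rfl
    have hgμ : g μ' = μ := by
      rw [hroot μ' hμM]
      change μ ^ U = μ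
      have h1 := pow_modEq hμ hU1
      rwa [pow_one] at h1
    have hgA : A'.map g = A := by
      refine powerSum_inj ?_ ?_
      · intro n hn
        have h1 := congrArg g (hsum' n hn)
        have h2 : g (orbSum (p ^ s) μ' a n) = orbSum (p ^ s) (g μ') a n :=
          map_orbSum g.toRingHom (p ^ s) μ' a n
        rw [h2, hgμ, hsum n hn, map_mul, map_intCast, map_multiset_sum, Multiset.map_map] at h1
        have h3 := mul_left_cancel₀ (by exact_mod_cast hε : (ε : E) ≠ 0) h1
        rw [h3, Multiset.map_map]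
        congr 1
        refine Multiset.map_congr rfl fun x _ => ?_
        simp
      · have h1 : (A'.map g).count (g 0) = A'.count 0 :=
          Multiset.count_map_eq_count' g A' g.injective 0
        have h2 : (A'.map v).count (v 0) = A'.count 0 := Multiset.count_map_eq_count' v A' hv 0
        rw [map_zero] at h1
        rw [h1, ← h2, hA']
        rfl
    set R' := A'.filter fun x => P (v x) with hR'
    have hPg : ∀ x : algebraicClosure ℚ E, P (g x) ↔ P (v x) := by
      intro x
      have h1 : ∀ n : ℕ, g x ^ n = (Q : E) ^ n ↔ v x ^ n = (Q : E) ^ n := by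
        intro n
        have h2 : g x ^ n = (Q : E) ^ n ↔ x ^ n = (Q : algebraicClosure ℚ E) ^ n := by
          rw [← map_natCast g, ← map_pow, ← map_pow]
          exact g.injective.eq_iff
        have h3 : v x ^ n = (Q : E) ^ n ↔ x ^ n = (Q : algebraicClosure ℚ E) ^ n := by
          rw [← hv', ← map_natCast (algebraicClosure ℚ E).val, ← map_pow, ← map_pow]
          exact ((algebraicClosure ℚ E).val.injective).eq_iff
        rw [h2, h3]
      simp only [hP, h1]
    have hRv : R'.map v = R := by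
      rw [hR', hR, ← hA', Multiset.filter_map]
      rfl
    have hRg : R'.map g = R := by
      rw [hR, ← hgA, Multiset.filter_map, hR']
      congr 1
      refine Multiset.filter_congr fun x _ => ?_
      exact (hPg x).symm
    have hRx : ∀ x ∈ R', v x ∈ R := by
      intro x hx
      rw [← hRv]
      exact Multiset.mem_map_of_mem v hx
    have h1 : Y = R'.map fun x => th θ (g x / Q) := by
      rw [hY, ← hRg, Multiset.map_map]
      rfl
    have h2 : Y = R'.map fun x => th θ (v x / Q) := by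
      rw [hY, ← hRv, Multiset.map_map]
      rfl
    nth_rewrite 1 [h1]
    rw [h2, Multiset.map_map]
    refine Multiset.map_congr rfl fun x hx => ?_
    have h3 := hMR _ (hRx x hx)
    have h4 : g x / Q = (v x / Q) ^ U := by
      have h5 : v (x / Q) = v x / Q := by
        rw [← hv', map_div₀, map_natCast]
        rfl
      have h6 := hroot (x / Q) (by rw [h5]; exact h3)
      rw [h5, map_div₀, map_natCast] at h6
      exact h6
    rw [h4, Function.comp_apply, th_pow θ (root_integral hM h3)]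
  -- constant multiplicities
  have hcount : ∀ y z : k, orderOf y = orderOf z → y ^ M' = 1 → Y.count y = Y.count z := by
    intro y z hyz hy
    have hd : 0 < orderOf y := orderOf_pos_iff.2 (isOfFinOrder_iff_pow_eq_one.2 ⟨M', hM', hy⟩)
    have hprim : IsPrimitiveRoot y (orderOf y) := IsPrimitiveRoot.orderOf y
    have hzprim : IsPrimitiveRoot z (orderOf y) := by
      rw [hyz]
      exact IsPrimitiveRoot.orderOf z
    have : NeZero (orderOf y) := ⟨hd.ne'⟩
    obtain ⟨u, -, hu, rfl⟩ := (hprim.isPrimitiveRoot_iff).1 hzprim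
    have hdM : orderOf y ∣ M' := orderOf_dvd_of_pow_eq_one hy
    obtain ⟨U, hU1, hU2, hU3⟩ := exists_lift_unit hp hM' hpM' hdM hu s b
    rw [← hMM] at hU3
    have h1 : y ^ u = y ^ U := (pow_modEq (pow_orderOf_eq_one y) hU1).symm
    rw [h1]
    have hUM' : U.Coprime M' := by
      rw [hMM] at hU3
      exact Nat.Coprime.coprime_mul_left_right hU3
    have e1 : (Y.map fun y => y ^ U).count (y ^ U) = (Y.filter fun w => y ^ U = w ^ U).card :=
      Multiset.count_map _ _ _
    conv_rhs => rw [hgal U hU2 hU3]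
    rw [e1, Multiset.count_eq_card_filter_eq Y y]
    refine congrArg Multiset.card (Multiset.filter_congr fun w hw => ?_)
    constructor
    · intro h
      rw [h]
    · intro h
      have hw1 := hYM w hw
      have hw0 : w ≠ 0 := by
        rintro rfl
        rw [zero_pow hM'.ne'] at hw1
        exact zero_ne_one hw1
      have h5 : (y / w) ^ U = 1 := by
        rw [div_pow, h]
        exact div_self (pow_ne_zero _ hw0)
      have h6 : (y / w) ^ M' = 1 := by rw [div_pow, hy, hw1, div_one]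
      have h7 : orderOf (y / w) ∣ Nat.gcd U M' :=
        Nat.dvd_gcd (orderOf_dvd_of_pow_eq_one h5) (orderOf_dvd_of_pow_eq_one h6)
      rw [Nat.Coprime] at hUM'
      rw [hUM', Nat.dvd_one, orderOf_eq_one_iff] at h7
      exact (div_eq_one_iff_eq hw0).1 h7
  obtain ⟨r, h1, h2, h3⟩ := exists_cyc hM' hQ _ Y rfl hYM hcount
  refine ⟨r, ?_, ?_, ?_⟩
  · intro m hm
    exact ⟨(h1 m hm).1, fun h => hpM' (h.trans (h1 m hm).2)⟩
  · rw [h2, hY, Multiset.card_map]
  · have h4 : (Y.map fun y => 1 - C ((Q : k) * y) * X).prod = red θ R := by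
      rw [hY, Multiset.map_map]
      unfold red
      congr 1
      refine Multiset.map_congr rfl fun x hx => ?_
      rw [Function.comp_apply, hred x hx]
    rw [h4] at h3
    refine h3.symm.dvd.trans ?_
    obtain ⟨R₂, hR₂⟩ := Multiset.le_iff_exists_add.1 (Multiset.filter_le P A)
    rw [← hR] at hR₂
    rw [hR₂, red_add]
    exact dvd_mul_right _ _

end Pool.Agent.U273.FS
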