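import Mathlib
import Pool.Agent.U273.FS.CycB
import Pool.Agent.TH117.HS.Glue

/-!
# The subspace of the vectors on which a power of `Φ` is the power of a scalar
-/

set_option autoImplicit false
set_option linter.unusedSectionVars false

namespace Pool.Agent.U273.FS

open Module

variable {E : Type} [Field E] [CharZero E] [IsAlgClosed E] {V : Type} [AddCommGroup V] [Module E V]

/-- The vectors `v` with `Φ ^ n v = Q ^ n v` for some `n > 0`. -/
def potential (Φ : Module.End E V) (Q : E) : Submodule E V where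
  carrier := {v | ∃ n : ℕ, 0 < n ∧ (Φ ^ n) v = Q ^ n • v}
  add_mem' := by
    have key : ∀ (n : ℕ) (v : V), (Φ ^ n) v = Q ^ n • v → ∀ m : ℕ,
        (Φ ^ (n * m)) v = Q ^ (n * m) • v := by
      intro n v hv m
      induction m with
      | zero => simp
      | succ m ih =>
        rw [Nat.mul_succ, pow_add, Module.End.mul_apply, hv, map_smul, ih, smul_smul, pow_add,
          mul_comm]
    rintro v w ⟨n, hn, hv⟩ ⟨m, hm, hw⟩
    refine ⟨n * m, Nat.mul_pos hn hm, ?_⟩
    rw [map_add, key n v hv m, mul_comm n m, key m w hw n, smul_add]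
  zero_mem' := ⟨1, one_pos, by simp⟩
  smul_mem' := by
    rintro c v ⟨n, hn, hv⟩
    exact ⟨n, hn, by rw [map_smul, hv, smul_comm]⟩

theorem mem_potential {Φ : Module.End E V} {Q : E} {v : V} :
    v ∈ potential Φ Q ↔ ∃ n : ℕ, 0 < n ∧ (Φ ^ n) v = Q ^ n • v := Iff.rfl

theorem finrank_biSup_le [FiniteDimensional E V] {ι : Type} (S : Finset ι) (f : ι → Submodule E V) :
    finrank E (⨆ i ∈ S, f i : Submodule E V) ≤ ∑ i ∈ S, finrank E (f i) := by
  classical
  induction S using Finset.induction_on with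
  | empty => simp
  | insert i S hi ih =>
    rw [Finset.iSup_insert, Finset.sum_insert hi]
    exact (Submodule.finrank_add_le_finrank_add_finrank _ _).trans (Nat.add_le_add_left ih _)

theorem restrict_pow {Φ : Module.End E V} {M : Submodule E V} (hM : ∀ x ∈ M, Φ x ∈ M) (n : ℕ)
    (x : M) : (((Φ.restrict hM) ^ n) x : V) = (Φ ^ n) (x : V) := by
  induction n generalizing x with
  | zero => rfl
  | succ n ih =>
    rw [pow_succ, pow_succ, Module.End.mul_apply, Module.End.mul_apply, ih]
    rfl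

/-- Decomposition into eigenvectors. -/
theorem mem_iSup_of_pow [FiniteDimensional E V] {Φ : Module.End E V} {Q : E} (hQ : Q ≠ 0) {n : ℕ}
    (hn : 0 < n) {v : V} (hv : (Φ ^ n) v = Q ^ n • v) :
    v ∈ ⨆ α ∈ {α : E | α ^ n = Q ^ n}, Φ.eigenspace α := by
  let M : Submodule E V := LinearMap.ker (Φ ^ n - algebraMap E (Module.End E V) (Q ^ n))
  have hmem : ∀ x, x ∈ M ↔ (Φ ^ n) x = Q ^ n • x := by
    intro x
    rw [LinearMap.mem_ker, LinearMap.sub_apply, sub_eq_zero]
    rfl
  have hM : ∀ x ∈ M, Φ x ∈ M := by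
    intro x hx
    rw [hmem] at hx ⊢
    have h1 : (Φ ^ n) (Φ x) = Φ ((Φ ^ n) x) := by
      rw [← Module.End.mul_apply, ← Module.End.mul_apply, ← pow_succ, ← pow_succ']
    rw [h1, hx, map_smul]
  have hpow : (Φ.restrict hM) ^ n = algebraMap E (Module.End E M) (Q ^ n) := by
    ext x
    rw [restrict_pow hM n x]
    exact (hmem x).1 x.2
  have hs : Module.End.IsSemisimple (Φ.restrict hM) := by
    have hsep : (Polynomial.X ^ n - Polynomial.C (Q ^ n) : Polynomial E).Separable :=
      Polynomial.separable_X_pow_sub_C (Q ^ n) (by exact_mod_cast hn.ne') (pow_ne_zero n hQ)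
    refine Module.End.isSemisimple_of_squarefree_aeval_eq_zero hsep.squarefree ?_
    rw [map_sub, map_pow, Polynomial.aeval_X, Polynomial.aeval_C, hpow, sub_self]
  have h2 : (⟨v, (hmem v).2 hv⟩ : M) ∈ ⨆ α, Module.End.eigenspace (Φ.restrict hM) α := by
    rw [hs.iSup_eigenspace_eq_top]
    exact Submodule.mem_top
  have h3 : (⨆ α, Module.End.eigenspace (Φ.restrict hM) α) ≤
      (⨆ α ∈ {α : E | α ^ n = Q ^ n}, Φ.eigenspace α).comap M.subtype := by
    refine iSup_le fun α w hw => ?_
    rw [Module.End.mem_eigenspace_iff] at hw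
    have hw' : Φ (w : V) = α • (w : V) := congrArg Subtype.val hw
    by_cases hw0 : (w : V) = 0
    · rw [Submodule.mem_comap]
      change (w : V) ∈ _
      rw [hw0]
      exact Submodule.zero_mem _
    have hα : α ^ n = Q ^ n := by
      have h4 : ∀ m : ℕ, (Φ ^ m) (w : V) = α ^ m • (w : V) := by
        intro m
        induction m with
        | zero => simp
        | succ m ih =>
          rw [pow_succ, Module.End.mul_apply, hw', map_smul, ih, smul_smul, pow_succ, mul_comm]
      have h5 := (hmem (w : V)).1 w.2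
      rw [h4 n] at h5
      have h6 : (α ^ n - Q ^ n) • (w : V) = 0 := by rw [sub_smul, h5, sub_self]
      exact sub_eq_zero.1 ((smul_eq_zero.1 h6).resolve_right hw0)
    rw [Submodule.mem_comap]
    refine Submodule.mem_iSup_of_mem α (Submodule.mem_iSup_of_mem hα ?_)
    rw [Module.End.mem_eigenspace_iff]
    exact hw'
  exact h3 h2

open Classical in
theorem finrank_potential_le [FiniteDimensional E V] (Φ : Module.End E V) {Q : E} (hQ : Q ≠ 0) :
    finrank E (potential Φ Q) ≤
      (Φ.charpoly.roots.filter fun x => ∃ n : ℕ, 0 < n ∧ x ^ n = Q ^ n).card := by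
  set R := Φ.charpoly.roots.filter fun x => ∃ n : ℕ, 0 < n ∧ x ^ n = Q ^ n with hR
  have hcp : Φ.charpoly ≠ 0 := (LinearMap.charpoly_monic Φ).ne_zero
  have h1 : potential Φ Q ≤ ⨆ α ∈ R.toFinset, Φ.maxGenEigenspace α := by
    rintro v ⟨n, hn, hv⟩
    have h2 := mem_iSup_of_pow hQ hn hv
    have h3 : (⨆ α ∈ {α : E | α ^ n = Q ^ n}, Φ.eigenspace α) ≤
        ⨆ α ∈ R.toFinset, Φ.maxGenEigenspace α := by
      refine iSup_le fun α => iSup_le fun hα => ?_
      by_cases h4 : Φ.HasEigenvalue α
      · have h5 : α ∈ R.toFinset := by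
          rw [Multiset.mem_toFinset, hR, Multiset.mem_filter]
          refine ⟨?_, n, hn, hα⟩
          rw [Polynomial.mem_roots hcp]
          exact (Module.End.hasEigenvalue_iff_isRoot_charpoly Φ α).1 h4
        refine le_trans ?_ (le_iSup₂ α h5)
        exact (Φ.genEigenspace α).monotone le_top
      · have h5 : Φ.eigenspace α = ⊥ := by
          by_contra h6
          exact h4 h6
        rw [h5]
        exact bot_le
    exact h3 h2
  refine (Submodule.finrank_mono h1).trans ((finrank_biSup_le _ _).trans ?_)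
  rw [← Multiset.toFinset_sum_count_eq R]
  refine Finset.sum_le_sum fun α hα => ?_
  rw [LinearMap.finrank_maxGenEigenspace_eq, ← Polynomial.count_roots]
  rw [Multiset.mem_toFinset, hR, Multiset.mem_filter] at hα
  have h2 := Multiset.count_filter_of_pos (s := Φ.charpoly.roots)
    (p := fun x : E => ∃ n : ℕ, 0 < n ∧ x ^ n = Q ^ n) (a := α) hα.2
  exact h2.ge

/-- The part on which `1 + τ + ⋯ + τ ^ (p - 1)` vanishes, `τ` the `p ^ s`-th power of `g`. -/
def primitivePart (g : Module.End E V) (p s : ℕ) : Submodule E V :=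
  LinearMap.ker (∑ j ∈ Finset.range p, (g ^ p ^ s) ^ j)

theorem pow_eig {g : Module.End E V} {ω : E} {v : V} (hv : g v = ω • v) (m : ℕ) :
    (g ^ m) v = ω ^ m • v := by
  induction m with
  | zero => simp
  | succ m ih => rw [pow_succ, Module.End.mul_apply, hv, map_smul, ih, smul_smul, pow_succ, mul_comm]

open Classical in
/-- The decomposition of the primitive part of a stable subspace. -/
theorem primitive_le [FiniteDimensional E V] {g : Module.End E V} {p s : ℕ} (hp : p.Prime)
    (hg : g ^ p ^ (s + 1) = 1) (T : Submodule E V) (hT : ∀ x ∈ T, g x ∈ T) :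
    T ⊓ primitivePart g p s ≤ ⨆ ω ∈ primitiveRoots (p ^ (s + 1)) E, T ⊓ g.eigenspace ω := by
  have hN : 0 < p ^ (s + 1) := pow_pos hp.pos _
  have hgs : g.IsSemisimple := by
    have hsep : (Polynomial.X ^ p ^ (s + 1) - Polynomial.C 1 : Polynomial E).Separable :=
      Polynomial.separable_X_pow_sub_C (1 : E) (by exact_mod_cast hN.ne') one_ne_zero
    refine Module.End.isSemisimple_of_squarefree_aeval_eq_zero hsep.squarefree ?_
    simp [hg]
  have hst : ∀ x ∈ T ⊓ primitivePart g p s, g x ∈ T ⊓ primitivePart g p s := by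
    rintro x ⟨h1, h2⟩
    refine ⟨hT x h1, ?_⟩
    have hc : Commute (∑ j ∈ Finset.range p, (g ^ p ^ s) ^ j) g := by
      refine Commute.sum_left _ _ _ fun j _ => ?_
      rw [← pow_mul]
      exact (Commute.refl g).pow_left _
    change (∑ j ∈ Finset.range p, (g ^ p ^ s) ^ j) (g x) = 0
    rw [← Module.End.mul_apply, hc.eq, Module.End.mul_apply]
    have h3 : (∑ j ∈ Finset.range p, (g ^ p ^ s) ^ j) x = 0 := h2
    rw [h3, map_zero]
  have h' : ⨆ μ, g.genEigenspace μ 1 = ⊤ := hgs.iSup_eigenspace_eq_top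
  have hdec := Submodule.eq_iSup_inf_genEigenspace (K := E) 1 hst h'
  rw [hdec]
  refine iSup_le fun ω => ?_
  intro v hv
  obtain ⟨⟨hvT, hvP⟩, hvω⟩ := hv
  have hvω' : g v = ω • v := Module.End.mem_eigenspace_iff.1 hvω
  by_cases hv0 : v = 0
  · rw [hv0]
    exact Submodule.zero_mem _
  have hω1 : ω ^ p ^ (s + 1) = 1 := by
    have h3 := pow_eig hvω' (p ^ (s + 1))
    rw [hg, Module.End.one_apply] at h3
    have h4 : (1 - ω ^ p ^ (s + 1)) • v = 0 := by rw [sub_smul, one_smul, ← h3, sub_self]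
    exact (sub_eq_zero.1 ((smul_eq_zero.1 h4).resolve_right hv0)).symm
  have hω : IsPrimitiveRoot ω (p ^ (s + 1)) := by
    obtain ⟨t, ht, hord⟩ := (Nat.dvd_prime_pow hp).1 (orderOf_dvd_of_pow_eq_one hω1)
    by_cases hts : t = s + 1
    · rw [← hts, ← hord]
      exact IsPrimitiveRoot.orderOf ω
    · exfalso
      have h1 : ω ^ p ^ s = 1 := by
        apply orderOf_dvd_iff_pow_eq_one.1
        rw [hord]
        exact pow_dvd_pow p (by omega)
      have h3 : (∑ j ∈ Finset.range p, (g ^ p ^ s) ^ j) v = 0 := hvP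
      have h4 : ∀ j ∈ Finset.range p, ((g ^ p ^ s) ^ j) v = v := by
        intro j _
        rw [← pow_mul, pow_eig hvω', pow_mul, h1, one_pow, one_smul]
      rw [LinearMap.sum_apply, Finset.sum_congr rfl h4, Finset.sum_const, Finset.card_range] at h3
      have h5 : ((p : ℕ) : E) • v = 0 := by rw [← h3, Nat.cast_smul_eq_nsmul]
      exact hv0 ((smul_eq_zero.1 h5).resolve_left (by exact_mod_cast hp.ne_zero))
  have hmem : ω ∈ primitiveRoots (p ^ (s + 1)) E := (mem_primitiveRoots hN).2 hω
  exact Submodule.mem_iSup_of_mem ω (Submodule.mem_iSup_of_mem hmem ⟨hvT, hvω⟩)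

open Classical in
/-- The dimension of the primitive part. -/
theorem finrank_primitive_le [FiniteDimensional E V] {g : Module.End E V} {p s b : ℕ}
    (hp : p.Prime) (hg : g ^ p ^ (s + 1) = 1) (T : Submodule E V) (hT : ∀ x ∈ T, g x ∈ T)
    (h : ∀ ω : E, IsPrimitiveRoot ω (p ^ (s + 1)) →
      finrank E (T ⊓ g.eigenspace ω : Submodule E V) ≤ b) :
    finrank E (T ⊓ primitivePart g p s : Submodule E V) ≤ p ^ s * (p - 1) * b := by
  have hN : 0 < p ^ (s + 1) := pow_pos hp.pos _
  refine (Submodule.finrank_mono (primitive_le hp hg T hT)).trans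
    ((finrank_biSup_le _ _).trans ?_)
  refine (Finset.sum_le_card_nsmul _ _ b fun ω hω => h ω ((mem_primitiveRoots hN).1 hω)).trans ?_
  obtain ⟨ζ, hζ⟩ := exists_prim (E := E) _ hN
  rw [hζ.card_primitiveRoots, Nat.totient_prime_pow_succ hp, smul_eq_mul]

/-- The potential vectors in an eigenspace. -/
theorem finrank_potential_eig [FiniteDimensional E V] {Φ g : Module.End E V} (hc : Commute Φ g)
    (ω Q : E) : finrank E (potential Φ Q ⊓ g.eigenspace ω : Submodule E V) =
      finrank E (potential (Φ.restrict (Pool.Agent.TH117.HS.mapsTo_eig hc ω)) Q) := by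
  have h1 : (potential Φ Q ⊓ g.eigenspace ω : Submodule E V) =
      (potential (Φ.restrict (Pool.Agent.TH117.HS.mapsTo_eig hc ω)) Q).map
        (g.eigenspace ω).subtype := by
    ext v
    rw [Submodule.mem_map]
    constructor
    · rintro ⟨⟨n, hn, hv⟩, hvω⟩
      refine ⟨⟨v, hvω⟩, ⟨n, hn, ?_⟩, rfl⟩
      apply Subtype.ext
      rw [restrict_pow]
      exact hv
    · rintro ⟨w, ⟨n, hn, hw⟩, rfl⟩
      refine ⟨⟨n, hn, ?_⟩, w.2⟩
      have h2 := congrArg Subtype.val hw
      rw [restrict_pow] at h2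
      exact h2
  rw [h1]
  exact Submodule.finrank_map_subtype_eq _ _

end Pool.Agent.U273.FS
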