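import Mathlib
import Pool.Agent.U273.FS.AutDefs

/-!
# Tate classes modulo `p`: definitions
-/

set_option autoImplicit false

open Polynomial Module

namespace Pool.Agent.U273.FS

/-- The cyclotomic part of `H` has degree at most `b`: every product of polynomials `Φ_m(Q T)` with
`m` prime to `p` which divides `H` has degree at most `b`. -/
def CyclotomicDegreeLE (p Q : ℕ) (H : (ZMod p)[X]) (b : ℕ) : Prop :=
  ∀ r : Multiset ℕ, (∀ m ∈ r, 0 < m ∧ ¬ p ∣ m) →
    (r.map fun m => (cyclotomic m (ZMod p)).comp (C (Q : ZMod p) * X)).prod ∣ H →
    (r.map Nat.totient).sum ≤ b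

/-- No cyclotomic polynomial `Φ_m` with `m` prime to `p` divides `P` modulo `p`. -/
def NoCyclotomicFactor (p : ℕ) (P : ℤ[X]) : Prop :=
  ∀ m : ℕ, 0 < m → ¬ p ∣ m → ¬ cyclotomic m (ZMod p) ∣ P.map (Int.castRingHom (ZMod p))

/-- `H = P₂ / P₁` modulo `p`. -/
def IsQuotientMod (p : ℕ) (H : (ZMod p)[X]) (P₁ P₂ : ℤ[X]) : Prop :=
  H * P₁.map (Int.castRingHom (ZMod p)) = P₂.map (Int.castRingHom (ZMod p))

/-- `P₁ / P₂` is the zeta function of the complement in the projective plane of a smooth curve with
the characteristic polynomial `P` of Frobenius on `H^1`. -/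
def IsZetaOfPlaneComplement (q : ℕ) (P₁ P₂ P : ℤ[X]) : Prop :=
  P₁ = 1 ∧ P₂ = (1 - C ((q : ℤ) ^ 2) * X) * P

section generic

variable {E V G : Type} [Field E] [AddCommGroup V] [Module E V] [Group G]

/-- `Φ` is `q` times the action of `F`. -/
def FrobeniusActs (ρ : G →* Module.End E V) (F : G) (Φ : Module.End E V) (q : ℕ) : Prop :=
  ∀ x, Φ x = (q : E) • ρ F x

/-- `g` commutes with the action. -/
def CommutesWith (ρ : G →* Module.End E V) (g : Module.End E V) : Prop :=
  ∀ γ, Commute (ρ γ) g

/-- The vectors fixed by `U`. -/
def fixedBy (ρ : G →* Module.End E V) (U : Subgroup G) : Submodule E V :=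
  ⨅ γ ∈ U, LinearMap.ker (ρ γ - 1)

/-- Each element is fixed by a subgroup of finite index. -/
def AreDefined (ρ : G →* Module.End E V) (N : AddSubgroup V) : Prop :=
  ∀ x ∈ N, ∃ U : Subgroup G, U.FiniteIndex ∧ x ∈ fixedBy ρ U

/-- Elements of `N` independent over `ℤ` are independent over `E`. -/
def IsFormOver (E : Type) {V : Type} [Field E] [AddCommGroup V] [Module E V] (N : AddSubgroup V) :
    Prop :=
  ∀ (n : ℕ) (v : Fin n → V), (∀ i, v i ∈ N) → LinearIndependent ℤ v → LinearIndependent E v

end generic

/-- The action of the Galois group `G` of `k` on `H²(𝒳, E(1))` and the Néron-Severi group, for a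
surface `𝒳` over `k` with good reduction, special fibre with cohomology `D`, over a field of `q`
elements. -/
structure GaloisAction {E : Type} [Field E] (D : CohomologyGroups E) (q : ℕ) (G : Type)
    [Group G] where
  /-- the action on `H²(𝒳, E(1))`, the group `H²` of the special fibre -/
  ρ : G →* Module.End E (D.H 2)
  /-- the Frobenius element, geometric Frobenius on the special fibre -/
  F : G
  frob : FrobeniusActs ρ F (D.frob 2) q
  /-- the automorphism is defined over `k` -/
  commute : CommutesWith ρ (D.aut 2)
  /-- the Néron-Severi group of `𝒳` over the algebraic closure (modulo torsion) -/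
  divisors : AddSubgroup (D.H 2)
  aut_mem : ∀ x ∈ divisors, D.aut 2 x ∈ divisors
  defined : AreDefined ρ divisors
  independent : IsFormOver E divisors

/-- The classes invariant under the `M`-th power of the automorphism: `H²` of the quotient. -/
def invariants {E : Type} [Field E] (D : CohomologyGroups E) (M : ℕ) : Submodule E (D.H 2) :=
  LinearMap.ker (D.aut 2 ^ M - 1)

/-- The `M`-th power of the automorphism acts trivially on `H^i`, `i ≠ 2`. -/
def TrivialOutsideTwo {E : Type} [Field E] (D : CohomologyGroups E) (M : ℕ) : Prop :=
  ∀ i, i ≠ 2 → ∀ v, (D.aut i ^ M) v = v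

namespace GaloisAction

variable {E : Type} [Field E] {D : CohomologyGroups E} {q : ℕ} {G : Type} [Group G]

/-- The Tate classes: the Galois invariant classes over the extension `L` of `k` with Galois
group `U`. -/
def fixed (S : GaloisAction D q G) (U : Subgroup G) : Submodule E (D.H 2) := fixedBy S.ρ U

/-- The space spanned by the divisor classes. -/
def algebraic (S : GaloisAction D q G) : Submodule E (D.H 2) :=
  Submodule.span E (S.divisors : Set (D.H 2))

/-- The number of independent Tate classes over `L`. -/
noncomputable def tateNumber (S : GaloisAction D q G) (U : Subgroup G) : ℕ := finrank E (S.fixed U)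

/-- The number of independent Tate classes over `L` invariant under the `M`-th power of the
automorphism. -/
noncomputable def tateNumberQuotient (S : GaloisAction D q G) (M : ℕ) (U : Subgroup G) : ℕ :=
  finrank E (S.fixed U ⊓ invariants D M : Submodule E (D.H 2))

/-- The geometric Picard number: the dimension of the space spanned by the divisor classes. -/
noncomputable def picardNumber (S : GaloisAction D q G) : ℕ := finrank E S.algebraic

/-- The dimension of the space of invariants of the `M`-th power of the automorphism in the space
spanned by the divisor classes. -/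
noncomputable def picardNumberQuotient (S : GaloisAction D q G) (M : ℕ) : ℕ :=
  finrank E (S.algebraic ⊓ invariants D M : Submodule E (D.H 2))

/-- Some divisor class is not invariant under the `M`-th power of the automorphism. -/
def HasMovedDivisor (S : GaloisAction D q G) (M : ℕ) : Prop :=
  ∃ x ∈ S.divisors, (D.aut 2 ^ M) x ≠ x

/-- Tate's conjecture for divisors over the extension `L` of `k` with Galois group `U`: the map from
`NS(𝒳_L) ⊗ E` to the invariants is surjective. -/
def TateHolds (S : GaloisAction D q G) (U : Subgroup G) : Prop :=
  S.fixed U ≤ S.algebraic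

/-- Tate's conjecture for divisors over `L` for the quotient by the `M`-th power of the
automorphism. -/
def TateHoldsForQuotient (S : GaloisAction D q G) (M : ℕ) (U : Subgroup G) : Prop :=
  S.fixed U ⊓ invariants D M ≤ S.algebraic

end GaloisAction

end Pool.Agent.U273.FS
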