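import Mathlib
import Pool.Agent.U273.FS.TateDefs

/-!
# Surfaces with an involution: definitions
-/

set_option autoImplicit false

open Polynomial Module

namespace Pool.Agent.U273.FS

section generic

variable {E V : Type} [Field E] [AddCommGroup V] [Module E V]

/-- The form `B` is multiplied by `c` under `Φ`. -/
def ScalesBy (B : LinearMap.BilinForm E V) (Φ : Module.End E V) (c : E) : Prop :=
  ∀ x y, B (Φ x) (Φ y) = c * B x y

/-- The form `B` is nondegenerate. -/
def IsNondegenerateForm (B : LinearMap.BilinForm E V) : Prop :=
  ∀ x, (∀ y, B x y = 0) → x = 0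

/-- `Ψ` is the restriction of `Φ` to the subspace `W`. -/
def IsRestriction (Φ : Module.End E V) (W : Submodule E V) (Ψ : Module.End E W) : Prop :=
  ∀ x : W, (Ψ x : V) = Φ x

/-- The determinant. -/
noncomputable def detOf (Φ : Module.End E V) : E := LinearMap.det Φ

/-- The subspace `W` is stable under `Φ`, and the determinant of `Φ` on it is `c`. -/
def HasDetOn (Φ : Module.End E V) (W : Submodule E V) (c : E) : Prop :=
  ∃ Ψ : Module.End E W, IsRestriction Φ W Ψ ∧ detOf Ψ = c

end generic

/-- The cup product on `H²` of the surface over the field of `q` elements: Poincaré duality, Frobenius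
multiplies it by `q²`, the automorphism preserves it. -/
structure CupProduct {E : Type} [Field E] (D : CohomologyGroups E) (q : ℕ) where
  pair : LinearMap.BilinForm E (D.H 2)
  frob : ScalesBy pair (D.frob 2) ((q : E) ^ 2)
  aut : ScalesBy pair (D.aut 2) 1
  nondegenerate : IsNondegenerateForm pair

/-- The part of `H²` on which the involution is `-1`. -/
def antiInvariants {E : Type} [Field E] (D : CohomologyGroups E) : Submodule E (D.H 2) :=
  (D.aut 2).eigenspace (-1)

/-- The sign is `-1`: the determinant of `q⁻¹ Φ` on the anti-invariant part is `-1`. -/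
def HasSignMinusOne {E : Type} [Field E] (D : CohomologyGroups E) (q : ℕ) : Prop :=
  HasDetOn (D.frob 2) (antiInvariants D) (-(q : E) ^ finrank E (antiInvariants D))

/-- `(1 - T)²` divides `H` modulo `2`. -/
def HasDoubleRoot (H : (ZMod 2)[X]) : Prop := (1 - X) ^ 2 ∣ H

/-- The value at `1` is odd. -/
def IsOddAtOne (P : ℤ[X]) : Prop := Odd (P.eval 1)

namespace GaloisAction

variable {E : Type} [Field E] {D : CohomologyGroups E} {q : ℕ} {G : Type} [Group G]

/-- The extension `L` with Galois group `U` has a place over `v` whose residue degree divides `f`: a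
conjugate of `F ^ f δ` belongs to `U`, with `F` the Frobenius element and `δ` acting trivially (an
element of the inertia group). -/
def HasPlaceOfDegree (S : GaloisAction D q G) (U : Subgroup G) (f : ℕ) : Prop :=
  ∃ γ δ : G, S.ρ δ = 1 ∧ γ * (S.F ^ f * δ) * γ⁻¹ ∈ U

/-- All Tate classes over `L` are invariant under the involution, and Tate's conjecture for divisors
over `L` is equivalent to the conjecture for the quotient. -/
def ReducesToQuotient (S : GaloisAction D q G) (U : Subgroup G) : Prop :=
  S.fixed U ≤ invariants D 1 ∧ (S.TateHolds U ↔ S.TateHoldsForQuotient 1 U)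

/-- This holds for all `L` with a place of degree one over `v`. -/
def ReducesInDegreeOne (S : GaloisAction D q G) : Prop :=
  ∀ U : Subgroup G, S.HasPlaceOfDegree U 1 → S.ReducesToQuotient U

/-- The subgroup `V` is the Galois group of a quadratic extension `K'` of `K`, which is inert at `v` and
contained in the field cut out by the action on `H²`, and this holds for all finite extensions `L` which
do not contain `K'`. -/
def ReducesOutside (S : GaloisAction D q G) (V : Subgroup G) : Prop :=
  V.index = 2 ∧ S.F ∉ V ∧ S.ρ.ker ≤ V ∧
    ∀ U : Subgroup G, U.FiniteIndex → ¬ U ≤ V → S.ReducesToQuotient U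

/-- The Galois action preserves the cup product, with values in `H⁴(𝒳, E(2)) = E`. -/
def Preserves (S : GaloisAction D q G) (C : CupProduct D q) : Prop :=
  ∀ γ : G, ScalesBy C.pair (S.ρ γ) 1

end GaloisAction

end Pool.Agent.U273.FS
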