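import Mathlib
import Pool.Agent.U273.FS.AutMain

/-!
# The sums over closed points on the part of a faithful character
-/

set_option autoImplicit false
set_option linter.unusedSectionVars false

open CategoryTheory AlgebraicGeometry Polynomial

namespace Pool.Agent.U273.FS

open Finset Module Pool.Agent.W528.HS

variable {κ : Type} [Field κ] [Fintype κ] {E : Type} [Field E] [CharZero E] [IsAlgClosed E]

/-- The power sums of the eigenvalues on the part of a faithful character. -/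
theorem faithful_sum {p s : ℕ} (hp : p.Prime) {X : Scheme.{0}}
    (π : X ⟶ Spec (CommRingCat.of κ)) [LocallyOfFiniteType π] [QuasiCompact π] (σ : X ⟶ X)
    (hσ : σ ≫ π = π) (hord : power σ (p ^ (s + 1)) = 𝟙 X) (D : CohomologyGroups E)
    (hD : D.IsCohomology π σ hσ (p ^ (s + 1))) (m : ℕ) (hm : m ≤ D.top)
    (htriv : ∀ i, i ≠ m → ∀ v, (D.aut i ^ p ^ s) v = v)
    {ω : E} (hω : IsPrimitiveRoot ω (p ^ (s + 1))) :
    ∃ a : ℕ → ℕ → ℕ, ∀ n, 1 ≤ n → orbSum (p ^ (s + 1)) (ω⁻¹) a n =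
      (((-1) ^ m : ℤ) : E) * (((D.frob m).restrict
        (Pool.Agent.TH117.HS.mapsTo_eig (hD.commute m) ω)).charpoly.roots.map
          fun x => x ^ n).sum := by
  classical
  have hN : 0 < p ^ (s + 1) := pow_pos hp.pos _
  have hNE : ((p ^ (s + 1) : ℕ) : E) ≠ 0 := by exact_mod_cast hN.ne'
  set Φ := (D.frob m).restrict (Pool.Agent.TH117.HS.mapsTo_eig (hD.commute m) ω) with hΦ
  obtain ⟨a, ha1, ha2⟩ := aut_orb (frobenius_inj π) (frobenius_act π σ hσ) hp
    (act_order π σ hσ hord) (fixed_finite π σ hσ hN hord)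
  have hω0 : ω ≠ 0 := hω.ne_zero hN.ne'
  have hμ : IsPrimitiveRoot ω⁻¹ (p ^ (s + 1)) := hω.inv
  have hωps : ω ^ p ^ s ≠ 1 := by
    intro h
    have h1 := hω.dvd_of_pow_eq_one _ h
    have h2 := Nat.le_of_dvd (pow_pos hp.pos s) h1
    have h3 : p ^ s < p ^ (s + 1) := Nat.pow_lt_pow_right hp.one_lt (Nat.lt_succ_self s)
    omega
  have hμps : (ω⁻¹) ^ p ^ s ≠ 1 := by
    rw [inv_pow]
    exact fun h => hωps (inv_eq_one.1 h)
  have hμ0 : ∑ i ∈ range p, ((ω⁻¹) ^ p ^ s) ^ i = 0 := by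
    have h2 := mul_geom_sum ((ω⁻¹) ^ p ^ s) p
    rw [← pow_mul, ← pow_succ, hμ.pow_eq_one, sub_self] at h2
    exact (mul_eq_zero.1 h2).resolve_left (sub_ne_zero.2 hμps)
  -- the trivial eigenspaces
  have hbot : ∀ i, i ≠ m → (D.aut i).eigenspace ω = ⊥ := by
    intro i hi
    rw [eq_bot_iff]
    intro v hv
    rw [Module.End.mem_eigenspace_iff] at hv
    have h1 : ∀ j : ℕ, (D.aut i ^ j) v = ω ^ j • v := by
      intro j
      induction j with
      | zero => rw [pow_zero, pow_zero, one_smul]; rfl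
      | succ j ih =>
        rw [pow_succ]
        change (D.aut i ^ j) (D.aut i v) = _
        rw [hv, map_smul, ih, smul_smul, pow_succ, mul_comm]
    have h2 := h1 (p ^ s)
    rw [htriv i hi v] at h2
    have h3 : (1 - ω ^ p ^ s) • v = 0 := by
      rw [sub_smul, one_smul, ← h2]
      exact sub_self v
    exact (smul_eq_zero.1 h3).resolve_left (sub_ne_zero.2 hωps.symm)
  -- the sums over closed points
  have hsum : ∀ n, 1 ≤ n → orbSum (p ^ (s + 1)) (ω⁻¹) a n =
      (((-1) ^ m : ℤ) : E) * (Φ.charpoly.roots.map fun x => x ^ n).sum := by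
    intro n hn
    have h1 := ha1 n hn E (ω⁻¹) hμ.pow_eq_one hμ0
    apply mul_left_cancel₀ hNE
    rw [← h1, ← Pool.Agent.W63.HS.TR.main E _ Φ n]
    have h2 : ∀ j ∈ range (p ^ (s + 1)), (ω⁻¹) ^ j *
        (({x | (act π σ hσ)^[j] ((frobenius π)^[n] x) = x}.ncard : ℕ) : E) =
        ∑ i ∈ range (D.top + 1), (-1) ^ i *
          ((ω⁻¹) ^ j * LinearMap.trace E (D.H i) (D.frob i ^ n * D.aut i ^ j)) := by
      intro j _
      have h3 := hD.lefschetz n j hn
      change (({x | (act π σ hσ)^[j] ((frobenius π)^[n] x) = x}.ncard : ℕ) : E) = _ at h3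
      rw [h3, Finset.mul_sum]
      refine Finset.sum_congr rfl fun i _ => ?_
      unfold traceOf
      ring
    rw [Finset.sum_congr rfl h2, Finset.sum_comm,
      Finset.sum_eq_single m (fun i _ hi => ?_) (fun h => ?_)]
    · rw [← Finset.mul_sum, ← Pool.Agent.TH117.HS.trace_eig (hD.commute m) hN (hD.order m)
        hω.pow_eq_one n]
      push_cast
      ring
    · rw [← Finset.mul_sum, trace_trivial (hD.commute i) hN (hD.order i) hω.pow_eq_one (hbot i hi) n,
        mul_zero]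
    · exact absurd (mem_range.2 (by omega)) h
  exact ⟨a, hsum⟩

end Pool.Agent.U273.FS
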