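import Mathlib
import Pool.Agent.U273.FS.CycC
import Pool.Agent.U273.FS.TateDefs
import Pool.Agent.U273.FS.TateSum

/-!
# Tate classes modulo `p`: the theorem
-/

set_option autoImplicit false
set_option linter.unusedSectionVars false

open CategoryTheory AlgebraicGeometry Polynomial

namespace Pool.Agent.U273.FS

open Module Pool.Agent.W528.HS

variable {E : Type} [Field E] [CharZero E] [IsAlgClosed E]

section linear

variable {V : Type} [AddCommGroup V] [Module E V] [FiniteDimensional E V]

/-- The decomposition of a stable subspace. -/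
theorem le_sup_primitive {g : Module.End E V} {p s : ℕ} (hp : p.Prime) (hg : g ^ p ^ (s + 1) = 1)
    (T : Submodule E V) (hT : ∀ x ∈ T, g x ∈ T) :
    T ≤ (T ⊓ LinearMap.ker (g ^ p ^ s - 1)) ⊔ (T ⊓ primitivePart g p s) := by
  intro x hx
  set τ := g ^ p ^ s with hτ
  have hτp : τ ^ p = 1 := by rw [hτ, ← pow_mul, ← pow_succ, hg]
  have hpE : (p : E) ≠ 0 := by exact_mod_cast hp.ne_zero
  have hpow : ∀ (n : ℕ) (y : V), y ∈ T → (g ^ n) y ∈ T := by
    intro n
    induction n with
    | zero => intro y hy; exact hy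
    | succ n ih =>
      intro y hy
      rw [pow_succ, Module.End.mul_apply]
      exact ih _ (hT y hy)
  let A : Module.End E V := ∑ j ∈ Finset.range p, τ ^ j
  have hτA : τ * A = A := by
    have h1 : (τ - 1) * A = 0 := by
      have := mul_geom_sum τ p
      rw [hτp, sub_self] at this
      exact this
    rw [sub_mul, one_mul, sub_eq_zero] at h1
    exact h1
  have hAτ : ∀ j : ℕ, τ ^ j * A = A := by
    intro j
    induction j with
    | zero => rw [pow_zero, one_mul]
    | succ j ih => rw [pow_succ, mul_assoc, hτA, ih]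
  have hAA : A * A = (p : E) • A := by
    change (∑ j ∈ Finset.range p, τ ^ j) * A = _
    rw [Finset.sum_mul, Finset.sum_congr rfl fun j _ => hAτ j, Finset.sum_const,
      Finset.card_range, Nat.cast_smul_eq_nsmul]
  have hAx : A x ∈ T := by
    change (∑ j ∈ Finset.range p, τ ^ j) x ∈ T
    rw [LinearMap.sum_apply]
    refine Submodule.sum_mem _ fun j _ => ?_
    rw [hτ, ← pow_mul]
    exact hpow _ _ hx
  have h1 : x = (p : E)⁻¹ • A x + (x - (p : E)⁻¹ • A x) := by abel
  rw [h1]
  refine Submodule.add_mem_sup ⟨T.smul_mem _ hAx, ?_⟩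
    ⟨T.sub_mem hx (T.smul_mem _ hAx), ?_⟩
  · change (τ - 1) ((p : E)⁻¹ • A x) = 0
    rw [map_smul, LinearMap.sub_apply, ← Module.End.mul_apply, hτA, Module.End.one_apply, sub_self,
      smul_zero]
  · change A (x - (p : E)⁻¹ • A x) = 0
    rw [map_sub, map_smul, ← Module.End.mul_apply, hAA, LinearMap.smul_apply, smul_smul,
      inv_mul_cancel₀ hpE, one_smul, sub_self]

/-- A nonzero vector of the primitive part generates a space of dimension at least `φ(p^(s+1))`. -/
theorem orbit_independent {g : Module.End E V} {p s : ℕ} (hp : p.Prime) {y : V} (hy : y ≠ 0)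
    (hyp : y ∈ primitivePart g p s) :
    LinearIndependent ℤ (fun i : Fin (p ^ s * (p - 1)) => (g ^ (i : ℕ)) y) := by
  have hfact : Fact p.Prime := ⟨hp⟩
  have hN : 0 < p ^ (s + 1) := pow_pos hp.pos _
  rw [Fintype.linearIndependent_iff]
  intro c hc
  by_contra hne
  push Not at hne
  obtain ⟨i₀, hi₀⟩ := hne
  let n := p ^ s * (p - 1)
  let f : ℚ[X] := ∑ i : Fin n, C (c i : ℚ) * X ^ (i : ℕ)
  have hcoeff : ∀ i : Fin n, f.coeff i = (c i : ℚ) := by
    intro i
    simp only [f, finsetSum_coeff, coeff_C_mul, coeff_X_pow]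
    rw [Finset.sum_eq_single i]
    · simp
    · intro j _ hj
      rw [if_neg, mul_zero]
      intro h
      exact hj (Fin.ext h.symm)
    · intro h
      exact absurd (Finset.mem_univ i) h
  have hf0 : f ≠ 0 := by
    intro h
    have h1 := hcoeff i₀
    rw [h, coeff_zero] at h1
    exact hi₀ (by exact_mod_cast h1.symm)
  have hdeg : f.degree < (n : ℕ) := degree_sum_fin_lt _
  have hirr : Irreducible (cyclotomic (p ^ (s + 1)) ℚ) := cyclotomic.irreducible_rat hN
  have hcop : IsCoprime (cyclotomic (p ^ (s + 1)) ℚ) f := by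
    rw [hirr.coprime_iff_not_dvd]
    intro h
    have h1 := degree_le_of_dvd h hf0
    rw [degree_cyclotomic, Nat.totient_prime_pow_succ hp] at h1
    exact absurd (lt_of_le_of_lt h1 hdeg) (lt_irrefl _)
  obtain ⟨a, b, hab⟩ := hcop
  have h1 := congrArg (fun P : ℚ[X] => aeval g (P.map (algebraMap ℚ E)) y) hab
  simp only [Polynomial.map_add, Polynomial.map_mul, map_add, map_mul, LinearMap.add_apply,
    Module.End.mul_apply, Polynomial.map_one, map_one, Module.End.one_apply] at h1
  have h2 : aeval g ((cyclotomic (p ^ (s + 1)) ℚ).map (algebraMap ℚ E)) y = 0 := by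
    rw [map_cyclotomic, cyclotomic_prime_pow_eq_geom_sum hp, map_sum]
    have h3 : ∑ j ∈ Finset.range p, aeval g ((X ^ p ^ s : E[X]) ^ j) =
        ∑ j ∈ Finset.range p, (g ^ p ^ s) ^ j := by
      refine Finset.sum_congr rfl fun j _ => ?_
      rw [map_pow, map_pow, aeval_X]
    rw [h3]
    exact hyp
  have h4 : aeval g (f.map (algebraMap ℚ E)) y = 0 := by
    simp only [f, Polynomial.map_sum, Polynomial.map_mul, map_C, Polynomial.map_pow, map_X,
      map_sum, map_mul, aeval_C, map_pow, aeval_X, LinearMap.sum_apply, Module.End.mul_apply]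
    have h5 : ∑ i : Fin n, c i • (g ^ (i : ℕ)) y = 0 := hc
    rw [← h5]
    refine Finset.sum_congr rfl fun i _ => ?_
    rw [Module.algebraMap_end_apply]
    simp [← Int.cast_smul_eq_zsmul E]
  rw [h2, h4, map_zero, map_zero, add_zero] at h1
  exact hy h1.symm

end linear

variable {κ : Type} [Field κ] [Fintype κ]

open Classical in
/-- **The potential vectors in the eigenspace of a faithful character.** -/
theorem potential_eig {p s : ℕ} (hp : p.Prime) {X : Scheme.{0}}
    (π : X ⟶ Spec (CommRingCat.of κ)) [LocallyOfFiniteType π] [QuasiCompact π] (σ : X ⟶ X)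
    (hσ : σ ≫ π = π) (hord : power σ (p ^ (s + 1)) = 𝟙 X) (D : CohomologyGroups E)
    (hD : D.IsCohomology π σ hσ (p ^ (s + 1))) (m : ℕ) (hm : m ≤ D.top) (hev : Even m)
    (htriv : ∀ i, i ≠ m → ∀ v, (D.aut i ^ p ^ s) v = v) (P₁ P₂ : ℤ[X])
    (hP : HasQuotientZeta E π σ hσ (p ^ s) (p ^ (s + 1)) P₁ P₂) (H : (ZMod p)[X])
    (hH : H * P₁.map (Int.castRingHom (ZMod p)) = P₂.map (Int.castRingHom (ZMod p)))
    {Q b : ℕ} (hQ : ¬ p ∣ Q) (hb : CyclotomicDegreeLE p Q H b)
    {ω : E} (hω : IsPrimitiveRoot ω (p ^ (s + 1))) :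
    finrank E (potential (D.frob m) (Q : E) ⊓ (D.aut m).eigenspace ω : Submodule E (D.H m)) ≤ b := by
  have hfact : Fact p.Prime := ⟨hp⟩
  have hQ0 : Q ≠ 0 := by
    rintro rfl
    exact hQ (dvd_zero p)
  obtain ⟨k, _, _, ⟨θ⟩⟩ := Pool.Agent.W804.HS.RD.main E p hp
  rw [finrank_potential_eig (hD.commute m)]
  refine (finrank_potential_le _ (by exact_mod_cast hQ0)).trans ?_
  obtain ⟨hint, h1, -⟩ := faithful_part hp π σ hσ hord D hD m hm htriv P₁ P₂ hP θ hω
  obtain ⟨a, ha⟩ := faithful_sum hp π σ hσ hord D hD m hm htriv hω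
  set Φ := (D.frob m).restrict (Pool.Agent.TH117.HS.mapsTo_eig (hD.commute m) ω) with hΦ
  have hne : ∀ P : ℤ[X], (∃ B : Multiset E, IsCharPoly P B) → P.map (Int.castRingHom k) ≠ 0 := by
    rintro P ⟨B, hP, -⟩ h
    have h3 := congrArg (fun Q => Polynomial.coeff Q 0) h
    simp only [coeff_map, hP, coeff_zero, map_one] at h3
    exact one_ne_zero h3
  obtain ⟨B₁, B₂, hB₁, hB₂, -⟩ := hP
  let ι : ZMod p →+* k := ZMod.castHom (dvd_refl p) k
  have hι : ∀ P : ℤ[X], (P.map (Int.castRingHom (ZMod p))).map ι = P.map (Int.castRingHom k) := by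
    intro P
    rw [Polynomial.map_map]
    congr 1
    exact RingHom.ext_int _ _
  have hred : red θ Φ.charpoly.roots = H.map ι := by
    have h3 := congrArg (Polynomial.map ι) hH
    rw [Polynomial.map_mul, hι, hι] at h3
    exact mul_right_cancel₀ (hne P₁ ⟨B₁, hB₁⟩) ((h1 hev).trans h3.symm)
  have hQk : (Q : k) ≠ 0 := by
    rw [Ne, CharP.cast_eq_zero_iff k p]
    exact hQ
  obtain ⟨r, hr1, hr2, hr3⟩ := cyc_part hp θ (s := s + 1) (hω.inv).pow_eq_one a Φ.charpoly.roots
    hint (ε := 1) one_ne_zero (by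
      intro n hn
      have := ha n hn
      rwa [hev.neg_one_pow] at this) (Q := Q) hQk
  rw [← hr2]
  refine hb r hr1 ?_
  rw [hred] at hr3
  rw [← Polynomial.map_dvd_map' ι]
  refine (dvd_of_eq ?_).trans hr3
  rw [Polynomial.map_multiset_prod, Multiset.map_map]
  congr 1
  refine Multiset.map_congr rfl fun n _ => ?_
  rw [Function.comp_apply, Polynomial.map_comp, map_cyclotomic, Polynomial.map_mul, map_C, map_X,
    map_natCast]

section action

variable {D : CohomologyGroups E} {q : ℕ} {G : Type} [Group G] (S : GaloisAction D q G)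

theorem mem_fixed {U : Subgroup G} {x : D.H 2} : x ∈ S.fixed U ↔ ∀ γ ∈ U, S.ρ γ x = x := by
  unfold GaloisAction.fixed fixedBy
  simp only [Submodule.mem_iInf, LinearMap.mem_ker, LinearMap.sub_apply, Module.End.one_apply,
    sub_eq_zero]

theorem frob_pow (n : ℕ) (x : D.H 2) : (D.frob 2 ^ n) x = (q : E) ^ n • S.ρ (S.F ^ n) x := by
  induction n generalizing x with
  | zero => simp
  | succ n ih =>
    rw [pow_succ, Module.End.mul_apply, S.frob x, map_smul, ih, smul_smul, pow_succ S.F, map_mul,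
      Module.End.mul_apply, pow_succ, mul_comm]

theorem fixed_le {U : Subgroup G} (hU : U.FiniteIndex) :
    S.fixed U ≤ potential (D.frob 2) (q : E) := by
  intro x hx
  rw [mem_fixed] at hx
  obtain ⟨n, hn, -, hn'⟩ := Subgroup.exists_pow_mem_of_index_ne_zero hU.index_ne_zero S.F
  exact ⟨n, hn, by rw [frob_pow S, hx _ hn']⟩

theorem algebraic_le : S.algebraic ≤ potential (D.frob 2) (q : E) := by
  unfold GaloisAction.algebraic
  rw [Submodule.span_le]
  intro x hx
  obtain ⟨U, hU, hU'⟩ := S.defined x hx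
  exact fixed_le S hU hU'

theorem fixed_stable (U : Subgroup G) : ∀ x ∈ S.fixed U, D.aut 2 x ∈ S.fixed U := by
  intro x hx
  rw [mem_fixed] at hx ⊢
  intro γ hγ
  have h := S.commute γ
  rw [← Module.End.mul_apply, h.eq, Module.End.mul_apply, hx γ hγ]

theorem algebraic_stable : ∀ x ∈ S.algebraic, D.aut 2 x ∈ S.algebraic := by
  have h : S.algebraic ≤ S.algebraic.comap (D.aut 2) := by
    conv_lhs => unfold GaloisAction.algebraic
    rw [Submodule.span_le]
    intro x hx
    exact Submodule.subset_span (S.aut_mem x hx)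
  exact h

theorem potential_stable {V : Type} [AddCommGroup V] [Module E V] {Φ g : Module.End E V}
    (hc : Commute Φ g) (Q : E) : ∀ x ∈ potential Φ Q, g x ∈ potential Φ Q := by
  rintro x ⟨n, hn, hx⟩
  refine ⟨n, hn, ?_⟩
  rw [← Module.End.mul_apply, (hc.pow_left n).eq, Module.End.mul_apply, hx, map_smul]

/-- The part of the decomposition with the divisor classes. -/
theorem tate_of_primitive {p s : ℕ} (hp : p.Prime) (hg : D.aut 2 ^ p ^ (s + 1) = 1)
    (h : potential (D.frob 2) (q : E) ⊓ primitivePart (D.aut 2) p s ≤ S.algebraic)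
    (U : Subgroup G) (hU : U.FiniteIndex) :
    S.TateHolds U ↔ S.TateHoldsForQuotient (p ^ s) U := by
  constructor
  · intro h1 x hx
    exact h1 hx.1
  · intro h1
    refine (le_sup_primitive hp hg _ (fixed_stable S U)).trans (sup_le h1 ?_)
    exact (inf_le_inf_right _ (fixed_le S hU)).trans h

/-- A divisor class which is not invariant generates a space of dimension `φ(p^(s+1))`. -/
theorem one_class {p s : ℕ} (hp : p.Prime) (hg : D.aut 2 ^ p ^ (s + 1) = 1) {x : D.H 2}
    (hx : x ∈ S.divisors) (hx' : (D.aut 2 ^ p ^ s) x ≠ x) :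
    p ^ s * (p - 1) ≤
      finrank E (S.algebraic ⊓ primitivePart (D.aut 2) p s : Submodule E (D.H 2)) := by
  set g := D.aut 2 with hgdef
  have hpow : ∀ (n : ℕ) (y : D.H 2), y ∈ S.divisors → (g ^ n) y ∈ S.divisors := by
    intro n
    induction n with
    | zero => intro y hy; exact hy
    | succ n ih =>
      intro y hy
      rw [pow_succ, Module.End.mul_apply]
      exact ih _ (S.aut_mem y hy)
  set y := x - (g ^ p ^ s) x with hy
  have hy0 : y ≠ 0 := sub_ne_zero.2 (Ne.symm hx')
  have hyD : y ∈ S.divisors := S.divisors.sub_mem hx (hpow _ _ hx)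
  have hτ : (g ^ p ^ s) ^ p = 1 := by rw [← pow_mul, ← pow_succ, hg]
  have hyP : ∀ n : ℕ, (g ^ n) y ∈ primitivePart g p s := by
    intro n
    change (∑ j ∈ Finset.range p, (g ^ p ^ s) ^ j) ((g ^ n) y) = 0
    have hc : Commute (∑ j ∈ Finset.range p, (g ^ p ^ s) ^ j) (g ^ n) := by
      refine Commute.sum_left _ _ _ fun j _ => ?_
      rw [← pow_mul]
      exact (Commute.refl g).pow_pow _ _
    rw [← Module.End.mul_apply, hc.eq, Module.End.mul_apply]
    have h1 : (∑ j ∈ Finset.range p, (g ^ p ^ s) ^ j) y = 0 := by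
      have h2 : (∑ j ∈ Finset.range p, (g ^ p ^ s) ^ j) * (1 - g ^ p ^ s) = 0 := by
        rw [geom_sum_mul_neg, hτ, sub_self]
      have h3 := congrArg (fun f : Module.End E (D.H 2) => f x) h2
      simpa [hy] using h3
    rw [h1, map_zero]
  have hind := S.independent _ _ (fun i => hpow _ _ hyD)
    (orbit_independent (E := E) hp hy0 (by simpa using hyP 0))
  have hle : Submodule.span E (Set.range fun i : Fin (p ^ s * (p - 1)) => (g ^ (i : ℕ)) y) ≤
      S.algebraic ⊓ primitivePart g p s := by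
    rw [Submodule.span_le]
    rintro _ ⟨i, rfl⟩
    exact ⟨Submodule.subset_span (hpow _ _ hyD), hyP i⟩
  have h1 := Submodule.finrank_mono hle
  rw [finrank_span_eq_card hind, Fintype.card_fin] at h1
  exact h1

end action

/-- **Tate classes modulo `p`.** -/
theorem tate_mod {p s : ℕ} (hp : p.Prime) (hpκ : ¬ p ∣ Fintype.card κ) {X : Scheme.{0}}
    (π : X ⟶ Spec (CommRingCat.of κ)) [LocallyOfFiniteType π] [QuasiCompact π] (σ : X ⟶ X)
    (hσ : σ ≫ π = π) (hord : power σ (p ^ (s + 1)) = 𝟙 X) (D : CohomologyGroups E)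
    (hD : D.IsCohomology π σ hσ (p ^ (s + 1))) (h2 : 2 ≤ D.top)
    (htriv : TrivialOutsideTwo D (p ^ s)) (P₁ P₂ : ℤ[X])
    (hP : HasQuotientZeta E π σ hσ (p ^ s) (p ^ (s + 1)) P₁ P₂) (H : (ZMod p)[X])
    (hH : IsQuotientMod p H P₁ P₂) (b : ℕ)
    (hb : CyclotomicDegreeLE p (Fintype.card κ) H b) {G : Type} [Group G]
    (S : GaloisAction D (Fintype.card κ) G) :
    (∀ U : Subgroup G, U.FiniteIndex →
      S.tateNumber U ≤ S.tateNumberQuotient (p ^ s) U + p ^ s * (p - 1) * b) ∧
    S.picardNumber ≤ S.picardNumberQuotient (p ^ s) + p ^ s * (p - 1) * b ∧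
    (S.picardNumberQuotient (p ^ s) + p ^ s * (p - 1) * b ≤ S.picardNumber ∨
      b ≤ 1 ∧ S.HasMovedDivisor (p ^ s) →
      ∀ U : Subgroup G, U.FiniteIndex →
        (S.TateHolds U ↔ S.TateHoldsForQuotient (p ^ s) U)) := by
  classical
  have hg := hD.order 2
  set P := potential (D.frob 2) ((Fintype.card κ : ℕ) : E) with hPdef
  have hPs : ∀ x ∈ P, D.aut 2 x ∈ P := potential_stable (hD.commute 2) _
  have hkey : finrank E (P ⊓ primitivePart (D.aut 2) p s : Submodule E (D.H 2)) ≤
      p ^ s * (p - 1) * b :=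
    finrank_primitive_le hp hg P hPs fun ω hω =>
      potential_eig hp π σ hσ hord D hD 2 h2 even_two htriv P₁ P₂ hP H hH hpκ hb hω
  have hsum : ∀ T : Submodule E (D.H 2), (∀ x ∈ T, D.aut 2 x ∈ T) → finrank E T ≤
      finrank E (T ⊓ invariants D (p ^ s) : Submodule E (D.H 2)) +
        finrank E (T ⊓ primitivePart (D.aut 2) p s : Submodule E (D.H 2)) := by
    intro T hT
    exact (Submodule.finrank_mono (le_sup_primitive hp hg T hT)).trans
      (Submodule.finrank_add_le_finrank_add_finrank _ _)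
  have hle : ∀ T : Submodule E (D.H 2), T ≤ P →
      finrank E (T ⊓ primitivePart (D.aut 2) p s : Submodule E (D.H 2)) ≤
        p ^ s * (p - 1) * b := fun T hT =>
    (Submodule.finrank_mono (inf_le_inf_right _ hT)).trans hkey
  refine ⟨?_, ?_, ?_⟩
  · intro U hU
    have h1 := hsum _ (fixed_stable S U)
    have h3 := hle _ (fixed_le S hU)
    unfold GaloisAction.tateNumber GaloisAction.tateNumberQuotient
    omega
  · have h1 := hsum _ (algebraic_stable S)
    have h3 := hle _ (algebraic_le S)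
    unfold GaloisAction.picardNumber GaloisAction.picardNumberQuotient
    omega
  · intro h
    have h1 : p ^ s * (p - 1) * b ≤
        finrank E (S.algebraic ⊓ primitivePart (D.aut 2) p s : Submodule E (D.H 2)) := by
      rcases h with h | ⟨hb1, x, hx, hx'⟩
      · have h1 := hsum _ (algebraic_stable S)
        unfold GaloisAction.picardNumber GaloisAction.picardNumberQuotient at h
        omega
      · refine le_trans ?_ (one_class S hp hg hx hx')
        calc p ^ s * (p - 1) * b ≤ p ^ s * (p - 1) * 1 := Nat.mul_le_mul_left _ hb1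
          _ = _ := mul_one _
    have h3 : S.algebraic ⊓ primitivePart (D.aut 2) p s = P ⊓ primitivePart (D.aut 2) p s :=
      Submodule.eq_of_le_of_finrank_le (inf_le_inf_right _ (algebraic_le S)) (hkey.trans h1)
    exact tate_of_primitive S hp hg (h3.ge.trans inf_le_left)

/-- **The cyclotomic degree for `p`-fold planes.** -/
theorem planes_cyc {p q : ℕ} (hp : p.Prime) (hq : (q : ZMod p) = 1) (P : ℤ[X])
    (hP : NoCyclotomicFactor p P) (H : (ZMod p)[X])
    (hH : IsQuotientMod p H 1 ((1 - C ((q : ℤ) ^ 2) * X) * P)) : CyclotomicDegreeLE p q H 1 := by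
  have hfact : Fact p.Prime := ⟨hp⟩
  intro r hr hdvd
  have hH' : H = (1 - X) * P.map (Int.castRingHom (ZMod p)) := by
    unfold IsQuotientMod at hH
    rw [Polynomial.map_one, mul_one] at hH
    rw [hH, Polynomial.map_mul, Polynomial.map_sub, Polynomial.map_one, Polynomial.map_mul,
      map_C, map_X]
    simp [hq]
  rw [hq, C_1, one_mul] at hdvd
  simp only [comp_X] at hdvd
  rw [hH'] at hdvd
  have hone : ∀ m ∈ r, m = 1 := by
    intro m hm
    by_contra hm1
    have h1 : cyclotomic m (ZMod p) ∣ (1 - X) * P.map (Int.castRingHom (ZMod p)) :=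
      (Multiset.dvd_prod (Multiset.mem_map_of_mem _ hm)).trans hdvd
    have hcop : IsCoprime (cyclotomic m (ZMod p)) (1 - X) := by
      have h2 : IsCoprime (cyclotomic m (ZMod p)) (cyclotomic 1 (ZMod p)) := by
        have h3 : (X ^ m - 1 : (ZMod p)[X]).Separable := by
          rw [X_pow_sub_one_separable_iff]
          intro h
          exact (hr m hm).2 ((CharP.cast_eq_zero_iff (ZMod p) p m).1 h)
        have h4 : cyclotomic m (ZMod p) * cyclotomic 1 (ZMod p) ∣ X ^ m - 1 := by
          rw [← prod_cyclotomic_eq_X_pow_sub_one (hr m hm).1]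
          have h5 : ({m, 1} : Finset ℕ) ⊆ m.divisors := by
            intro j hj
            rw [Finset.mem_insert, Finset.mem_singleton] at hj
            rw [Nat.mem_divisors]
            rcases hj with rfl | rfl
            · exact ⟨dvd_refl _, (hr _ hm).1.ne'⟩
            · exact ⟨one_dvd _, (hr m hm).1.ne'⟩
          have h6 := Finset.prod_dvd_prod_of_subset _ _ (fun i => cyclotomic i (ZMod p)) h5
          rwa [Finset.prod_pair hm1] at h6
        exact (h3.of_dvd h4).isCoprime
      rw [cyclotomic_one] at h2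
      have h3 : (1 - X : (ZMod p)[X]) = -(X - 1) := by ring
      rw [h3]
      exact h2.neg_right
    exact hP m (hr m hm).1 (hr m hm).2 (hcop.dvd_of_dvd_mul_left h1)
  have hsum : (r.map Nat.totient).sum = r.card := by
    have h : r.map Nat.totient = r.map fun _ => 1 :=
      Multiset.map_congr rfl fun m hm => by rw [hone m hm, Nat.totient_one]
    rw [h]
    simp
  have hprod : (r.map fun m => cyclotomic m (ZMod p)).prod = (X - 1) ^ r.card := by
    have h : (r.map fun m => cyclotomic m (ZMod p)) = r.map fun _ => (X - 1 : (ZMod p)[X]) :=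
      Multiset.map_congr rfl fun m hm => by rw [hone m hm, cyclotomic_one]
    rw [h]
    simp
  rw [hsum]
  by_contra hlt
  push Not at hlt
  have hX : (1 - X : (ZMod p)[X]) ≠ 0 := by
    intro h
    have := congrArg (fun Q => Q.coeff 0) h
    simp at this
  have h1 : (X - 1 : (ZMod p)[X]) ^ 2 ∣ (1 - X) * P.map (Int.castRingHom (ZMod p)) := by
    refine dvd_trans ?_ hdvd
    rw [hprod]
    exact pow_dvd_pow _ hlt
  have h2 : (X - 1 : (ZMod p)[X]) ^ 2 = (1 - X) * (1 - X) := by ring
  rw [h2, mul_dvd_mul_iff_left hX] at h1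
  refine hP 1 one_pos (fun h => hp.one_lt.ne' (Nat.dvd_one.1 h)) ?_
  rw [cyclotomic_one]
  have h3 : (X - 1 : (ZMod p)[X]) = -(1 - X) := by ring
  rw [h3]
  exact (neg_dvd).2 h1

end Pool.Agent.U273.FS
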