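import Mathlib
import Pool.Agent.U273.FS.InvDefs
import Pool.Agent.U273.FS.TateMain
import Pool.Agent.U273.FS.EllMain

/-!
# Surfaces with an involution: the theorem
-/

set_option autoImplicit false
set_option linter.unusedSectionVars false

open CategoryTheory AlgebraicGeometry Polynomial

namespace Pool.Agent.U273.FS

open Module Pool.Agent.W528.HS

variable {E : Type} [Field E] [CharZero E] [IsAlgClosed E]

section linear

variable {W : Type} [AddCommGroup W] [Module E W] [FiniteDimensional E W]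

/-- A similitude with factor `q²` and determinant `-q ^ n` has the eigenvalue `-q`. -/
theorem exists_minus {Φ : Module.End E W} {B : LinearMap.BilinForm E W} {q : E} (hq : q ≠ 0)
    (hB : ∀ x y, B (Φ x) (Φ y) = q ^ 2 * B x y) (hnd : ∀ x, (∀ y, B x y = 0) → x = 0)
    (hdet : LinearMap.det Φ = -q ^ finrank E W) : ∃ y, y ≠ 0 ∧ Φ y = -(q • y) := by
  classical
  let b := Module.finBasis E W
  set A := LinearMap.toMatrix b b Φ with hA
  set M := LinearMap.BilinForm.toMatrix b B with hM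
  have hMdet : M.det ≠ 0 := by
    rw [hM, ← LinearMap.BilinForm.nondegenerate_iff_det_ne_zero b]
    exact LinearMap.BilinForm.Nondegenerate.ofSeparatingLeft fun x hx => hnd x hx
  have hq1 : LinearMap.toMatrix b b (Φ + q • 1) = A + q • 1 := by
    rw [map_add, map_smul, ← hA]
    congr 2
    exact LinearMap.toMatrix_one b
  have hrel : B.comp (Φ + q • 1) Φ = q • B.compRight (Φ + q • 1) := by
    ext x y
    simp only [LinearMap.BilinForm.comp_apply, LinearMap.smul_apply,
      LinearMap.BilinForm.compRight_apply, LinearMap.add_apply, Module.End.one_apply, map_add,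
      map_smul, hB, smul_eq_mul]
    ring
  have hmat := congrArg (LinearMap.BilinForm.toMatrix b) hrel
  rw [LinearMap.BilinForm.toMatrix_comp b, map_smul, LinearMap.BilinForm.toMatrix_compRight, hq1,
    ← hA, ← hM] at hmat
  have hd := congrArg Matrix.det hmat
  rw [Matrix.det_mul, Matrix.det_mul, Matrix.det_transpose, Matrix.det_smul, Matrix.det_mul,
    Fintype.card_fin] at hd
  have hdA : A.det = -q ^ finrank E W := by rw [hA, LinearMap.det_toMatrix, hdet]
  rw [hdA] at hd
  have h0 : (A + q • 1).det = 0 := by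
    have h1 : (2 * q ^ finrank E W * M.det) * (A + q • 1).det = 0 := by
      linear_combination -hd
    exact (mul_eq_zero.1 h1).resolve_left
      (mul_ne_zero (mul_ne_zero two_ne_zero (pow_ne_zero _ hq)) hMdet)
  have h1 : LinearMap.det (Φ + q • 1 : Module.End E W) = 0 := by
    rw [← LinearMap.det_toMatrix b, hq1, h0]
  have h2 := LinearMap.bot_lt_ker_of_det_eq_zero h1
  obtain ⟨y, hy, hy0⟩ := Submodule.exists_mem_ne_zero_of_ne_bot h2.ne'
  refine ⟨y, hy0, ?_⟩
  rw [LinearMap.mem_ker] at hy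
  have h3 : Φ y + q • y = 0 := hy
  exact eq_neg_of_add_eq_zero_left h3

end linear

variable {κ : Type} [Field κ] [Fintype κ]

theorem anti_stable {D : CohomologyGroups E} (hc : Commute (D.frob 2) (D.aut 2)) :
    ∀ x ∈ antiInvariants D, D.frob 2 x ∈ antiInvariants D :=
  Pool.Agent.TH117.HS.mapsTo_eig hc (-1)

/-- The eigenvalue `-q` on the anti-invariant part. -/
theorem anti_minus {D : CohomologyGroups E} {q : ℕ} (hq : q ≠ 0) (hg : D.aut 2 ^ 2 = 1)
    (C : CupProduct D q) (hs : HasSignMinusOne D q) :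
    ∃ y ∈ antiInvariants D, y ≠ 0 ∧ D.frob 2 y = -((q : E) • y) := by
  obtain ⟨Ψ, hΨ, hdet⟩ := hs
  have hqE : (q : E) ≠ 0 := by exact_mod_cast hq
  let B : LinearMap.BilinForm E (antiInvariants D) := C.pair.restrict (antiInvariants D)
  have hBapply : ∀ x y : antiInvariants D, B x y = C.pair (x : D.H 2) (y : D.H 2) := fun _ _ => rfl
  have hgg : ∀ x, D.aut 2 (D.aut 2 x) = x := by
    intro x
    rw [← Module.End.mul_apply, ← pow_two, hg, Module.End.one_apply]
  obtain ⟨y, hy0, hy⟩ := exists_minus (Φ := Ψ) (B := B) hqE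
    (fun x y => by
      rw [hBapply, hBapply, hΨ, hΨ]
      exact C.frob _ _)
    (by
      intro x hx
      apply Subtype.ext
      refine C.nondegenerate _ fun z => ?_
      have hxg : D.aut 2 (x : D.H 2) = -(x : D.H 2) := by
        have := Module.End.mem_eigenspace_iff.1 x.2
        rwa [neg_one_smul] at this
      have h1 : z - D.aut 2 z ∈ antiInvariants D := by
        refine Module.End.mem_eigenspace_iff.2 ?_
        rw [map_sub, hgg, neg_one_smul]
        abel
      have h2 := hx ⟨_, h1⟩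
      rw [hBapply] at h2
      have h3 : C.pair (x : D.H 2) (D.aut 2 z) = -C.pair (x : D.H 2) z := by
        have h4 := C.aut (x : D.H 2) (D.aut 2 z)
        rw [hgg, hxg, map_neg, LinearMap.neg_apply, one_mul] at h4
        rw [← h4]
      rw [map_sub, h3] at h2
      have h5 : (2 : E) * C.pair (x : D.H 2) z = 0 := by
        linear_combination h2
      exact (mul_eq_zero.1 h5).resolve_left two_ne_zero) hdet
  refine ⟨y, y.2, fun h0 => hy0 (Subtype.ext h0), ?_⟩
  have h1 := congrArg Subtype.val hy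
  rw [hΨ] at h1
  exact h1

/-- **No class over the base field.** -/
theorem anti_base (hq : ¬ 2 ∣ Fintype.card κ) {X : Scheme.{0}}
    (π : X ⟶ Spec (CommRingCat.of κ)) [LocallyOfFiniteType π] [QuasiCompact π] (σ : X ⟶ X)
    (hσ : σ ≫ π = π) (hord : power σ (2 ^ (0 + 1)) = 𝟙 X) (D : CohomologyGroups E)
    (hD : D.IsCohomology π σ hσ (2 ^ (0 + 1))) (htop : 2 ≤ D.top)
    (htriv : TrivialOutsideTwo D (2 ^ 0)) (P₁ P₂ : ℤ[X])
    (hP : HasQuotientZeta E π σ hσ (2 ^ 0) (2 ^ (0 + 1)) P₁ P₂) (H : (ZMod 2)[X])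
    (hH : IsQuotientMod 2 H P₁ P₂) (C : CupProduct D (Fintype.card κ))
    (hs : HasSignMinusOne D (Fintype.card κ)) (hH2 : ¬ (1 - Polynomial.X) ^ 2 ∣ H) :
    ∀ x ∈ antiInvariants D, D.frob 2 x = ((Fintype.card κ : ℕ) : E) • x → x = 0 := by
  intro x hx hxq
  by_contra hx0
  set q := Fintype.card κ with hqdef
  have hq0 : q ≠ 0 := Fintype.card_ne_zero
  have hqE : (q : E) ≠ 0 := by exact_mod_cast hq0
  obtain ⟨y, hyT, hy0, hyq⟩ := anti_minus hq0 (hD.order 2) C hs
  have hω : IsPrimitiveRoot (-1 : E) (2 ^ (0 + 1)) := IsPrimitiveRoot.neg_one 0 (by norm_num)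
  obtain ⟨k, _, _, ⟨θ⟩⟩ := Pool.Agent.W804.HS.RD.main E 2 Nat.prime_two
  obtain ⟨hint, h1, -⟩ := faithful_part Nat.prime_two π σ hσ hord D hD 2 htop htriv P₁ P₂ hP θ hω
  set Φ := (D.frob 2).restrict (Pool.Agent.TH117.HS.mapsTo_eig (hD.commute 2) (-1)) with hΦ
  have hne : ∀ P : ℤ[X], (∃ B : Multiset E, IsCharPoly P B) → P.map (Int.castRingHom k) ≠ 0 := by
    rintro P ⟨B, hP, -⟩ h
    have h3 := congrArg (fun Q => Polynomial.coeff Q 0) h
    simp only [coeff_map, hP, coeff_zero, map_one] at h3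
    exact one_ne_zero h3
  obtain ⟨B₁, B₂, hB₁, hB₂, -⟩ := hP
  let ι : ZMod 2 →+* k := ZMod.castHom (dvd_refl 2) k
  have hι : ∀ P : ℤ[X], (P.map (Int.castRingHom (ZMod 2))).map ι = P.map (Int.castRingHom k) := by
    intro P
    rw [Polynomial.map_map]
    congr 1
    exact RingHom.ext_int _ _
  have hred : red θ Φ.charpoly.roots = H.map ι := by
    have h3 := congrArg (Polynomial.map ι) hH
    rw [Polynomial.map_mul, hι, hι] at h3
    exact mul_right_cancel₀ (hne P₁ ⟨B₁, hB₁⟩) ((h1 even_two).trans h3.symm)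
  have hcp : Φ.charpoly ≠ 0 := (LinearMap.charpoly_monic Φ).ne_zero
  have hroot : ∀ (α : E) (z : D.H 2) (hz : z ∈ antiInvariants D), z ≠ 0 → D.frob 2 z = α • z →
      α ∈ Φ.charpoly.roots := by
    intro α z hz hz0 hzα
    rw [Polynomial.mem_roots hcp, ← Module.End.hasEigenvalue_iff_isRoot_charpoly]
    refine Module.End.hasEigenvalue_of_hasEigenvector (x := (⟨z, hz⟩ : (D.aut 2).eigenspace (-1))) ?_
    refine ⟨Module.End.mem_eigenspace_iff.2 (Subtype.ext hzα), fun h => hz0 ?_⟩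
    exact congrArg Subtype.val h
  have hr1 := hroot _ x hx hx0 hxq
  have hr2 := hroot (-(q : E)) y hyT hy0 (by rw [hyq, neg_smul])
  have hne2 : (q : E) ≠ -(q : E) := by
    intro h
    have h3 : (2 : E) * q = 0 := by linear_combination h
    exact (mul_ne_zero two_ne_zero hqE) h3
  have hle : Multiset.replicate 1 (q : E) + Multiset.replicate 1 (-(q : E)) ≤
      Φ.charpoly.roots := by
    classical
    rw [Multiset.replicate_one, Multiset.replicate_one, Multiset.singleton_add,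
      Multiset.cons_le_of_notMem (by simpa using hne2)]
    exact ⟨hr1, Multiset.singleton_le.2 hr2⟩
  have h6 := dvd_red₂ θ hle
  have hodd : Odd (q : ℤ) := by
    rw [Int.odd_coe_nat, ← Nat.not_even_iff_odd, even_iff_two_dvd]
    exact hq
  have ht1 : th θ (q : E) = 1 := by
    have := th_odd (E := E) θ hodd
    simpa using this
  have ht2 : th θ (-(q : E)) = 1 := by
    have := th_odd (E := E) θ hodd.neg
    simpa using this
  rw [ht1, ht2, C_1, one_mul, pow_one, ← pow_two, hred] at h6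
  apply hH2
  rw [← Polynomial.map_dvd_map' ι]
  simpa using h6

/-- **No class over extensions with a place of odd degree.** -/
theorem anti_odd (hq : ¬ 2 ∣ Fintype.card κ) {X : Scheme.{0}}
    (π : X ⟶ Spec (CommRingCat.of κ)) [LocallyOfFiniteType π] [QuasiCompact π] (σ : X ⟶ X)
    (hσ : σ ≫ π = π) (hord : power σ (2 ^ (0 + 1)) = 𝟙 X) (D : CohomologyGroups E)
    (hD : D.IsCohomology π σ hσ (2 ^ (0 + 1))) (htop : 2 ≤ D.top)
    (htriv : TrivialOutsideTwo D (2 ^ 0)) (P₁ P₂ : ℤ[X])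
    (hP : HasQuotientZeta E π σ hσ (2 ^ 0) (2 ^ (0 + 1)) P₁ P₂) (H : (ZMod 2)[X])
    (hH : IsQuotientMod 2 H P₁ P₂) (C : CupProduct D (Fintype.card κ))
    (hs : HasSignMinusOne D (Fintype.card κ))
    (hb : CyclotomicDegreeLE 2 (Fintype.card κ) H 1) (f : ℕ) (hf : Odd f) :
    ∀ x ∈ antiInvariants D, (D.frob 2 ^ f) x = ((Fintype.card κ : ℕ) : E) ^ f • x → x = 0 := by
  intro x hx hxq
  set q := Fintype.card κ with hqdef
  have hq0 : q ≠ 0 := Fintype.card_ne_zero
  have hqE : (q : E) ≠ 0 := by exact_mod_cast hq0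
  obtain ⟨y, hyT, hy0, hyq⟩ := anti_minus hq0 (hD.order 2) C hs
  have hω : IsPrimitiveRoot (-1 : E) (2 ^ (0 + 1)) := IsPrimitiveRoot.neg_one 0 (by norm_num)
  have hdim := potential_eig Nat.prime_two π σ hσ hord D hD 2 htop even_two htriv P₁ P₂ hP H hH hq
    hb hω
  have hy' : D.frob 2 y = (-(q : E)) • y := by rw [hyq, neg_smul]
  have hyP : y ∈ potential (D.frob 2) (q : E) ⊓ (D.aut 2).eigenspace (-1) := by
    refine ⟨⟨2, two_pos, ?_⟩, hyT⟩
    rw [pow_eig hy' 2, neg_sq]
  have hxP : x ∈ potential (D.frob 2) (q : E) ⊓ (D.aut 2).eigenspace (-1) :=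
    ⟨⟨f, hf.pos, hxq⟩, hx⟩
  obtain ⟨c, hc⟩ : ∃ c : E, x = c • y := by
    have h1 : finrank E (Submodule.span E {y}) = 1 := finrank_span_singleton hy0
    have h2 : Submodule.span E {y} ≤
        potential (D.frob 2) (q : E) ⊓ (D.aut 2).eigenspace (-1) := by
      rw [Submodule.span_singleton_le_iff_mem]
      exact hyP
    have h3 := Submodule.eq_of_le_of_finrank_le h2 (by rw [h1]; exact hdim)
    rw [← h3, Submodule.mem_span_singleton] at hxP
    obtain ⟨c, hc⟩ := hxP
    exact ⟨c, hc.symm⟩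
  have h4 : (D.frob 2 ^ f) x = (-(q : E) ^ f) • x := by
    rw [hc, map_smul, pow_eig hy' f, hf.neg_pow, smul_comm]
  rw [h4] at hxq
  have h5 : (2 * (q : E) ^ f) • x = 0 := by
    rw [two_mul, add_smul]
    nth_rewrite 1 [← hxq]
    rw [neg_smul]
    abel
  exact (smul_eq_zero.1 h5).resolve_left (mul_ne_zero two_ne_zero (pow_ne_zero _ hqE))

/-- The classes fixed by a group with a conjugate of a power of Frobenius. -/
theorem reduces {D : CohomologyGroups E} {q : ℕ} {G : Type} [Group G]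
    (hg : D.aut 2 ^ 2 = 1) (S : GaloisAction D q G) (U : Subgroup G) (f : ℕ)
    (hU : S.HasPlaceOfDegree U f)
    (h : ∀ x ∈ antiInvariants D, (D.frob 2 ^ f) x = (q : E) ^ f • x → x = 0) :
    S.ReducesToQuotient U := by
  obtain ⟨γ, δ, hδ1, hγ⟩ := hU
  have hgg : ∀ x, D.aut 2 (D.aut 2 x) = x := by
    intro x
    rw [← Module.End.mul_apply, ← pow_two, hg, Module.End.one_apply]
  have hcomm : ∀ (δ : G) (x : D.H 2), S.ρ δ (D.aut 2 x) = D.aut 2 (S.ρ δ x) := by
    intro δ x
    have := S.commute δ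
    rw [← Module.End.mul_apply, this.eq, Module.End.mul_apply]
  have key : S.fixed U ≤ invariants D 1 := by
    intro x hx
    have hx' := (mem_fixed S).1 hx
    set z := x - D.aut 2 x with hz
    have hzA : z ∈ antiInvariants D := by
      refine Module.End.mem_eigenspace_iff.2 ?_
      rw [hz, map_sub, hgg, neg_one_smul]
      abel
    have hzU : ∀ δ ∈ U, S.ρ δ z = z := by
      intro δ hδ
      rw [hz, map_sub, hcomm, hx' δ hδ]
    set w := S.ρ γ⁻¹ z with hw
    have hwA : w ∈ antiInvariants D := by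
      refine Module.End.mem_eigenspace_iff.2 ?_
      rw [hw, ← hcomm, Module.End.mem_eigenspace_iff.1 hzA, map_smul]
    have hwF : S.ρ (S.F ^ f) w = w := by
      have h0 : S.ρ (S.F ^ f) = S.ρ (S.F ^ f * δ) := by rw [map_mul, hδ1, mul_one]
      have h1 : (S.F ^ f * δ) * γ⁻¹ = γ⁻¹ * (γ * (S.F ^ f * δ) * γ⁻¹) := by group
      rw [h0, hw, ← Module.End.mul_apply, ← map_mul, h1, map_mul, Module.End.mul_apply, hzU _ hγ]
    have hw0 : w = 0 := h w hwA (by rw [frob_pow S, hwF])
    have hz0 : z = 0 := by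
      have h2 : S.ρ γ w = z := by
        rw [hw, ← Module.End.mul_apply, ← map_mul, mul_inv_cancel, map_one, Module.End.one_apply]
      rw [← h2, hw0, map_zero]
    change ((D.aut 2 ^ 1 - 1 : Module.End E (D.H 2))) x = 0
    rw [pow_one, LinearMap.sub_apply, Module.End.one_apply, sub_eq_zero]
    exact (sub_eq_zero.1 hz0).symm
  refine ⟨key, ?_⟩
  unfold GaloisAction.TateHolds GaloisAction.TateHoldsForQuotient
  rw [inf_eq_left.2 key]

/-- A subgroup of odd index contains a conjugate of an odd power. -/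
theorem odd_index {G : Type} [Group G] (F : G) (U : Subgroup G) (hU : Odd U.index) :
    ∃ f, Odd f ∧ ∃ γ : G, γ * F ^ f * γ⁻¹ ∈ U := by
  classical
  have hfin : U.FiniteIndex := ⟨by rintro h; rw [h] at hU; exact absurd hU (by decide)⟩
  have : Fintype (G ⧸ U) := Fintype.ofFinite _
  let φ : Equiv.Perm (G ⧸ U) := MulAction.toPermHom G (G ⧸ U) F
  have hpos : 0 < orderOf φ := orderOf_pos φ
  obtain ⟨a, f, hf, haf⟩ := Nat.exists_eq_pow_mul_and_not_dvd hpos.ne' 2 (by norm_num)
  have hfodd : Odd f := by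
    rw [← Nat.not_even_iff_odd, even_iff_two_dvd]
    exact hf
  have h1 : (φ ^ f) ^ 2 ^ a = 1 := by
    rw [← pow_mul, mul_comm, ← haf]
    exact pow_orderOf_eq_one φ
  have : Fact (Nat.Prime 2) := ⟨Nat.prime_two⟩
  let ψ : Function.End (G ⧸ U) := fun x => (φ ^ f) x
  have hψn : ∀ n : ℕ, ψ ^ n = (fun x => ((φ ^ f) ^ n) x : Function.End (G ⧸ U)) := by
    intro n
    induction n with
    | zero => rfl
    | succ n ih =>
      rw [pow_succ, ih]
      funext x
      rw [pow_succ]
      rfl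
  have hψ : ψ ^ 2 ^ a = 1 := by
    rw [hψn, h1]
    rfl
  have h3 := Equiv.Perm.card_fixedPoints_modEq (f := ψ) hψ
  have h4 : Odd (Fintype.card (G ⧸ U)) := by
    have : U.index = Fintype.card (G ⧸ U) := by
      rw [Subgroup.index, Nat.card_eq_fintype_card]
    rwa [← this]
  have h5 : Nonempty ψ.fixedPoints := by
    by_contra h0
    rw [not_nonempty_iff] at h0
    rw [Fintype.card_eq_zero (α := ψ.fixedPoints), Nat.ModEq] at h3
    rw [Nat.odd_iff] at h4
    omega
  obtain ⟨⟨x, hx⟩⟩ := h5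
  have hx' : (φ ^ f) x = x := hx
  refine ⟨f, hfodd, ?_⟩
  obtain ⟨δ, rfl⟩ := QuotientGroup.mk_surjective x
  have h7 : ((F ^ f * δ : G) : G ⧸ U) = (δ : G ⧸ U) := by
    have h8 : (φ ^ f : Equiv.Perm (G ⧸ U)) (δ : G ⧸ U) = ((F ^ f * δ : G) : G ⧸ U) := by
      have h9 : φ ^ f = MulAction.toPermHom G (G ⧸ U) (F ^ f) := (map_pow _ _ _).symm
      rw [h9]
      rfl
    rw [← h8]
    exact hx'
  rw [eq_comm, QuotientGroup.eq] at h7
  refine ⟨δ⁻¹, ?_⟩
  rwa [inv_inv, mul_assoc]

/-- **The double planes.** -/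
theorem planes_two {q : ℕ} (hq : ¬ 2 ∣ q) (P : ℤ[X]) (hP : Odd (P.eval 1)) (H : (ZMod 2)[X])
    (hH : IsQuotientMod 2 H 1 ((1 - C ((q : ℤ) ^ 2) * Polynomial.X) * P)) :
    ¬ (1 - Polynomial.X) ^ 2 ∣ H := by
  intro hdvd
  have hq1 : (q : ZMod 2) = 1 := by
    rcases Nat.mod_two_eq_zero_or_one q with h | h
    · exact absurd (Nat.dvd_of_mod_eq_zero h) hq
    · rw [← ZMod.natCast_mod, h]
      rfl
  have hH' : H = (1 - Polynomial.X) * P.map (Int.castRingHom (ZMod 2)) := by
    unfold IsQuotientMod at hH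
    rw [Polynomial.map_one, mul_one] at hH
    rw [hH, Polynomial.map_mul, Polynomial.map_sub, Polynomial.map_one, Polynomial.map_mul,
      map_C, map_X]
    simp [hq1]
  have hX : (1 - Polynomial.X : (ZMod 2)[X]) ≠ 0 := by
    intro h
    have := congrArg (fun Q => Q.coeff 0) h
    simp at this
  rw [hH', pow_two, mul_dvd_mul_iff_left hX] at hdvd
  obtain ⟨R, hR⟩ := hdvd
  have h1 : (P.map (Int.castRingHom (ZMod 2))).eval 1 = 0 := by
    rw [hR]
    simp
  have h2 : (P.map (Int.castRingHom (ZMod 2))).eval 1 = ((P.eval 1 : ℤ) : ZMod 2) := by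
    have := Polynomial.eval_intCast_map (Int.castRingHom (ZMod 2)) P 1
    rwa [Int.cast_one] at this
  rw [h2] at h1
  obtain ⟨d, hd⟩ := hP
  rw [hd] at h1
  push_cast at h1
  have h3 : (2 : ZMod 2) = 0 := rfl
  rw [h3, zero_mul, zero_add] at h1
  exact one_ne_zero h1

end Pool.Agent.U273.FS
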