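import Mathlib
import Pool.Agent.U273.FS.InvMain

/-!
# Surfaces with an involution: the quadratic extension
-/

set_option autoImplicit false
set_option linter.unusedSectionVars false

open CategoryTheory AlgebraicGeometry Polynomial

namespace Pool.Agent.U273.FS

open Module Pool.Agent.W528.HS

variable {E : Type} [Field E] [CharZero E] [IsAlgClosed E]

section linear

variable {W : Type} [AddCommGroup W] [Module E W] [FiniteDimensional E W]

/-- The determinant of an isometry is `1` or `-1`. -/
theorem det_isometry {Φ : Module.End E W} {B : LinearMap.BilinForm E W}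
    (hB : ∀ x y, B (Φ x) (Φ y) = B x y) (hnd : ∀ x, (∀ y, B x y = 0) → x = 0) :
    LinearMap.det Φ = 1 ∨ LinearMap.det Φ = -1 := by
  classical
  let b := Module.finBasis E W
  set A := LinearMap.toMatrix b b Φ with hA
  set M := LinearMap.BilinForm.toMatrix b B with hM
  have hMdet : M.det ≠ 0 := by
    rw [hM, ← LinearMap.BilinForm.nondegenerate_iff_det_ne_zero b]
    exact LinearMap.BilinForm.Nondegenerate.ofSeparatingLeft fun x hx => hnd x hx
  have hrel : B.comp Φ Φ = B := by
    ext x y
    simp only [LinearMap.BilinForm.comp_apply, hB]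
  have hmat := congrArg (LinearMap.BilinForm.toMatrix b) hrel
  rw [LinearMap.BilinForm.toMatrix_comp b, ← hA, ← hM] at hmat
  have hd := congrArg Matrix.det hmat
  rw [Matrix.det_mul, Matrix.det_mul, Matrix.det_transpose] at hd
  have hdA : A.det = LinearMap.det Φ := LinearMap.det_toMatrix b Φ
  rw [hdA] at hd
  have h1 : M.det * ((LinearMap.det Φ - 1) * (LinearMap.det Φ + 1)) = 0 := by
    linear_combination hd
  rcases mul_eq_zero.1 ((mul_eq_zero.1 h1).resolve_left hMdet) with h | h
  · exact Or.inl (sub_eq_zero.1 h)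
  · exact Or.inr (eq_neg_of_add_eq_zero_left h)

end linear

/-- A subgroup of index two. -/
theorem index_two {G : Type} [Group G] (V : Subgroup G) (a : G) (h : ∀ b, b * a ∈ V ↔ b ∉ V) :
    V.index = 2 := by
  rw [Subgroup.index_eq_two_iff]
  refine ⟨a, fun b => ?_⟩
  by_cases hb : b ∈ V
  · exact Or.inr ⟨hb, fun h1 => (h b).1 h1 hb⟩
  · exact Or.inl ⟨(h b).2 hb, hb⟩

variable {κ : Type} [Field κ] [Fintype κ]

open Classical in
/-- **The eigenvalues `Q ξ` in the eigenspace of a faithful character.** -/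
theorem roots_eig {p s : ℕ} (hp : p.Prime) {X : Scheme.{0}}
    (π : X ⟶ Spec (CommRingCat.of κ)) [LocallyOfFiniteType π] [QuasiCompact π] (σ : X ⟶ X)
    (hσ : σ ≫ π = π) (hord : power σ (p ^ (s + 1)) = 𝟙 X) (D : CohomologyGroups E)
    (hD : D.IsCohomology π σ hσ (p ^ (s + 1))) (m : ℕ) (hm : m ≤ D.top) (hev : Even m)
    (htriv : ∀ i, i ≠ m → ∀ v, (D.aut i ^ p ^ s) v = v) (P₁ P₂ : ℤ[X])
    (hP : HasQuotientZeta E π σ hσ (p ^ s) (p ^ (s + 1)) P₁ P₂) (H : (ZMod p)[X])
    (hH : H * P₁.map (Int.castRingHom (ZMod p)) = P₂.map (Int.castRingHom (ZMod p)))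
    {Q b : ℕ} (hQ : ¬ p ∣ Q) (hb : CyclotomicDegreeLE p Q H b)
    {ω : E} (hω : IsPrimitiveRoot ω (p ^ (s + 1))) :
    (((D.frob m).restrict (Pool.Agent.TH117.HS.mapsTo_eig (hD.commute m) ω)).charpoly.roots.filter
      fun x => ∃ n : ℕ, 0 < n ∧ x ^ n = (Q : E) ^ n).card ≤ b := by
  have hfact : Fact p.Prime := ⟨hp⟩
  have hQ0 : Q ≠ 0 := by
    rintro rfl
    exact hQ (dvd_zero p)
  obtain ⟨k, _, _, ⟨θ⟩⟩ := Pool.Agent.W804.HS.RD.main E p hp
  obtain ⟨hint, h1, -⟩ := faithful_part hp π σ hσ hord D hD m hm htriv P₁ P₂ hP θ hω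
  obtain ⟨a, ha⟩ := faithful_sum hp π σ hσ hord D hD m hm htriv hω
  set Φ := (D.frob m).restrict (Pool.Agent.TH117.HS.mapsTo_eig (hD.commute m) ω) with hΦ
  have hne : ∀ P : ℤ[X], (∃ B : Multiset E, IsCharPoly P B) → P.map (Int.castRingHom k) ≠ 0 := by
    rintro P ⟨B, hP, -⟩ h
    have h3 := congrArg (fun Q => Polynomial.coeff Q 0) h
    simp only [coeff_map, hP, coeff_zero, map_one] at h3
    exact one_ne_zero h3
  obtain ⟨B₁, B₂, hB₁, hB₂, -⟩ := hP
  let ι : ZMod p →+* k := ZMod.castHom (dvd_refl p) k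
  have hι : ∀ P : ℤ[X], (P.map (Int.castRingHom (ZMod p))).map ι = P.map (Int.castRingHom k) := by
    intro P
    rw [Polynomial.map_map]
    congr 1
    exact RingHom.ext_int _ _
  have hred : red θ Φ.charpoly.roots = H.map ι := by
    have h3 := congrArg (Polynomial.map ι) hH
    rw [Polynomial.map_mul, hι, hι] at h3
    exact mul_right_cancel₀ (hne P₁ ⟨B₁, hB₁⟩) ((h1 hev).trans h3.symm)
  have hQk : (Q : k) ≠ 0 := by
    rw [Ne, CharP.cast_eq_zero_iff k p]
    exact hQ
  obtain ⟨r, hr1, hr2, hr3⟩ := cyc_part hp θ (s := s + 1) (hω.inv).pow_eq_one a Φ.charpoly.roots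
    hint (ε := 1) one_ne_zero (by
      intro n hn
      have := ha n hn
      rwa [hev.neg_one_pow] at this) (Q := Q) hQk
  rw [← hr2]
  refine hb r hr1 ?_
  rw [hred] at hr3
  rw [← Polynomial.map_dvd_map' ι]
  refine (dvd_of_eq ?_).trans hr3
  rw [Polynomial.map_multiset_prod, Multiset.map_map]
  congr 1
  refine Multiset.map_congr rfl fun n _ => ?_
  rw [Function.comp_apply, Polynomial.map_comp, map_cyclotomic, Polynomial.map_mul, map_C, map_X,
    map_natCast]

/-- The form is nondegenerate on the anti-invariant part. -/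
theorem anti_nondeg {D : CohomologyGroups E} {q : ℕ} (hg : D.aut 2 ^ 2 = 1) (C : CupProduct D q)
    {x : D.H 2} (hx : x ∈ antiInvariants D) (h : ∀ y ∈ antiInvariants D, C.pair x y = 0) :
    x = 0 := by
  have hgg : ∀ x, D.aut 2 (D.aut 2 x) = x := by
    intro x
    rw [← Module.End.mul_apply, ← pow_two, hg, Module.End.one_apply]
  refine C.nondegenerate _ fun z => ?_
  have hxg : D.aut 2 x = -x := by
    have := Module.End.mem_eigenspace_iff.1 hx
    rwa [neg_one_smul] at this
  have h1 : z - D.aut 2 z ∈ antiInvariants D := by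
    refine Module.End.mem_eigenspace_iff.2 ?_
    rw [map_sub, hgg, neg_one_smul]
    abel
  have h2 := h _ h1
  have h3 : C.pair x (D.aut 2 z) = -C.pair x z := by
    have h4 := C.aut x (D.aut 2 z)
    rw [hgg, hxg, map_neg, LinearMap.neg_apply, one_mul] at h4
    rw [← h4]
  rw [map_sub, h3] at h2
  have h5 : (2 : E) * C.pair x z = 0 := by
    linear_combination h2
  exact (mul_eq_zero.1 h5).resolve_left two_ne_zero

/-- **The line of the potential Tate classes.** -/
theorem anti_line (hq : ¬ 2 ∣ Fintype.card κ) {X : Scheme.{0}}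
    (π : X ⟶ Spec (CommRingCat.of κ)) [LocallyOfFiniteType π] [QuasiCompact π] (σ : X ⟶ X)
    (hσ : σ ≫ π = π) (hord : power σ (2 ^ (0 + 1)) = 𝟙 X) (D : CohomologyGroups E)
    (hD : D.IsCohomology π σ hσ (2 ^ (0 + 1))) (htop : 2 ≤ D.top)
    (htriv : TrivialOutsideTwo D (2 ^ 0)) (P₁ P₂ : ℤ[X])
    (hP : HasQuotientZeta E π σ hσ (2 ^ 0) (2 ^ (0 + 1)) P₁ P₂) (H : (ZMod 2)[X])
    (hH : IsQuotientMod 2 H P₁ P₂) (C : CupProduct D (Fintype.card κ))
    (hs : HasSignMinusOne D (Fintype.card κ))
    (hb : CyclotomicDegreeLE 2 (Fintype.card κ) H 1) :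
    ∃ y ∈ antiInvariants D, y ≠ 0 ∧ D.frob 2 y = -(((Fintype.card κ : ℕ) : E) • y) ∧
      C.pair y y ≠ 0 ∧ ∀ x ∈ antiInvariants D,
        x ∈ potential (D.frob 2) ((Fintype.card κ : ℕ) : E) → ∃ c : E, x = c • y := by
  classical
  have hq0 : Fintype.card κ ≠ 0 := Fintype.card_ne_zero
  have hqE : ((Fintype.card κ : ℕ) : E) ≠ 0 := by exact_mod_cast hq0
  obtain ⟨y, hyT, hy0, hyq⟩ := anti_minus hq0 (hD.order 2) C hs
  have hω : IsPrimitiveRoot (-1 : E) (2 ^ (0 + 1)) := IsPrimitiveRoot.neg_one 0 (by norm_num)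
  have hdim := potential_eig Nat.prime_two π σ hσ hord D hD 2 htop even_two htriv P₁ P₂ hP H hH hq
    hb hω
  have hroots := roots_eig Nat.prime_two π σ hσ hord D hD 2 htop even_two htriv P₁ P₂ hP H hH hq
    hb hω
  set Φ := (D.frob 2).restrict (Pool.Agent.TH117.HS.mapsTo_eig (hD.commute 2) (-1 : E)) with hΦ
  have hy' : D.frob 2 y = (-((Fintype.card κ : ℕ) : E)) • y := by rw [hyq, neg_smul]
  refine ⟨y, hyT, hy0, hyq, ?_, ?_⟩
  · intro hyy
    let B : LinearMap.BilinForm E ((D.aut 2).eigenspace (-1 : E)) :=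
      C.pair.restrict ((D.aut 2).eigenspace (-1 : E))
    have hBapply : ∀ x y : (D.aut 2).eigenspace (-1 : E),
        B x y = C.pair (x : D.H 2) (y : D.H 2) := fun _ _ => rfl
    let y₀ : (D.aut 2).eigenspace (-1 : E) := ⟨y, hyT⟩
    have hy₀ : y₀ ≠ 0 := fun h => hy0 (congrArg Subtype.val h)
    have hΦy : Φ y₀ = (-((Fintype.card κ : ℕ) : E)) • y₀ := Subtype.ext hy'
    have hyM : y₀ ∈ Module.End.maxGenEigenspace Φ (-((Fintype.card κ : ℕ) : E)) := by
      rw [mem_max]
      refine ⟨1, ?_⟩
      rw [pow_one, LinearMap.sub_apply, Module.algebraMap_end_apply, hΦy, sub_self]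
    have hle : finrank E (Module.End.maxGenEigenspace Φ (-((Fintype.card κ : ℕ) : E))) ≤ 1 := by
      rw [LinearMap.finrank_maxGenEigenspace_eq, ← Polynomial.count_roots]
      refine le_trans ?_ hroots
      have h2 := Multiset.count_filter_of_pos (s := Φ.charpoly.roots)
        (p := fun x : E => ∃ n : ℕ, 0 < n ∧ x ^ n = ((Fintype.card κ : ℕ) : E) ^ n) (a := -((Fintype.card κ : ℕ) : E))
        ⟨2, two_pos, neg_sq _⟩
      rw [← h2]
      exact Multiset.count_le_card _ _
    have hspan : Submodule.span E {y₀} = Module.End.maxGenEigenspace Φ (-((Fintype.card κ : ℕ) : E)) := by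
      refine Submodule.eq_of_le_of_finrank_le ?_ ?_
      · rw [Submodule.span_singleton_le_iff_mem]
        exact hyM
      · rw [finrank_span_singleton hy₀]
        exact hle
    apply hy₀
    refine eq_zero_of_orth (Φ := Φ) (B := B) (c := ((Fintype.card κ : ℕ) : E) ^ 2) (α := -((Fintype.card κ : ℕ) : E)) (γ := -((Fintype.card κ : ℕ) : E))
      ?_ ?_ (by ring) (neg_ne_zero.2 hqE) hyM ?_
    · intro x z
      rw [hBapply, hBapply]
      exact C.frob _ _
    · intro x hx
      apply Subtype.ext
      exact anti_nondeg (hD.order 2) C x.2 fun z hz => hx ⟨z, hz⟩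
    · intro z hz
      rw [← hspan, Submodule.mem_span_singleton] at hz
      obtain ⟨c, rfl⟩ := hz
      rw [map_smul, hBapply]
      change c • C.pair y y = 0
      rw [hyy, smul_zero]
  · intro x hxA hxP
    have hyP : y ∈ potential (D.frob 2) ((Fintype.card κ : ℕ) : E) ⊓ (D.aut 2).eigenspace (-1) := by
      refine ⟨⟨2, two_pos, ?_⟩, hyT⟩
      rw [pow_eig hy' 2, neg_sq]
    have h1 : finrank E (Submodule.span E {y}) = 1 := finrank_span_singleton hy0
    have h2 : Submodule.span E {y} ≤
        potential (D.frob 2) ((Fintype.card κ : ℕ) : E) ⊓ (D.aut 2).eigenspace (-1) := by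
      rw [Submodule.span_singleton_le_iff_mem]
      exact hyP
    have h3 := Submodule.eq_of_le_of_finrank_le h2 (by rw [h1]; exact hdim)
    have h4 : x ∈ potential (D.frob 2) ((Fintype.card κ : ℕ) : E) ⊓ (D.aut 2).eigenspace (-1) := ⟨hxP, hxA⟩
    rw [← h3, Submodule.mem_span_singleton] at h4
    obtain ⟨c, hc⟩ := h4
    exact ⟨c, hc.symm⟩

/-- From the anti-invariant part to the statement. -/
theorem reduces_of {D : CohomologyGroups E} {q : ℕ} {G : Type} [Group G]
    (hg : D.aut 2 ^ 2 = 1) (S : GaloisAction D q G) (U : Subgroup G)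
    (h : ∀ x ∈ antiInvariants D, x ∈ S.fixed U → x = 0) : S.ReducesToQuotient U := by
  have hgg : ∀ x, D.aut 2 (D.aut 2 x) = x := by
    intro x
    rw [← Module.End.mul_apply, ← pow_two, hg, Module.End.one_apply]
  have key : S.fixed U ≤ invariants D 1 := by
    intro x hx
    have hzA : x - D.aut 2 x ∈ antiInvariants D := by
      refine Module.End.mem_eigenspace_iff.2 ?_
      rw [map_sub, hgg, neg_one_smul]
      abel
    have hz0 := h _ hzA ((S.fixed U).sub_mem hx (fixed_stable S U x hx))
    change ((D.aut 2 ^ 1 - 1 : Module.End E (D.H 2))) x = 0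
    rw [pow_one, LinearMap.sub_apply, Module.End.one_apply, sub_eq_zero]
    exact (sub_eq_zero.1 hz0).symm
  refine ⟨key, ?_⟩
  unfold GaloisAction.TateHolds GaloisAction.TateHoldsForQuotient
  rw [inf_eq_left.2 key]

/-- The anti-invariant part is stable under the Galois action. -/
theorem rho_anti {D : CohomologyGroups E} {q : ℕ} {G : Type} [Group G] (S : GaloisAction D q G)
    (γ : G) : ∀ x ∈ antiInvariants D, S.ρ γ x ∈ antiInvariants D := by
  intro x hx
  refine Module.End.mem_eigenspace_iff.2 ?_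
  rw [← Module.End.mul_apply, ← (S.commute γ).eq, Module.End.mul_apply,
    Module.End.mem_eigenspace_iff.1 hx, map_smul]

/-- **The quadratic extension.** -/
theorem anti_quadratic {D : CohomologyGroups E} {q : ℕ} (hq : q ≠ 0) {G : Type} [Group G]
    (hg : D.aut 2 ^ 2 = 1) (C : CupProduct D q) (hs : HasSignMinusOne D q)
    (S : GaloisAction D q G) (hS : S.Preserves C)
    {y : D.H 2} (hyA : y ∈ antiInvariants D) (hy0 : y ≠ 0)
    (hyq : D.frob 2 y = -((q : E) • y)) (hyy : C.pair y y ≠ 0)
    (hline : ∀ x ∈ antiInvariants D, x ∈ potential (D.frob 2) (q : E) → ∃ c : E, x = c • y) :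
    ∃ V : Subgroup G, S.ReducesOutside V := by
  classical
  have hqE : (q : E) ≠ 0 := by exact_mod_cast hq
  by_cases hT : ∃ U₀ : Subgroup G, U₀.FiniteIndex ∧ ∃ x ∈ antiInvariants D, x ∈ S.fixed U₀ ∧ x ≠ 0
  · obtain ⟨U₀, hU₀, x, hxA, hxU, hx0⟩ := hT
    obtain ⟨c, hc⟩ := hline x hxA (fixed_le S hU₀ hxU)
    have hc0 : c ≠ 0 := by
      rintro rfl
      exact hx0 (by rw [hc, zero_smul])
    have hyU : y ∈ S.fixed U₀ := by
      have h1 : y = c⁻¹ • x := by rw [hc, smul_smul, inv_mul_cancel₀ hc0, one_smul]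
      rw [h1]
      exact (S.fixed U₀).smul_mem _ hxU
    have hyU' := (mem_fixed S).1 hyU
    have hchar : ∀ γ : G, S.ρ γ y = y ∨ S.ρ γ y = -y := by
      intro γ
      obtain ⟨n, hn, -, hn'⟩ := Subgroup.exists_pow_mem_of_index_ne_zero hU₀.index_ne_zero
        (γ⁻¹ * S.F * γ)
      have h1 : S.ρ (S.F ^ n) (S.ρ γ y) = S.ρ γ y := by
        have h2 : S.F ^ n * γ = γ * (γ⁻¹ * S.F * γ) ^ n := by
          have h3 : (γ⁻¹ * S.F * γ) ^ n = γ⁻¹ * S.F ^ n * γ := by
            have := conj_pow (i := n) (a := γ⁻¹) (b := S.F)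
            rwa [inv_inv] at this
          rw [h3]
          group
        rw [← Module.End.mul_apply, ← map_mul, h2, map_mul, Module.End.mul_apply, hyU' _ hn']
      obtain ⟨d, hd⟩ := hline _ (rho_anti S γ y hyA) ⟨n, hn, by rw [frob_pow S, h1]⟩
      have h4 := hS γ y y
      rw [hd, map_smul, map_smul, LinearMap.smul_apply, smul_eq_mul, smul_eq_mul, one_mul] at h4
      have h5 : C.pair y y * ((d - 1) * (d + 1)) = 0 := by linear_combination h4
      rcases mul_eq_zero.1 ((mul_eq_zero.1 h5).resolve_left hyy) with h | h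
      · left
        rw [hd, sub_eq_zero.1 h, one_smul]
      · right
        rw [hd, eq_neg_of_add_eq_zero_left h, neg_one_smul]
    have hne : y ≠ -y := by
      intro h
      have h1 : (2 : E) • y = 0 := by
        rw [two_smul]
        nth_rewrite 1 [h]
        abel
      exact hy0 ((smul_eq_zero.1 h1).resolve_left two_ne_zero)
    have hF : S.ρ S.F y = -y := by
      have h1 := S.frob y
      rw [hyq] at h1
      have h2 : (q : E) • (S.ρ S.F y + y) = 0 := by
        rw [smul_add, ← h1]
        abel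
      exact eq_neg_of_add_eq_zero_left ((smul_eq_zero.1 h2).resolve_left hqE)
    let V : Subgroup G :=
      { carrier := {γ | S.ρ γ y = y}
        mul_mem' := by
          intro a b ha hb
          change S.ρ (a * b) y = y
          rw [map_mul, Module.End.mul_apply, hb, ha]
        one_mem' := by
          change S.ρ 1 y = y
          rw [map_one, Module.End.one_apply]
        inv_mem' := by
          intro a ha
          change S.ρ a⁻¹ y = y
          have ha' : S.ρ a y = y := ha
          nth_rewrite 1 [← ha']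
          rw [← Module.End.mul_apply, ← map_mul, inv_mul_cancel, map_one, Module.End.one_apply] }
    have hV : ∀ γ, γ ∈ V ↔ S.ρ γ y = y := fun _ => Iff.rfl
    refine ⟨V, index_two V S.F ?_, ?_, ?_, ?_⟩
    · intro b
      rw [hV, hV, map_mul, Module.End.mul_apply, hF, map_neg]
      rcases hchar b with h | h
      · rw [h]
        simp only [not_true_eq_false, iff_false]
        exact fun h1 => hne h1.symm
      · rw [h, neg_neg]
        simp only [true_iff]
        exact fun h1 => hne h1.symm
    · rw [hV, hF]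
      exact fun h1 => hne h1.symm
    · intro γ hγ
      rw [hV, MonoidHom.mem_ker.1 hγ, Module.End.one_apply]
    · intro U hU hUV
      refine reduces_of hg S U fun x hxA hxU => ?_
      obtain ⟨c, hc⟩ := hline x hxA (fixed_le S hU hxU)
      obtain ⟨γ, hγU, hγV⟩ := SetLike.not_le_iff_exists.1 hUV
      have h1 : S.ρ γ y = -y := (hchar γ).resolve_left hγV
      have h2 := (mem_fixed S).1 hxU γ hγU
      rw [hc, map_smul, h1, smul_neg] at h2
      have h3 : (2 : E) • (c • y) = 0 := by
        rw [two_smul]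
        nth_rewrite 1 [← h2]
        abel
      rw [hc]
      exact (smul_eq_zero.1 h3).resolve_left two_ne_zero
  · push Not at hT
    let χ : G → E := fun γ => LinearMap.det ((S.ρ γ).restrict (rho_anti S γ))
    have hχmul : ∀ a b : G, χ (a * b) = χ a * χ b := by
      intro a b
      change LinearMap.det _ = LinearMap.det _ * LinearMap.det _
      rw [← map_mul]
      congr 1
      ext z
      change S.ρ (a * b) (z : D.H 2) = S.ρ a (S.ρ b (z : D.H 2))
      rw [map_mul, Module.End.mul_apply]
    have hχone : ∀ a : G, S.ρ a = 1 → χ a = 1 := by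
      intro a ha
      have h1 : (S.ρ a).restrict (rho_anti S a) = 1 := by
        ext z
        change S.ρ a (z : D.H 2) = z
        rw [ha, Module.End.one_apply]
      change LinearMap.det _ = 1
      rw [h1, map_one]
    have hχ : ∀ a : G, χ a = 1 ∨ χ a = -1 := by
      intro a
      refine det_isometry (B := C.pair.restrict (antiInvariants D)) ?_ ?_
      · intro x z
        have := hS a (x : D.H 2) (z : D.H 2)
        rw [one_mul] at this
        exact this
      · intro x hx
        apply Subtype.ext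
        exact anti_nondeg hg C x.2 fun z hz => hx ⟨z, hz⟩
    have hχF : χ S.F = -1 := by
      obtain ⟨Ψ, hΨ, hdet⟩ := hs
      have h1 : Ψ = (q : E) • (S.ρ S.F).restrict (rho_anti S S.F) := by
        ext z
        rw [hΨ]
        exact S.frob (z : D.H 2)
      rw [h1] at hdet
      unfold detOf at hdet
      rw [LinearMap.det_smul] at hdet
      have h2 : (q : E) ^ finrank E (antiInvariants D) * (χ S.F + 1) = 0 := by
        have h3 : (q : E) ^ finrank E (antiInvariants D) * χ S.F =
            -(q : E) ^ finrank E (antiInvariants D) := hdet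
        linear_combination h3
      exact eq_neg_of_add_eq_zero_left
        ((mul_eq_zero.1 h2).resolve_left (pow_ne_zero _ hqE))
    have hne : (-1 : E) ≠ 1 := by
      intro h
      have h1 : (2 : E) = 0 := by linear_combination -h
      exact two_ne_zero h1
    let V : Subgroup G :=
      { carrier := {γ | χ γ = 1}
        mul_mem' := by
          intro a b ha hb
          change χ (a * b) = 1
          have ha' : χ a = 1 := ha
          have hb' : χ b = 1 := hb
          rw [hχmul, ha', hb', one_mul]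
        one_mem' := hχone 1 (map_one _)
        inv_mem' := by
          intro a ha
          have ha' : χ a = 1 := ha
          change χ a⁻¹ = 1
          have h1 := hχmul a⁻¹ a
          rw [inv_mul_cancel, ha', mul_one, hχone 1 (map_one _)] at h1
          exact h1.symm }
    have hV : ∀ γ, γ ∈ V ↔ χ γ = 1 := fun _ => Iff.rfl
    refine ⟨V, index_two V S.F ?_, ?_, ?_, ?_⟩
    · intro b
      rw [hV, hV, hχmul, hχF]
      rcases hχ b with h | h
      · rw [h]
        simp only [one_mul, not_true_eq_false, iff_false]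
        exact hne
      · rw [h]
        simp only [mul_neg, mul_one, neg_neg, true_iff]
        exact hne
    · rw [hV, hχF]
      exact hne
    · intro γ hγ
      rw [hV]
      exact hχone γ (MonoidHom.mem_ker.1 hγ)
    · intro U hU _
      refine reduces_of hg S U fun x hxA hxU => ?_
      by_contra hx0
      exact hx0 (hT U hU x hxA hxU)

end Pool.Agent.U273.FS
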