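import Mathlib
import Pool.Agent.U273.FS.InvDefs

/-!
# Degenerate varieties (simple normal crossing log schemes) with an automorphism: definitions
-/

set_option autoImplicit false

open CategoryTheory AlgebraicGeometry Polynomial Module

namespace Pool.Agent.U273.FS

variable {κ : Type} [Field κ] [Fintype κ]

/-- The number of the irreducible components of `X` through a geometric point. -/
noncomputable def componentsThrough {X : Scheme.{0}} (π : X ⟶ Spec (CommRingCat.of κ))
    (x : GeometricPoint π) : ℕ :=
  {Z : Set X | Z ∈ irreducibleComponents X ∧ ∀ t, x.1 t ∈ Z}.ncard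

/-- The automorphism maps each irreducible component to itself. -/
def PreservesComponents {X : Scheme.{0}} (σ : X ⟶ X) : Prop :=
  ∀ Z ∈ irreducibleComponents X, ∀ t, σ t ∈ Z ↔ t ∈ Z

/-- The geometric points on exactly `k + 1` components fixed by the composition of the `n`-th power of the
Frobenius and the `j`-th power of the automorphism. -/
noncomputable def stratumPoints {X : Scheme.{0}} (π : X ⟶ Spec (CommRingCat.of κ)) (σ : X ⟶ X)
    (hσ : σ ≫ π = π) (k n j : ℕ) : Set (GeometricPoint π) :=
  {x | componentsThrough π x = k + 1 ∧ (act π σ hσ)^[j] ((frobenius π)^[n] x) = x}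

/-- The points on exactly one component which are not fixed by the `M`-th power of the
automorphism and are fixed by the composition of the `n`-th power of the Frobenius and the `j`-th power of the
automorphism. -/
noncomputable def smoothMovedPoints {X : Scheme.{0}} (π : X ⟶ Spec (CommRingCat.of κ)) (σ : X ⟶ X)
    (hσ : σ ≫ π = π) (M n j : ℕ) : Set (GeometricPoint π) :=
  {x | componentsThrough π x = 1 ∧ (act π σ hσ)^[M] x ≠ x ∧
    (act π σ hσ)^[j] ((frobenius π)^[n] x) = x}

/-- The known properties of the log étale cohomology groups (of the nearby cycles) of the simple normal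
crossing log scheme `X` with an automorphism `σ` of order dividing `N`: `σ` commutes with (a lift of)
Frobenius, and the trace formula: the local term at a point on `k + 1` components, over the extension
of degree `n`, is `(1 - q ^ n) ^ k`. -/
structure CohomologyGroups.IsLogCohomology {E : Type} [Field E] (D : CohomologyGroups E)
    {X : Scheme.{0}} (π : X ⟶ Spec (CommRingCat.of κ)) (σ : X ⟶ X) (hσ : σ ≫ π = π) (N : ℕ) :
    Prop where
  commute : ∀ i, Commute (D.frob i) (D.aut i)
  order : ∀ i, D.aut i ^ N = 1
  lefschetz : ∀ n j : ℕ, 0 < n →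
    ∑ i ∈ Finset.range (D.top + 1), (-1) ^ i * traceOf (D.frob i) (D.aut i) n j =
      ∑ k ∈ Finset.range (D.top + 1), (1 - ((Fintype.card κ : ℕ) : E) ^ n) ^ k *
        ((stratumPoints π σ hσ k n j).ncard : E)

/-- All elements are algebraic integers. -/
def AreIntegral {E : Type} [Field E] (A : Multiset E) : Prop := ∀ x ∈ A, IsIntegral ℤ x

/-- The L-functions of the strata with `k + 1` components, `1 ≤ k ≤ K`, with the characters of order `N` of
`σ` are rational, with algebraic integers as inverse roots and poles. -/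
def StrataAreRational (E : Type) [Field E] {X : Scheme.{0}} (π : X ⟶ Spec (CommRingCat.of κ))
    (σ : X ⟶ X) (hσ : σ ≫ π = π) (N K : ℕ) : Prop :=
  ∀ ω : E, IsPrimitiveRoot ω N → ∀ k, 1 ≤ k → k ≤ K → ∃ A B : Multiset E,
    AreIntegral A ∧ AreIntegral B ∧ ∀ n : ℕ, 0 < n →
      ∑ j ∈ Finset.range N, (ω⁻¹) ^ j * ((stratumPoints π σ hσ k n j).ncard : E) =
        (N : E) * (powerSum A n - powerSum B n)

/-- The zeta function of the quotient by `σ` of the set of the points on exactly one component which
are not fixed by `σ ^ M` is `P₁ / P₂`. -/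
def HasSmoothQuotientZeta (E : Type) [Field E] {X : Scheme.{0}} (π : X ⟶ Spec (CommRingCat.of κ))
    (σ : X ⟶ X) (hσ : σ ≫ π = π) (M N : ℕ) (P₁ P₂ : ℤ[X]) : Prop :=
  ∃ B₁ B₂ : Multiset E, IsCharPoly P₁ B₁ ∧ IsCharPoly P₂ B₂ ∧
    ∀ n : ℕ, 0 < n → ((∑ j ∈ Finset.range N, (smoothMovedPoints π σ hσ M n j).ncard : ℕ) : E) =
      (N : E) * (powerSum B₂ n - powerSum B₁ n)

/-- `H` is the polynomial `P₂ / P₁` modulo `p` for even `m`, and `P₁ / P₂` modulo `p` for odd `m`. -/
def IsQuotientOfParity (p m : ℕ) (H : (ZMod p)[X]) (P₁ P₂ : ℤ[X]) : Prop :=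
  (Even m → IsQuotientMod p H P₁ P₂) ∧ (Odd m → IsQuotientMod p H P₂ P₁)

/-- All the multiple factors of `H` are factors of `H₂`: `H = H₁ H₂` with `H₁` squarefree and prime to
`H₂`. -/
def IsMultiplePart (p : ℕ) (H H₂ : (ZMod p)[X]) : Prop :=
  ∃ H₁ : (ZMod p)[X], H = H₁ * H₂ ∧ Squarefree H₁ ∧ IsCoprime H₁ H₂

/-- The `M`-th power of the automorphism acts trivially on `H^i`, `i ≠ m`. -/
def TrivialOutside {E : Type} [Field E] (D : CohomologyGroups E) (m M : ℕ) : Prop :=
  ∀ i, i ≠ m → ∀ v, (D.aut i ^ M) v = v

section generic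

variable {E V : Type} [Field E] [CharZero E] [AddCommGroup V] [Module E V]

/-- All complex conjugates of the algebraic number `α` have the absolute value `q ^ (w / 2)`. -/
def HasWeight (q : ℕ) (α : E) (w : ℤ) : Prop :=
  ∃ h : α ∈ algebraicClosure ℚ E, ∀ φ : algebraicClosure ℚ E →+* ℂ,
    ‖φ ⟨α, h⟩‖ ^ 2 = (q : ℝ) ^ w

/-- The eigenvalues are algebraic integers with integral weights. -/
def AreWeilNumbers (Φ : Module.End E V) (q : ℕ) : Prop :=
  ∀ α : E, Φ.HasEigenvalue α → IsIntegral ℤ α ∧ ∃ w : ℤ, HasWeight q α w

/-- The part of weight `w`: the sum of the generalised eigenspaces of the eigenvalues of weight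
`w`. -/
def weightPart (Φ : Module.End E V) (q : ℕ) (w : ℤ) : Submodule E V :=
  ⨆ α ∈ {α : E | HasWeight q α w}, Φ.maxGenEigenspace α

/-- The sum of all parts of weight different from `m`. -/
def impurePart (Φ : Module.End E V) (q m : ℕ) : Submodule E V :=
  ⨆ α ∈ {α : E | ∃ w : ℤ, w ≠ m ∧ HasWeight q α w}, Φ.maxGenEigenspace α

/-- `T` is a bijection from `A ∩ W` to `B ∩ W`. -/
def IsBijectionOn (T : Module.End E V) (W A B : Submodule E V) : Prop :=
  Set.BijOn T (A ⊓ W : Submodule E V) (B ⊓ W : Submodule E V)

/-- The monodromy-weight conjecture on `W`: the `e`-th power of `N` is an isomorphism from the part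
of weight `m + e` to the part of weight `m - e`, for all `e ≥ 1`. -/
def IsMonodromyWeight (Φ N : Module.End E V) (q m : ℕ) (W : Submodule E V) : Prop :=
  ∀ e : ℕ, 1 ≤ e → IsBijectionOn (N ^ e) W (weightPart Φ q (m + e)) (weightPart Φ q (m - e))

/-- `N Φ = q Φ N`. -/
def IsTwistedBy (N Φ : Module.End E V) (q : ℕ) : Prop := ∀ x, N (Φ x) = (q : E) • Φ (N x)

end generic

variable {E : Type} [Field E] [CharZero E]

/-- The cup product on the middle cohomology: Poincaré duality, Frobenius multiplies it by `q ^ m`, the
automorphism preserves it. -/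
structure MiddleDuality (D : CohomologyGroups E) (m q : ℕ) where
  pair : LinearMap.BilinForm E (D.H m)
  frob : ScalesBy pair (D.frob m) ((q : E) ^ m)
  aut : ScalesBy pair (D.aut m) 1
  nondegenerate : IsNondegenerateForm pair

/-- The monodromy operator on `H^m`. -/
structure MonodromyOperator (D : CohomologyGroups E) (m q : ℕ) where
  N : Module.End E (D.H m)
  frob : IsTwistedBy N (D.frob m) q
  aut : Commute N (D.aut m)

/-- The classes invariant under the `M`-th power of the automorphism. -/
def invariantsIn (D : CohomologyGroups E) (m M : ℕ) : Submodule E (D.H m) :=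
  LinearMap.ker (D.aut m ^ M - 1)

/-- The complement: the sum of the powers of `τ = σ ^ M`, of order `p`, vanishes. -/
def movedPart (D : CohomologyGroups E) (m p M : ℕ) : Submodule E (D.H m) :=
  LinearMap.ker (∑ i ∈ Finset.range p, (D.aut m ^ M) ^ i)

/-- The moved part is pure of weight `m`, with trivial monodromy operator. -/
def IsPureWithoutMonodromy {D : CohomologyGroups E} {m q : ℕ} (T : MonodromyOperator D m q)
    (p M : ℕ) : Prop :=
  ∀ x ∈ movedPart D m p M, x ∈ weightPart (D.frob m) q m ∧ T.N x = 0

/-- The monodromy-weight conjecture on the moved part of `H^m`. -/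
def HoldsOnMoved {D : CohomologyGroups E} {m q : ℕ} (T : MonodromyOperator D m q) (p M : ℕ) : Prop :=
  IsMonodromyWeight (D.frob m) T.N q m (movedPart D m p M)

/-- The monodromy-weight conjecture for `X`, in all degrees. -/
def KatoHolds {D : CohomologyGroups E} {q : ℕ} (T : ∀ i, MonodromyOperator D i q) : Prop :=
  ∀ i, IsMonodromyWeight (D.frob i) (T i).N q i ⊤

/-- The monodromy-weight conjecture for the quotient of `X` by `τ = σ ^ M`, in all degrees: on the
invariant classes. -/
def KatoHoldsForQuotient {D : CohomologyGroups E} {q : ℕ} (T : ∀ i, MonodromyOperator D i q)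
    (M : ℕ) : Prop :=
  ∀ i, IsMonodromyWeight (D.frob i) (T i).N q i (invariantsIn D i M)

/-- The dimension of the part of the moved part which is not pure of weight `m`. -/
noncomputable def impureDimension (D : CohomologyGroups E) (m q p M : ℕ) : ℕ :=
  finrank E (impurePart (D.frob m) q m ⊓ movedPart D m p M : Submodule E (D.H m))

end Pool.Agent.U273.FS
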