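import Mathlib
import Pool.Agent.U273.FS.InvDefs

/-!
# Twists of a surface with an automorphism over a finite field: definitions
-/

set_option autoImplicit false

open Polynomial Module

namespace Pool.Agent.U273.FS

section generic

variable {E V : Type} [Field E] [AddCommGroup V] [Module E V]

/-- The space spanned by the classes `x` of divisors in the subspace `W` with `ψ x = c x`: the divisor
classes over the field with Frobenius `ψ`. -/
def rationalSpan (N : AddSubgroup V) (ψ : Module.End E V) (c : E) (W : Submodule E V) :
    Submodule E V :=
  Submodule.span E {x | x ∈ N ∧ ψ x = c • x ∧ x ∈ W}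

/-- The multiplicity of the root `c` of the characteristic polynomial. -/
noncomputable def multiplicityOf [FiniteDimensional E V] (Ψ : Module.End E V) (c : E) : ℕ :=
  (LinearMap.charpoly Ψ).rootMultiplicity c

/-- The subspace `W` is stable under `ψ`, and `c` is a root of multiplicity `n` of the
characteristic polynomial of `ψ` on `W`. -/
def HasMultiplicityOn [FiniteDimensional E V] (ψ : Module.End E V) (W : Submodule E V) (c : E)
    (n : ℕ) : Prop :=
  ∃ Ψ : Module.End E W, IsRestriction ψ W Ψ ∧ multiplicityOf Ψ c = n

/-- The Tate conjecture for divisors on `W`: the classes `x` of divisors span the space of the `x` in `W`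
with `ψ x = c x`, and the dimension of this span is the multiplicity of the root `c` of the characteristic
polynomial. -/
structure SatisfiesTate [FiniteDimensional E V] (N : AddSubgroup V) (ψ : Module.End E V)
    (W : Submodule E V) (c : E) : Prop where
  onto : ∀ x ∈ W, ψ x = c • x → x ∈ rationalSpan N ψ c W
  rank : HasMultiplicityOn ψ W c (finrank E (rationalSpan N ψ c W))

/-- Some power of `ψ - c` vanishes on `x`. -/
def IsGeneralised (ψ : Module.End E V) (c : E) (x : V) : Prop :=
  ∃ i : ℕ, ((ψ - algebraMap E (Module.End E V) c) ^ i) x = 0

end generic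

variable {E : Type} [Field E] (D : CohomologyGroups E)

/-- The Frobenius over the extension of degree `n` of the twist of the surface by the `j`-th power of
the automorphism. -/
def twistedFrobenius (j n : ℕ) : Module.End E (D.H 2) := (D.frob 2 * D.aut 2 ^ j) ^ n

/-- The classes on which a power of `ψ - c` vanishes are invariant under the `M`-th power of the
automorphism. -/
def IsInvariantRoot (M : ℕ) (ψ : Module.End E (D.H 2)) (c : E) : Prop :=
  ∀ x : D.H 2, IsGeneralised ψ c x → x ∈ invariants D M

/-- For the `j`-th twist `X_j` over the extension of degree `n`, the generalised Tate classes are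
invariant under the `M`-th power `τ` of the automorphism, and the Tate conjecture for divisors on `X_j` is
equivalent to the conjecture for the quotient `X_j / τ`. -/
def TwistReduces (q M : ℕ) (N : AddSubgroup (D.H 2)) (j n : ℕ) : Prop :=
  IsInvariantRoot D M (twistedFrobenius D j n) ((q : E) ^ n) ∧
    (SatisfiesTate N (twistedFrobenius D j n) ⊤ ((q : E) ^ n) ↔
      SatisfiesTate N (twistedFrobenius D j n) (invariants D M) ((q : E) ^ n))

/-- The property `P` holds for all but at most `b` of the numbers `j < L`. -/
def HoldsForAllBut (b L : ℕ) (P : ℕ → Prop) : Prop :=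
  ∃ J : Finset ℕ, J.card ≤ b ∧ ∀ j < L, j ∉ J → P j

/-- The multiplicity of the root `1 / Q` of `H` modulo `p` is at most `b`. -/
def HasMultiplicityLE (p Q : ℕ) (H : (ZMod p)[X]) (b : ℕ) : Prop :=
  ¬ (1 - C (Q : ZMod p) * X) ^ (b + 1) ∣ H

end Pool.Agent.U273.FS
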