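import Mathlib
import Pool.Agent.U273.FS.InvQuad

/-!
# The sums over closed points for all faithful characters together
-/

set_option autoImplicit false
set_option linter.unusedSectionVars false

open CategoryTheory AlgebraicGeometry Polynomial

namespace Pool.Agent.U273.FS

open Finset Module Pool.Agent.W528.HS

variable {κ : Type} [Field κ] [Fintype κ] {E : Type} [Field E] [CharZero E] [IsAlgClosed E]

/-- The power sums of the eigenvalues on the parts of the faithful characters. -/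
theorem faithful_sum_all {p s : ℕ} (hp : p.Prime) {X : Scheme.{0}}
    (π : X ⟶ Spec (CommRingCat.of κ)) [LocallyOfFiniteType π] [QuasiCompact π] (σ : X ⟶ X)
    (hσ : σ ≫ π = π) (hord : power σ (p ^ (s + 1)) = 𝟙 X) (D : CohomologyGroups E)
    (hD : D.IsCohomology π σ hσ (p ^ (s + 1))) (m : ℕ) (hm : m ≤ D.top)
    (htriv : ∀ i, i ≠ m → ∀ v, (D.aut i ^ p ^ s) v = v) :
    ∃ a : ℕ → ℕ → ℕ, ∀ ω : E, IsPrimitiveRoot ω (p ^ (s + 1)) →
      ∀ n, 1 ≤ n → orbSum (p ^ (s + 1)) (ω⁻¹) a n =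
      (((-1) ^ m : ℤ) : E) * (((D.frob m).restrict
        (Pool.Agent.TH117.HS.mapsTo_eig (hD.commute m) ω)).charpoly.roots.map
          fun x => x ^ n).sum := by
  classical
  have hN : 0 < p ^ (s + 1) := pow_pos hp.pos _
  have hNE : ((p ^ (s + 1) : ℕ) : E) ≠ 0 := by exact_mod_cast hN.ne'
  obtain ⟨a, ha1, ha2⟩ := aut_orb (frobenius_inj π) (frobenius_act π σ hσ) hp
    (act_order π σ hσ hord) (fixed_finite π σ hσ hN hord)
  refine ⟨a, fun ω hω => ?_⟩
  set Φ := (D.frob m).restrict (Pool.Agent.TH117.HS.mapsTo_eig (hD.commute m) ω) with hΦ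
  have hω0 : ω ≠ 0 := hω.ne_zero hN.ne'
  have hμ : IsPrimitiveRoot ω⁻¹ (p ^ (s + 1)) := hω.inv
  have hωps : ω ^ p ^ s ≠ 1 := by
    intro h
    have h1 := hω.dvd_of_pow_eq_one _ h
    have h2 := Nat.le_of_dvd (pow_pos hp.pos s) h1
    have h3 : p ^ s < p ^ (s + 1) := Nat.pow_lt_pow_right hp.one_lt (Nat.lt_succ_self s)
    omega
  have hμps : (ω⁻¹) ^ p ^ s ≠ 1 := by
    rw [inv_pow]
    exact fun h => hωps (inv_eq_one.1 h)
  have hμ0 : ∑ i ∈ range p, ((ω⁻¹) ^ p ^ s) ^ i = 0 := by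
    have h2 := mul_geom_sum ((ω⁻¹) ^ p ^ s) p
    rw [← pow_mul, ← pow_succ, hμ.pow_eq_one, sub_self] at h2
    exact (mul_eq_zero.1 h2).resolve_left (sub_ne_zero.2 hμps)
  have hbot : ∀ i, i ≠ m → (D.aut i).eigenspace ω = ⊥ := by
    intro i hi
    rw [eq_bot_iff]
    intro v hv
    rw [Module.End.mem_eigenspace_iff] at hv
    have h2 := pow_eig hv (p ^ s)
    rw [htriv i hi v] at h2
    have h3 : (1 - ω ^ p ^ s) • v = 0 := by
      rw [sub_smul, one_smul, ← h2]
      exact sub_self v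
    exact (smul_eq_zero.1 h3).resolve_left (sub_ne_zero.2 hωps.symm)
  intro n hn
  have h1 := ha1 n hn E (ω⁻¹) hμ.pow_eq_one hμ0
  apply mul_left_cancel₀ hNE
  rw [← h1, ← Pool.Agent.W63.HS.TR.main E _ Φ n]
  have h2 : ∀ j ∈ range (p ^ (s + 1)), (ω⁻¹) ^ j *
      (({x | (act π σ hσ)^[j] ((frobenius π)^[n] x) = x}.ncard : ℕ) : E) =
      ∑ i ∈ range (D.top + 1), (-1) ^ i *
        ((ω⁻¹) ^ j * LinearMap.trace E (D.H i) (D.frob i ^ n * D.aut i ^ j)) := by
    intro j _
    have h3 := hD.lefschetz n j hn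
    change (({x | (act π σ hσ)^[j] ((frobenius π)^[n] x) = x}.ncard : ℕ) : E) = _ at h3
    rw [h3, Finset.mul_sum]
    refine Finset.sum_congr rfl fun i _ => ?_
    unfold traceOf
    ring
  rw [Finset.sum_congr rfl h2, Finset.sum_comm,
    Finset.sum_eq_single m (fun i _ hi => ?_) (fun h => ?_)]
  · rw [← Finset.mul_sum, ← Pool.Agent.TH117.HS.trace_eig (hD.commute m) hN (hD.order m)
      hω.pow_eq_one n]
    push_cast
    ring
  · rw [← Finset.mul_sum, trace_trivial (hD.commute i) hN (hD.order i) hω.pow_eq_one (hbot i hi) n,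
      mul_zero]
  · exact absurd (mem_range.2 (by omega)) h

/-- **The homomorphisms of the algebraic numbers permute the parts of the faithful characters.** -/
theorem eig_conj {p s : ℕ} (hp : p.Prime) {X : Scheme.{0}}
    (π : X ⟶ Spec (CommRingCat.of κ)) [LocallyOfFiniteType π] [QuasiCompact π] (σ : X ⟶ X)
    (hσ : σ ≫ π = π) (hord : power σ (p ^ (s + 1)) = 𝟙 X) (D : CohomologyGroups E)
    (hD : D.IsCohomology π σ hσ (p ^ (s + 1))) (m : ℕ) (hm : m ≤ D.top)
    (htriv : ∀ i, i ≠ m → ∀ v, (D.aut i ^ p ^ s) v = v)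
    (hint : ∀ ω : E, IsPrimitiveRoot ω (p ^ (s + 1)) → ∀ x ∈ ((D.frob m).restrict
      (Pool.Agent.TH117.HS.mapsTo_eig (hD.commute m) ω)).charpoly.roots, IsIntegral ℤ x)
    {ω ω' : E} (hω : IsPrimitiveRoot ω (p ^ (s + 1))) (hω' : IsPrimitiveRoot ω' (p ^ (s + 1)))
    {x : E} (hx0 : x ≠ 0) (hx : x ∈ ((D.frob m).restrict
      (Pool.Agent.TH117.HS.mapsTo_eig (hD.commute m) ω)).charpoly.roots) :
    ∃ g : (algebraicClosure ℚ E) →ₐ[ℚ] E, ∃ (hωi : ω ∈ algebraicClosure ℚ E)
      (hxi : x ∈ algebraicClosure ℚ E), g ⟨ω, hωi⟩ = ω' ∧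
        g ⟨x, hxi⟩ ∈ ((D.frob m).restrict
          (Pool.Agent.TH117.HS.mapsTo_eig (hD.commute m) ω')).charpoly.roots := by
  classical
  have hN : 0 < p ^ (s + 1) := pow_pos hp.pos _
  obtain ⟨a, ha⟩ := faithful_sum_all hp π σ hσ hord D hD m hm htriv
  set A := ((D.frob m).restrict
    (Pool.Agent.TH117.HS.mapsTo_eig (hD.commute m) ω)).charpoly.roots with hA
  set A' := ((D.frob m).restrict
    (Pool.Agent.TH117.HS.mapsTo_eig (hD.commute m) ω')).charpoly.roots with hA'
  have hωi : ω ∈ algebraicClosure ℚ E := mem_algClosure (root_integral hN hω.pow_eq_one)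
  have hxi : x ∈ algebraicClosure ℚ E := mem_algClosure (hint ω hω x hx)
  have : NeZero (p ^ (s + 1)) := ⟨hN.ne'⟩
  obtain ⟨U, hUN, hU, hUω⟩ := hω.isPrimitiveRoot_iff.1 hω'
  have hζ : IsPrimitiveRoot (⟨ω, hωi⟩ : algebraicClosure ℚ E) (p ^ (s + 1)) :=
    IsPrimitiveRoot.of_map_of_injective (f := (algebraicClosure ℚ E).val) hω
      Subtype.val_injective
  obtain ⟨g, hg⟩ := exists_hom hN hζ hU
  have hg' : g ⟨ω, hωi⟩ = ω' := by rw [hg]; exact hUω
  refine ⟨g, hωi, hxi, hg', ?_⟩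
  let F : E → E := fun y => if h : y ∈ algebraicClosure ℚ E then g ⟨y, h⟩ else y
  have hF : ∀ (y : E) (h : y ∈ algebraicClosure ℚ E), F y = g ⟨y, h⟩ := by
    intro y h
    simp only [F]
    rw [dif_pos h]
  have hmem : ∀ y ∈ A, y ∈ algebraicClosure ℚ E := fun y hy => mem_algClosure (hint ω hω y hy)
  have hsum : ∀ n : ℕ, 1 ≤ n → ((A.map F).map fun y => y ^ n).sum =
      (A'.map fun y => y ^ n).sum := by
    intro n hn
    have h1 := ha ω hω n hn
    have h2 := ha ω' hω' n hn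
    -- lift to the algebraic closure
    obtain ⟨A₀, h3⟩ : ∃ A₀ : Multiset (algebraicClosure ℚ E),
        A₀.map (algebraicClosure ℚ E).val = A := by
      refine ⟨A.attach.map fun y => ⟨y.1, hmem y.1 y.2⟩, ?_⟩
      rw [Multiset.map_map]
      exact Multiset.attach_map_val A
    have h4 : A₀.map g = A.map F := by
      rw [← h3, Multiset.map_map]
      refine Multiset.map_congr rfl fun y _ => ?_
      exact (hF y.1 y.2).symm
    have h5 : orbSum (p ^ (s + 1)) ((⟨ω, hωi⟩ : algebraicClosure ℚ E)⁻¹) a n =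
        ((((-1) ^ m : ℤ) : algebraicClosure ℚ E)) * (A₀.map fun y => y ^ n).sum := by
      apply (algebraicClosure ℚ E).val.injective
      have h6 := map_orbSum (algebraicClosure ℚ E).val.toRingHom (p ^ (s + 1))
        ((⟨ω, hωi⟩ : algebraicClosure ℚ E)⁻¹) a n
      have h7 : (algebraicClosure ℚ E).val.toRingHom ((⟨ω, hωi⟩ : algebraicClosure ℚ E)⁻¹) =
          ω⁻¹ := rfl
      rw [h7, h1] at h6
      have h9 : (algebraicClosure ℚ E).val ((((-1) ^ m : ℤ) : algebraicClosure ℚ E) *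
          (A₀.map fun y => y ^ n).sum) = (((-1) ^ m : ℤ) : E) * (A.map fun y => y ^ n).sum := by
        rw [map_mul, map_intCast, map_multiset_sum, Multiset.map_map, ← h3, Multiset.map_map]
        rfl
      exact h6.trans h9.symm
    have h6 := congrArg g h5
    have h7 := map_orbSum g.toRingHom (p ^ (s + 1)) ((⟨ω, hωi⟩ : algebraicClosure ℚ E)⁻¹) a n
    have h8 : g.toRingHom ((⟨ω, hωi⟩ : algebraicClosure ℚ E)⁻¹) = ω'⁻¹ := by
      change g ((⟨ω, hωi⟩ : algebraicClosure ℚ E)⁻¹) = ω'⁻¹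
      rw [map_inv₀, hg']
    rw [h8, h2] at h7
    have h9 : (((-1) ^ m : ℤ) : E) * (A'.map fun y => y ^ n).sum =
        (((-1) ^ m : ℤ) : E) * ((A.map F).map fun y => y ^ n).sum := by
      rw [← h7]
      change g _ = _
      rw [h6, map_mul, map_intCast, map_multiset_sum, Multiset.map_map, ← h4, Multiset.map_map]
      congr 2
      refine Multiset.map_congr rfl fun y _ => ?_
      exact map_pow g y n
    have h10 : (((-1) ^ m : ℤ) : E) ≠ 0 := by
      rw [Int.cast_ne_zero]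
      exact pow_ne_zero _ (by norm_num)
    exact (mul_left_cancel₀ h10 h9).symm
  have hfilter : ∀ (B : Multiset E) (n : ℕ), 1 ≤ n →
      ((B.filter fun y => y ≠ 0).map fun y => y ^ n).sum = (B.map fun y => y ^ n).sum := by
    intro B n hn
    induction B using Multiset.induction_on with
    | empty => rfl
    | cons y B ih =>
      by_cases hy : y = 0
      · have hy' : ¬ (y ≠ 0) := fun h => h hy
        rw [Multiset.filter_cons_of_neg (p := fun y : E => y ≠ 0) B hy', Multiset.map_cons,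
          Multiset.sum_cons, ih, hy, zero_pow (by omega), zero_add]
      · rw [Multiset.filter_cons_of_pos (p := fun y : E => y ≠ 0) B hy, Multiset.map_cons, Multiset.map_cons,
          Multiset.sum_cons, Multiset.sum_cons, ih]
  have hEq : (A.map F).filter (fun y => y ≠ 0) = A'.filter fun y => y ≠ 0 := by
    refine powerSum_inj (fun n hn => ?_) ?_
    · rw [hfilter _ n hn, hfilter _ n hn, hsum n hn]
    · rw [Multiset.count_eq_zero_of_notMem (by simp), Multiset.count_eq_zero_of_notMem (by simp)]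
  have hgx : g ⟨x, hxi⟩ ∈ (A.map F).filter fun y => y ≠ 0 := by
    rw [Multiset.mem_filter]
    refine ⟨?_, ?_⟩
    · rw [← hF x hxi]
      exact Multiset.mem_map_of_mem F hx
    · rw [Ne, map_eq_zero]
      exact fun h => hx0 (congrArg Subtype.val h)
  rw [hEq] at hgx
  exact (Multiset.mem_filter.1 hgx).1

end Pool.Agent.U273.FS
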