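import Mathlib
import Pool.Agent.U273.FS.TwDefs
import Pool.Agent.U273.FS.TwSum

/-!
# Twists of a surface with an automorphism over a finite field: the theorem
-/

set_option autoImplicit false
set_option linter.unusedSectionVars false

open CategoryTheory AlgebraicGeometry Polynomial

namespace Pool.Agent.U273.FS

open Module Pool.Agent.W528.HS

variable {E : Type} [Field E] [CharZero E] [IsAlgClosed E]

/-- The number of exceptions. -/
theorem exc_card {p s : ℕ} (hp : p.Prime) {ω : E} (hω : IsPrimitiveRoot ω (p ^ (s + 1))) {Q : E}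
    (hQ : Q ≠ 0) (R : Multiset E) {b : ℕ} (hR : R.card ≤ b) (J : Finset ℕ)
    (hJ : ∀ j ∈ J, j < p ^ (s + 1) ∧ ∃ x ∈ R, ∃ n : ℕ, 0 < n ∧ ¬ p ∣ n ∧
      (x * ω ^ j) ^ n = Q ^ n) : J.card ≤ b := by
  classical
  have hN : 0 < p ^ (s + 1) := pow_pos hp.pos _
  have hω0 : ω ≠ 0 := hω.ne_zero hN.ne'
  choose! f hf using fun j hj => (hJ j hj).2
  have hinj : Set.InjOn f (J : Set ℕ) := by
    intro i hi j hj hij
    obtain ⟨-, n, hn, hpn, h1⟩ := hf i hi
    obtain ⟨-, m, hm, hpm, h2⟩ := hf j hj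
    rw [← hij] at h2
    have hx0 : f i ≠ 0 := by
      intro h0
      rw [h0, zero_mul, zero_pow hn.ne'] at h1
      exact pow_ne_zero n hQ h1.symm
    have h3 : (f i * ω ^ i) ^ (n * m) = (f i * ω ^ j) ^ (n * m) := by
      rw [pow_mul, h1, mul_comm n m, pow_mul, h2, ← pow_mul, ← pow_mul, mul_comm]
    rw [mul_pow, mul_pow] at h3
    have h4 := mul_left_cancel₀ (pow_ne_zero _ hx0) h3
    rw [← pow_mul, ← pow_mul] at h4
    have hcop : Nat.Coprime (p ^ (s + 1)) (n * m) := by
      refine Nat.Coprime.pow_left _ ?_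
      rw [Nat.Prime.coprime_iff_not_dvd hp, hp.dvd_mul]
      exact fun h => h.elim hpn hpm
    have key : ∀ i j : ℕ, i ≤ j → j < p ^ (s + 1) → ω ^ (i * (n * m)) = ω ^ (j * (n * m)) →
        i = j := by
      intro i j hij hj h4
      obtain ⟨d, rfl⟩ := Nat.exists_eq_add_of_le hij
      rw [add_mul, pow_add] at h4
      have h5 : ω ^ (d * (n * m)) = 1 :=
        mul_left_cancel₀ (pow_ne_zero _ hω0) (h4.symm.trans (mul_one _).symm)
      have h6 := hcop.dvd_of_dvd_mul_right (hω.dvd_of_pow_eq_one _ h5)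
      have h7 : d = 0 := Nat.eq_zero_of_dvd_of_lt h6 (by omega)
      rw [h7, add_zero]
    rcases le_total i j with h | h
    · exact key i j h (hJ j hj).1 h4
    · exact (key j i h (hJ i hi).1 h4.symm).symm
  have h1 : J.card ≤ R.toFinset.card :=
    Finset.card_le_card_of_injOn f
      (fun j hj => by
        rw [Finset.mem_coe, Multiset.mem_toFinset]
        exact (hf j hj).1) hinj
  exact h1.trans ((Multiset.toFinset_card_le R).trans hR)

section linear

variable {V : Type} [AddCommGroup V] [Module E V] [FiniteDimensional E V]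

/-- From a generalised eigenvector in the eigenspace to an eigenvalue. -/
theorem eig_of_gen {Φ g : Module.End E V} (hc : Commute Φ g) {ω Q : E} (hω : ω ≠ 0) (hQ : Q ≠ 0)
    {j n : ℕ} (hn : 0 < n) : ∀ (i : ℕ) (x : V), x ∈ g.eigenspace ω → x ≠ 0 →
      ((((Φ * g ^ j) ^ n - algebraMap E (Module.End E V) (Q ^ n) : Module.End E V)) ^ i) x = 0 →
      ∃ y ∈ (Φ.restrict (Pool.Agent.TH117.HS.mapsTo_eig hc ω)).charpoly.roots,
        (y * ω ^ j) ^ n = Q ^ n := by
  intro i
  induction i with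
  | zero =>
    intro x _ hx0 h
    exact absurd h hx0
  | succ i ih =>
    intro x hx hx0 h
    set ψ := (Φ * g ^ j) ^ n with hψ
    have hcψ : Commute ψ g := by
      rw [hψ]
      exact ((hc.mul_left ((Commute.refl g).pow_left j))).pow_left n
    set x' := (ψ - algebraMap E (Module.End E V) (Q ^ n)) x with hx'
    by_cases h0 : x' = 0
    · have hgx : g x = ω • x := Module.End.mem_eigenspace_iff.1 hx
      have h1 : ψ x = Q ^ n • x := by
        rw [hx', LinearMap.sub_apply, sub_eq_zero] at h0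
        exact h0
      have h2 : ψ x = (ω ^ j) ^ n • (Φ ^ n) x := by
        rw [hψ, (hc.pow_right j).mul_pow, Module.End.mul_apply, ← pow_mul, pow_eig hgx, map_smul,
          pow_mul]
      have hω' : (ω ^ j) ≠ 0 := pow_ne_zero _ hω
      have h3 : (Φ ^ n) x = (Q * (ω ^ j)⁻¹) ^ n • x := by
        rw [h2] at h1
        have h4 : (Φ ^ n) x = ((ω ^ j) ^ n)⁻¹ • (Q ^ n • x) := by
          rw [← h1, smul_smul, inv_mul_cancel₀ (pow_ne_zero _ hω'), one_smul]
        rw [h4, smul_smul, mul_pow, inv_pow, mul_comm]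
      set Φ' := Φ.restrict (Pool.Agent.TH117.HS.mapsTo_eig hc ω) with hΦ'
      have h5 : (Φ' ^ n) ⟨x, hx⟩ = (Q * (ω ^ j)⁻¹) ^ n • (⟨x, hx⟩ : g.eigenspace ω) := by
        apply Subtype.ext
        rw [hΦ', restrict_pow]
        exact h3
      have h6 := mem_iSup_of_pow (mul_ne_zero hQ (inv_ne_zero hω')) hn h5
      obtain ⟨α, hα, hα'⟩ : ∃ α : E, α ^ n = (Q * (ω ^ j)⁻¹) ^ n ∧ Module.End.HasEigenvalue Φ' α := by
        by_contra hcon
        push Not at hcon
        have h7 : (⨆ α ∈ {α : E | α ^ n = (Q * (ω ^ j)⁻¹) ^ n}, Module.End.eigenspace Φ' α) = ⊥ := by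
          rw [eq_bot_iff]
          refine iSup_le fun α => iSup_le fun hα => ?_
          have h8 := hcon α hα
          rw [Module.End.hasEigenvalue_iff, not_not] at h8
          rw [h8]
        rw [h7, Submodule.mem_bot] at h6
        exact hx0 (congrArg Subtype.val h6)
      refine ⟨α, ?_, ?_⟩
      · rw [Polynomial.mem_roots (LinearMap.charpoly_monic Φ').ne_zero]
        exact (Module.End.hasEigenvalue_iff_isRoot_charpoly Φ' α).1 hα'
      · rw [mul_pow, hα, ← mul_pow, mul_assoc, inv_mul_cancel₀ hω', mul_one]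
    · refine ih x' ?_ h0 ?_
      · refine Module.End.mem_eigenspace_iff.2 ?_
        have hcc : Commute (ψ - algebraMap E (Module.End E V) (Q ^ n)) g :=
          hcψ.sub_left (Algebra.commutes _ _)
        rw [hx', ← Module.End.mul_apply, ← hcc.eq, Module.End.mul_apply,
          Module.End.mem_eigenspace_iff.1 hx, map_smul]
      · rw [hx', ← Module.End.mul_apply, ← pow_succ]
        exact h

/-- Invariance of the generalised eigenvectors. -/
theorem gen_invariant {Φ g : Module.End E V} (hc : Commute Φ g) {p s : ℕ} (hp : p.Prime)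
    (hg : g ^ p ^ (s + 1) = 1) {Q : E} (hQ : Q ≠ 0) {j n : ℕ} (hn : 0 < n)
    (h : ∀ ω : E, IsPrimitiveRoot ω (p ^ (s + 1)) →
      ∀ y ∈ (Φ.restrict (Pool.Agent.TH117.HS.mapsTo_eig hc ω)).charpoly.roots,
        (y * ω ^ j) ^ n ≠ Q ^ n) (x : V) (i : ℕ)
    (hx : ((((Φ * g ^ j) ^ n - algebraMap E (Module.End E V) (Q ^ n) : Module.End E V)) ^ i) x = 0) :
    x ∈ LinearMap.ker (g ^ p ^ s - 1) := by
  classical
  have hN : 0 < p ^ (s + 1) := pow_pos hp.pos _
  set ψ := (Φ * g ^ j) ^ n with hψ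
  have hcψ : Commute ψ g := by
    rw [hψ]
    exact ((hc.mul_left ((Commute.refl g).pow_left j))).pow_left n
  let T : Submodule E V := Module.End.maxGenEigenspace ψ (Q ^ n)
  have hT : ∀ x ∈ T, g x ∈ T := by
    intro x hx
    obtain ⟨i, hi⟩ := (mem_max _ _).1 hx
    refine (mem_max _ _).2 ⟨i, ?_⟩
    have hcc : Commute ((ψ - algebraMap E (Module.End E V) (Q ^ n)) ^ i) g :=
      (hcψ.sub_left (Algebra.commutes _ _)).pow_left i
    rw [← Module.End.mul_apply, hcc.eq, Module.End.mul_apply, hi, map_zero]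
  have h1 : T ⊓ primitivePart g p s ≤ ⊥ := by
    refine (primitive_le hp hg T hT).trans ?_
    refine iSup_le fun ω => iSup_le fun hω => ?_
    rintro y ⟨hyT, hyω⟩
    rw [Submodule.mem_bot]
    by_contra hy0
    obtain ⟨k, hk⟩ := (mem_max _ _).1 hyT
    have hprim := (mem_primitiveRoots hN).1 hω
    obtain ⟨z, hz, hz'⟩ := eig_of_gen hc (hprim.ne_zero hN.ne') hQ hn k y hyω hy0 hk
    exact h ω hprim z hz hz'
  have h2 := le_sup_primitive hp hg T hT
  have h3 : x ∈ T := (mem_max _ _).2 ⟨i, hx⟩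
  have h4 : T ≤ T ⊓ LinearMap.ker (g ^ p ^ s - 1) := h2.trans (sup_le le_rfl (h1.trans bot_le))
  exact (h4 h3).2

/-- The multiplicity of a root on a stable subspace. -/
theorem multiplicity_on {ψ : Module.End E V} {W : Submodule E V} {Ψ : Module.End E W}
    (hΨ : IsRestriction ψ W Ψ) (c : E) :
    multiplicityOf Ψ c = finrank E (Module.End.maxGenEigenspace ψ c ⊓ W : Submodule E V) := by
  unfold multiplicityOf
  rw [← LinearMap.finrank_maxGenEigenspace_eq]
  have hpow : ∀ (i : ℕ) (x : W), ((((Ψ - algebraMap E (Module.End E W) c) ^ i) x : W) : V) =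
      ((ψ - algebraMap E (Module.End E V) c) ^ i) (x : V) := by
    intro i
    induction i with
    | zero => intro x; rfl
    | succ i ih =>
      intro x
      rw [pow_succ, pow_succ, Module.End.mul_apply, Module.End.mul_apply, ih]
      congr 1
      rw [LinearMap.sub_apply, LinearMap.sub_apply, Module.algebraMap_end_apply,
        Module.algebraMap_end_apply, ← hΨ x]
      rfl
  have h1 : (Module.End.maxGenEigenspace ψ c ⊓ W : Submodule E V) =
      (Module.End.maxGenEigenspace Ψ c).map W.subtype := by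
    ext x
    rw [Submodule.mem_map]
    constructor
    · rintro ⟨hx, hxW⟩
      obtain ⟨i, hi⟩ := (mem_max _ _).1 hx
      refine ⟨⟨x, hxW⟩, (mem_max _ _).2 ⟨i, ?_⟩, rfl⟩
      apply Subtype.ext
      rw [hpow]
      exact hi
    · rintro ⟨y, hy, rfl⟩
      obtain ⟨i, hi⟩ := (mem_max _ _).1 hy
      refine ⟨(mem_max _ _).2 ⟨i, ?_⟩, y.2⟩
      have h2 := hpow i y
      rw [hi] at h2
      exact h2.symm
  rw [h1]
  exact (Submodule.finrank_map_subtype_eq _ _).symm

/-- The equivalence of the conjectures. -/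
theorem satisfies_iff {ψ : Module.End E V} {W : Submodule E V} (hW : ∀ x ∈ W, ψ x ∈ W) {c : E}
    (N : AddSubgroup V) (h : Module.End.maxGenEigenspace ψ c ≤ W) :
    SatisfiesTate N ψ ⊤ c ↔ SatisfiesTate N ψ W c := by
  have heig : ∀ x : V, ψ x = c • x → x ∈ W := by
    intro x hx
    refine h ((mem_max _ _).2 ⟨1, ?_⟩)
    rw [pow_one, LinearMap.sub_apply, Module.algebraMap_end_apply, hx, sub_self]
  have hspan : rationalSpan N ψ c ⊤ = rationalSpan N ψ c W := by
    unfold rationalSpan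
    congr 1
    ext x
    constructor
    · rintro ⟨h1, h2, -⟩
      exact ⟨h1, h2, heig x h2⟩
    · rintro ⟨h1, h2, -⟩
      exact ⟨h1, h2, Submodule.mem_top⟩
  have hmult : ∀ m : ℕ, HasMultiplicityOn ψ ⊤ c m ↔ HasMultiplicityOn ψ W c m := by
    intro m
    have hT : (Module.End.maxGenEigenspace ψ c ⊓ ⊤ : Submodule E V) =
        Module.End.maxGenEigenspace ψ c ⊓ W := by
      rw [inf_top_eq, inf_eq_left.2 h]
    constructor
    · rintro ⟨Ψ, hΨ, hm⟩
      have hr : IsRestriction ψ W (LinearMap.restrict ψ hW : Module.End E W) := fun _ => rfl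
      refine ⟨_, hr, ?_⟩
      rw [multiplicity_on hr, ← hT, ← multiplicity_on hΨ, hm]
    · rintro ⟨Ψ, hΨ, hm⟩
      have hr : IsRestriction ψ ⊤
          (LinearMap.restrict ψ (p := ⊤) (q := ⊤) (fun x _ => Submodule.mem_top) :
            Module.End E (⊤ : Submodule E V)) := fun _ => rfl
      refine ⟨_, hr, ?_⟩
      rw [multiplicity_on hr, hT, ← multiplicity_on hΨ, hm]
  constructor
  · rintro ⟨h1, h2⟩
    refine ⟨fun x _ hx => ?_, ?_⟩
    · rw [← hspan]
      exact h1 x Submodule.mem_top hx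
    · rw [← hspan]
      exact (hmult _).1 h2
  · rintro ⟨h1, h2⟩
    refine ⟨fun x _ hx => ?_, ?_⟩
    · rw [hspan]
      exact h1 x (heig x hx) hx
    · rw [hspan]
      exact (hmult _).2 h2

end linear

end Pool.Agent.U273.FS
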