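import Mathlib
import Pool.Agent.U273.FS.LogDefs
import Pool.Agent.U273.FS.TwMain

/-!
# Degenerate varieties with an automorphism: sums of traces
-/

set_option autoImplicit false
set_option linter.unusedSectionVars false

open CategoryTheory AlgebraicGeometry Polynomial

namespace Pool.Agent.U273.FS

open Finset Module Pool.Agent.W528.HS

variable {κ : Type} [Field κ] [Fintype κ]

section points

variable {X : Scheme.{0}} (π : X ⟶ Spec (CommRingCat.of κ))

theorem comp_frob (x : GeometricPoint π) :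
    componentsThrough π (frobenius π x) = componentsThrough π x := by
  unfold componentsThrough
  congr 1
  ext Z
  have h : ∀ t, (frobenius π x).1 t = x.1 t := by
    intro t
    have h1 : (frobenius π x).1 t = x.1 (frSpec κ t) := rfl
    rw [h1]
    congr 1
    have : Subsingleton (PrimeSpectrum (CommRingCat.of (AlgebraicClosure κ))) := by
      change Subsingleton (PrimeSpectrum (AlgebraicClosure κ))
      infer_instance
    exact @Subsingleton.elim (PrimeSpectrum (CommRingCat.of (AlgebraicClosure κ))) this _ _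
  constructor
  · rintro ⟨h1, h2⟩
    exact ⟨h1, fun t => by rw [← h t]; exact h2 t⟩
  · rintro ⟨h1, h2⟩
    exact ⟨h1, fun t => by rw [h t]; exact h2 t⟩

theorem comp_act (σ : X ⟶ X) (hσ : σ ≫ π = π) (hcomp : PreservesComponents σ)
    (x : GeometricPoint π) : componentsThrough π (act π σ hσ x) = componentsThrough π x := by
  unfold componentsThrough
  congr 1
  ext Z
  constructor
  · rintro ⟨h1, h2⟩
    exact ⟨h1, fun t => (hcomp Z h1 _).1 (h2 t)⟩
  · rintro ⟨h1, h2⟩
    exact ⟨h1, fun t => (hcomp Z h1 _).2 (h2 t)⟩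

/-- The sums over closed points of the smooth locus. -/
theorem smooth_orb [LocallyOfFiniteType π] [QuasiCompact π] (σ : X ⟶ X) (hσ : σ ≫ π = π)
    (hcomp : PreservesComponents σ) {p s : ℕ} (hp : p.Prime)
    (hord : power σ (p ^ (s + 1)) = 𝟙 X) : ∃ a : ℕ → ℕ → ℕ,
      (∀ n, 0 < n → ∀ (R : Type) [CommRing R] (μ : R), μ ^ p ^ (s + 1) = 1 →
        ∑ i ∈ range p, (μ ^ p ^ s) ^ i = 0 →
        ∑ j ∈ range (p ^ (s + 1)), μ ^ j * (((stratumPoints π σ hσ 0 n j).ncard : ℕ) : R) =
          ((p ^ (s + 1) : ℕ) : R) * orbSum (p ^ (s + 1)) μ a n) ∧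
      (∀ n, 0 < n → ∀ (R : Type) [CommRing R],
        ((∑ j ∈ range (p ^ (s + 1)), (smoothMovedPoints π σ hσ (p ^ s) n j).ncard : ℕ) : R) =
          ((p ^ (s + 1) : ℕ) : R) * orbSum (p ^ (s + 1)) (1 : R) a n) := by
  classical
  have hN : 0 < p ^ (s + 1) := pow_pos hp.pos _
  let α' : Type := {x : GeometricPoint π // componentsThrough π x = 1}
  let f' : α' → α' := fun x => ⟨frobenius π x.1, by rw [comp_frob]; exact x.2⟩
  let σ' : α' → α' := fun x => ⟨act π σ hσ x.1, by rw [comp_act π σ hσ hcomp]; exact x.2⟩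
  have hf'n : ∀ n (x : α'), (f'^[n] x).1 = (frobenius π)^[n] x.1 := by
    intro n
    induction n with
    | zero => intro x; rfl
    | succ n ih => intro x; rw [Function.iterate_succ_apply, ih, Function.iterate_succ_apply]
  have hσ'n : ∀ n (x : α'), (σ'^[n] x).1 = (act π σ hσ)^[n] x.1 := by
    intro n
    induction n with
    | zero => intro x; rfl
    | succ n ih => intro x; rw [Function.iterate_succ_apply, ih, Function.iterate_succ_apply]
  have hf'i : Function.Injective f' := by
    intro x y h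
    exact Subtype.ext (frobenius_inj π (congrArg Subtype.val h))
  have hc' : ∀ x, f' (σ' x) = σ' (f' x) := fun x => Subtype.ext (frobenius_act π σ hσ x.1)
  have hσ' : ∀ x, σ'^[p ^ (s + 1)] x = x := fun x =>
    Subtype.ext (by rw [hσ'n]; exact act_order π σ hσ hord x.1)
  have hfin' : ∀ n, 0 < n → {x | ∃ j, σ'^[j] (f'^[n] x) = x}.Finite := by
    intro n hn
    refine ((fixed_finite π σ hσ hN hord n hn).preimage (f := (Subtype.val : α' →
      GeometricPoint π)) Subtype.val_injective.injOn).subset ?_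
    rintro x ⟨j, hj⟩
    refine ⟨j, ?_⟩
    have h4 := congrArg Subtype.val hj
    rw [hσ'n, hf'n] at h4
    exact h4
  obtain ⟨a, ha1, ha2⟩ := aut_orb hf'i hc' hp hσ' hfin'
  have hcard1 : ∀ n j, {x : α' | σ'^[j] (f'^[n] x) = x}.ncard =
      (stratumPoints π σ hσ 0 n j).ncard := by
    intro n j
    rw [← Set.ncard_image_of_injective _ (Subtype.val_injective : Function.Injective
      (Subtype.val : α' → GeometricPoint π))]
    congr 1
    ext x
    constructor
    · rintro ⟨y, hy, rfl⟩
      refine ⟨y.2, ?_⟩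
      have h4 := congrArg Subtype.val hy
      rw [hσ'n, hf'n] at h4
      exact h4
    · rintro ⟨h1, h2⟩
      refine ⟨⟨x, h1⟩, ?_, rfl⟩
      apply Subtype.ext
      rw [hσ'n, hf'n]
      exact h2
  have hcard2 : ∀ n j, {x : α' | σ'^[p ^ s] x ≠ x ∧ σ'^[j] (f'^[n] x) = x}.ncard =
      (smoothMovedPoints π σ hσ (p ^ s) n j).ncard := by
    intro n j
    rw [← Set.ncard_image_of_injective _ (Subtype.val_injective : Function.Injective
      (Subtype.val : α' → GeometricPoint π))]
    congr 1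
    ext x
    constructor
    · rintro ⟨y, ⟨hy0, hy⟩, rfl⟩
      refine ⟨y.2, ?_, ?_⟩
      · intro h
        apply hy0
        apply Subtype.ext
        rw [hσ'n]
        exact h
      · have h4 := congrArg Subtype.val hy
        rw [hσ'n, hf'n] at h4
        exact h4
    · rintro ⟨h1, h0, h2⟩
      refine ⟨⟨x, h1⟩, ⟨?_, ?_⟩, rfl⟩
      · intro h
        apply h0
        have h4 := congrArg Subtype.val h
        rw [hσ'n] at h4
        exact h4
      · apply Subtype.ext
        rw [hσ'n, hf'n]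
        exact h2
  refine ⟨a, fun n hn R _ μ hμ hμ0 => ?_, fun n hn R _ => ?_⟩
  · rw [← ha1 n hn R μ hμ hμ0]
    exact Finset.sum_congr rfl fun j _ => by rw [hcard1]
  · rw [← ha2 n hn R]
    congr 1
    exact Finset.sum_congr rfl fun j _ => (hcard2 n j).symm

end points

variable {E : Type} [Field E] [CharZero E] [IsAlgClosed E]

/-- The roots on the eigenspace of the automorphism. -/
noncomputable def eigRoots (D : CohomologyGroups E) (m : ℕ) (hc : Commute (D.frob m) (D.aut m))
    (ω : E) : Multiset E :=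
  ((D.frob m).restrict (Pool.Agent.TH117.HS.mapsTo_eig hc ω)).charpoly.roots

/-- The sum of traces for a faithful character. -/
theorem trace_sum {p s : ℕ} (hp : p.Prime) (D : CohomologyGroups E)
    (hc : ∀ i, Commute (D.frob i) (D.aut i)) (hg : ∀ i, D.aut i ^ p ^ (s + 1) = 1) (m : ℕ)
    (hm : m ≤ D.top) (htriv : TrivialOutside D m (p ^ s)) {ω : E}
    (hω : IsPrimitiveRoot ω (p ^ (s + 1))) (n : ℕ) :
    ∑ j ∈ range (p ^ (s + 1)), (ω⁻¹) ^ j *
      ∑ i ∈ range (D.top + 1), (-1) ^ i * traceOf (D.frob i) (D.aut i) n j =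
      ((p ^ (s + 1) : ℕ) : E) * ((((-1) ^ m : ℤ) : E) *
        ((eigRoots D m (hc m) ω).map fun x => x ^ n).sum) := by
  classical
  have hN : 0 < p ^ (s + 1) := pow_pos hp.pos _
  have hωps : ω ^ p ^ s ≠ 1 := by
    intro h
    have h1 := hω.dvd_of_pow_eq_one _ h
    have h2 := Nat.le_of_dvd (pow_pos hp.pos s) h1
    have h3 : p ^ s < p ^ (s + 1) := Nat.pow_lt_pow_right hp.one_lt (Nat.lt_succ_self s)
    omega
  have hbot : ∀ i, i ≠ m → (D.aut i).eigenspace ω = ⊥ := by
    intro i hi
    rw [eq_bot_iff]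
    intro v hv
    rw [Module.End.mem_eigenspace_iff] at hv
    have h2 := pow_eig hv (p ^ s)
    rw [htriv i hi v] at h2
    have h3 : (1 - ω ^ p ^ s) • v = 0 := by
      rw [sub_smul, one_smul, ← h2]
      exact sub_self v
    exact (smul_eq_zero.1 h3).resolve_left (sub_ne_zero.2 hωps.symm)
  unfold eigRoots
  rw [← Pool.Agent.W63.HS.TR.main E _ _ n]
  have h2 : ∀ j ∈ range (p ^ (s + 1)), (ω⁻¹) ^ j *
      ∑ i ∈ range (D.top + 1), (-1) ^ i * traceOf (D.frob i) (D.aut i) n j =
      ∑ i ∈ range (D.top + 1), (-1) ^ i *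
        ((ω⁻¹) ^ j * LinearMap.trace E (D.H i) (D.frob i ^ n * D.aut i ^ j)) := by
    intro j _
    rw [Finset.mul_sum]
    refine Finset.sum_congr rfl fun i _ => ?_
    unfold traceOf
    ring
  rw [Finset.sum_congr rfl h2, Finset.sum_comm,
    Finset.sum_eq_single m (fun i _ hi => ?_) (fun h => ?_)]
  · rw [← Finset.mul_sum, ← Pool.Agent.TH117.HS.trace_eig (hc m) hN (hg m) hω.pow_eq_one n]
    push_cast
    ring
  · rw [← Finset.mul_sum, trace_trivial (hc i) hN (hg i) hω.pow_eq_one (hbot i hi) n, mul_zero]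
  · exact absurd (mem_range.2 (by omega)) h

/-- **The homomorphisms of the algebraic numbers permute the parts of the faithful characters.** -/
theorem roots_conj {p s : ℕ} (hp : p.Prime) (D : CohomologyGroups E)
    (hc : ∀ i, Commute (D.frob i) (D.aut i)) (hg : ∀ i, D.aut i ^ p ^ (s + 1) = 1) (m : ℕ)
    (hm : m ≤ D.top) (htriv : TrivialOutside D m (p ^ s)) (t : ℕ → ℕ → ℤ)
    (ht : ∀ n j : ℕ, 0 < n →
      ∑ i ∈ range (D.top + 1), (-1) ^ i * traceOf (D.frob i) (D.aut i) n j = ((t n j : ℤ) : E))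
    {ω ω' : E} (hω : IsPrimitiveRoot ω (p ^ (s + 1))) (hω' : IsPrimitiveRoot ω' (p ^ (s + 1)))
    (hint : ∀ x ∈ eigRoots D m (hc m) ω, x ∈ algebraicClosure ℚ E)
    (g : (algebraicClosure ℚ E) →ₐ[ℚ] E) (hωi : ω ∈ algebraicClosure ℚ E)
    (hgω : g ⟨ω, hωi⟩ = ω') {x : E} (hx0 : x ≠ 0) (hx : x ∈ eigRoots D m (hc m) ω)
    (hxi : x ∈ algebraicClosure ℚ E) : g ⟨x, hxi⟩ ∈ eigRoots D m (hc m) ω' := by
  classical
  have hN : 0 < p ^ (s + 1) := pow_pos hp.pos _
  have hNE : ((p ^ (s + 1) : ℕ) : E) ≠ 0 := by exact_mod_cast hN.ne'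
  have key : ∀ ω : E, IsPrimitiveRoot ω (p ^ (s + 1)) → ∀ n, 0 < n →
      ∑ j ∈ range (p ^ (s + 1)), (ω⁻¹) ^ j * ((t n j : ℤ) : E) =
      ((p ^ (s + 1) : ℕ) : E) * ((((-1) ^ m : ℤ) : E) *
        ((eigRoots D m (hc m) ω).map fun x => x ^ n).sum) := by
    intro ω hω n hn
    rw [← trace_sum hp D hc hg m hm htriv hω n]
    exact Finset.sum_congr rfl fun j _ => by rw [ht n j hn]
  set A := eigRoots D m (hc m) ω with hA
  set A' := eigRoots D m (hc m) ω' with hA'
  let F : E → E := fun y => if h : y ∈ algebraicClosure ℚ E then g ⟨y, h⟩ else y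
  have hF : ∀ (y : E) (h : y ∈ algebraicClosure ℚ E), F y = g ⟨y, h⟩ := by
    intro y h
    simp only [F]
    rw [dif_pos h]
  have hsum : ∀ n : ℕ, 1 ≤ n → ((A.map F).map fun y => y ^ n).sum =
      (A'.map fun y => y ^ n).sum := by
    intro n hn
    have h1 := key ω hω n hn
    have h2 := key ω' hω' n hn
    obtain ⟨A₀, h3⟩ : ∃ A₀ : Multiset (algebraicClosure ℚ E),
        A₀.map (algebraicClosure ℚ E).val = A := by
      refine ⟨A.attach.map fun y => ⟨y.1, hint y.1 y.2⟩, ?_⟩
      rw [Multiset.map_map]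
      exact Multiset.attach_map_val A
    have h4 : A₀.map g = A.map F := by
      rw [← h3, Multiset.map_map]
      refine Multiset.map_congr rfl fun y _ => ?_
      exact (hF y.1 y.2).symm
    have h5 : ∑ j ∈ range (p ^ (s + 1)), ((⟨ω, hωi⟩ : algebraicClosure ℚ E)⁻¹) ^ j *
        ((t n j : ℤ) : algebraicClosure ℚ E) =
        ((p ^ (s + 1) : ℕ) : algebraicClosure ℚ E) *
          ((((-1) ^ m : ℤ) : algebraicClosure ℚ E) * (A₀.map fun y => y ^ n).sum) := by
      apply (algebraicClosure ℚ E).val.injective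
      change (algebraicClosure ℚ E).val _ = (algebraicClosure ℚ E).val _
      rw [map_sum, map_mul, map_natCast, map_mul, map_intCast, map_multiset_sum,
        Multiset.map_map]
      have h6 : ((A₀.map ((algebraicClosure ℚ E).val ∘ fun y => y ^ n)).sum) =
          (A.map fun y => y ^ n).sum := by
        rw [← h3, Multiset.map_map]
        rfl
      rw [h6, ← h1]
      refine Finset.sum_congr rfl fun j _ => ?_
      rw [map_mul, map_pow, map_intCast]
      rfl
    have h6 := congrArg g h5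
    rw [map_sum, map_mul, map_natCast, map_mul, map_intCast, map_multiset_sum,
      Multiset.map_map] at h6
    have h7 : ∑ j ∈ range (p ^ (s + 1)), g (((⟨ω, hωi⟩ : algebraicClosure ℚ E)⁻¹) ^ j *
        ((t n j : ℤ) : algebraicClosure ℚ E)) =
        ∑ j ∈ range (p ^ (s + 1)), (ω'⁻¹) ^ j * ((t n j : ℤ) : E) := by
      refine Finset.sum_congr rfl fun j _ => ?_
      rw [map_mul, map_pow, map_intCast, map_inv₀, hgω]
    rw [h7, h2] at h6
    have h8 := mul_left_cancel₀ hNE h6
    have h10 : (((-1) ^ m : ℤ) : E) ≠ 0 := by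
      rw [Int.cast_ne_zero]
      exact pow_ne_zero _ (by norm_num)
    have h9 := mul_left_cancel₀ h10 h8
    rw [h9, ← h4, Multiset.map_map]
    congr 1
    refine Multiset.map_congr rfl fun y _ => ?_
    exact (map_pow g y n).symm
  have hfilter : ∀ (B : Multiset E) (n : ℕ), 1 ≤ n →
      ((B.filter fun y => y ≠ 0).map fun y => y ^ n).sum = (B.map fun y => y ^ n).sum := by
    intro B n hn
    induction B using Multiset.induction_on with
    | empty => rfl
    | cons y B ih =>
      by_cases hy : y = 0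
      · have hy' : ¬ (y ≠ 0) := fun h => h hy
        rw [Multiset.filter_cons_of_neg (p := fun y : E => y ≠ 0) B hy', Multiset.map_cons,
          Multiset.sum_cons, ih, hy, zero_pow (by omega), zero_add]
      · rw [Multiset.filter_cons_of_pos (p := fun y : E => y ≠ 0) B hy, Multiset.map_cons,
          Multiset.map_cons, Multiset.sum_cons, Multiset.sum_cons, ih]
  have hEq : (A.map F).filter (fun y => y ≠ 0) = A'.filter fun y => y ≠ 0 := by
    refine powerSum_inj (fun n hn => ?_) ?_
    · rw [hfilter _ n hn, hfilter _ n hn, hsum n hn]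
    · rw [Multiset.count_eq_zero_of_notMem (by simp), Multiset.count_eq_zero_of_notMem (by simp)]
  have hgx : g ⟨x, hxi⟩ ∈ (A.map F).filter fun y => y ≠ 0 := by
    rw [Multiset.mem_filter]
    refine ⟨?_, ?_⟩
    · rw [← hF x hxi]
      exact Multiset.mem_map_of_mem F hx
    · rw [Ne, map_eq_zero]
      exact fun h => hx0 (congrArg Subtype.val h)
  rw [hEq] at hgx
  exact (Multiset.mem_filter.1 hgx).1

end Pool.Agent.U273.FS
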