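import Mathlib
import Pool.Agent.U273.FS.LogSum

/-!
# Degenerate varieties with an automorphism: reduction modulo `p`
-/

set_option autoImplicit false
set_option linter.unusedSectionVars false

open CategoryTheory AlgebraicGeometry Polynomial

namespace Pool.Agent.U273.FS

open Finset Module Pool.Agent.W528.HS

section scaling

variable {E : Type} [Field E] [CharZero E] {k : Type} [Field k]
  (θ : (integralClosure ℤ E).toSubring →+* k)

theorem isIntegral_nat (q : ℕ) : IsIntegral ℤ (q : E) := by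
  have := isIntegral_int (E := E) (q : ℤ)
  simpa using this

theorem ps_scale (q : ℕ) (A : Multiset E) (n : ℕ) :
    powerSum (A.map fun x => (q : E) * x) n = (q : E) ^ n * powerSum A n := by
  unfold powerSum
  rw [Multiset.map_map, ← Multiset.sum_map_mul_left]
  congr 1
  refine Multiset.map_congr rfl fun x _ => ?_
  simp only [Function.comp_apply, mul_pow]

theorem ps_add (A B : Multiset E) (n : ℕ) : powerSum (A + B) n = powerSum A n + powerSum B n := by
  unfold powerSum
  rw [Multiset.map_add, Multiset.sum_add]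

theorem red_scale {q : ℕ} (hq : (q : k) = 1) {A : Multiset E} (hA : AreIntegral A) :
    red θ (A.map fun x => (q : E) * x) = red θ A := by
  unfold red
  rw [Multiset.map_map]
  congr 1
  refine Multiset.map_congr rfl fun x hx => ?_
  have h1 : th θ ((q : E) * x) = th θ x := by
    rw [th_mul θ (isIntegral_nat q) (hA x hx)]
    have h2 := th_int (E := E) θ (q : ℤ)
    rw [Int.cast_natCast, Int.cast_natCast] at h2
    rw [h2, hq, one_mul]
  rw [Function.comp_apply, h1]

theorem integral_scale (q : ℕ) {A : Multiset E} (hA : AreIntegral A) :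
    AreIntegral (A.map fun x => (q : E) * x) := by
  intro y hy
  obtain ⟨x, hx, rfl⟩ := Multiset.mem_map.1 hy
  exact (isIntegral_nat q).mul (hA x hx)

theorem integral_add {A B : Multiset E} (hA : AreIntegral A) (hB : AreIntegral B) :
    AreIntegral (A + B) := by
  intro x hx
  rcases Multiset.mem_add.1 hx with h | h
  · exact hA x h
  · exact hB x h

/-- The factors `(1 - q ^ n) ^ k`. -/
theorem step {q : ℕ} (hq : (q : k) = 1) (j : ℕ) (A B : Multiset E) (hA : AreIntegral A)
    (hB : AreIntegral B) : ∃ A' B' : Multiset E, AreIntegral A' ∧ AreIntegral B' ∧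
      (∀ n, (1 - (q : E) ^ n) ^ j * (powerSum A n - powerSum B n) =
        powerSum A' n - powerSum B' n) ∧ (1 ≤ j → red θ A' = red θ B') := by
  induction j with
  | zero =>
    refine ⟨A, B, hA, hB, fun n => ?_, fun h => ?_⟩
    · rw [pow_zero, one_mul]
    · exact absurd h (by norm_num)
  | succ j ih =>
    obtain ⟨A₁, B₁, h1, h2, h3, -⟩ := ih
    refine ⟨A₁ + B₁.map (fun x => (q : E) * x), B₁ + A₁.map (fun x => (q : E) * x),
      integral_add h1 (integral_scale q h2), integral_add h2 (integral_scale q h1),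
      fun n => ?_, fun _ => ?_⟩
    · rw [pow_succ', mul_assoc, h3, ps_add, ps_add, ps_scale, ps_scale]
      ring
    · rw [red_add, red_add, red_scale θ hq h2, red_scale θ hq h1, mul_comm]

theorem combine {q : ℕ} (hq : (q : k) = 1) (d : ℕ → ℕ → E) (K : ℕ)
    (h : ∀ j, 1 ≤ j → j ≤ K → ∃ A B : Multiset E, AreIntegral A ∧ AreIntegral B ∧
      ∀ n, 0 < n → d j n = powerSum A n - powerSum B n) :
    ∃ A B : Multiset E, AreIntegral A ∧ AreIntegral B ∧ red θ A = red θ B ∧
      ∀ n, 0 < n → ∑ j ∈ Ico 1 (K + 1), (1 - (q : E) ^ n) ^ j * d j n =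
        powerSum A n - powerSum B n := by
  induction K with
  | zero =>
    refine ⟨0, 0, fun x hx => absurd hx (Multiset.notMem_zero x),
      fun x hx => absurd hx (Multiset.notMem_zero x), rfl, fun n _ => ?_⟩
    simp
  | succ K ih =>
    obtain ⟨A, B, h1, h2, h3, h4⟩ := ih fun j hj hjK => h j hj (by omega)
    obtain ⟨A₁, B₁, h5, h6, h7⟩ := h (K + 1) (by omega) le_rfl
    obtain ⟨A₂, B₂, h8, h9, h10, h11⟩ := step θ hq (K + 1) A₁ B₁ h5 h6
    refine ⟨A + A₂, B + B₂, integral_add h1 h8, integral_add h2 h9, ?_, fun n hn => ?_⟩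
    · rw [red_add, red_add, h3, h11 (by omega)]
    · rw [Finset.sum_Ico_succ_top (by omega), h4 n hn, h7 n hn, h10 n, ps_add, ps_add]
      ring

end scaling

variable {κ : Type} [Field κ] [Fintype κ] {E : Type} [Field E] [CharZero E] [IsAlgClosed E]

/-- **The characteristic polynomial modulo `p`.** -/
theorem log_part {p s : ℕ} (hp : p.Prime) (hq : ((Fintype.card κ : ℕ) : ZMod p) = 1)
    {X : Scheme.{0}} (π : X ⟶ Spec (CommRingCat.of κ)) [LocallyOfFiniteType π] [QuasiCompact π]
    (σ : X ⟶ X) (hσ : σ ≫ π = π) (hcomp : PreservesComponents σ)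
    (hord : power σ (p ^ (s + 1)) = 𝟙 X) (D : CohomologyGroups E)
    (hD : D.IsLogCohomology π σ hσ (p ^ (s + 1))) (m : ℕ) (hm : m ≤ D.top)
    (htriv : TrivialOutside D m (p ^ s))
    (hstr : StrataAreRational E π σ hσ (p ^ (s + 1)) D.top)
    (P₁ P₂ : ℤ[X]) (hP : HasSmoothQuotientZeta E π σ hσ (p ^ s) (p ^ (s + 1)) P₁ P₂)
    {k : Type} [Field k] [CharP k p] (θ : (integralClosure ℤ E).toSubring →+* k)
    {ω : E} (hω : IsPrimitiveRoot ω (p ^ (s + 1)))
    (hint : AreIntegral (eigRoots D m (hD.commute m) ω)) :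
    (Even m → red θ (eigRoots D m (hD.commute m) ω) * P₁.map (Int.castRingHom k) =
      P₂.map (Int.castRingHom k)) ∧
    (Odd m → red θ (eigRoots D m (hD.commute m) ω) * P₂.map (Int.castRingHom k) =
      P₁.map (Int.castRingHom k)) := by
  classical
  have hfact : Fact p.Prime := ⟨hp⟩
  have hN : 0 < p ^ (s + 1) := pow_pos hp.pos _
  have hNE : ((p ^ (s + 1) : ℕ) : E) ≠ 0 := by exact_mod_cast hN.ne'
  have hqk : ((Fintype.card κ : ℕ) : k) = 1 := by
    have h1 := congrArg (ZMod.castHom (dvd_refl p) k) hq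
    rwa [map_natCast, map_one] at h1
  obtain ⟨a, ha1, ha2⟩ := smooth_orb π σ hσ hcomp hp hord
  have hμ : IsPrimitiveRoot ω⁻¹ (p ^ (s + 1)) := hω.inv
  have hμps : (ω⁻¹) ^ p ^ s ≠ 1 := by
    intro h
    have h1 := hμ.dvd_of_pow_eq_one _ h
    have h2 := Nat.le_of_dvd (pow_pos hp.pos s) h1
    have h3 : p ^ s < p ^ (s + 1) := Nat.pow_lt_pow_right hp.one_lt (Nat.lt_succ_self s)
    omega
  have hμ0 : ∑ i ∈ range p, ((ω⁻¹) ^ p ^ s) ^ i = 0 := by
    have h2 := mul_geom_sum ((ω⁻¹) ^ p ^ s) p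
    rw [← pow_mul, ← pow_succ, hμ.pow_eq_one, sub_self] at h2
    exact (mul_eq_zero.1 h2).resolve_left (sub_ne_zero.2 hμps)
  -- the strata
  let d : ℕ → ℕ → E := fun j n => ((p ^ (s + 1) : ℕ) : E)⁻¹ *
    ∑ i ∈ range (p ^ (s + 1)), (ω⁻¹) ^ i * ((stratumPoints π σ hσ j n i).ncard : E)
  obtain ⟨A, B, hA, hB, hAB, hsumAB⟩ := combine θ (q := Fintype.card κ) hqk d D.top (by
    intro j hj hjK
    obtain ⟨A, B, h1, h2, h3⟩ := hstr ω hω j hj hjK
    refine ⟨A, B, h1, h2, fun n hn => ?_⟩
    simp only [d]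
    rw [h3 n hn, ← mul_assoc, inv_mul_cancel₀ hNE, one_mul])
  -- the total
  have hsum : ∀ n, 1 ≤ n → orbSum (p ^ (s + 1)) (ω⁻¹) a n =
      (((-1) ^ m : ℤ) : E) * powerSum (eigRoots D m (hD.commute m) ω) n -
        (powerSum A n - powerSum B n) := by
    intro n hn
    have h1 := ha1 n hn E (ω⁻¹) hμ.pow_eq_one hμ0
    have h2 := trace_sum hp D hD.commute hD.order m hm htriv hω n
    have h3 : ∑ j ∈ range (p ^ (s + 1)), (ω⁻¹) ^ j *
        ∑ i ∈ range (D.top + 1), (-1) ^ i * traceOf (D.frob i) (D.aut i) n j =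
        ∑ l ∈ range (D.top + 1), (1 - ((Fintype.card κ : ℕ) : E) ^ n) ^ l *
          ∑ j ∈ range (p ^ (s + 1)), (ω⁻¹) ^ j *
            ((stratumPoints π σ hσ l n j).ncard : E) := by
      have h4 : ∀ j ∈ range (p ^ (s + 1)), (ω⁻¹) ^ j *
          ∑ i ∈ range (D.top + 1), (-1) ^ i * traceOf (D.frob i) (D.aut i) n j =
          ∑ l ∈ range (D.top + 1), (1 - ((Fintype.card κ : ℕ) : E) ^ n) ^ l *
            ((ω⁻¹) ^ j * ((stratumPoints π σ hσ l n j).ncard : E)) := by
        intro j _
        rw [hD.lefschetz n j hn, Finset.mul_sum]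
        exact Finset.sum_congr rfl fun l _ => by ring
      rw [Finset.sum_congr rfl h4, Finset.sum_comm]
      exact Finset.sum_congr rfl fun l _ => by rw [Finset.mul_sum]
    rw [h3, Finset.range_eq_Ico, Finset.sum_eq_sum_Ico_succ_bot (by omega), pow_zero, one_mul,
      zero_add, h1] at h2
    have h5 : ∑ l ∈ Ico 1 (D.top + 1), (1 - ((Fintype.card κ : ℕ) : E) ^ n) ^ l *
        ∑ j ∈ range (p ^ (s + 1)), (ω⁻¹) ^ j * ((stratumPoints π σ hσ l n j).ncard : E) =
        ((p ^ (s + 1) : ℕ) : E) * (powerSum A n - powerSum B n) := by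
      rw [← hsumAB n hn, Finset.mul_sum]
      refine Finset.sum_congr rfl fun l _ => ?_
      simp only [d]
      rw [mul_left_comm, ← mul_assoc ((p ^ (s + 1) : ℕ) : E), mul_inv_cancel₀ hNE, one_mul]
    rw [h5] at h2
    apply mul_left_cancel₀ hNE
    have h6 : ((eigRoots D m (hD.commute m) ω).map fun x => x ^ n).sum =
        powerSum (eigRoots D m (hD.commute m) ω) n := rfl
    rw [h6] at h2
    linear_combination h2
  obtain ⟨B₁, B₂, ⟨hP₁, hB₁⟩, ⟨hP₂, hB₂⟩, hZ⟩ := hP
  have hBsum : ∀ n, 1 ≤ n → orbSum (p ^ (s + 1)) (1 : E) a n =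
      (B₂.map fun x => x ^ n).sum - (B₁.map fun x => x ^ n).sum := by
    intro n hn
    have h1 := ha2 n hn E
    apply mul_left_cancel₀ hNE
    rw [← h1]
    exact hZ n hn
  have hth := th_root θ (s := s + 1) hp hμ.pow_eq_one
  refine ⟨?_, ?_⟩
  · intro hev
    have h := congruence θ hN hμ.pow_eq_one hth a (eigRoots D m (hD.commute m) ω + B) A B₂ B₁
      (integral_add hint hB) hA
      (integral_of_poly hP₂ hB₂) (integral_of_poly hP₁ hB₁)
      (by
        intro n hn
        rw [hsum n hn, hev.neg_one_pow, Int.cast_one, one_mul]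
        have h7 := ps_add (eigRoots D m (hD.commute m) ω) B n
        unfold powerSum at h7 ⊢
        rw [h7]
        ring) hBsum
    rw [red_add, red_poly θ hP₁ hB₁, red_poly θ hP₂ hB₂, hAB] at h
    have h8 := red_ne_zero θ B
    apply mul_right_cancel₀ h8
    rw [← h]
    ring
  · intro hodd
    have h := congruence θ hN hμ.pow_eq_one hth a B (eigRoots D m (hD.commute m) ω + A) B₂ B₁
      hB (integral_add hint hA)
      (integral_of_poly hP₂ hB₂) (integral_of_poly hP₁ hB₁)
      (by
        intro n hn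
        rw [hsum n hn, hodd.neg_one_pow]
        have h7 := ps_add (eigRoots D m (hD.commute m) ω) A n
        unfold powerSum at h7 ⊢
        rw [h7]
        push_cast
        ring) hBsum
    rw [red_add, red_poly θ hP₁ hB₁, red_poly θ hP₂ hB₂, hAB] at h
    have h8 := red_ne_zero θ B
    apply mul_right_cancel₀ h8
    have h9 : P₁.map (Int.castRingHom k) * red θ B =
        red θ B * P₁.map (Int.castRingHom k) := mul_comm _ _
    rw [h9, h]
    ring

end Pool.Agent.U273.FS
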