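import Mathlib
import Pool.Agent.U273.FS.LogRed

/-!
# Complex conjugation on the algebraic numbers, and duality
-/

set_option autoImplicit false
set_option linter.unusedSectionVars false

open Polynomial

namespace Pool.Agent.U273.FS

open Module

variable {E : Type} [Field E] [CharZero E] [IsAlgClosed E]

/-- A complex conjugation. -/
theorem exists_conj (E : Type) [Field E] [CharZero E] [IsAlgClosed E] :
    ∃ (φ : algebraicClosure ℚ E →+* ℂ) (γ : algebraicClosure ℚ E →ₐ[ℚ] algebraicClosure ℚ E),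
      ∀ y, φ (γ y) = (starRingEnd ℂ) (φ y) := by
  have hB : IsAlgClosure ℚ (algebraicClosure ℚ ℂ) := algebraicClosure.isAlgClosure ℚ ℂ
  have hB' : IsAlgClosure ℚ (algebraicClosure ℚ E) := algebraicClosure.isAlgClosure ℚ E
  let e : algebraicClosure ℚ E ≃ₐ[ℚ] algebraicClosure ℚ ℂ :=
    IsAlgClosure.equiv ℚ (algebraicClosure ℚ E) (algebraicClosure ℚ ℂ)
  let c : ℂ →ₐ[ℚ] ℂ := (Complex.conjAe.restrictScalars ℚ).toAlgHom
  have hc : ∀ y : algebraicClosure ℚ ℂ, (c.comp (algebraicClosure ℚ ℂ).val) y ∈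
      (algebraicClosure ℚ ℂ).toSubalgebra := by
    intro y
    change c (y : ℂ) ∈ algebraicClosure ℚ ℂ
    rw [mem_algebraicClosure_iff]
    have h1 : _root_.IsAlgebraic ℚ (y : ℂ) := mem_algebraicClosure_iff.1 y.2
    exact h1.algHom c
  let cB : algebraicClosure ℚ ℂ →ₐ[ℚ] algebraicClosure ℚ ℂ :=
    AlgHom.codRestrict (c.comp (algebraicClosure ℚ ℂ).val) (algebraicClosure ℚ ℂ).toSubalgebra hc
  refine ⟨((algebraicClosure ℚ ℂ).val.toRingHom).comp e.toAlgHom.toRingHom,
    e.symm.toAlgHom.comp (cB.comp e.toAlgHom), ?_⟩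
  intro y
  have h1 : e (e.symm (cB (e y))) = cB (e y) := e.apply_symm_apply _
  change ((e (e.symm (cB (e y))) : algebraicClosure ℚ ℂ) : ℂ) = _
  rw [h1]
  rfl

/-- The conjugate of a number with given absolute value. -/
theorem conj_mul {φ : algebraicClosure ℚ E →+* ℂ}
    {γ : algebraicClosure ℚ E →ₐ[ℚ] algebraicClosure ℚ E}
    (hγ : ∀ y, φ (γ y) = (starRingEnd ℂ) (φ y)) (q : ℕ) (w : ℤ) (α : algebraicClosure ℚ E)
    (h : ‖φ α‖ ^ 2 = (q : ℝ) ^ w) : γ α * α = (q : algebraicClosure ℚ E) ^ w := by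
  apply φ.injective
  rw [map_mul, hγ, map_zpow₀, map_natCast, mul_comm, Complex.mul_conj, Complex.normSq_eq_norm_sq,
    h]
  push_cast
  rfl

theorem weight_unique {q : ℕ} (hq : 1 < q) {α : E} {w w' : ℤ} (h : HasWeight q α w)
    (h' : HasWeight q α w') : w = w' := by
  obtain ⟨φ, -, -⟩ := exists_conj E
  obtain ⟨h1, h2⟩ := h
  obtain ⟨h1', h2'⟩ := h'
  have h3 := h2 φ
  rw [h2' φ] at h3
  have hq1 : (1 : ℝ) < q := by exact_mod_cast hq
  exact (zpow_right_injective₀ (by linarith) (by linarith) h3).symm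

section linear

variable {V : Type} [AddCommGroup V] [Module E V] [FiniteDimensional E V]

theorem ker_eq_bot_of {f : Module.End E V} {μ : E} (h : ¬ f.HasEigenvalue μ) :
    LinearMap.ker (f - algebraMap E (Module.End E V) μ) = ⊥ := by
  rw [Module.End.hasEigenvalue_iff, not_not, Module.End.eigenspace_def] at h
  rw [Algebra.algebraMap_eq_smul_one]
  exact h

/-- The eigenvectors in an eigenspace. -/
theorem root_iff {Φ g : Module.End E V} (hc : Commute Φ g) {ω α : E} :
    α ∈ (Φ.restrict (Pool.Agent.TH117.HS.mapsTo_eig hc ω)).charpoly.roots ↔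
      ∃ v : V, v ≠ 0 ∧ g v = ω • v ∧ Φ v = α • v := by
  set Φ' := Φ.restrict (Pool.Agent.TH117.HS.mapsTo_eig hc ω) with hΦ'
  rw [Polynomial.mem_roots (LinearMap.charpoly_monic Φ').ne_zero,
    ← Module.End.hasEigenvalue_iff_isRoot_charpoly]
  constructor
  · intro h
    obtain ⟨v, hv⟩ := h.exists_hasEigenvector
    refine ⟨v, fun h0 => hv.2 (Subtype.ext h0), Module.End.mem_eigenspace_iff.1 v.2, ?_⟩
    exact congrArg Subtype.val (Module.End.mem_eigenspace_iff.1 hv.1)
  · rintro ⟨v, hv0, hvg, hv⟩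
    refine Module.End.hasEigenvalue_of_hasEigenvector
      (x := (⟨v, Module.End.mem_eigenspace_iff.2 hvg⟩ : g.eigenspace ω)) ?_
    exact ⟨Module.End.mem_eigenspace_iff.2 (Subtype.ext hv), fun h => hv0 (congrArg Subtype.val h)⟩

/-- From generalised eigenvectors to eigenvectors. -/
theorem gen_root {Φ g : Module.End E V} (hc : Commute Φ g) {ω α : E} :
    ∀ (i : ℕ) (x : V), g x = ω • x → x ≠ 0 →
      ((Φ - algebraMap E (Module.End E V) α) ^ i) x = 0 →
      ∃ v : V, v ≠ 0 ∧ g v = ω • v ∧ Φ v = α • v := by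
  intro i
  induction i with
  | zero =>
    intro x _ hx0 h
    exact absurd h hx0
  | succ i ih =>
    intro x hx hx0 h
    set x' := (Φ - algebraMap E (Module.End E V) α) x with hx'
    by_cases h0 : x' = 0
    · refine ⟨x, hx0, hx, ?_⟩
      rw [hx', LinearMap.sub_apply, sub_eq_zero] at h0
      exact h0
    · refine ih x' ?_ h0 ?_
      · have hcc : Commute (Φ - algebraMap E (Module.End E V) α) g :=
          hc.sub_left (Algebra.commutes _ _)
        rw [hx', ← Module.End.mul_apply, ← hcc.eq, Module.End.mul_apply, hx, map_smul]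
      · rw [hx', ← Module.End.mul_apply, ← pow_succ]
        exact h

/-- **Duality of the eigenvalues.** -/
theorem dual_root {Φ g : Module.End E V} (hc : Commute Φ g) {M : ℕ} (hM : 0 < M) (hg : g ^ M = 1)
    {B : LinearMap.BilinForm E V} {c : E} (hcc : c ≠ 0) (hB : ScalesBy B Φ c)
    (hBg : ScalesBy B g 1) (hnd : IsNondegenerateForm B) {ω α : E}
    (h : α ∈ (Φ.restrict (Pool.Agent.TH117.HS.mapsTo_eig hc ω)).charpoly.roots) :
    α ≠ 0 ∧ c / α ∈ (Φ.restrict (Pool.Agent.TH117.HS.mapsTo_eig hc ω⁻¹)).charpoly.roots := by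
  classical
  obtain ⟨v, hv0, hvg, hv⟩ := (root_iff hc).1 h
  have hα : α ≠ 0 := by
    rintro rfl
    apply hv0
    apply hnd
    intro y
    have h1 := hB v y
    rw [hv, zero_smul, map_zero, LinearMap.zero_apply] at h1
    exact (mul_eq_zero.1 h1.symm).resolve_left hcc
  refine ⟨hα, ?_⟩
  by_contra hcon
  set Φ' := Φ.restrict (Pool.Agent.TH117.HS.mapsTo_eig hc ω⁻¹) with hΦ'
  rw [Polynomial.mem_roots (LinearMap.charpoly_monic Φ').ne_zero,
    ← Module.End.hasEigenvalue_iff_isRoot_charpoly] at hcon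
  -- surjectivity
  have hker : LinearMap.ker (Φ' - algebraMap E (Module.End E (g.eigenspace ω⁻¹)) (c / α)) = ⊥ := by
    exact ker_eq_bot_of hcon
  have hsurj := LinearMap.ker_eq_bot_iff_range_eq_top.1 hker
  apply hv0
  apply hnd
  intro y
  have hgs : g.IsSemisimple := by
    have hsep : (Polynomial.X ^ M - Polynomial.C 1 : Polynomial E).Separable :=
      Polynomial.separable_X_pow_sub_C (1 : E) (by exact_mod_cast hM.ne') one_ne_zero
    refine Module.End.isSemisimple_of_squarefree_aeval_eq_zero hsep.squarefree ?_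
    simp [hg]
  have hy : y ∈ ⨆ β, g.eigenspace β := by
    rw [hgs.iSup_eigenspace_eq_top]
    exact Submodule.mem_top
  induction hy using Submodule.iSup_induction' with
  | mem β y hy =>
    have hyg : g y = β • y := Module.End.mem_eigenspace_iff.1 hy
    by_cases hβ : β = ω⁻¹
    · subst hβ
      have h2 : (⟨y, hy⟩ : g.eigenspace ω⁻¹) ∈ LinearMap.range
          (Φ' - algebraMap E (Module.End E (g.eigenspace ω⁻¹)) (c / α)) := by
        rw [hsurj]
        exact Submodule.mem_top
      obtain ⟨z, hz⟩ := h2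
      have h3 : Φ (z : V) - (c / α) • (z : V) = y := by
        have h4 := congrArg Subtype.val hz
        rw [LinearMap.sub_apply, Module.algebraMap_end_apply] at h4
        exact h4
      rw [← h3, map_sub, map_smul, smul_eq_mul]
      have h5 := hB v (z : V)
      rw [hv, map_smul, LinearMap.smul_apply, smul_eq_mul] at h5
      field_simp
      linear_combination h5
    · have h2 := hBg v y
      rw [hvg, hyg, map_smul, map_smul, LinearMap.smul_apply, smul_eq_mul, smul_eq_mul,
        one_mul] at h2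
      have h3 : (β * ω - 1) * B v y = 0 := by linear_combination h2
      refine (mul_eq_zero.1 h3).resolve_left fun h4 => hβ ?_
      rw [sub_eq_zero] at h4
      exact eq_inv_of_mul_eq_one_left h4
  | zero => simp
  | add y z _ _ h1 h2 => rw [map_add, h1, h2, add_zero]

end linear

end Pool.Agent.U273.FS
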