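import Mathlib
import Pool.Agent.U273.FS.LogConj

/-!
# Degenerate varieties with an automorphism: purity and the monodromy operator
-/

set_option autoImplicit false
set_option linter.unusedSectionVars false

open CategoryTheory AlgebraicGeometry Polynomial

namespace Pool.Agent.U273.FS

open Module Pool.Agent.W528.HS

variable {E : Type} [Field E] [CharZero E] [IsAlgClosed E]

/-- Two different roots with the same nonzero reduction. -/
theorem no_pair {k : Type} [Field k] (θ : (integralClosure ℤ E).toSubring →+* k) {A : Multiset E}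
    {Q : k[X]} (hQ : red θ A = Q) (hsq : Squarefree Q) {α β : E} (hα : α ∈ A) (hβ : β ∈ A)
    (hne : α ≠ β) (h0 : th θ α ≠ 0) (h : th θ β = th θ α) : False := by
  classical
  have hle : Multiset.replicate 1 α + Multiset.replicate 1 β ≤ A := by
    rw [Multiset.replicate_one, Multiset.replicate_one, Multiset.singleton_add,
      Multiset.cons_le_of_notMem (by simpa using hne)]
    exact ⟨hα, Multiset.singleton_le.2 hβ⟩
  have h6 := dvd_red₂ θ hle
  rw [h, pow_one, hQ] at h6
  exact not_unit h0 (hsq _ h6)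

theorem squarefree_map {p : ℕ} [Fact p.Prime] {k : Type} [Field k] (ι : ZMod p →+* k)
    {H : (ZMod p)[X]} (h : Squarefree H) : Squarefree (H.map ι) :=
  ((PerfectField.separable_iff_squarefree.2 h).map (f := ι)).squarefree

/-- The reduction does not change under multiplication by powers of `q`. -/
theorem th_scale {k : Type} [Field k] (θ : (integralClosure ℤ E).toSubring →+* k) {q : ℕ}
    (hq : (q : k) = 1) {x : E} (hx : IsIntegral ℤ x) (j : ℕ) : th θ ((q : E) ^ j * x) = th θ x := by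
  rw [th_mul θ ((isIntegral_nat q).pow j) hx, th_pow θ (isIntegral_nat q)]
  have h2 := th_int (E := E) θ (q : ℤ)
  rw [Int.cast_natCast, Int.cast_natCast] at h2
  rw [h2, hq, one_pow, one_mul]

theorem weight_div {q : ℕ} (hq : 1 < q) {α : E} {w : ℤ} (h : HasWeight q α w)
    (h' : HasWeight q (α / (q : E)) w) : False := by
  obtain ⟨φ, -, -⟩ := exists_conj E
  obtain ⟨h1, h2⟩ := h
  obtain ⟨h1', h2'⟩ := h'
  have hq1 : (1 : ℝ) < q := by exact_mod_cast hq
  have e : (⟨α / (q : E), h1'⟩ : algebraicClosure ℚ E) = ⟨α, h1⟩ / ((q : ℕ) :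
      algebraicClosure ℚ E) := by
    apply Subtype.ext
    simp
  have h3 := h2' φ
  rw [e, map_div₀, map_natCast, norm_div, div_pow, h2 φ, Complex.norm_natCast] at h3
  have h4 : (q : ℝ) ^ w ≠ 0 := (zpow_pos (by linarith) w).ne'
  have h5 : (0 : ℝ) < (q : ℝ) ^ 2 := by positivity
  rw [div_eq_iff h5.ne'] at h3
  have h6 : (q : ℝ) ^ 2 = 1 := by
    apply mul_left_cancel₀ h4
    rw [mul_one]
    exact h3.symm
  nlinarith

variable {κ : Type} [Field κ] [Fintype κ]

theorem eig_weil (D : CohomologyGroups E) (m q : ℕ) (hc : Commute (D.frob m) (D.aut m))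
    (hW : AreWeilNumbers (D.frob m) q) (ω : E) : ∀ x ∈ eigRoots D m hc ω,
      IsIntegral ℤ x ∧ ∃ w : ℤ, HasWeight q x w := by
  intro x hx
  obtain ⟨v, hv0, -, hv⟩ := (root_iff hc).1 hx
  exact hW x (Module.End.hasEigenvalue_of_hasEigenvector ⟨Module.End.mem_eigenspace_iff.2 hv, hv0⟩)

/-- The reduction is `H`. -/
theorem red_eq {p s : ℕ} (hp : p.Prime) (hq : ((Fintype.card κ : ℕ) : ZMod p) = 1)
    {X : Scheme.{0}} (π : X ⟶ Spec (CommRingCat.of κ)) [LocallyOfFiniteType π] [QuasiCompact π]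
    (σ : X ⟶ X) (hσ : σ ≫ π = π) (hcomp : PreservesComponents σ)
    (hord : power σ (p ^ (s + 1)) = 𝟙 X) (D : CohomologyGroups E)
    (hD : D.IsLogCohomology π σ hσ (p ^ (s + 1))) (m : ℕ) (hm : m ≤ D.top)
    (htriv : TrivialOutside D m (p ^ s))
    (hstr : StrataAreRational E π σ hσ (p ^ (s + 1)) D.top)
    (hW : AreWeilNumbers (D.frob m) (Fintype.card κ))
    (P₁ P₂ : ℤ[X]) (hP : HasSmoothQuotientZeta E π σ hσ (p ^ s) (p ^ (s + 1)) P₁ P₂)
    (H : (ZMod p)[X]) (hH : IsQuotientOfParity p m H P₁ P₂)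
    {k : Type} [Field k] [CharP k p] (θ : (integralClosure ℤ E).toSubring →+* k)
    {ω : E} (hω : IsPrimitiveRoot ω (p ^ (s + 1))) :
    red θ (eigRoots D m (hD.commute m) ω) = H.map (ZMod.castHom (dvd_refl p) k) := by
  obtain ⟨h1, h2⟩ := log_part hp hq π σ hσ hcomp hord D hD m hm htriv hstr P₁ P₂ hP θ hω
    (fun x hx => (eig_weil D m _ (hD.commute m) hW ω x hx).1)
  have hne : ∀ P : ℤ[X], (∃ B : Multiset E, IsCharPoly P B) → P.map (Int.castRingHom k) ≠ 0 := by
    rintro P ⟨B, hP, -⟩ h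
    have h3 := congrArg (fun Q => Polynomial.coeff Q 0) h
    simp only [coeff_map, hP, coeff_zero, map_one] at h3
    exact one_ne_zero h3
  obtain ⟨B₁, B₂, hB₁, hB₂, -⟩ := hP
  let ι : ZMod p →+* k := ZMod.castHom (dvd_refl p) k
  have hι : ∀ P : ℤ[X], (P.map (Int.castRingHom (ZMod p))).map ι = P.map (Int.castRingHom k) := by
    intro P
    rw [Polynomial.map_map]
    congr 1
    exact RingHom.ext_int _ _
  rcases Nat.even_or_odd m with hev | hodd
  · have h3 := congrArg (Polynomial.map ι) (hH.1 hev)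
    rw [Polynomial.map_mul, hι, hι] at h3
    exact mul_right_cancel₀ (hne P₁ ⟨B₁, hB₁⟩) ((h1 hev).trans h3.symm)
  · have h3 := congrArg (Polynomial.map ι) (hH.2 hodd)
    rw [Polynomial.map_mul, hι, hι] at h3
    exact mul_right_cancel₀ (hne P₂ ⟨B₂, hB₂⟩) ((h2 hodd).trans h3.symm)

/-- **An eigenvalue which is not of weight `m` has a partner with the same reduction.** -/
theorem partner {p s : ℕ} (hp : p.Prime) {q : ℕ} (hq1 : 1 < q)
    (D : CohomologyGroups E) (hc : ∀ i, Commute (D.frob i) (D.aut i))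
    (hg : ∀ i, D.aut i ^ p ^ (s + 1) = 1) (m : ℕ)
    (hm : m ≤ D.top) (htriv : TrivialOutside D m (p ^ s)) (t : ℕ → ℕ → ℤ)
    (ht : ∀ n j : ℕ, 0 < n →
      ∑ i ∈ Finset.range (D.top + 1), (-1) ^ i * traceOf (D.frob i) (D.aut i) n j =
        ((t n j : ℤ) : E))
    (hW : AreWeilNumbers (D.frob m) q) (C : MiddleDuality D m q)
    {k : Type} [Field k] (hqk : (q : k) = 1) (θ : (integralClosure ℤ E).toSubring →+* k)
    {ω : E} (hω : IsPrimitiveRoot ω (p ^ (s + 1))) {α : E} (hα : α ∈ eigRoots D m (hc m) ω) :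
    th θ α ≠ 0 ∧ (HasWeight q α m ∨
      ∃ β ∈ eigRoots D m (hc m) ω, α ≠ β ∧ th θ β = th θ α) := by
  classical
  have hN : 0 < p ^ (s + 1) := pow_pos hp.pos _
  have hqE : (q : E) ≠ 0 := by
    have : q ≠ 0 := by omega
    exact_mod_cast this
  have heig := fun ω' : E => eig_weil D m q (hc m) hW ω'
  have hint : ∀ ω' : E, AreIntegral (eigRoots D m (hc m) ω') :=
    fun ω' x hx => (heig ω' x hx).1
  have halg : ∀ ω' : E, ∀ x ∈ eigRoots D m (hc m) ω', x ∈ algebraicClosure ℚ E := by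
    intro ω' x hx
    obtain ⟨w, h, -⟩ := (heig ω' x hx).2
    exact h
  -- duality
  have hω0 : ω ≠ 0 := hω.ne_zero hN.ne'
  obtain ⟨hα0, hdual⟩ := dual_root (hc m) hN (hg m) (pow_ne_zero m hqE) C.frob C.aut
    C.nondegenerate hα
  have hmul : th θ α * th θ ((q : E) ^ m / α) = 1 := by
    rw [← th_mul θ (hint ω _ hα) (hint ω⁻¹ _ hdual), mul_div_cancel₀ _ hα0]
    have h3 := th_scale (E := E) θ hqk isIntegral_one m
    rwa [mul_one, th_one] at h3
  have hth0 : th θ α ≠ 0 := fun h => by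
    rw [h, zero_mul] at hmul
    exact zero_ne_one hmul
  refine ⟨hth0, ?_⟩
  -- complex conjugation
  obtain ⟨φ, γ, hγ⟩ := exists_conj E
  have hωi : ω⁻¹ ∈ algebraicClosure ℚ E := by
    rw [mem_algebraicClosure_iff]
    refine (IsIntegral.isAlgebraic (R := ℚ) ?_)
    refine IsIntegral.of_pow hN ?_
    rw [inv_pow, hω.pow_eq_one, inv_one]
    exact isIntegral_one
  have hγω : γ ⟨ω⁻¹, hωi⟩ * ⟨ω⁻¹, hωi⟩ = 1 := by
    have h3 := conj_mul hγ q 0 ⟨ω⁻¹, hωi⟩ (by
      have h4 : (φ ⟨ω⁻¹, hωi⟩) ^ p ^ (s + 1) = 1 := by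
        rw [← map_pow]
        have h5 : (⟨ω⁻¹, hωi⟩ : algebraicClosure ℚ E) ^ p ^ (s + 1) = 1 := by
          apply Subtype.ext
          change (ω⁻¹) ^ p ^ (s + 1) = 1
          rw [inv_pow, hω.pow_eq_one, inv_one]
        rw [h5, map_one]
      rw [Complex.norm_eq_one_of_pow_eq_one h4 hN.ne']
      simp)
    rw [h3, zpow_zero]
  let g : algebraicClosure ℚ E →ₐ[ℚ] E := (algebraicClosure ℚ E).val.comp γ
  have hgω : g ⟨ω⁻¹, hωi⟩ = ω := by
    have h3 := congrArg (algebraicClosure ℚ E).val hγω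
    rw [map_mul, map_one] at h3
    change g ⟨ω⁻¹, hωi⟩ * ω⁻¹ = 1 at h3
    have h4 : g ⟨ω⁻¹, hωi⟩ = g ⟨ω⁻¹, hωi⟩ * ω⁻¹ * ω := by
      rw [mul_assoc, inv_mul_cancel₀ hω0, mul_one]
    rw [h4, h3, one_mul]
  -- the weight
  obtain ⟨w, hαi, hw⟩ := (heig ω α hα).2
  by_cases hwm : w = (m : ℤ)
  · left
    rw [← hwm]
    exact ⟨hαi, hw⟩
  right
  have hδi := halg _ _ hdual
  have hδ0 : (q : E) ^ m / α ≠ 0 := div_ne_zero (pow_ne_zero m hqE) hα0
  have hconj := roots_conj hp D hc hg m hm htriv t ht hω.inv hω (halg ω⁻¹) g hωi hgω hδ0 hdual hδi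
  have hβ : g ⟨(q : E) ^ m / α, hδi⟩ = (q : E) ^ m * α / (q : E) ^ w := by
    have h3 := conj_mul hγ q w ⟨α, hαi⟩ (hw φ)
    have h4 : (⟨(q : E) ^ m / α, hδi⟩ : algebraicClosure ℚ E) =
        ((q : ℕ) : algebraicClosure ℚ E) ^ m / ⟨α, hαi⟩ := by
      apply Subtype.ext
      simp
    have h5 := congrArg (algebraicClosure ℚ E).val h3
    rw [map_mul, map_zpow₀, map_natCast] at h5
    change g ⟨α, hαi⟩ * α = _ at h5
    rw [h4, map_div₀, map_pow, map_natCast]
    have h6 : g ⟨α, hαi⟩ = (q : E) ^ w / α := by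
      rw [← h5]
      field_simp
    rw [h6, div_div_eq_mul_div]
  rw [hβ] at hconj
  refine ⟨_, hconj, ?_⟩
  rcases lt_or_gt_of_ne hwm with hlt | hgt
  · obtain ⟨j, hj⟩ := Int.le.dest hlt.le
    have h3 : (q : E) ^ m * α / (q : E) ^ w = (q : E) ^ j * α := by
      rw [div_eq_iff (zpow_ne_zero w hqE), mul_right_comm, ← zpow_natCast _ m, ← zpow_natCast _ j,
        ← zpow_add₀ hqE, add_comm (j : ℤ) w, hj]
    rw [h3]
    refine ⟨?_, th_scale θ hqk (hint ω _ hα) j⟩
    intro h4
    have hj0 : j ≠ 0 := by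
      rintro rfl
      simp at hj
      exact hwm hj
    have h5 : ((q : E) ^ j - 1) * α = 0 := by linear_combination -h4
    have h6 := (mul_eq_zero.1 h5).resolve_right hα0
    rw [sub_eq_zero] at h6
    have h7 : q ^ j = 1 := by exact_mod_cast h6
    exact absurd h7 (Nat.one_lt_pow hj0 hq1).ne'
  · obtain ⟨j, hj⟩ := Int.le.dest hgt.le
    set β := (q : E) ^ m * α / (q : E) ^ w with hβdef
    have h3 : α = (q : E) ^ j * β := by
      rw [hβdef, ← hj, zpow_add₀ hqE, zpow_natCast, zpow_natCast]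
      field_simp
    refine ⟨?_, ?_⟩
    · intro h4
      have hj0 : j ≠ 0 := by
        rintro rfl
        simp at hj
        exact hwm hj.symm
      rw [← h4] at h3
      have h5 : ((q : E) ^ j - 1) * α = 0 := by linear_combination -h3
      have h6 := (mul_eq_zero.1 h5).resolve_right hα0
      rw [sub_eq_zero] at h6
      have h7 : q ^ j = 1 := by exact_mod_cast h6
      exact absurd h7 (Nat.one_lt_pow hj0 hq1).ne'
    · have h4 := th_scale θ hqk (hint ω _ hconj) j
      rw [← h3] at h4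
      exact h4.symm

theorem trace_int {X : Scheme.{0}} (π : X ⟶ Spec (CommRingCat.of κ)) (σ : X ⟶ X)
    (hσ : σ ≫ π = π) {M : ℕ} (D : CohomologyGroups E) (hD : D.IsLogCohomology π σ hσ M) :
    ∀ n j : ℕ, 0 < n →
      ∑ i ∈ Finset.range (D.top + 1), (-1) ^ i * traceOf (D.frob i) (D.aut i) n j =
        (((∑ l ∈ Finset.range (D.top + 1), (1 - ((Fintype.card κ : ℕ) : ℤ) ^ n) ^ l *
          ((stratumPoints π σ hσ l n j).ncard : ℤ)) : ℤ) : E) := by
  intro n j hn
  rw [hD.lefschetz n j hn]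
  push_cast
  rfl

/-- **Purity.** -/
theorem pure_part {p s : ℕ} (hp : p.Prime) (hq : ((Fintype.card κ : ℕ) : ZMod p) = 1)
    {X : Scheme.{0}} (π : X ⟶ Spec (CommRingCat.of κ)) [LocallyOfFiniteType π] [QuasiCompact π]
    (σ : X ⟶ X) (hσ : σ ≫ π = π) (hcomp : PreservesComponents σ)
    (hord : power σ (p ^ (s + 1)) = 𝟙 X) (D : CohomologyGroups E)
    (hD : D.IsLogCohomology π σ hσ (p ^ (s + 1))) (m : ℕ) (hm : m ≤ D.top)
    (htriv : TrivialOutside D m (p ^ s))
    (hstr : StrataAreRational E π σ hσ (p ^ (s + 1)) D.top)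
    (hW : AreWeilNumbers (D.frob m) (Fintype.card κ))
    (P₁ P₂ : ℤ[X]) (hP : HasSmoothQuotientZeta E π σ hσ (p ^ s) (p ^ (s + 1)) P₁ P₂)
    (H : (ZMod p)[X]) (hH : IsQuotientOfParity p m H P₁ P₂)
    (C : MiddleDuality D m (Fintype.card κ)) (hsq : Squarefree H)
    {ω : E} (hω : IsPrimitiveRoot ω (p ^ (s + 1))) {α : E}
    (hα : α ∈ eigRoots D m (hD.commute m) ω) : HasWeight (Fintype.card κ) α m := by
  have hfact : Fact p.Prime := ⟨hp⟩
  obtain ⟨k, _, _, ⟨θ⟩⟩ := Pool.Agent.W804.HS.RD.main E p hp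
  have hqk : ((Fintype.card κ : ℕ) : k) = 1 := by
    have h1 := congrArg (ZMod.castHom (dvd_refl p) k) hq
    rwa [map_natCast, map_one] at h1
  have hred := red_eq hp hq π σ hσ hcomp hord D hD m hm htriv hstr hW P₁ P₂ hP H hH θ hω
  obtain ⟨h0, h1 | ⟨β, hβ, hne, hth⟩⟩ := partner hp Fintype.one_lt_card D hD.commute hD.order m hm
    htriv _ (trace_int π σ hσ D hD) hW C hqk θ hω hα
  · exact h1
  · exact (no_pair θ hred (squarefree_map _ hsq) hα hβ hne h0 hth).elim

section linear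

variable {V : Type} [AddCommGroup V] [Module E V] [FiniteDimensional E V]

/-- The eigenspaces of the automorphism. -/
theorem eig_le {Φ g N : Module.End E V} (hc : Commute Φ g) (hNg : Commute N g) {q m : ℕ}
    (hq : 1 < q) (hN : IsTwistedBy N Φ q) {ω : E}
    (hpure : ∀ (α : E) (v : V), v ≠ 0 → g v = ω • v → Φ v = α • v → HasWeight q α m) :
    g.eigenspace ω ≤ weightPart Φ q m ⊓ LinearMap.ker N := by
  have hqE : (q : E) ≠ 0 := by
    have : q ≠ 0 := by omega
    exact_mod_cast this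
  have hst : ∀ x ∈ g.eigenspace ω, Φ x ∈ g.eigenspace ω := fun x hx =>
    Pool.Agent.TH117.HS.mapsTo_eig hc ω x hx
  have h1 := Submodule.eq_iSup_inf_genEigenspace (f := Φ) (p := g.eigenspace ω) ⊤ hst
    (Module.End.iSup_maxGenEigenspace_eq_top Φ)
  rw [h1]
  refine iSup_le fun α => ?_
  rintro x ⟨hxg, hx⟩
  have hxg' : g x = ω • x := Module.End.mem_eigenspace_iff.1 hxg
  have hx' : x ∈ Φ.maxGenEigenspace α := hx
  by_cases hx0 : x = 0
  · rw [hx0]
    exact Submodule.zero_mem _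
  obtain ⟨i, hi⟩ := (mem_max α x).1 hx'
  have hwα : HasWeight q α m := by
    obtain ⟨v, hv0, hvg, hv⟩ := gen_root hc i x hxg' hx0 hi
    exact hpure α v hv0 hvg hv
  refine ⟨?_, ?_⟩
  · exact Submodule.mem_iSup_of_mem α (Submodule.mem_iSup_of_mem hwα hx')
  · change N x = 0
    by_contra hNx
    have hNg' : g (N x) = ω • N x := by
      rw [← Module.End.mul_apply, ← hNg.eq, Module.End.mul_apply, hxg', map_smul]
    have hstep : ∀ y : V, N ((Φ - algebraMap E (Module.End E V) α) y) =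
        (q : E) • (Φ - algebraMap E (Module.End E V) (α / q)) (N y) := by
      intro y
      rw [LinearMap.sub_apply, LinearMap.sub_apply, map_sub, hN y, Module.algebraMap_end_apply,
        Module.algebraMap_end_apply, map_smul, smul_sub, smul_smul, mul_div_cancel₀ _ hqE]
    have hpow : ∀ (i : ℕ) (y : V), N (((Φ - algebraMap E (Module.End E V) α) ^ i) y) =
        (q : E) ^ i • ((Φ - algebraMap E (Module.End E V) (α / q)) ^ i) (N y) := by
      intro i
      induction i with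
      | zero => intro y; simp
      | succ i ih =>
        intro y
        rw [pow_succ', Module.End.mul_apply, hstep, ih, map_smul, smul_smul, ← pow_succ',
          pow_succ' (Φ - algebraMap E (Module.End E V) (α / q)), Module.End.mul_apply]
    have h2 := hpow i x
    rw [hi, map_zero] at h2
    have h3 := (smul_eq_zero.1 h2.symm).resolve_left (pow_ne_zero i hqE)
    obtain ⟨v, hv0, hvg, hv⟩ := gen_root hc i (N x) hNg' hNx h3
    exact weight_div hq hwα (hpure _ v hv0 hvg hv)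

theorem weight_disjoint (Φ : Module.End E V) {q : ℕ} (hq : 1 < q) {w w' : ℤ} (h : w ≠ w') :
    Disjoint (weightPart Φ q w) (weightPart Φ q w') := by
  refine (Module.End.independent_maxGenEigenspace Φ).disjoint_biSup_biSup ?_
  rw [Set.disjoint_left]
  intro α h1 h2
  exact h (weight_unique hq h1 h2)

theorem weight_stable {Φ g : Module.End E V} (hc : Commute Φ g) (q : ℕ) (w : ℤ) :
    ∀ x ∈ weightPart Φ q w, g x ∈ weightPart Φ q w := by
  intro x hx
  have h : weightPart Φ q w ≤ (weightPart Φ q w).comap g := by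
    refine iSup₂_le fun α hα y hy => ?_
    refine Submodule.mem_iSup_of_mem α (Submodule.mem_iSup_of_mem hα ?_)
    exact Module.End.mapsTo_maxGenEigenspace_of_comm hc α hy
  exact h hx

/-- The two forms of the conjecture are equivalent. -/
theorem equiv_of_pure {Φ g : Module.End E V} {p s : ℕ} (hp : p.Prime)
    (hg : g ^ p ^ (s + 1) = 1) (hc : Commute Φ g) {q m : ℕ} (hq : 1 < q)
    (hpure : primitivePart g p s ≤ weightPart Φ q m) (T : Module.End E V) :
    IsMonodromyWeight Φ T q m ⊤ ↔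
      IsMonodromyWeight Φ T q m (LinearMap.ker (g ^ p ^ s - 1)) := by
  have key : ∀ w : ℤ, w ≠ m →
      weightPart Φ q w ⊓ LinearMap.ker (g ^ p ^ s - 1) = weightPart Φ q w ⊓ ⊤ := by
    intro w hw
    rw [inf_top_eq, inf_eq_left]
    refine (le_sup_primitive hp hg _ (weight_stable hc q w)).trans ?_
    refine sup_le inf_le_right ?_
    have h1 : weightPart Φ q w ⊓ primitivePart g p s = ⊥ := by
      rw [eq_bot_iff]
      exact (le_inf inf_le_left (inf_le_right.trans hpure)).trans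
        (weight_disjoint Φ hq hw).le_bot
    rw [h1]
    exact bot_le
  unfold IsMonodromyWeight IsBijectionOn
  refine forall_congr' fun e => forall_congr' fun he => ?_
  rw [key _ (by omega), key _ (by omega)]

end linear

end Pool.Agent.U273.FS
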