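import Mathlib
import Pool.Agent.U273.FS.LogMain

/-!
# Degenerate varieties with an automorphism: the dimension of the part which is not pure
-/

set_option autoImplicit false
set_option linter.unusedSectionVars false

open CategoryTheory AlgebraicGeometry Polynomial

namespace Pool.Agent.U273.FS

open Module Pool.Agent.W528.HS

section poly

variable {k : Type} [Field k]

theorem natDegree_lin {t : k} (ht : t ≠ 0) : (1 - C t * X : k[X]).natDegree = 1 := by
  rw [sub_eq_add_neg, ← neg_mul, ← C_neg, ← C_1, add_comm]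
  exact natDegree_linear (neg_ne_zero.mpr ht)

theorem irreducible_lin {t : k} (ht : t ≠ 0) : Irreducible (1 - C t * X : k[X]) := by
  refine Polynomial.irreducible_of_degree_eq_one ?_
  rw [Polynomial.degree_eq_natDegree, natDegree_lin ht, Nat.cast_one]
  intro h
  have h1 := natDegree_lin ht
  rw [h, natDegree_zero] at h1
  exact zero_ne_one h1

/-- The factor is prime to the squarefree part. -/
theorem coprime_of_sq {t : k} (ht : t ≠ 0) {H₁ H₂ : k[X]} (hsq : Squarefree H₁)
    (hco : IsCoprime H₁ H₂) (h : (1 - C t * X : k[X]) * (1 - C t * X) ∣ H₁ * H₂) :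
    IsCoprime (1 - C t * X : k[X]) H₁ := by
  have hirr := irreducible_lin ht
  rw [hirr.coprime_iff_not_dvd]
  intro hdvd
  have h1 : IsCoprime (1 - C t * X : k[X]) H₂ := IsCoprime.of_isCoprime_of_dvd_left hco hdvd
  have h2 : (1 - C t * X : k[X]) * (1 - C t * X) ∣ H₁ := (h1.mul_left h1).dvd_of_dvd_mul_right h
  exact hirr.not_isUnit (hsq _ h2)

end poly

variable {E : Type} [Field E] [CharZero E] [IsAlgClosed E]

theorem red_coprime {k : Type} [Field k] (θ : (integralClosure ℤ E).toSubring →+* k)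
    (R : Multiset E) (H₁ : k[X]) (h : ∀ x ∈ R, IsCoprime (1 - C (th θ x) * X : k[X]) H₁) :
    IsCoprime (red θ R) H₁ := by
  induction R using Multiset.induction_on with
  | empty =>
    rw [red_zero]
    exact isCoprime_one_left
  | cons x R ih =>
    rw [red_cons]
    exact (h x (Multiset.mem_cons_self x R)).mul_left
      (ih fun y hy => h y (Multiset.mem_cons_of_mem hy))

theorem red_degree {k : Type} [Field k] (θ : (integralClosure ℤ E).toSubring →+* k)
    (R : Multiset E) (h : ∀ x ∈ R, th θ x ≠ 0) : (red θ R).natDegree = R.card := by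
  induction R using Multiset.induction_on with
  | empty => simp
  | cons x R ih =>
    rw [red_cons, natDegree_mul ?_ (red_ne_zero θ R),
      natDegree_lin (h x (Multiset.mem_cons_self x R)),
      ih fun y hy => h y (Multiset.mem_cons_of_mem hy), Multiset.card_cons, add_comm]
    exact (irreducible_lin (h x (Multiset.mem_cons_self x R))).ne_zero

/-- The number of the roots with a partner. -/
theorem card_le {k : Type} [Field k] (θ : (integralClosure ℤ E).toSubring →+* k)
    {A R : Multiset E} (hR : R ≤ A) {H₁ H₂ : k[X]} (hred : red θ A = H₁ * H₂)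
    (hsq : Squarefree H₁) (hco : IsCoprime H₁ H₂)
    (h : ∀ x ∈ R, th θ x ≠ 0 ∧ ∃ y ∈ A, x ≠ y ∧ th θ y = th θ x) : R.card ≤ H₂.natDegree := by
  classical
  have hH0 : H₁ * H₂ ≠ 0 := hred ▸ red_ne_zero θ A
  have hH2 : H₂ ≠ 0 := right_ne_zero_of_mul hH0
  rw [← red_degree θ R fun x hx => (h x hx).1]
  refine natDegree_le_of_dvd ?_ hH2
  have h1 : IsCoprime (red θ R) H₁ := by
    refine red_coprime θ R H₁ fun x hx => ?_
    obtain ⟨h0, y, hy, hne, hth⟩ := h x hx
    refine coprime_of_sq h0 hsq hco ?_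
    have hle : Multiset.replicate 1 x + Multiset.replicate 1 y ≤ A := by
      rw [Multiset.replicate_one, Multiset.replicate_one, Multiset.singleton_add,
        Multiset.cons_le_of_notMem (by simpa using hne)]
      exact ⟨Multiset.mem_of_le hR hx, Multiset.singleton_le.2 hy⟩
    have h6 := dvd_red₂ θ hle
    rwa [hth, pow_one, hred] at h6
  obtain ⟨A', hA'⟩ := Multiset.le_iff_exists_add.1 hR
  refine h1.dvd_of_dvd_mul_left ?_
  rw [← hred, hA', red_add]
  exact dvd_mul_right _ _

section linear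

variable {V : Type} [AddCommGroup V] [Module E V] [FiniteDimensional E V]

theorem impure_stable {Φ g : Module.End E V} (hc : Commute Φ g) (q m : ℕ) :
    ∀ x ∈ impurePart Φ q m, g x ∈ impurePart Φ q m := by
  intro x hx
  have h : impurePart Φ q m ≤ (impurePart Φ q m).comap g := by
    refine iSup₂_le fun α hα y hy => ?_
    refine Submodule.mem_iSup_of_mem α (Submodule.mem_iSup_of_mem hα ?_)
    exact Module.End.mapsTo_maxGenEigenspace_of_comm hc α hy
  exact h hx

open Classical in
/-- The dimension of the part which is not pure, in an eigenspace of the automorphism. -/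
theorem impure_eig {Φ g : Module.End E V} (hc : Commute Φ g) {q m : ℕ} (hq : 1 < q) (ω : E) :
    finrank E (impurePart Φ q m ⊓ g.eigenspace ω : Submodule E V) ≤
      ((Φ.restrict (Pool.Agent.TH117.HS.mapsTo_eig hc ω)).charpoly.roots.filter
        fun x => ¬ HasWeight q x m).card := by
  set Φ' : Module.End E (g.eigenspace ω) :=
    Φ.restrict (Pool.Agent.TH117.HS.mapsTo_eig hc ω) with hΦ'
  set R := Φ'.charpoly.roots.filter fun x => ¬ HasWeight q x m with hR
  set T := impurePart Φ q m ⊓ g.eigenspace ω with hT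
  have hst : ∀ x ∈ T, Φ x ∈ T := fun x hx =>
    ⟨impure_stable (Commute.refl Φ) q m x hx.1, Pool.Agent.TH117.HS.mapsTo_eig hc ω x hx.2⟩
  have h1 := Submodule.eq_iSup_inf_genEigenspace (f := Φ) (p := T) ⊤ hst
    (Module.End.iSup_maxGenEigenspace_eq_top Φ)
  have hle : T ≤ ⨆ α ∈ R.toFinset, (Φ'.maxGenEigenspace α).map (g.eigenspace ω).subtype := by
    conv_lhs => rw [h1]
    refine iSup_le fun α => ?_
    rintro x ⟨⟨hxI, hxg⟩, hx⟩
    have hxg' : g x = ω • x := Module.End.mem_eigenspace_iff.1 hxg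
    have hx' : x ∈ Φ.maxGenEigenspace α := hx
    by_cases hx0 : x = 0
    · rw [hx0]
      exact Submodule.zero_mem _
    obtain ⟨i, hi⟩ := (mem_max α x).1 hx'
    have hroot : α ∈ Φ'.charpoly.roots := (root_iff hc).2 (gen_root hc i x hxg' hx0 hi)
    have hwt : ¬ HasWeight q α m := by
      intro hw
      apply hx0
      have h2 := (Module.End.independent_maxGenEigenspace Φ).disjoint_biSup
        (x := α) (y := {α : E | ∃ w : ℤ, w ≠ m ∧ HasWeight q α w}) (by
          rintro ⟨w, hwm, hw'⟩
          exact hwm (weight_unique hq hw' hw))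
      exact (Submodule.disjoint_def.1 h2) x hx' hxI
    refine Submodule.mem_iSup_of_mem α (Submodule.mem_iSup_of_mem
      (Multiset.mem_toFinset.2 (Multiset.mem_filter.2 ⟨hroot, hwt⟩)) ?_)
    refine ⟨⟨x, hxg⟩, ?_, rfl⟩
    refine (mem_max α _).2 ⟨i, ?_⟩
    apply Subtype.ext
    have h3 : ∀ (j : ℕ) (y : g.eigenspace ω),
        (((Φ' - algebraMap E (Module.End E (g.eigenspace ω)) α) ^ j) y : V) =
          ((Φ - algebraMap E (Module.End E V) α) ^ j) (y : V) := by
      intro j
      induction j with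
      | zero => intro y; rfl
      | succ j ih =>
        intro y
        rw [pow_succ, Module.End.mul_apply, ih, pow_succ, Module.End.mul_apply]
        congr 1
    rw [h3]
    exact hi
  refine (Submodule.finrank_mono hle).trans ((finrank_biSup_le _ _).trans ?_)
  rw [← Multiset.toFinset_sum_count_eq R]
  refine Finset.sum_le_sum fun α hα => ?_
  rw [Submodule.finrank_map_subtype_eq, LinearMap.finrank_maxGenEigenspace_eq,
    ← Polynomial.count_roots]
  rw [Multiset.mem_toFinset, hR, Multiset.mem_filter] at hα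
  have h2 := Multiset.count_filter_of_pos (s := Φ'.charpoly.roots)
    (p := fun x : E => ¬ HasWeight q x m) (a := α) hα.2
  exact h2.ge

end linear

variable {κ : Type} [Field κ] [Fintype κ]

/-- **The dimension of the moved part which is not pure.** -/
theorem impure_le {p s : ℕ} (hp : p.Prime) (hq : ((Fintype.card κ : ℕ) : ZMod p) = 1)
    {X : Scheme.{0}} (π : X ⟶ Spec (CommRingCat.of κ)) [LocallyOfFiniteType π] [QuasiCompact π]
    (σ : X ⟶ X) (hσ : σ ≫ π = π) (hcomp : PreservesComponents σ)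
    (hord : power σ (p ^ (s + 1)) = 𝟙 X) (D : CohomologyGroups E)
    (hD : D.IsLogCohomology π σ hσ (p ^ (s + 1))) (m : ℕ) (hm : m ≤ D.top)
    (htriv : TrivialOutside D m (p ^ s))
    (hstr : StrataAreRational E π σ hσ (p ^ (s + 1)) D.top)
    (hW : AreWeilNumbers (D.frob m) (Fintype.card κ))
    (P₁ P₂ : ℤ[X]) (hP : HasSmoothQuotientZeta E π σ hσ (p ^ s) (p ^ (s + 1)) P₁ P₂)
    (H : (ZMod p)[X]) (hH : IsQuotientOfParity p m H P₁ P₂)
    (C : MiddleDuality D m (Fintype.card κ)) (H₂ : (ZMod p)[X]) (hH₂ : IsMultiplePart p H H₂) :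
    finrank E (impurePart (D.frob m) (Fintype.card κ) m ⊓ movedPart D m p (p ^ s) :
      Submodule E (D.H m)) ≤ p ^ s * (p - 1) * H₂.natDegree := by
  classical
  have hfact : Fact p.Prime := ⟨hp⟩
  obtain ⟨k, _, _, ⟨θ⟩⟩ := Pool.Agent.W804.HS.RD.main E p hp
  have hqk : ((Fintype.card κ : ℕ) : k) = 1 := by
    have h1 := congrArg (ZMod.castHom (dvd_refl p) k) hq
    rwa [map_natCast, map_one] at h1
  obtain ⟨H₁, rfl, hsq, hco⟩ := hH₂
  change finrank E (impurePart (D.frob m) (Fintype.card κ) m ⊓ primitivePart (D.aut m) p s :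
    Submodule E (D.H m)) ≤ _
  refine finrank_primitive_le hp (hD.order m) _ (impure_stable (hD.commute m) _ m)
    fun ω hω => ?_
  refine (impure_eig (hD.commute m) Fintype.one_lt_card ω).trans ?_
  have hred := red_eq hp hq π σ hσ hcomp hord D hD m hm htriv hstr hW P₁ P₂ hP _ hH θ hω
  rw [Polynomial.map_mul] at hred
  have hsq' := squarefree_map (ZMod.castHom (dvd_refl p) k) hsq
  have hco' : IsCoprime (H₁.map (ZMod.castHom (dvd_refl p) k))
      (H₂.map (ZMod.castHom (dvd_refl p) k)) :=
    hco.map (Polynomial.mapRingHom (ZMod.castHom (dvd_refl p) k))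
  have hdeg : (H₂.map (ZMod.castHom (dvd_refl p) k)).natDegree = H₂.natDegree :=
    natDegree_map_eq_of_injective (RingHom.injective _) H₂
  rw [← hdeg]
  refine card_le θ (Multiset.filter_le _ _) hred hsq' hco' ?_
  intro x hx
  obtain ⟨hx1, hx2⟩ := Multiset.mem_filter.1 hx
  obtain ⟨h0, h1⟩ := partner hp Fintype.one_lt_card D hD.commute hD.order m hm
    htriv _ (trace_int π σ hσ D hD) hW C hqk θ hω hx1
  exact ⟨h0, h1.resolve_left hx2⟩

/-- **Purity for squarefree `H`.** -/
theorem squarefree_pure {p s : ℕ} (hp : p.Prime) (hq : ((Fintype.card κ : ℕ) : ZMod p) = 1)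
    {X : Scheme.{0}} (π : X ⟶ Spec (CommRingCat.of κ)) [LocallyOfFiniteType π] [QuasiCompact π]
    (σ : X ⟶ X) (hσ : σ ≫ π = π) (hcomp : PreservesComponents σ)
    (hord : power σ (p ^ (s + 1)) = 𝟙 X) (D : CohomologyGroups E)
    (hD : D.IsLogCohomology π σ hσ (p ^ (s + 1))) (m : ℕ) (hm : m ≤ D.top)
    (htriv : TrivialOutside D m (p ^ s))
    (hstr : StrataAreRational E π σ hσ (p ^ (s + 1)) D.top)
    (hW : AreWeilNumbers (D.frob m) (Fintype.card κ))
    (P₁ P₂ : ℤ[X]) (hP : HasSmoothQuotientZeta E π σ hσ (p ^ s) (p ^ (s + 1)) P₁ P₂)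
    (H : (ZMod p)[X]) (hH : IsQuotientOfParity p m H P₁ P₂)
    (C : MiddleDuality D m (Fintype.card κ)) (hsq : Squarefree H)
    (T : MonodromyOperator D m (Fintype.card κ)) :
    movedPart D m p (p ^ s) ≤
      weightPart (D.frob m) (Fintype.card κ) m ⊓ LinearMap.ker T.N := by
  classical
  have hN : 0 < p ^ (s + 1) := pow_pos hp.pos _
  have h1 := primitive_le hp (hD.order m) ⊤ (fun _ _ => Submodule.mem_top)
  rw [top_inf_eq] at h1
  refine h1.trans (iSup₂_le fun ω hω => ?_)
  rw [top_inf_eq]
  have hω' := (mem_primitiveRoots hN).1 hω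
  refine eig_le (hD.commute m) T.aut Fintype.one_lt_card T.frob ?_
  intro α v hv0 hvg hv
  refine pure_part hp hq π σ hσ hcomp hord D hD m hm htriv hstr hW P₁ P₂ hP H hH C hsq hω'
    ((root_iff (hD.commute m)).2 ⟨v, hv0, hvg, hv⟩)

end Pool.Agent.U273.FS
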