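import Mathlib
import Pool.Agent.U273.FS.LogCount

/-!
# The conjecture for the two parts
-/

set_option autoImplicit false
set_option linter.unusedSectionVars false

namespace Pool.Agent.U273.FS

open Module

variable {E : Type} [Field E] [CharZero E] [IsAlgClosed E]
variable {V : Type} [AddCommGroup V] [Module E V] [FiniteDimensional E V]

theorem bij_part {f : Module.End E V} {A B I M : Submodule E V} (hI : ∀ x ∈ I, f x ∈ I)
    (hM : ∀ x ∈ M, f x ∈ M) (hd : ∀ x, x ∈ I → x ∈ M → x = 0) (hA : A ≤ (A ⊓ I) ⊔ (A ⊓ M))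
    (h : IsBijectionOn f ⊤ A B) : IsBijectionOn f I A B := by
  obtain ⟨h1, h2, h3⟩ := h
  refine ⟨?_, ?_, ?_⟩
  · rintro x ⟨hx, hxI⟩
    exact ⟨(h1 ⟨hx, Submodule.mem_top⟩).1, hI x hxI⟩
  · rintro x ⟨hx, -⟩ y ⟨hy, -⟩ hxy
    exact h2 ⟨hx, Submodule.mem_top⟩ ⟨hy, Submodule.mem_top⟩ hxy
  · rintro y ⟨hy, hyI⟩
    obtain ⟨x, ⟨hx, -⟩, hxy⟩ := h3 ⟨hy, Submodule.mem_top⟩
    obtain ⟨a, ha, b, hb, rfl⟩ := Submodule.mem_sup.1 (hA hx)
    refine ⟨a, ha, ?_⟩
    rw [map_add] at hxy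
    have hfb : f b = y - f a := by rw [← hxy, add_sub_cancel_left]
    have h0 : f b = 0 := by
      refine hd _ ?_ (hM b hb.2)
      rw [hfb]
      exact I.sub_mem hyI (hI a ha.2)
    rw [h0] at hfb
    exact (sub_eq_zero.1 hfb.symm).symm

theorem bij_split {f : Module.End E V} {A B I M : Submodule E V} (hI : ∀ x ∈ I, f x ∈ I)
    (hM : ∀ x ∈ M, f x ∈ M) (hd : ∀ x, x ∈ I → x ∈ M → x = 0) (hA : A ≤ (A ⊓ I) ⊔ (A ⊓ M))
    (hB : B ≤ (B ⊓ I) ⊔ (B ⊓ M)) :
    IsBijectionOn f ⊤ A B ↔ IsBijectionOn f I A B ∧ IsBijectionOn f M A B := by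
  constructor
  · intro h
    refine ⟨bij_part hI hM hd hA h, bij_part hM hI (fun x h1 h2 => hd x h2 h1) ?_ h⟩
    rw [sup_comm]
    exact hA
  · rintro ⟨⟨h1, h2, h3⟩, ⟨h4, h5, h6⟩⟩
    refine ⟨?_, ?_, ?_⟩
    · rintro x ⟨hx, -⟩
      obtain ⟨a, ha, b, hb, rfl⟩ := Submodule.mem_sup.1 (hA hx)
      rw [map_add]
      exact ⟨B.add_mem (h1 ha).1 (h4 hb).1, Submodule.mem_top⟩
    · rintro x ⟨hx, -⟩ y ⟨hy, -⟩ hxy
      obtain ⟨a, ha, b, hb, hab⟩ := Submodule.mem_sup.1 (hA (A.sub_mem hx hy))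
      have h0 : f a + f b = 0 := by rw [← map_add, hab, map_sub, hxy, sub_self]
      have h7 : f a = 0 := by
        refine hd _ (hI a ha.2) ?_
        have h8 : f a = -f b := eq_neg_of_add_eq_zero_left h0
        rw [h8]
        exact M.neg_mem (hM b hb.2)
      have h8 : f b = 0 := by rwa [h7, zero_add] at h0
      have h9 : a = 0 := h2 ha (Submodule.zero_mem _) (by rw [h7, map_zero])
      have h10 : b = 0 := h5 hb (Submodule.zero_mem _) (by rw [h8, map_zero])
      rw [h9, h10, zero_add] at hab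
      exact (sub_eq_zero.1 hab.symm)
    · rintro y ⟨hy, -⟩
      obtain ⟨c, hc, d, hd', rfl⟩ := Submodule.mem_sup.1 (hB hy)
      obtain ⟨a, ha, rfl⟩ := h3 hc
      obtain ⟨b, hb, rfl⟩ := h6 hd'
      exact ⟨a + b, ⟨A.add_mem ha.1 hb.1, Submodule.mem_top⟩, map_add f a b⟩

/-- The conjecture on the space is the conjecture on the two parts. -/
theorem kato_split {Φ g T : Module.End E V} {p s : ℕ} (hp : p.Prime)
    (hg : g ^ p ^ (s + 1) = 1) (hc : Commute Φ g) (hT : Commute T g) (q m : ℕ) :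
    IsMonodromyWeight Φ T q m ⊤ ↔
      IsMonodromyWeight Φ T q m (LinearMap.ker (g ^ p ^ s - 1)) ∧
        IsMonodromyWeight Φ T q m (primitivePart g p s) := by
  have hpE : (p : E) ≠ 0 := by exact_mod_cast hp.ne_zero
  have hI : ∀ e : ℕ, ∀ x ∈ LinearMap.ker (g ^ p ^ s - 1), (T ^ e) x ∈
      LinearMap.ker (g ^ p ^ s - 1) := by
    intro e x hx
    have h1 : Commute (T ^ e) (g ^ p ^ s - 1) :=
      ((hT.pow_left e).pow_right _).sub_right (Commute.one_right _)
    rw [LinearMap.mem_ker] at hx ⊢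
    rw [← Module.End.mul_apply, ← h1.eq, Module.End.mul_apply, hx, map_zero]
  have hM : ∀ e : ℕ, ∀ x ∈ primitivePart g p s, (T ^ e) x ∈ primitivePart g p s := by
    intro e x hx
    have h1 : Commute (T ^ e) (∑ j ∈ Finset.range p, (g ^ p ^ s) ^ j) := by
      refine Commute.sum_right _ _ _ fun j _ => ?_
      exact ((hT.pow_left e).pow_right _).pow_right _
    unfold primitivePart at hx ⊢
    rw [LinearMap.mem_ker] at hx ⊢
    rw [← Module.End.mul_apply, ← h1.eq, Module.End.mul_apply, hx, map_zero]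
  have hd : ∀ x, x ∈ LinearMap.ker (g ^ p ^ s - 1) → x ∈ primitivePart g p s → x = 0 := by
    intro x h1 h2
    unfold primitivePart at h2
    rw [LinearMap.mem_ker] at h1 h2
    rw [LinearMap.sub_apply, Module.End.one_apply, sub_eq_zero] at h1
    have h3 : ∀ j : ℕ, ((g ^ p ^ s) ^ j) x = x := by
      intro j
      induction j with
      | zero => simp
      | succ j ih => rw [pow_succ, Module.End.mul_apply, h1, ih]
    rw [LinearMap.sum_apply, Finset.sum_congr rfl fun j _ => h3 j, Finset.sum_const,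
      Finset.card_range] at h2
    have h5 : ((p : ℕ) : E) • x = 0 := by rw [← h2, Nat.cast_smul_eq_nsmul]
    exact (smul_eq_zero.1 h5).resolve_left hpE
  unfold IsMonodromyWeight
  rw [← forall_and]
  refine forall_congr' fun e => ?_
  rw [← forall_and]
  refine forall_congr' fun _ => ?_
  exact bij_split (hI e) (hM e) hd (le_sup_primitive hp hg _ (weight_stable hc q _))
    (le_sup_primitive hp hg _ (weight_stable hc q _))

end Pool.Agent.U273.FS
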