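import Mathlib
import Pool.Agent.U273.FS.TwMain

/-!
# Twists of a surface with an automorphism over a finite field: all but few twists
-/

set_option autoImplicit false
set_option linter.unusedSectionVars false

open CategoryTheory AlgebraicGeometry Polynomial

namespace Pool.Agent.U273.FS

open Module Pool.Agent.W528.HS

variable {E : Type} [Field E] [CharZero E] [IsAlgClosed E]
variable {κ : Type} [Field κ] [Fintype κ]

open Classical in
/-- **All but few of the twists.** -/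
theorem twists_general {p s : ℕ} (hp : p.Prime) {X : Scheme.{0}}
    (π : X ⟶ Spec (CommRingCat.of κ)) [LocallyOfFiniteType π] [QuasiCompact π] (σ : X ⟶ X)
    (hσ : σ ≫ π = π) (hord : power σ (p ^ (s + 1)) = 𝟙 X) (D : CohomologyGroups E)
    (hD : D.IsCohomology π σ hσ (p ^ (s + 1))) (h2 : 2 ≤ D.top)
    (htriv : TrivialOutsideTwo D (p ^ s)) (P₁ P₂ : ℤ[X])
    (hP : HasQuotientZeta E π σ hσ (p ^ s) (p ^ (s + 1)) P₁ P₂) {q : ℕ} (hq : q ≠ 0)
    (N : AddSubgroup (D.H 2)) (S : Set ℕ) (hS : ∀ n ∈ S, 0 < n ∧ ¬ p ∣ n) (b : ℕ)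
    (hR : ∀ ω : E, IsPrimitiveRoot ω (p ^ (s + 1)) → (((D.frob 2).restrict
      (Pool.Agent.TH117.HS.mapsTo_eig (hD.commute 2) ω)).charpoly.roots.filter
        fun x => ∃ n ∈ S, x ^ (n * p ^ (s + 1)) = (q : E) ^ (n * p ^ (s + 1))).card ≤ b) :
    HoldsForAllBut b (p ^ (s + 1)) fun j => ∀ n ∈ S, TwistReduces D q (p ^ s) N j n := by
  have hN : 0 < p ^ (s + 1) := pow_pos hp.pos _
  have hqE : (q : E) ≠ 0 := by exact_mod_cast hq
  obtain ⟨k, _, _, ⟨θ⟩⟩ := Pool.Agent.W804.HS.RD.main E p hp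
  have hint : ∀ ω : E, IsPrimitiveRoot ω (p ^ (s + 1)) → ∀ x ∈ ((D.frob 2).restrict
      (Pool.Agent.TH117.HS.mapsTo_eig (hD.commute 2) ω)).charpoly.roots, IsIntegral ℤ x :=
    fun ω hω => (faithful_part hp π σ hσ hord D hD 2 h2 htriv P₁ P₂ hP θ hω).1
  obtain ⟨ω₀, hω₀⟩ := exists_prim (E := E) _ hN
  let Exc : E → ℕ → Prop := fun ω j => ∃ x ∈ ((D.frob 2).restrict
      (Pool.Agent.TH117.HS.mapsTo_eig (hD.commute 2) ω)).charpoly.roots,
        ∃ n ∈ S, (x * ω ^ j) ^ n = (q : E) ^ n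
  have hpass : ∀ (ω : E) (j : ℕ), IsPrimitiveRoot ω (p ^ (s + 1)) → Exc ω j → Exc ω₀ j := by
    rintro ω j hω ⟨x, hx, n, hn, h⟩
    have hx0 : x ≠ 0 := by
      rintro rfl
      rw [zero_mul, zero_pow (hS n hn).1.ne'] at h
      exact pow_ne_zero n hqE h.symm
    obtain ⟨g, hωi, hxi, hg, hgx⟩ := eig_conj hp π σ hσ hord D hD 2 h2 htriv hint hω hω₀ hx0 hx
    refine ⟨_, hgx, n, hn, ?_⟩
    have h1 : ((⟨x, hxi⟩ : algebraicClosure ℚ E) * (⟨ω, hωi⟩ : algebraicClosure ℚ E) ^ j) ^ n =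
        ((q : ℕ) : algebraicClosure ℚ E) ^ n := by
      apply (algebraicClosure ℚ E).val.injective
      rw [map_pow, map_mul, map_pow, map_pow, map_natCast]
      exact h
    have h3 := congrArg g h1
    rw [map_pow, map_mul, map_pow, map_pow, map_natCast, hg] at h3
    exact h3
  refine ⟨(Finset.range (p ^ (s + 1))).filter fun j => Exc ω₀ j, ?_, ?_⟩
  · refine exc_card hp hω₀ hqE _ (hR ω₀ hω₀) _ ?_
    intro j hj
    rw [Finset.mem_filter, Finset.mem_range] at hj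
    obtain ⟨hjN, x, hx, n, hn, h⟩ := hj
    refine ⟨hjN, x, Multiset.mem_filter.2 ⟨hx, n, hn, ?_⟩, n, (hS n hn).1, (hS n hn).2, h⟩
    have h3 : ((x * ω₀ ^ j) ^ n) ^ p ^ (s + 1) = ((q : E) ^ n) ^ p ^ (s + 1) := by rw [h]
    have h4 : (ω₀ ^ j) ^ (n * p ^ (s + 1)) = 1 := by
      rw [← pow_mul, show j * (n * p ^ (s + 1)) = p ^ (s + 1) * (j * n) by ring, pow_mul,
        hω₀.pow_eq_one, one_pow]
    rw [← pow_mul, ← pow_mul, mul_pow, h4, mul_one] at h3
    exact h3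
  · intro j hjN hj n hn
    have hj' : ¬ Exc ω₀ j := fun h => hj (Finset.mem_filter.2 ⟨Finset.mem_range.2 hjN, h⟩)
    have hinv : IsInvariantRoot D (p ^ s) (twistedFrobenius D j n) ((q : E) ^ n) := by
      rintro x ⟨i, hx⟩
      refine gen_invariant (hD.commute 2) hp (hD.order 2) hqE (hS n hn).1 ?_ x i hx
      intro ω hω y hy hyn
      exact hj' (hpass ω j hω ⟨y, hy, n, hn, hyn⟩)
    refine ⟨hinv, satisfies_iff ?_ N ?_⟩
    · intro x hx
      have hc : Commute (twistedFrobenius D j n) (D.aut 2 ^ p ^ s - 1) := by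
        unfold twistedFrobenius
        refine Commute.sub_right ?_ (Commute.one_right _)
        exact (((hD.commute 2).mul_left ((Commute.refl _).pow_left j)).pow_right _).pow_left n
      have hx' : (D.aut 2 ^ p ^ s - 1 : Module.End E (D.H 2)) x = 0 := hx
      change (D.aut 2 ^ p ^ s - 1 : Module.End E (D.H 2)) (twistedFrobenius D j n x) = 0
      rw [← Module.End.mul_apply, ← hc.eq, Module.End.mul_apply, hx', map_zero]
    · intro x hx
      obtain ⟨i, hi⟩ := (mem_max _ _).1 hx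
      exact hinv x ⟨i, hi⟩

open Classical in
/-- **The multiplicity of the root modulo `p`.** -/
theorem mult_count {p s : ℕ} (hp : p.Prime) {X : Scheme.{0}}
    (π : X ⟶ Spec (CommRingCat.of κ)) [LocallyOfFiniteType π] [QuasiCompact π] (σ : X ⟶ X)
    (hσ : σ ≫ π = π) (hord : power σ (p ^ (s + 1)) = 𝟙 X) (D : CohomologyGroups E)
    (hD : D.IsCohomology π σ hσ (p ^ (s + 1))) (m : ℕ) (hm : m ≤ D.top) (hev : Even m)
    (htriv : ∀ i, i ≠ m → ∀ v, (D.aut i ^ p ^ s) v = v) (P₁ P₂ : ℤ[X])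
    (hP : HasQuotientZeta E π σ hσ (p ^ s) (p ^ (s + 1)) P₁ P₂) (H : (ZMod p)[X])
    (hH : H * P₁.map (Int.castRingHom (ZMod p)) = P₂.map (Int.castRingHom (ZMod p)))
    {Q b : ℕ} (hb : HasMultiplicityLE p Q H b)
    {ω : E} (hω : IsPrimitiveRoot ω (p ^ (s + 1))) :
    (((D.frob m).restrict (Pool.Agent.TH117.HS.mapsTo_eig (hD.commute m) ω)).charpoly.roots.filter
      fun x => x ^ p ^ (s + 1) = (Q : E) ^ p ^ (s + 1)).card ≤ b := by
  have hfact : Fact p.Prime := ⟨hp⟩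
  obtain ⟨k, _, _, ⟨θ⟩⟩ := Pool.Agent.W804.HS.RD.main E p hp
  obtain ⟨hint, h1, -⟩ := faithful_part hp π σ hσ hord D hD m hm htriv P₁ P₂ hP θ hω
  set Φ := (D.frob m).restrict (Pool.Agent.TH117.HS.mapsTo_eig (hD.commute m) ω) with hΦ
  have hne : ∀ P : ℤ[X], (∃ B : Multiset E, IsCharPoly P B) → P.map (Int.castRingHom k) ≠ 0 := by
    rintro P ⟨B, hP, -⟩ h
    have h3 := congrArg (fun Q => Polynomial.coeff Q 0) h
    simp only [coeff_map, hP, coeff_zero, map_one] at h3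
    exact one_ne_zero h3
  obtain ⟨B₁, B₂, hB₁, hB₂, -⟩ := hP
  let ι : ZMod p →+* k := ZMod.castHom (dvd_refl p) k
  have hι : ∀ P : ℤ[X], (P.map (Int.castRingHom (ZMod p))).map ι = P.map (Int.castRingHom k) := by
    intro P
    rw [Polynomial.map_map]
    congr 1
    exact RingHom.ext_int _ _
  have hred : red θ Φ.charpoly.roots = H.map ι := by
    have h3 := congrArg (Polynomial.map ι) hH
    rw [Polynomial.map_mul, hι, hι] at h3
    exact mul_right_cancel₀ (hne P₁ ⟨B₁, hB₁⟩) ((h1 hev).trans h3.symm)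
  set R := Φ.charpoly.roots.filter fun x => x ^ p ^ (s + 1) = (Q : E) ^ p ^ (s + 1) with hR
  by_contra hcon
  push Not at hcon
  apply hb
  have hRle : R ≤ Φ.charpoly.roots := Multiset.filter_le _ _
  obtain ⟨R', hR'⟩ := Multiset.le_iff_exists_add.1 hRle
  have hredR : red θ R = (1 - C (Q : k) * Polynomial.X) ^ R.card := by
    unfold red
    have h3 : ∀ x ∈ R, (1 - C (th θ x) * Polynomial.X : k[X]) = 1 - C (Q : k) * Polynomial.X := by
      intro x hx
      rw [hR, Multiset.mem_filter] at hx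
      have hxI := hint x hx.1
      have h4 : th θ x ^ p ^ (s + 1) = (Q : k) ^ p ^ (s + 1) := by
        rw [← th_pow θ hxI, hx.2]
        have h5 := th_int θ ((Q ^ p ^ (s + 1) : ℕ) : ℤ)
        push_cast at h5
        exact h5
      have h6 : (th θ x - (Q : k)) ^ p ^ (s + 1) = 0 := by
        rw [sub_pow_char_pow, h4, sub_self]
      have h7 : th θ x = (Q : k) := sub_eq_zero.1 (pow_eq_zero_iff (pow_pos hp.pos _).ne' |>.1 h6)
      rw [h7]
    rw [Multiset.map_congr rfl h3, Multiset.map_const', Multiset.prod_replicate]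
  have hdvd : (1 - C (Q : k) * Polynomial.X) ^ (b + 1) ∣ H.map ι := by
    refine (pow_dvd_pow _ hcon).trans ?_
    rw [← hredR, ← hred, hR', red_add]
    exact dvd_mul_right _ _
  rw [← Polynomial.map_dvd_map' ι]
  refine (dvd_of_eq ?_).trans hdvd
  rw [Polynomial.map_pow, Polynomial.map_sub, Polynomial.map_one, Polynomial.map_mul, map_C, map_X,
    map_natCast]

/-- **The twists over the base field.** -/
theorem twists_base {p s : ℕ} (hp : p.Prime) {X : Scheme.{0}}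
    (π : X ⟶ Spec (CommRingCat.of κ)) [LocallyOfFiniteType π] [QuasiCompact π] (σ : X ⟶ X)
    (hσ : σ ≫ π = π) (hord : power σ (p ^ (s + 1)) = 𝟙 X) (D : CohomologyGroups E)
    (hD : D.IsCohomology π σ hσ (p ^ (s + 1))) (h2 : 2 ≤ D.top)
    (htriv : TrivialOutsideTwo D (p ^ s)) (P₁ P₂ : ℤ[X])
    (hP : HasQuotientZeta E π σ hσ (p ^ s) (p ^ (s + 1)) P₁ P₂) (H : (ZMod p)[X])
    (hH : IsQuotientMod p H P₁ P₂) (N : AddSubgroup (D.H 2)) (b : ℕ)
    (hb : HasMultiplicityLE p (Fintype.card κ) H b) :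
    HoldsForAllBut b (p ^ (s + 1)) fun j => TwistReduces D (Fintype.card κ) (p ^ s) N j 1 := by
  classical
  have h := twists_general hp π σ hσ hord D hD h2 htriv P₁ P₂ hP Fintype.card_ne_zero N {1}
    (by
      rintro n rfl
      exact ⟨one_pos, hp.one_lt.ne' ∘ Nat.dvd_one.1⟩) b (by
      intro ω hω
      have h3 := mult_count hp π σ hσ hord D hD 2 h2 even_two htriv P₁ P₂ hP H hH hb hω
      refine le_trans (Multiset.card_le_card (Multiset.monotone_filter_right _ ?_)) h3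
      rintro x ⟨n, rfl, hx⟩
      rwa [one_mul] at hx)
  obtain ⟨J, hJ, hJ'⟩ := h
  exact ⟨J, hJ, fun j hj hjJ => hJ' j hj hjJ 1 rfl⟩

/-- **The twists over all extensions of degree prime to `p`.** -/
theorem twists_all {p s : ℕ} (hp : p.Prime) (hpκ : ¬ p ∣ Fintype.card κ) {X : Scheme.{0}}
    (π : X ⟶ Spec (CommRingCat.of κ)) [LocallyOfFiniteType π] [QuasiCompact π] (σ : X ⟶ X)
    (hσ : σ ≫ π = π) (hord : power σ (p ^ (s + 1)) = 𝟙 X) (D : CohomologyGroups E)
    (hD : D.IsCohomology π σ hσ (p ^ (s + 1))) (h2 : 2 ≤ D.top)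
    (htriv : TrivialOutsideTwo D (p ^ s)) (P₁ P₂ : ℤ[X])
    (hP : HasQuotientZeta E π σ hσ (p ^ s) (p ^ (s + 1)) P₁ P₂) (H : (ZMod p)[X])
    (hH : IsQuotientMod p H P₁ P₂) (N : AddSubgroup (D.H 2)) (b : ℕ)
    (hb : CyclotomicDegreeLE p (Fintype.card κ) H b) :
    HoldsForAllBut b (p ^ (s + 1)) fun j => ∀ n : ℕ, 0 < n → ¬ p ∣ n →
      TwistReduces D (Fintype.card κ) (p ^ s) N j n := by
  classical
  have h := twists_general hp π σ hσ hord D hD h2 htriv P₁ P₂ hP Fintype.card_ne_zero N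
    {n | 0 < n ∧ ¬ p ∣ n} (fun n hn => hn) b (by
      intro ω hω
      have h3 := roots_eig hp π σ hσ hord D hD 2 h2 even_two htriv P₁ P₂ hP H hH hpκ hb hω
      refine le_trans (Multiset.card_le_card (Multiset.monotone_filter_right _ ?_)) h3
      rintro x ⟨n, hn, hx⟩
      exact ⟨n * p ^ (s + 1), Nat.mul_pos hn.1 (pow_pos hp.pos _), hx⟩)
  obtain ⟨J, hJ, hJ'⟩ := h
  exact ⟨J, hJ, fun j hj hjJ n hn hpn => hJ' j hj hjJ n ⟨hn, hpn⟩⟩

/-- **The `p`-fold planes.** -/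
theorem planes_mult {p q : ℕ} (hp : p.Prime) (hq : (q : ZMod p) = 1) (P : ℤ[X])
    (hP : ¬ (p : ℤ) ∣ P.eval 1) (H : (ZMod p)[X])
    (hH : IsQuotientMod p H 1 ((1 - C ((q : ℤ) ^ 2) * X) * P)) : HasMultiplicityLE p q H 1 := by
  have hfact : Fact p.Prime := ⟨hp⟩
  unfold HasMultiplicityLE
  rw [hq, C_1, one_mul]
  intro hdvd
  have hH' : H = (1 - X) * P.map (Int.castRingHom (ZMod p)) := by
    unfold IsQuotientMod at hH
    rw [Polynomial.map_one, mul_one] at hH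
    rw [hH, Polynomial.map_mul, Polynomial.map_sub, Polynomial.map_one, Polynomial.map_mul,
      map_C, map_X]
    simp [hq]
  have hX : (1 - X : (ZMod p)[X]) ≠ 0 := by
    intro h
    have := congrArg (fun Q => Q.coeff 0) h
    simp at this
  rw [hH', pow_succ, pow_one, mul_dvd_mul_iff_left hX] at hdvd
  obtain ⟨R, hR⟩ := hdvd
  have h1 : (P.map (Int.castRingHom (ZMod p))).eval 1 = 0 := by
    rw [hR]
    simp
  have h2 : (P.map (Int.castRingHom (ZMod p))).eval 1 = ((P.eval 1 : ℤ) : ZMod p) := by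
    have := Polynomial.eval_intCast_map (Int.castRingHom (ZMod p)) P 1
    rwa [Int.cast_one] at this
  rw [h2, ZMod.intCast_zmod_eq_zero_iff_dvd] at h1
  exact hP h1

end Pool.Agent.U273.FS
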