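import Mathlib
import Pool.Agent.U273.FS.Cyc

/-!
# Elliptic surfaces with a section of order two
-/

set_option autoImplicit false
set_option linter.unusedSectionVars false

namespace Pool.Agent.U273.FS

open Finset Polynomial Module Pool.Agent.W528.HS

variable {κ : Type} [Field κ] [Fintype κ]

/-- Counting the values `x` with `x (x ^ 2 + A x + B) ≠ 0`. -/
theorem card_fibre {L : Type} [Field L] [Fintype L] [DecidableEq L] (hL : ringChar L ≠ 2)
    (A B : L) : ((univ.filter fun x : L => x ^ 3 + A * x ^ 2 + B * x + 0 ≠ 0).card : ℤ) =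
      (Fintype.card L : ℤ) - 2 - quadraticChar L (A ^ 2 - 4 * B) + if B = 0 then 1 else 0 := by
  classical
  have h2 : (2 : L) ≠ 0 := Ring.two_ne_zero hL
  have h4 : (4 : L) ≠ 0 := by
    have : (4 : L) = 2 * 2 := by norm_num
    rw [this]
    exact mul_ne_zero h2 h2
  -- the quadratic equation
  have hq : ((univ.filter fun x : L => x ^ 2 + A * x + B = 0).card : ℤ) =
      quadraticChar L (A ^ 2 - 4 * B) + 1 := by
    rw [← quadraticChar_card_sqrts hL]
    congr 1
    refine Finset.card_bij (fun x _ => 2 * x + A) ?_ ?_ ?_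
    · intro x hx
      rw [mem_filter] at hx
      rw [Set.mem_toFinset]
      change (2 * x + A) ^ 2 = A ^ 2 - 4 * B
      linear_combination 4 * hx.2
    · intro x _ y _ h
      exact mul_left_cancel₀ h2 (add_right_cancel h)
    · intro y hy
      rw [Set.mem_toFinset] at hy
      have hy2 : y ^ 2 = A ^ 2 - 4 * B := hy
      refine ⟨(y - A) / 2, ?_, ?_⟩
      · rw [mem_filter]
        refine ⟨mem_univ _, ?_⟩
        have h5 : 4 * (((y - A) / 2) ^ 2 + A * ((y - A) / 2) + B) = 0 := by
          have h6 : (y - A) / 2 * 2 = y - A := div_mul_cancel₀ _ h2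
          linear_combination hy2 + (2 * ((y - A) / 2) + (y - A) + 2 * A) * h6
        exact (mul_eq_zero.1 h5).resolve_left h4
      · rw [mul_div_cancel₀ _ h2]
        ring
  -- the zeros of the cubic
  have h0 : (univ.filter fun x : L => x ^ 3 + A * x ^ 2 + B * x + 0 = 0) =
      insert 0 (univ.filter fun x : L => x ^ 2 + A * x + B = 0) := by
    ext x
    rw [mem_filter, mem_insert, mem_filter]
    have h5 : x ^ 3 + A * x ^ 2 + B * x + 0 = x * (x ^ 2 + A * x + B) := by ring
    rw [h5, mul_eq_zero]
    constructor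
    · rintro ⟨_, h | h⟩
      · exact Or.inl h
      · exact Or.inr ⟨mem_univ _, h⟩
    · rintro (h | ⟨_, h⟩)
      · exact ⟨mem_univ _, Or.inl h⟩
      · exact ⟨mem_univ _, Or.inr h⟩
  have h1 : ((univ.filter fun x : L => x ^ 3 + A * x ^ 2 + B * x + 0 = 0).card : ℤ) =
      quadraticChar L (A ^ 2 - 4 * B) + 2 - if B = 0 then 1 else 0 := by
    rw [h0]
    by_cases hB : B = 0
    · rw [insert_eq_of_mem, hq, if_pos hB]
      · ring
      · rw [mem_filter, hB]
        exact ⟨mem_univ _, by ring⟩
    · rw [card_insert_of_notMem, if_neg hB]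
      · push_cast
        rw [hq]
        ring
      · rw [mem_filter]
        rintro ⟨_, h⟩
        apply hB
        linear_combination h
  have h3 := Finset.card_filter_add_card_filter_not (s := (univ : Finset L))
    (fun x : L => x ^ 3 + A * x ^ 2 + B * x + 0 = 0)
  rw [Finset.card_univ] at h3
  have h5 : ((univ.filter fun x : L => x ^ 3 + A * x ^ 2 + B * x + 0 = 0).card : ℤ) +
      ((univ.filter fun x : L => ¬ (x ^ 3 + A * x ^ 2 + B * x + 0 = 0)).card : ℤ) =
      (Fintype.card L : ℤ) := by exact_mod_cast h3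
  rw [h1] at h5
  have h6 : ((univ.filter fun x : L => x ^ 3 + A * x ^ 2 + B * x + 0 ≠ 0).card : ℤ) =
      ((univ.filter fun x : L => ¬ (x ^ 3 + A * x ^ 2 + B * x + 0 = 0)).card : ℤ) := rfl
  rw [h6]
  linarith

/-- The value of `a ^ 2 - 4 b`. -/
theorem formValue_disc {d : ℕ} {a b : κ[X]} (ha : a.natDegree ≤ 2 * d) (L : Type) [Field L]
    [Algebra κ L] (t : Option L) :
    formValue L (4 * d) (a ^ 2 - 4 * b) t =
      formValue L (2 * d) a t ^ 2 - 4 * formValue L (4 * d) b t := by
  cases t with
  | some t =>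
    have h4 : aeval t (4 : κ[X]) = 4 := map_ofNat (aeval t) 4
    simp only [formValue, map_sub, map_mul, map_pow, h4]
  | none =>
    have h1 : (a ^ 2).coeff (4 * d) = a.coeff (2 * d) ^ 2 := by
      rw [pow_two, pow_two, show 4 * d = 2 * d + 2 * d by ring]
      exact coeff_mul_add_eq_of_natDegree_le ha ha
    have h2 : (4 * b : κ[X]).coeff (4 * d) = 4 * b.coeff (4 * d) := by
      have : (4 : κ[X]) = C 4 := (map_ofNat C 4).symm
      rw [this, coeff_C_mul]
    have h4 : algebraMap κ L 4 = 4 := map_ofNat (algebraMap κ L) 4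
    simp only [formValue, coeff_sub, h1, h2, map_sub, map_mul, map_pow, h4]

/-- The zeros on the projective line of a form of degree `m`. -/
theorem card_zeros_line {m : ℕ} {b : κ[X]} {u : κ} (hu : u ≠ 0)
    (G : Finset κ[X]) (hG : ∀ g ∈ G, g.Monic ∧ Irreducible g) (e : κ[X] → ℕ)
    (he : ∀ g ∈ G, 0 < e g) (hb : b = C u * ∏ g ∈ G, g ^ e g)
    (L : Type) [Field L] [Fintype L] [Algebra κ L] [Decidable (b.coeff m = 0)] :
    Nat.card {t : Option L // formValue L m b t = 0} =
      (∑ g ∈ G, if g.natDegree ∣ Module.finrank κ L then g.natDegree else 0) +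
        if b.coeff m = 0 then 1 else 0 := by
  classical
  rw [← card_zeros hu G hG e he hb L, Nat.card_eq_fintype_card, Fintype.card_subtype,
    Nat.card_eq_fintype_card, Fintype.card_subtype, Finset.card_filter, Fintype.sum_option,
    Finset.card_filter, add_comm]
  congr 1
  have h1 : (formValue L m b none = 0) ↔ b.coeff m = 0 := map_eq_zero (algebraMap κ L)
  by_cases h : b.coeff m = 0
  · rw [if_pos h, if_pos (h1.2 h)]
  · rw [if_neg h, if_neg fun h2 => h (h1.1 h2)]

variable {E : Type} [Field E] [CharZero E] [IsAlgClosed E]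

/-- The eigenvalues belonging to a set of polynomials. -/
noncomputable def cyc (E : Type) [Field E] (G : Finset κ[X]) : Multiset E :=
  ∑ g ∈ G, nthRoots g.natDegree (1 : E)

theorem sum_cyc (G : Finset κ[X]) (hG : ∀ g ∈ G, 0 < g.natDegree) (n : ℕ) :
    ((cyc E G).map fun x => x ^ n).sum =
      ((∑ g ∈ G, if g.natDegree ∣ n then g.natDegree else 0 : ℕ) : E) := by
  classical
  unfold cyc
  push_cast
  induction G using Finset.induction_on with
  | empty => simp
  | insert g G hg ih =>
    rw [Finset.sum_insert hg, Finset.sum_insert hg, Multiset.map_add, Multiset.sum_add,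
      ih fun g' hg' => hG g' (mem_insert_of_mem hg'),
      sum_nthRoots _ _ (hG g (mem_insert_self g G))]
    push_cast
    rfl

theorem integral_cyc (G : Finset κ[X]) (hG : ∀ g ∈ G, 0 < g.natDegree) :
    ∀ x ∈ cyc E G, IsIntegral ℤ x := by
  classical
  intro x hx
  unfold cyc at hx
  rw [Multiset.mem_sum] at hx
  obtain ⟨g, hg, hx⟩ := hx
  exact integral_nthRoots _ (hG g hg) x hx

theorem red_cyc {k : Type} [Field k] [CharP k 2] (θ : (integralClosure ℤ E).toSubring →+* k)
    (G : Finset κ[X]) (hG : ∀ g ∈ G, 0 < g.natDegree) :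
    red θ (cyc E G) =
      (1 - X) ^ G.card * (∏ g ∈ G, geo g.natDegree).map (ZMod.castHom (dvd_refl 2) k) := by
  classical
  unfold cyc
  induction G using Finset.induction_on with
  | empty => simp
  | insert g G hg ih =>
    rw [Finset.sum_insert hg, red_add, red_nthRoots θ _ (hG g (mem_insert_self g G)),
      ih fun g' hg' => hG g' (mem_insert_of_mem hg'), Finset.prod_insert hg,
      Finset.card_insert_of_notMem hg, Polynomial.map_mul]
    have h1 := congrArg (Polynomial.map (ZMod.castHom (dvd_refl 2) k)) (geo_mul g.natDegree)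
    simp only [Polynomial.map_mul, Polynomial.map_sub, Polynomial.map_one, map_X,
      Polynomial.map_pow] at h1
    rw [← h1]
    ring

open Classical in
/-- The eigenvalues belonging to the zeros on the projective line of a form of degree `m`. -/
noncomputable def cycLine (E : Type) [Field E] (m : ℕ) (b : κ[X]) (G : Finset κ[X]) : Multiset E :=
  cyc E G + if b.coeff m = 0 then {1} else 0

open Classical in
/-- The number of zeros on the projective line (as closed points). -/
noncomputable def numLine (m : ℕ) (b : κ[X]) (G : Finset κ[X]) : ℕ :=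
  G.card + if b.coeff m = 0 then 1 else 0

theorem sum_cycLine {m : ℕ} {b : κ[X]} {u : κ} (hu : u ≠ 0)
    (G : Finset κ[X]) (hG : ∀ g ∈ G, g.Monic ∧ Irreducible g) (e : κ[X] → ℕ)
    (he : ∀ g ∈ G, 0 < e g) (hb : b = C u * ∏ g ∈ G, g ^ e g)
    (L : Type) [Field L] [Fintype L] [Algebra κ L] :
    ((Nat.card {t : Option L // formValue L m b t = 0} : ℕ) : E) =
      ((cycLine E m b G).map fun x => x ^ Module.finrank κ L).sum := by
  classical
  have hpos : ∀ g ∈ G, 0 < g.natDegree := fun g hg => (hG g hg).2.natDegree_pos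
  rw [card_zeros_line hu G hG e he hb L]
  unfold cycLine
  rw [Multiset.map_add, Multiset.sum_add, sum_cyc G hpos]
  push_cast
  congr 1
  by_cases h : b.coeff m = 0
  · rw [if_pos h, if_pos h]
    simp
  · rw [if_neg h, if_neg h]
    simp

theorem integral_cycLine (m : ℕ) (b : κ[X]) (G : Finset κ[X]) (hG : ∀ g ∈ G, 0 < g.natDegree) :
    ∀ x ∈ cycLine E m b G, IsIntegral ℤ x := by
  classical
  intro x hx
  unfold cycLine at hx
  rw [Multiset.mem_add] at hx
  rcases hx with hx | hx
  · exact integral_cyc G hG x hx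
  · by_cases h : b.coeff m = 0
    · rw [if_pos h, Multiset.mem_singleton] at hx
      rw [hx]
      exact isIntegral_one
    · rw [if_neg h] at hx
      exact absurd hx (Multiset.notMem_zero x)

theorem red_cycLine {k : Type} [Field k] [CharP k 2] (θ : (integralClosure ℤ E).toSubring →+* k)
    (m : ℕ) (b : κ[X]) (G : Finset κ[X]) (hG : ∀ g ∈ G, 0 < g.natDegree) :
    red θ (cycLine E m b G) = (1 - X) ^ numLine m b G *
      (∏ g ∈ G, geo g.natDegree).map (ZMod.castHom (dvd_refl 2) k) := by
  classical
  unfold cycLine numLine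
  rw [red_add, red_cyc θ G hG]
  by_cases h : b.coeff m = 0
  · rw [if_pos h, if_pos h, red_singleton, th_one, C_1, one_mul, pow_succ]
    ring
  · rw [if_neg h, if_neg h, red_zero, mul_one, add_zero]

/-- The product of the geometric sums is squarefree. -/
theorem prod_squarefree {ι : Type} (I : Finset ι) (m : ι → ℕ) (hm : ∀ i ∈ I, Odd (m i))
    (hcop : ∀ i ∈ I, ∀ j ∈ I, i ≠ j → Nat.Coprime (m i) (m j)) :
    Squarefree (∏ i ∈ I, geo (m i)) := by
  classical
  induction I using Finset.induction_on with
  | empty => simp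
  | insert i I hi ih =>
    rw [Finset.prod_insert hi]
    have h1 := ih (fun j hj => hm j (mem_insert_of_mem hj))
      (fun j hj l hl => hcop j (mem_insert_of_mem hj) l (mem_insert_of_mem hl))
    have h2 := geo_squarefree (m i) (hm i (mem_insert_self i I))
    have h3 : IsCoprime (geo (m i)) (∏ j ∈ I, geo (m j)) := by
      refine IsCoprime.prod_right fun j hj => ?_
      refine geo_coprime (hm i (mem_insert_self i I)) (hcop i (mem_insert_self i I) j
        (mem_insert_of_mem hj) ?_)
      rintro rfl
      exact hi hj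
    exact (squarefree_mul_iff).2 ⟨h3.isRelPrime, h2, h1⟩

theorem prod_eval {ι : Type} (I : Finset ι) (m : ι → ℕ) (hm : ∀ i ∈ I, Odd (m i)) :
    (∏ i ∈ I, geo (m i)).eval 1 = 1 := by
  rw [eval_prod]
  exact Finset.prod_eq_one fun i hi => geo_eval _ (hm i hi)

end Pool.Agent.U273.FS
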