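import Mathlib
import Pool.Agent.U273.FS.Two

/-!
# Elliptic surfaces with a section of order two: main theorem
-/

set_option autoImplicit false
set_option linter.unusedSectionVars false

namespace Pool.Agent.U273.FS

open Finset Polynomial Module Pool.Agent.W528.HS

variable {κ : Type} [Field κ] [Fintype κ] {E : Type} [Field E] [CharZero E] [IsAlgClosed E]

open Classical in
/-- The sum of the values of the quadratic character at the values of the discriminant. -/
noncomputable def discSum (S : Weierstrass κ) (L : Type) [Field L] [Fintype L] [Algebra κ L] : ℤ :=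
  ∑ t : Option L, quadraticChar L (formValue L (4 * S.d) (S.a₂ ^ 2 - 4 * S.a₄) t)

/-- The number of points with nonzero cubic polynomial. -/
theorem card_open (h2 : ringChar κ ≠ 2) (S : Weierstrass κ) (h6 : S.a₆ = 0) (L : Type) [Field L]
    [Fintype L] [Algebra κ L] :
    ((Nat.card {v : Option L × L // S.cubic L v.1 v.2 ≠ 0} : ℕ) : ℤ) =
      ((Fintype.card L : ℤ) + 1) * ((Fintype.card L : ℤ) - 2) - discSum S L +
        (Nat.card {t : Option L // formValue L (4 * S.d) S.a₄ t = 0} : ℕ) := by
  classical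
  have hL : ringChar L ≠ 2 := by
    have h3 : ringChar L = ringChar κ := (Algebra.ringChar_eq κ L).symm
    rw [h3]
    exact h2
  rw [Nat.card_eq_fintype_card, Fintype.card_subtype, Nat.card_eq_fintype_card,
    Fintype.card_subtype, Finset.card_filter, Fintype.sum_prod_type]
  have h1 : ∀ t : Option L, ((∑ x : L, if S.cubic L t x ≠ 0 then 1 else 0 : ℕ) : ℤ) =
      ((Fintype.card L : ℤ) - 2) -
        quadraticChar L (formValue L (4 * S.d) (S.a₂ ^ 2 - 4 * S.a₄) t) +
        if formValue L (4 * S.d) S.a₄ t = 0 then 1 else 0 := by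
    intro t
    rw [← Finset.card_filter, formValue_disc S.degree₂]
    rw [← card_fibre hL (formValue L (2 * S.d) S.a₂ t) (formValue L (4 * S.d) S.a₄ t)]
    have h3 : formValue L (6 * S.d) S.a₆ t = 0 := by
      rw [h6]
      cases t <;> simp [formValue]
    congr 2
    ext x
    rw [mem_filter, mem_filter]
    unfold Weierstrass.cubic
    rw [h3]
  rw [Nat.cast_sum, Finset.sum_congr rfl fun t _ => h1 t, Finset.sum_add_distrib,
    Finset.sum_sub_distrib, Finset.sum_const, Finset.card_univ, Fintype.card_option]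
  have h4 : ((univ.filter fun t : Option L => formValue L (4 * S.d) S.a₄ t = 0).card : ℤ) =
      ∑ t : Option L, if formValue L (4 * S.d) S.a₄ t = 0 then (1 : ℤ) else 0 := by
    rw [Finset.card_filter]
    push_cast
    rfl
  rw [h4]
  have h5 : discSum S L =
      ∑ t : Option L, quadraticChar L (formValue L (4 * S.d) (S.a₂ ^ 2 - 4 * S.a₄) t) := by
    unfold discSum
    refine Finset.sum_congr rfl fun t _ => ?_
    congr
  rw [h5]
  simp only [nsmul_eq_mul]
  push_cast
  ring

/-- The form of degree `m` on the projective line given by `b` is a nonzero constant times a product of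
powers of the monic irreducible polynomials `g ∈ G`, which have odd pairwise coprime degrees; it may
also vanish at infinity, if the degree of `b` is smaller than `m`. -/
def IsFactored (b : κ[X]) (G : Finset κ[X]) : Prop :=
  (∀ g ∈ G, g.Monic ∧ Irreducible g ∧ Odd g.natDegree) ∧
  (∀ g ∈ G, ∀ h ∈ G, g ≠ h → Nat.Coprime g.natDegree h.natDegree) ∧
  ∃ u : κ, u ≠ 0 ∧ ∃ e : κ[X] → ℕ, (∀ g ∈ G, 0 < e g) ∧ b = C u * ∏ g ∈ G, g ^ e g

/-- The double covering `z ^ 2 = a₂ ^ 2 - 4 a₄` of the projective line has the eigenvalues `B₁`, `B₂`. -/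
def HasEigenvalues (S : Weierstrass κ) (B₁ B₂ : Multiset E) : Prop :=
  (∀ x ∈ B₁, IsIntegral ℤ x) ∧ (∀ x ∈ B₂, IsIntegral ℤ x) ∧
    ∀ (L : Type) [Field L] [Fintype L] [Algebra κ L],
      (discSum S L : E) =
        powerSum B₁ (Module.finrank κ L) - powerSum B₂ (Module.finrank κ L)

/-- **Elliptic surfaces with a section of order two.** -/
theorem twoTorsion (h2 : ringChar κ ≠ 2) (S : Weierstrass κ) (h6 : S.a₆ = 0)
    (G G' : Finset κ[X]) (hfG : IsFactored S.a₄ G)
    (hfG' : IsFactored (S.a₂ ^ 2 - 4 * S.a₄) G')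
    (hcc : ∀ g ∈ G, ∀ h ∈ G', Nat.Coprime g.natDegree h.natDegree)
    (hcard : numLine (4 * S.d) S.a₄ G + numLine (4 * S.d) (S.a₂ ^ 2 - 4 * S.a₄) G' ≤ 6)
    (B₁ B₂ : Multiset E) (hB : HasEigenvalues S B₁ B₂)
    (D : SecondCohomology S E) : D.FrobeniusIsSemisimple := by
  classical
  obtain ⟨hfG1, hc, u, hu, e, he, hbG⟩ := hfG
  obtain ⟨hfG1', hc', v, hv, e', he', hΔG⟩ := hfG'
  have hG : ∀ g ∈ G, g.Monic ∧ Irreducible g := fun g hg => ⟨(hfG1 g hg).1, (hfG1 g hg).2.1⟩
  have hG' : ∀ g ∈ G', g.Monic ∧ Irreducible g := fun g hg => ⟨(hfG1' g hg).1, (hfG1' g hg).2.1⟩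
  have hodd : ∀ g ∈ G, Odd g.natDegree := fun g hg => (hfG1 g hg).2.2
  have hodd' : ∀ g ∈ G', Odd g.natDegree := fun g hg => (hfG1' g hg).2.2
  obtain ⟨hB₁, hB₂, hBD'⟩ := hB
  have hBD : ∀ (L : Type) [Field L] [Fintype L] [Algebra κ L],
      (discSum S L : E) = (B₁.map fun x => x ^ Module.finrank κ L).sum -
        (B₂.map fun x => x ^ Module.finrank κ L).sum := fun L _ _ _ => hBD' L
  obtain ⟨k, _, _, ⟨θ⟩⟩ := Pool.Agent.W804.HS.RD.main E 2 Nat.prime_two
  obtain ⟨a, ha⟩ := surface h2 S
  obtain ⟨a', ha'⟩ := line h2 (4 * S.d) (S.a₂ ^ 2 - 4 * S.a₄)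
  have hsum := roots_sum D (fun L _ _ _ => (ha L).1 E)
  have hint : ∀ x ∈ D.frobW.charpoly.roots, IsIntegral ℤ x := by
    refine integral_roots (N := 2) (μ := (-1 : E)) (by norm_num) (by norm_num) a _ 1 (Or.inl rfl) ?_
    intro n hn
    rw [hsum n hn]
    simp
  have hGpos : ∀ g ∈ G, 0 < g.natDegree := fun g hg => (hG g hg).2.natDegree_pos
  have hGpos' : ∀ g ∈ G', 0 < g.natDegree := fun g hg => (hG' g hg).2.natDegree_pos
  have hqn : ∀ j : ℕ, IsIntegral ℤ ((Fintype.card κ : E) ^ j) := by
    intro j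
    have := isIntegral_int (E := E) ((Fintype.card κ : ℤ) ^ j)
    push_cast at this
    exact this
  have hthq : ∀ j : ℕ, th θ ((Fintype.card κ : E) ^ j) = 1 := by
    intro j
    have h5 : Odd ((Fintype.card κ : ℤ) ^ j) := by
      have := odd_card h2
      exact (by exact_mod_cast this : Odd ((Fintype.card κ : ℕ) : ℤ)).pow
    have h6 := th_odd θ (E := E) h5
    push_cast at h6
    exact h6
  have h10 : (1 - X : k[X]) ≠ 0 := by
    intro h
    have h2 := congrArg (fun P => P.eval 0) h
    simp at h2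
  -- the zeros
  have hzero : ∀ (L : Type) [Field L] [Fintype L] [Algebra κ L],
      ((Nat.card {t : Option L // formValue L (4 * S.d) S.a₄ t = 0} : ℕ) : E) =
        ((cycLine E (4 * S.d) S.a₄ G).map fun x => x ^ Module.finrank κ L).sum := by
    intro L _ _ _
    exact sum_cycLine hu G hG e he hbG L
  have hzero' : ∀ (L : Type) [Field L] [Fintype L] [Algebra κ L],
      ((Nat.card {t : Option L // formValue L (4 * S.d) (S.a₂ ^ 2 - 4 * S.a₄) t = 0} : ℕ) : E) =
        ((cycLine E (4 * S.d) (S.a₂ ^ 2 - 4 * S.a₄) G').map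
          fun x => x ^ Module.finrank κ L).sum := by
    intro L _ _ _
    exact sum_cycLine hv G' hG' e' he' hΔG L
  -- the double covering of the line
  have hred' := congruence θ (N := 2) (μ := (-1 : E)) (by norm_num) (by norm_num)
    (th_root θ (s := 1) Nat.prime_two (by norm_num)) a'
    B₁ B₂ ({(Fintype.card κ : E) ^ 1} + {(Fintype.card κ : E) ^ 0})
    (cycLine E (4 * S.d) (S.a₂ ^ 2 - 4 * S.a₄) G') hB₁ hB₂
    (by
      intro x hx
      rw [Multiset.mem_add, Multiset.mem_singleton, Multiset.mem_singleton] at hx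
      rcases hx with rfl | rfl <;> exact hqn _)
    (integral_cycLine _ _ G' hGpos')
    (by
      intro n hn
      obtain ⟨L, _, _, _, hL⟩ := exists_ext κ n hn
      have h1 := (ha' L).1 E
      rw [hL] at h1
      rw [← h1]
      have h3 := hBD L
      rw [hL] at h3
      exact h3)
    (by
      intro n hn
      obtain ⟨L, _, _, _, hL⟩ := exists_ext κ n hn
      have h1 := (ha' L).2 E
      have h3 := card_compl
        (fun t : Option L => formValue L (4 * S.d) (S.a₂ ^ 2 - 4 * S.a₄) t = 0)
      have h4 : ((Nat.card {t : Option L // formValue L (4 * S.d) (S.a₂ ^ 2 - 4 * S.a₄) t = 0} :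
          ℕ) : E) + ((Nat.card {t : Option L //
            formValue L (4 * S.d) (S.a₂ ^ 2 - 4 * S.a₄) t ≠ 0} : ℕ) : E) =
          (Fintype.card L : E) + 1 := by
        rw [Fintype.card_option] at h3
        exact_mod_cast h3
      rw [hzero' L, card_eq (κ := κ) (E := E) L, hL] at h4
      rw [hL] at h1
      rw [← h1, Multiset.map_add, Multiset.sum_add, Multiset.map_singleton, Multiset.sum_singleton,
        Multiset.map_singleton, Multiset.sum_singleton, pow_one, pow_zero, one_pow]
      linear_combination h4)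
  rw [red_add, red_singleton, red_singleton, hthq, hthq, C_1, one_mul,
    red_cycLine θ _ _ G' hGpos'] at hred'
  -- the surface
  have hred := congruence θ (N := 2) (μ := (-1 : E)) (by norm_num) (by norm_num)
    (th_root θ (s := 1) Nat.prime_two (by norm_num)) a
    D.frobW.charpoly.roots 0
    ({(Fintype.card κ : E) ^ 2} + (B₂ + cycLine E (4 * S.d) S.a₄ G))
    ({(Fintype.card κ : E) ^ 1} + ({(Fintype.card κ : E) ^ 0} +
      ({(Fintype.card κ : E) ^ 0} + B₁)))
    hint (by simp)
    (by
      intro x hx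
      rw [Multiset.mem_add, Multiset.mem_add, Multiset.mem_singleton] at hx
      rcases hx with rfl | hx | hx
      · exact hqn _
      · exact hB₂ x hx
      · exact integral_cycLine _ _ G hGpos x hx)
    (by
      intro x hx
      simp only [Multiset.mem_add, Multiset.mem_singleton] at hx
      rcases hx with rfl | rfl | rfl | hx
      · exact hqn _
      · exact hqn _
      · exact hqn _
      · exact hB₁ x hx)
    (by
      intro n hn
      rw [hsum n hn]
      simp)
    (by
      intro n hn
      obtain ⟨L, _, _, _, hL⟩ := exists_ext κ n hn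
      have h1 := (ha L).2 E
      have h3 := card_open h2 S h6 L
      have h4 : ((Nat.card {v : Option L × L // S.cubic L v.1 v.2 ≠ 0} : ℕ) : E) =
          ((Fintype.card L : E) + 1) * ((Fintype.card L : E) - 2) - (discSum S L : E) +
          ((Nat.card {t : Option L // formValue L (4 * S.d) S.a₄ t = 0} : ℕ) : E) := by
        have := congrArg (Int.cast : ℤ → E) h3
        push_cast at this
        exact this
      rw [hzero L, hBD L, card_eq (κ := κ) (E := E) L, hL] at h4
      rw [hL] at h1
      rw [← h1, h4]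
      simp only [Multiset.map_add, Multiset.sum_add, Multiset.map_singleton,
        Multiset.sum_singleton, pow_one, pow_zero, one_pow]
      ring)
  rw [red_zero, mul_one, red_add, red_add, red_add, red_add, red_add, red_singleton,
    red_singleton, red_singleton, hthq, hthq, hthq, C_1, one_mul, red_cycLine θ _ _ G hGpos] at hred
  set ι : ZMod 2 →+* k := ZMod.castHom (dvd_refl 2) k with hι
  set r := numLine (4 * S.d) S.a₄ G with hr
  set r' := numLine (4 * S.d) (S.a₂ ^ 2 - 4 * S.a₄) G' with hr'
  set Q : (ZMod 2)[X] := (∏ g ∈ G, geo g.natDegree) * ∏ g ∈ G', geo g.natDegree with hQ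
  set A := red θ D.frobW.charpoly.roots with hA
  have hfin : (1 - X : k[X]) ^ 4 * A = (1 - X) ^ (r + r') * Q.map ι := by
    apply mul_left_cancel₀ h10
    apply mul_left_cancel₀ (red_ne_zero θ B₁)
    rw [hQ, Polynomial.map_mul, pow_add]
    have e1 : red θ B₁ * ((1 - X : k[X]) * ((1 - X) ^ 4 * A)) =
        (1 - X) ^ 2 * (A * ((1 - X) * ((1 - X) * ((1 - X) * red θ B₁)))) := by
      ring
    rw [e1, hred]
    linear_combination (-(1 - X : k[X]) * ((1 - X) ^ r *
      (∏ g ∈ G, geo g.natDegree).map ι)) * hred'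
  have hQ1 : Q.eval 1 = 1 := by
    rw [hQ, eval_mul, prod_eval G _ hodd, prod_eval G' _ hodd', mul_one]
  have hQ1' : (Q.map ι).eval 1 ≠ 0 := by
    have h1 : (Q.map ι).eval 1 = ι (Q.eval 1) := by
      rw [← map_one ι, eval_map, eval₂_at_apply]
    rw [h1, hQ1, map_one]
    exact one_ne_zero
  have hge : 4 ≤ r + r' := by
    by_contra hlt
    exact hQ1' (eval_of_dvd (by omega : r + r' < 4) ⟨A, hfin.symm⟩)
  obtain ⟨m, hm⟩ := Nat.exists_eq_add_of_le hge
  have hAeq : A = (1 - X) ^ m * Q.map ι := by
    rw [hm, pow_add, mul_assoc] at hfin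
    exact mul_left_cancel₀ (pow_ne_zero 4 h10) hfin
  have hQsq : Squarefree Q := by
    rw [hQ]
    refine (squarefree_mul_iff).2 ⟨?_, prod_squarefree G _ hodd hc, prod_squarefree G' _ hodd' hc'⟩
    refine IsCoprime.isRelPrime ?_
    refine IsCoprime.prod_left fun g hg => IsCoprime.prod_right fun h hh => ?_
    exact geo_coprime (hodd g hg) (hcc g hg h hh)
  refine semisimple_of_red h2 D θ hint ((1 - X) ^ m * Q) ?_ m (by omega) Q hQsq
    (by rw [hQ1]; exact one_ne_zero) rfl
  rw [← hA, hAeq]
  simp only [Polynomial.map_mul, Polynomial.map_pow, Polynomial.map_sub, Polynomial.map_one,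
    Polynomial.map_X, hι]

end Pool.Agent.U273.FS
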